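import Pool.Agent.Lib.MP_dbd176_an.Log

open Set Metric Filter Topology

namespace Pool.Agent.Lib.MP_dbd176_an

private theorem pb_glue {S U : Set ℂ} [DecidablePred (· ∈ U)] {a b : ℂ → ℂ} (ha : Continuous a)
    (hb : Continuous b) (h : ∀ z ∈ S, z ∈ frontier U → a z = b z) :
    ContinuousOn (fun z => if z ∈ U then a z else b z) S :=
  ContinuousOn.if (fun z hz => h z hz.1 hz.2) ha.continuousOn hb.continuousOn

private theorem pb_joined_comp {O : Set ℂ} (hO : IsOpen O) {p q : ℂ} (hp : p ∈ O)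
    (hq : q ∈ connectedComponentIn O p) : JoinedIn O p q :=
  ((hO.connectedComponentIn.isConnected_iff_isPathConnected.1
    (isConnected_connectedComponentIn_iff.2 hp)).joinedIn p (mem_connectedComponentIn hp) q
      hq).mono (connectedComponentIn_subset _ _)

private theorem pb_range {S : Set ℂ} {p q : ℂ} (h : JoinedIn S p q) :
    ∃ P, IsPreconnected P ∧ P ⊆ S ∧ p ∈ P ∧ q ∈ P := by
  obtain ⟨γ, hγ⟩ := h
  exact ⟨range γ, isPreconnected_range γ.continuous, by rintro _ ⟨t, rfl⟩; exact hγ t,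
    γ.source_mem_range, γ.target_mem_range⟩

private theorem pb_seg {u v z : ℂ} (h : z ∈ segment ℝ u v) :
    z.re ∈ uIcc u.re v.re ∧ z.im ∈ uIcc u.im v.im := by
  obtain ⟨s, t, hs, ht, hst, rfl⟩ := h
  constructor <;> rw [← segment_eq_uIcc]
  · exact ⟨s, t, hs, ht, hst, by simp⟩
  · exact ⟨s, t, hs, ht, hst, by simp⟩

private theorem pb_split {X V : Set ℂ} (hV : IsOpen V) (hd : Disjoint (frontier V) X) :
    X ∩ closure V ⊆ V := by
  intro z hz
  by_contra h
  exact disjoint_left.1 hd (by rw [hV.frontier_eq]; exact ⟨hz.2, h⟩) hz.1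

/-- Phragmen-Brouwer property of the plane. Suppose not; both `F i` are nonempty. Let `U` be the
path component of `p` in the open set `O = (F₁ ∪ F₂)ᶜ`, `W = O \ U` (both open),
`φ = d₁ / (d₁ + d₂)` with `d i = infDist z (F i)`, so `φ = 0` exactly on `F₁` and `φ = 1` exactly
on `F₂`. Let `σ z = φ z` on `U` and `- φ z` off `U`, and `g = exp (i π σ)`: it is continuous
(it equals `exp (i π φ)` on the closed set `Wᶜ` and `exp (-i π φ)` on the closed set `Uᶜ`), so
`g = exp l` with `l` continuous (`hasLog_univ`). On `F₂ᶜ` the function `i π σ` is continuous,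
on `F₁ᶜ` the function `i π φ` on `U`, `i π (2 - φ)` off `U` is continuous, and both are
logarithms of `g`. `log_sub_const` along the two given paths gives
`l p - i π φ p = l q + i π φ q` and `l p - i π φ p = l q - 2 π i + i π φ q`, absurd. -/
theorem phragmen_brouwer {F₁ F₂ : Set ℂ} (h₁ : IsClosed F₁) (h₂ : IsClosed F₂)
    (hd : Disjoint F₁ F₂) {p q : ℂ} (hp₁ : JoinedIn F₁ᶜ p q) (hp₂ : JoinedIn F₂ᶜ p q) :
    JoinedIn (F₁ ∪ F₂)ᶜ p q := by
  classical
  by_contra hn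
  have hO : IsOpen (F₁ ∪ F₂)ᶜ := (h₁.union h₂).isOpen_compl
  have hp : p ∈ (F₁ ∪ F₂)ᶜ := fun h => h.elim hp₁.source_mem hp₂.source_mem
  set U := connectedComponentIn (F₁ ∪ F₂)ᶜ p with hU
  have hpU : p ∈ U := mem_connectedComponentIn hp
  have hqU : q ∉ U := fun h => hn (pb_joined_comp hO hp h)
  have hfr : ∀ z ∈ frontier U, z ∈ F₁ ∪ F₂ := fun z hz => by
    by_contra h
    exact disjoint_left.1 (disjoint_frontier_comp hO p) hz h
  obtain ⟨φ, h0, h1, -⟩ := exists_continuous_zero_one_of_isClosed h₁ h₂ hd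
  set a : ℂ → ℂ := fun z => (φ z : ℂ) * (Real.pi * Complex.I) with ha
  have hac : Continuous a := by fun_prop
  have ha0 : ∀ z ∈ F₁, a z = 0 := fun z hz => by simp [ha, h0 hz]
  have ha1 : ∀ z ∈ F₂, a z = Real.pi * Complex.I := fun z hz => by simp [ha, h1 hz]
  have hg : Continuous fun z => if z ∈ U then Complex.exp (a z) else Complex.exp (-a z) := by
    rw [← continuousOn_univ]
    refine pb_glue (by fun_prop) (by fun_prop) fun z _ hz => ?_
    rcases hfr z hz with h | h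
    · simp [ha0 z h]
    · rw [ha1 z h, Complex.exp_neg, Complex.exp_pi_mul_I]; norm_num
  obtain ⟨l, hl, hle⟩ := hasLog_univ hg fun z => by split_ifs <;> exact Complex.exp_ne_zero _
  obtain ⟨P₁, hP₁, hs₁, hp1, hq1⟩ := pb_range hp₁
  obtain ⟨P₂, hP₂, hs₂, hp2, hq2⟩ := pb_range hp₂
  have e₂ := log_sub_const hP₂ (hl.mono (subset_univ _))
    (m := fun z => if z ∈ U then a z else -a z)
    (pb_glue hac hac.neg fun z hz hz' => by
      rw [ha0 z ((hfr z hz').resolve_right (hs₂ hz)), neg_zero])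
    (fun z _ => by rw [hle z trivial]; beta_reduce; split_ifs <;> rfl) hp2 hq2
  have e₁ := log_sub_const hP₁ (hl.mono (subset_univ _))
    (m := fun z => if z ∈ U then a z else 2 * Real.pi * Complex.I + -a z)
    (pb_glue hac (by fun_prop) fun z hz hz' => by
      rw [ha1 z ((hfr z hz').resolve_left (hs₁ hz))]; ring)
    (fun z _ => by
      rw [hle z trivial]
      beta_reduce
      split_ifs
      · rfl
      · rw [Complex.exp_add, Complex.exp_two_pi_mul_I, one_mul]) hp1 hq1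
  simp only [if_pos hpU, if_neg hqU] at e₁ e₂
  exact Complex.two_pi_I_ne_zero (by linear_combination e₁ - e₂)

/-- Let `Γ = (U₀ ∪ U₁)ᶜ` and `W i` the component of `p i` in `U₀ ∪ U₁` (its frontier lies in `Γ`
by `disjoint_frontier_comp`). Suppose all components of `Γ` are bounded and both `W i` are
unbounded. `bump_compact` with `K = Γ ∩ segment p₀ p₁` gives `V`; `F₁ = Γ ∩ closure V = Γ ∩ V` is
compact, `F₂ = Γ \ V` is closed and misses the segment; `p₀, p₁` are joined in `F₁ᶜ` through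
`W₀`, the outside of a big disc, and `W₁`. By `phragmen_brouwer` they are joined in `U₀ ∪ U₁`,
absurd. -/
theorem sep_dichotomy {U₀ U₁ : Set ℂ} (h₀ : IsOpen U₀) (h₁ : IsOpen U₁) (hd : Disjoint U₀ U₁)
    {p₀ p₁ : ℂ} (hp₀ : p₀ ∈ U₀) (hp₁ : p₁ ∈ U₁) :
    (∃ Γ, UC Γ ∧ Γ ⊆ (U₀ ∪ U₁)ᶜ) ∨
      ∃ V, IsOpen V ∧ Bornology.IsBounded V ∧ (p₀ ∈ V ∨ p₁ ∈ V) ∧ frontier V ⊆ (U₀ ∪ U₁)ᶜ := by
  by_contra hn
  obtain ⟨hA, hB⟩ := not_or.1 hn
  have hO : IsOpen (U₀ ∪ U₁) := h₀.union h₁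
  have hΓ : IsClosed (U₀ ∪ U₁)ᶜ := hO.isClosed_compl
  have hW : ∀ p ∈ U₀ ∪ U₁, p = p₀ ∨ p = p₁ →
      ¬ Bornology.IsBounded (connectedComponentIn (U₀ ∪ U₁) p) := fun p hp hpp hb =>
    hB ⟨_, hO.connectedComponentIn, hb,
      hpp.imp (fun e : p = p₀ => e ▸ mem_connectedComponentIn hp)
        (fun e : p = p₁ => e ▸ mem_connectedComponentIn hp),
      fun z hz => disjoint_left.1 (disjoint_frontier_comp hO p) hz⟩
  have hseg : IsCompact (segment ℝ p₀ p₁) := by
    rw [segment_eq_image]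
    exact isCompact_Icc.image (by fun_prop)
  obtain ⟨V, hV, hVb, hKV, -, hVd⟩ := bump_compact hΓ (hseg.inter_left hΓ) inter_subset_left
    isOpen_univ fun x _ => ⟨by
      by_contra hb
      exact hA ⟨_, uc_of_unbounded_comp hΓ hb, connectedComponentIn_subset _ _⟩, subset_univ _⟩
  obtain ⟨R, hR⟩ := hVb.closure.subset_ball (0 : ℂ)
  set τ := max (max R 0) (max ‖p₀‖ ‖p₁‖) with hτ
  obtain ⟨z₀, hz₀, hn₀⟩ := exists_mem_sphere isPreconnected_connectedComponentIn
    (hW p₀ (Or.inl hp₀) (Or.inl rfl)) (mem_connectedComponentIn (Or.inl hp₀)) (c := 0) (τ := τ)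
    (by simp [hτ])
  obtain ⟨z₁, hz₁, hn₁⟩ := exists_mem_sphere isPreconnected_connectedComponentIn
    (hW p₁ (Or.inr hp₁) (Or.inr rfl)) (mem_connectedComponentIn (Or.inr hp₁)) (c := 0) (τ := τ)
    (by simp [hτ])
  have hsub : U₀ ∪ U₁ ⊆ ((U₀ ∪ U₁)ᶜ ∩ closure V)ᶜ := fun z hz h => h.1 hz
  have hsph : JoinedIn ((U₀ ∪ U₁)ᶜ ∩ closure V)ᶜ z₀ z₁ := by
    refine ((isPathConnected_sphere (by simp) (0 : ℂ) (r := τ) (by simp [hτ])).joinedIn z₀
      (by simpa using hn₀) z₁ (by simpa using hn₁)).mono fun z hz h => ?_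
    have h1 := hR h.2
    rw [mem_ball_zero_iff] at h1
    rw [mem_sphere_zero_iff_norm] at hz
    exact absurd (hz ▸ h1) (not_lt.2 (by simp [hτ]))
  have hJ := phragmen_brouwer (hΓ.inter isClosed_closure) (hΓ.sdiff hV)
    (disjoint_left.2 fun z hz hz' => hz'.2 (pb_split hV hVd hz))
    ((((pb_joined_comp hO (Or.inl hp₀) hz₀).mono hsub).trans hsph).trans
      ((pb_joined_comp hO (Or.inr hp₁) hz₁).mono hsub).symm)
    (JoinedIn.of_segment_subset fun z hz h => h.2 (hKV ⟨h.1, hz⟩))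
  obtain ⟨P, hP, hPs, hp, hq⟩ := pb_range hJ
  have hPO : P ⊆ U₀ ∪ U₁ := fun z hz => by
    by_contra h
    by_cases hz' : z ∈ V
    · exact hPs hz (Or.inl ⟨h, subset_closure hz'⟩)
    · exact hPs hz (Or.inr ⟨h, hz'⟩)
  exact disjoint_left.1 hd (hP.subset_left_of_subset_union h₀ h₁ hd hPO ⟨p₀, hp, hp₀⟩ hq) hp₁

/-- A continuum of zeros joining the bottom and the top of a rectangle `Q`. Let
`X = Q ∩ {h = 0}` (compact, contains the bottom side `B` and the top side `T`). If the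
component of `B` in `X` missed `T`, `bump` (with `N = Tᶜ`) splits `X` into disjoint compact sets
`F₁ ⊇ B`, `F₂ ⊇ T`. Let `r` be the retraction of the plane on `Q` (clamp both coordinates),
and `p, q` the midpoints of the left and right sides. They are joined in `(r⁻¹ F₁)ᶜ` along
left side, top, right side, and in `(r⁻¹ F₂)ᶜ` along left side, bottom, right side. By
`phragmen_brouwer` they are joined by a path on which `h ∘ r ≠ 0`, against the signs. -/
theorem rect_connector {a b c d : ℝ} (hab : a < b) (hcd : c < d) {h : ℂ → ℝ} (hc : Continuous h)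
    (hbot : ∀ z : ℂ, z.im = c → a ≤ z.re → z.re ≤ b → h z = 0)
    (htop : ∀ z : ℂ, z.im = d → a ≤ z.re → z.re ≤ b → h z = 0)
    (hl : ∀ z : ℂ, z.re = a → c < z.im → z.im < d → h z < 0)
    (hr : ∀ z : ℂ, z.re = b → c < z.im → z.im < d → 0 < h z) :
    ∃ P : Set ℂ, IsCompact P ∧ IsPreconnected P ∧ (⟨a, c⟩ : ℂ) ∈ P ∧ (⟨a, d⟩ : ℂ) ∈ P ∧
      ∀ z ∈ P, a ≤ z.re ∧ z.re ≤ b ∧ c ≤ z.im ∧ z.im ≤ d ∧ h z = 0 := by
  set X : Set ℂ := {z | a ≤ z.re ∧ z.re ≤ b ∧ c ≤ z.im ∧ z.im ≤ d ∧ h z = 0} with hX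
  have hXc : IsClosed X :=
    (isClosed_le continuous_const Complex.continuous_re).inter
      ((isClosed_le Complex.continuous_re continuous_const).inter
        ((isClosed_le continuous_const Complex.continuous_im).inter
          ((isClosed_le Complex.continuous_im continuous_const).inter
            (isClosed_eq hc continuous_const))))
  have hXk : IsCompact X :=
    ((isCompact_Icc (a := a) (b := b)).reProdIm (isCompact_Icc (a := c) (b := d))).of_isClosed_subset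
      hXc fun z hz => ⟨⟨hz.1, hz.2.1⟩, hz.2.2.1, hz.2.2.2.1⟩
  have hBX : ∀ z : ℂ, z.im = c → a ≤ z.re → z.re ≤ b → z ∈ X := fun z h1 h2 h3 =>
    ⟨h2, h3, h1.ge, h1.le.trans hcd.le, hbot z h1 h2 h3⟩
  have hTX : ∀ z : ℂ, z.im = d → a ≤ z.re → z.re ≤ b → z ∈ X := fun z h1 h2 h3 =>
    ⟨h2, h3, hcd.le.trans h1.ge, h1.le, htop z h1 h2 h3⟩
  have hseg : ∀ (y : ℝ) (z w : ℂ), z.im = y → a ≤ z.re → z.re ≤ b →
      w ∈ segment ℝ (⟨a, y⟩ : ℂ) z → w.im = y ∧ a ≤ w.re ∧ w.re ≤ b := by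
    intro y z w h1 h2 h3 hw
    obtain ⟨k1, k2⟩ := pb_seg hw
    simp only [h1, uIcc_self, mem_singleton_iff] at k2
    simp only [uIcc_of_le h2] at k1
    exact ⟨k2, k1.1, k1.2.trans h3⟩
  have hac : (⟨a, c⟩ : ℂ) ∈ X := hBX _ rfl le_rfl hab.le
  set P := connectedComponentIn X ⟨a, c⟩ with hP
  have hPX : P ⊆ X := connectedComponentIn_subset _ _
  refine ⟨P, hXk.of_isClosed_subset (isClosed_connectedComponentIn hXc _) hPX,
    isPreconnected_connectedComponentIn, mem_connectedComponentIn hac, ?_, fun z hz => hPX hz⟩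
  by_contra hn
  have hBP : ∀ z : ℂ, z.im = c → a ≤ z.re → z.re ≤ b → z ∈ P := fun z h1 h2 h3 =>
    (convex_segment _ _).isPreconnected.subset_connectedComponentIn (left_mem_segment ℝ _ z)
      (fun w hw => by
        obtain ⟨k1, k2, k3⟩ := hseg c z w h1 h2 h3 hw
        exact hBX w k1 k2 k3) (right_mem_segment ℝ _ z)
  have hT : IsClosed {z : ℂ | z.im = d} := isClosed_eq Complex.continuous_im continuous_const
  obtain ⟨V, hV, -, hPV, hVT, hVd⟩ := bump hXc hac (hXk.isBounded.subset hPX) hT.isOpen_compl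
    fun z hz hzd => hn (by
      rw [hP, connectedComponentIn_eq hz]
      exact (convex_segment _ _).isPreconnected.subset_connectedComponentIn
        (right_mem_segment ℝ _ z) (fun w hw => by
          obtain ⟨k1, k2, k3⟩ := hseg d z w hzd (hPX hz).1 (hPX hz).2.1 hw
          exact hTX w k1 k2 k3) (left_mem_segment ℝ _ z))
  set r : ℂ → ℂ := fun z => ((max a (min b z.re) : ℝ) : ℂ) + ((max c (min d z.im) : ℝ) : ℂ) * Complex.I
    with hr'
  have hrc : Continuous r := by fun_prop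
  have hre : ∀ z, (r z).re = max a (min b z.re) := fun z => by simp [hr']
  have him : ∀ z, (r z).im = max c (min d z.im) := fun z => by simp [hr']
  have hrid : ∀ z : ℂ, a ≤ z.re → z.re ≤ b → c ≤ z.im → z.im ≤ d → r z = z := fun z h1 h2 h3 h4 =>
    Complex.ext (by rw [hre, min_eq_right h2, max_eq_right h1])
      (by rw [him, min_eq_right h4, max_eq_right h3])
  set m := (c + d) / 2 with hm
  have hcm : c < m := by linarith
  have hmd : m < d := by linarith
  have key : ∀ (F : Set ℂ) (y : ℝ), F ⊆ X → c ≤ y → y ≤ d →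
      (∀ z ∈ F, z.im ≠ y) → (∀ t ∈ uIcc m y, t ≠ y → c < t ∧ t < d) →
      JoinedIn (r ⁻¹' F)ᶜ ⟨a, m⟩ ⟨b, m⟩ := by
    intro F y hF hcy hyd hy ht
    have side : ∀ x : ℝ, x = a ∨ x = b → JoinedIn (r ⁻¹' F)ᶜ ⟨x, m⟩ ⟨x, y⟩ := by
      intro x hx
      refine JoinedIn.of_segment_subset fun z hz hzF => ?_
      obtain ⟨k1, k2⟩ := pb_seg hz
      simp only [uIcc_self, mem_singleton_iff] at k1
      have k3 := uIcc_subset_Icc (⟨hcm.le, hmd.le⟩ : m ∈ Icc c d) ⟨hcy, hyd⟩ k2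
      rw [mem_preimage, hrid z (by rcases hx with e | e <;> linarith)
        (by rcases hx with e | e <;> linarith) k3.1 k3.2] at hzF
      obtain ⟨k4, k5⟩ := ht _ k2 (hy z hzF)
      have k6 := (hF hzF).2.2.2.2
      rcases hx with e | e
      · exact (hl z (k1.trans e) k4 k5).ne k6
      · exact (hr z (k1.trans e) k4 k5).ne' k6
    refine ((side a (Or.inl rfl)).trans (JoinedIn.of_segment_subset fun z hz hzF => ?_)).trans
      (side b (Or.inr rfl)).symm
    obtain ⟨k1, k2, k3⟩ := hseg y ⟨b, y⟩ z rfl hab.le le_rfl hz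
    rw [mem_preimage, hrid z k2 k3 (k1 ▸ hcy) (k1 ▸ hyd)] at hzF
    exact hy z hzF k1
  have hJ := phragmen_brouwer ((hXc.inter isClosed_closure).preimage hrc)
    ((hXc.sdiff hV).preimage hrc)
    (disjoint_left.2 fun z hz hz' => hz'.2 (pb_split hV hVd hz))
    (key (X ∩ closure V) d inter_subset_left hcd.le le_rfl
      (fun z hz => hVT (pb_split hV hVd hz)) fun t ht hne => by
        rw [uIcc_of_le hmd.le] at ht
        exact ⟨hcm.trans_le ht.1, lt_of_le_of_ne ht.2 hne⟩)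
    (key (X \ V) c sdiff_subset le_rfl hcd.le
      (fun z hz e => hz.2 (hPV (hBP z e hz.1.1 hz.1.2.1))) fun t ht hne => by
        rw [uIcc_of_ge hcm.le] at ht
        exact ⟨lt_of_le_of_ne ht.1 hne.symm, ht.2.trans_lt hmd⟩)
  obtain ⟨Q, hQ, hQs, hp, hq⟩ := pb_range hJ
  obtain ⟨z, hz, hz0⟩ := hQ.intermediate_value hp hq (hc.comp hrc).continuousOn
    (show (0 : ℝ) ∈ Icc (h (r ⟨a, m⟩)) (h (r ⟨b, m⟩)) by
      rw [hrid _ le_rfl hab.le hcm.le hmd.le, hrid _ hab.le le_rfl hcm.le hmd.le]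
      exact ⟨(hl _ rfl hcm hmd).le, (hr _ rfl hcm hmd).le⟩)
  have hzX : r z ∈ X := by
    refine ⟨?_, ?_, ?_, ?_, hz0⟩
    · rw [hre]; exact le_max_left _ _
    · rw [hre]; exact max_le hab.le (min_le_left _ _)
    · rw [him]; exact le_max_left _ _
    · rw [him]; exact max_le hcd.le (min_le_left _ _)
  by_cases hz' : r z ∈ V
  · exact hQs hz (Or.inl ⟨hzX, subset_closure hz'⟩)
  · exact hQs hz (Or.inr ⟨hzX, hz'⟩)

end Pool.Agent.Lib.MP_dbd176_an
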