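import Pool.Agent.Lib.MP_dbd176_an.BDyn
import Pool.Agent.Lib.MP_dbd176_an.PB

open Set Metric Filter Topology

namespace Pool.Agent.Lib.MP_dbd176_an

theorem bconf_ivt {P : Set ℂ} (hP : IsPreconnected P) {g : ℂ → ℝ} (hg : Continuous g) {a b : ℂ}
    (ha : a ∈ P) (hb : b ∈ P) {c : ℝ} (h₁ : g a ≤ c) (h₂ : c ≤ g b) : ∃ u ∈ P, g u = c :=
  hP.intermediate_value ha hb hg.continuousOn ⟨h₁, h₂⟩

theorem bconf_sign {P : Set ℂ} (hP : IsPreconnected P) {g : ℂ → ℝ} (hg : Continuous g)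
    (h0 : ∀ u ∈ P, g u ≠ 0) {a b : ℂ} (ha : a ∈ P) (hb : b ∈ P) : 0 < g a * g b := by
  rcases lt_or_gt_of_ne (h0 a ha) with h | h <;> rcases lt_or_gt_of_ne (h0 b hb) with h' | h'
  · exact mul_pos_of_neg_of_neg h h'
  · obtain ⟨u, hu, e⟩ := bconf_ivt hP hg ha hb h.le h'.le
    exact absurd e (h0 u hu)
  · obtain ⟨u, hu, e⟩ := bconf_ivt hP hg hb ha h'.le h.le
    exact absurd e (h0 u hu)
  · exact mul_pos h h'

theorem bconf_period (a c : ℝ) : ∃ t, a ≤ t ∧ t ≤ a + 2 * Real.pi ∧ Real.sin t = Real.sin c := by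
  have hp : 0 < 2 * Real.pi := by positivity
  refine ⟨c + (⌈(a - c) / (2 * Real.pi)⌉ : ℤ) * (2 * Real.pi), ?_, ?_, Real.sin_add_int_mul_two_pi _ _⟩
  · have h := Int.le_ceil ((a - c) / (2 * Real.pi))
    rw [div_le_iff₀ hp] at h
    linarith
  · have h := (Int.ceil_lt_add_one ((a - c) / (2 * Real.pi))).le
    have h2 : ((⌈(a - c) / (2 * Real.pi)⌉ : ℤ) : ℝ) * (2 * Real.pi) ≤
        ((a - c) / (2 * Real.pi) + 1) * (2 * Real.pi) := by gcongr
    rw [add_mul, div_mul_cancel₀ _ hp.ne'] at h2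
    linarith

theorem bconf_sin_three : Real.sin (3 * Real.pi / 2) = -1 := by
  have : 3 * Real.pi / 2 = Real.pi / 2 + Real.pi := by ring
  rw [this, Real.sin_add_pi, Real.sin_pi_div_two]

theorem bconf_not_both {P : Set ℂ} (hP : IsPreconnected P) (hl : ∀ z ∈ P, ¬ OnLine z)
    (hs : (∀ z ∈ P, 0 ≤ (fb z).im) ∨ ∀ z ∈ P, (fb z).im ≤ 0) {a b : ℂ} (ha : a ∈ P)
    (hb : b ∈ P) (h₁ : Real.sin (yy a) = 1) (h₂ : Real.sin (yy b) = -1) : False := by
  have hx : ∀ u ∈ P, xx u ≠ 0 := fun u hu h => hl u hu (by unfold OnLine; rw [h, zero_mul])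
  have e₁ := im_fb_sign (z := a) (by rw [h₁]; norm_num) (hx a ha)
  have e₂ := im_fb_sign (z := b) (by rw [h₂]; norm_num) (hx b hb)
  rw [h₁] at e₁
  rw [h₂] at e₂
  have e₃ := bconf_sign hP continuous_xx hx ha hb
  have e₄ : 0 ≤ (fb a).im * (fb b).im := by
    rcases hs with hs | hs
    · exact mul_nonneg (hs a ha) (hs b hb)
    · exact mul_nonneg_of_nonpos_of_nonpos (hs a ha) (hs b hb)
  have e₅ := mul_pos e₁ e₂
  have e₆ := mul_nonneg e₄ e₃.le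
  nlinarith

theorem bconf_yy_le {P : Set ℂ} (hP : IsPreconnected P) (hl : ∀ z ∈ P, ¬ OnLine z)
    (hs : (∀ z ∈ P, 0 ≤ (fb z).im) ∨ ∀ z ∈ P, (fb z).im ≤ 0) {w z : ℂ} (hw : w ∈ P)
    (hz : z ∈ P) : yy z - yy w ≤ 2 * Real.pi := by
  by_contra hc
  push Not at hc
  obtain ⟨t₁, a₁, b₁, c₁⟩ := bconf_period (yy w) (Real.pi / 2)
  obtain ⟨t₂, a₂, b₂, c₂⟩ := bconf_period (yy w) (3 * Real.pi / 2)
  obtain ⟨u₁, hu₁, e₁⟩ := bconf_ivt hP continuous_yy hw hz a₁ (by linarith)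
  obtain ⟨u₂, hu₂, e₂⟩ := bconf_ivt hP continuous_yy hw hz a₂ (by linarith)
  exact bconf_not_both hP hl hs hu₁ hu₂ (by rw [e₁, c₁, Real.sin_pi_div_two])
    (by rw [e₂, c₂, bconf_sin_three])

/-- Confinement. On `P` the functions `x`, `y` have constant signs. By `im_fb_sign`, `sin y`
omits one of the values `1`, `-1` on `P`, so `y` omits a class `y₀ + 2 π ℤ` with
`y₀ ∈ {π / 2, 3 π / 2}`. If `Re w ≥ 0` and `Re z < -2`, then `P` meets both lines `Re = 0` and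
`Re = -2`, where `Im fb = x y G` has opposite strict signs. -/
theorem conf {P : Set ℂ} (hP : IsPreconnected P) (hl : ∀ z ∈ P, ¬ OnLine z)
    (hs : (∀ z ∈ P, 0 ≤ (fb z).im) ∨ ∀ z ∈ P, (fb z).im ≤ 0) {w z : ℂ} (hw : w ∈ P)
    (hz : z ∈ P) : SameStrip w z ∧ |yy z - yy w| ≤ 2 * Real.pi ∧
      (3 * Real.pi / 2 < yy w → Real.pi / 2 ≤ yy z) ∧ (0 ≤ w.re → -2 ≤ z.re) := by
  refine ⟨fun j => ⟨fun h => ?_, fun h => ?_⟩, ?_, fun h => ?_, fun h => ?_⟩
  · by_contra hc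
    push Not at hc
    obtain ⟨u, hu, e⟩ := bconf_ivt hP Complex.continuous_im hz hw hc.le h
    exact hl u hu (onLine_iff.2 ⟨j, e⟩)
  · by_contra hc
    push Not at hc
    obtain ⟨u, hu, e⟩ := bconf_ivt hP Complex.continuous_im hw hz h hc.le
    exact hl u hu (onLine_iff.2 ⟨j, e⟩)
  · rw [abs_le]
    exact ⟨by linarith [bconf_yy_le hP hl hs hz hw], bconf_yy_le hP hl hs hw hz⟩
  · by_contra hc
    push Not at hc
    have hpi := Real.pi_pos
    obtain ⟨u₁, hu₁, e₁⟩ := bconf_ivt hP continuous_yy hz hw hc.le (by linarith)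
    obtain ⟨u₂, hu₂, e₂⟩ := bconf_ivt hP continuous_yy hz hw (c := 3 * Real.pi / 2)
      (by linarith) h.le
    exact bconf_not_both hP hl hs hu₁ hu₂ (by rw [e₁, Real.sin_pi_div_two])
      (by rw [e₂, bconf_sin_three])
  · by_contra hc
    push Not at hc
    obtain ⟨u₁, hu₁, e₁⟩ := bconf_ivt hP Complex.continuous_re hz hw hc.le (by linarith)
    obtain ⟨u₂, hu₂, e₂⟩ := bconf_ivt hP Complex.continuous_re hz hw (c := 0) (by linarith) h
    have g₁ := GG_neg_left e₁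
    have g₂ := GG_pos_right e₂
    have e₃ := bconf_sign hP (continuous_xx.mul continuous_yy) hl hu₁ hu₂
    have e₄ : 0 ≤ (fb u₁).im * (fb u₂).im := by
      rcases hs with hs | hs
      · exact mul_nonneg (hs _ hu₁) (hs _ hu₂)
      · exact mul_nonneg_of_nonpos_of_nonpos (hs _ hu₁) (hs _ hu₂)
    rw [im_fb, im_fb] at e₄
    have e₅ := mul_neg_of_pos_of_neg e₃ (mul_neg_of_neg_of_pos g₁ g₂)
    simp only [Pi.mul_apply] at e₅
    nlinarith

/-- Components of the preimage of a compact set off the real axis: `conf` and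
`exists_bound_of_norm_le`. -/
theorem bounded_comp_one {K : Set ℂ} (hK : IsCompact K) (hK₀ : ∀ w ∈ K, w.im ≠ 0) (z : ℂ) :
    Bornology.IsBounded (connectedComponentIn (fb ⁻¹' K) z) ∧
      ∀ w ∈ connectedComponentIn (fb ⁻¹' K) z, w.im ≠ 0 := by
  have hsub := connectedComponentIn_subset (fb ⁻¹' K) z
  have him : ∀ u ∈ connectedComponentIn (fb ⁻¹' K) z, (fb u).im ≠ 0 :=
    fun u hu => hK₀ _ (hsub hu)
  have hl : ∀ u ∈ connectedComponentIn (fb ⁻¹' K) z, ¬ OnLine u := fun u hu h =>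
    him u hu (by rw [im_fb]; unfold OnLine at h; rw [h, zero_mul])
  refine ⟨?_, fun w hw h => hl w hw (onLine_iff.2 ⟨0, by simp [h]⟩)⟩
  by_cases hz : z ∈ fb ⁻¹' K
  swap
  · rw [connectedComponentIn_eq_empty hz]; exact Bornology.isBounded_empty
  have hzC := mem_connectedComponentIn hz
  have hP : IsPreconnected (connectedComponentIn (fb ⁻¹' K) z) :=
    isPreconnected_connectedComponentIn
  have hcont : Continuous fun u => (fb u).im :=
    Complex.continuous_im.comp differentiable_fb.continuous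
  have hs : (∀ u ∈ connectedComponentIn (fb ⁻¹' K) z, 0 ≤ (fb u).im) ∨
      ∀ u ∈ connectedComponentIn (fb ⁻¹' K) z, (fb u).im ≤ 0 := by
    rcases lt_or_gt_of_ne (him z hzC) with h | h
    · right
      intro u hu
      have := bconf_sign hP hcont him hzC hu
      by_contra hc
      push Not at hc
      nlinarith
    · left
      intro u hu
      have := bconf_sign hP hcont him hzC hu
      by_contra hc
      push Not at hc
      nlinarith
  obtain ⟨ρ, hρ⟩ := hK.isBounded.exists_norm_le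
  obtain ⟨T, hT⟩ := exists_bound_of_norm_le ρ
  have hpi := Real.pi_pos
  have hp2 : 0 < Real.pi / 2 := by positivity
  refine isBounded_iff_forall_norm_le.2
    ⟨(|T| + |yy z| + 2 * Real.pi) + (|z.im| + Real.pi / 2), fun u hu => ?_⟩
  obtain ⟨hst, hy, -, -⟩ := conf hP hl hs hzC hu
  obtain ⟨hT₁, hT₂⟩ := hT u (hρ _ (hsub hu))
  have hj₁ := Int.floor_le (z.im / (Real.pi / 2))
  have hj₂ := (Int.lt_floor_add_one (z.im / (Real.pi / 2))).le
  rw [le_div_iff₀ hp2] at hj₁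
  rw [div_le_iff₀ hp2] at hj₂
  have a₁ := (hst ⌊z.im / (Real.pi / 2)⌋).1 hj₁
  have a₂ := (hst (⌊z.im / (Real.pi / 2)⌋ + 1)).2 (by push_cast; exact hj₂)
  push_cast at a₂
  have b₁ : |u.im| ≤ |z.im| + Real.pi / 2 := by
    rw [abs_le]
    constructor
    · linarith [neg_abs_le z.im]
    · linarith [le_abs_self z.im]
  have b₂ : Real.exp u.re ≤ |xx u| + |yy u| := by
    rw [← Complex.norm_exp]
    exact Complex.norm_le_abs_re_add_abs_im _
  have b₃ : |yy u| ≤ |yy z| + 2 * Real.pi := by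
    have := abs_sub_abs_le_abs_sub (yy u) (yy z)
    linarith
  have b₄ := Real.add_one_le_exp u.re
  have b₅ : |u.re| ≤ |T| + |yy z| + 2 * Real.pi := by
    rw [abs_le]
    constructor
    · linarith [le_abs_self T, abs_nonneg (yy z)]
    · linarith [le_abs_self T]
  linarith [Complex.norm_le_abs_re_add_abs_im u]

/-- Induction on `n` for all `K`: the component `C` of `fb^[n + 1] ⁻¹' K` is mapped by `fb^[n]`
into a compact component `Q` of `fb ⁻¹' K`. -/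
theorem bounded_comp_iter (n : ℕ) {K : Set ℂ} (hK : IsCompact K) (hK₀ : ∀ w ∈ K, w.im ≠ 0)
    (z : ℂ) : Bornology.IsBounded (connectedComponentIn (fb^[n] ⁻¹' K) z) := by
  induction n generalizing K z with
  | zero => exact hK.isBounded.subset (connectedComponentIn_subset _ _)
  | succ n ih =>
    by_cases hz : z ∈ fb^[n + 1] ⁻¹' K
    swap
    · rw [connectedComponentIn_eq_empty hz]; exact Bornology.isBounded_empty
    have hzC := mem_connectedComponentIn hz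
    have hsub := connectedComponentIn_subset (fb^[n + 1] ⁻¹' K) z
    obtain ⟨hb, h0⟩ := bounded_comp_one hK hK₀ (fb^[n] z)
    have hQ : IsCompact (connectedComponentIn (fb ⁻¹' K) (fb^[n] z)) :=
      Metric.isCompact_of_isClosed_isBounded
        (isClosed_connectedComponentIn (hK.isClosed.preimage differentiable_fb.continuous) _) hb
    have hcont : Continuous fb^[n] := differentiable_fb.continuous.iterate n
    have h1 : fb^[n] '' connectedComponentIn (fb^[n + 1] ⁻¹' K) z ⊆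
        connectedComponentIn (fb ⁻¹' K) (fb^[n] z) := by
      refine (isPreconnected_connectedComponentIn.image _
        hcont.continuousOn).subset_connectedComponentIn ⟨z, hzC, rfl⟩ ?_
      rintro _ ⟨u, hu, rfl⟩
      have := hsub hu
      rw [mem_preimage, Function.iterate_succ_apply'] at this
      exact this
    refine (ih hQ h0 z).subset ?_
    exact isPreconnected_connectedComponentIn.subset_connectedComponentIn hzC
      fun u hu => h1 ⟨u, hu, rfl⟩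

theorem bconf_horiz {v : ℂ} (hv : OnLine v) (h : -2 ≤ v.re) :
    ∃ P : Set ℂ, IsCompact P ∧ IsPreconnected P ∧ v ∈ P ∧ (⟨-2, v.im⟩ : ℂ) ∈ P ∧
      ∀ z ∈ P, fb z ∈ TT ∧ -2 ≤ z.re ∧ z.re ≤ v.re ∧ z.im = v.im := by
  have hc : Continuous fun t : ℝ => (t : ℂ) + (v.im : ℂ) * Complex.I := by fun_prop
  refine ⟨(fun t : ℝ => (t : ℂ) + (v.im : ℂ) * Complex.I) '' Icc (-2) v.re,
    isCompact_Icc.image hc, isPreconnected_Icc.image _ hc.continuousOn,
    ⟨v.re, ⟨h, le_rfl⟩, Complex.re_add_im v⟩,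
    ⟨-2, ⟨le_rfl, h⟩, Complex.ext (by simp) (by simp)⟩, ?_⟩
  rintro _ ⟨t, ht, rfl⟩
  have e₁ : ((t : ℂ) + (v.im : ℂ) * Complex.I).re = t := by simp
  have e₂ : ((t : ℂ) + (v.im : ℂ) * Complex.I).im = v.im := by simp
  obtain ⟨j, hj⟩ := onLine_iff.1 hv
  have hm := fb_mem_of_onLine (z := (t : ℂ) + (v.im : ℂ) * Complex.I)
    (onLine_iff.2 ⟨j, by rw [e₂, hj]⟩) (by rw [e₁]; exact ht.1)
  refine ⟨⟨hm.1, by linarith [hm.2]⟩, ?_, ?_, e₂⟩
  · show -2 ≤ ((t : ℂ) + (v.im : ℂ) * Complex.I).re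
    rw [e₁]; exact ht.1
  · show ((t : ℂ) + (v.im : ℂ) * Complex.I).re ≤ v.re
    rw [e₁]; exact ht.2

theorem bconf_strip (j : ℤ) :
    ∃ P : Set ℂ, IsCompact P ∧ IsPreconnected P ∧ (⟨-2, j * (Real.pi / 2)⟩ : ℂ) ∈ P ∧
      (⟨-2, (j + 1) * (Real.pi / 2)⟩ : ℂ) ∈ P ∧ ∀ z ∈ P, fb z ∈ TT ∧ -2 ≤ z.re ∧ z.re ≤ 0 ∧
        j * (Real.pi / 2) ≤ z.im ∧ z.im ≤ (j + 1) * (Real.pi / 2) := by
  have hpi := Real.pi_pos
  have hp2 : 0 < Real.pi / 2 := by positivity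
  set S : Set ℂ := {z | j * (Real.pi / 2) < z.im} ∩ {z | z.im < (j + 1) * (Real.pi / 2)} with hS
  have hSc : IsPreconnected S :=
    ((convex_halfSpace_im_gt _).inter (convex_halfSpace_im_lt _)).isPreconnected
  have hSl : ∀ z ∈ S, xx z * yy z ≠ 0 := by
    intro z hz h
    obtain ⟨i, hi⟩ := onLine_iff.1 h
    obtain ⟨h₁, h₂⟩ := hz
    simp only [mem_ofPred_eq] at h₁ h₂
    rw [hi] at h₁ h₂
    have a₁ : (j : ℝ) < i := lt_of_mul_lt_mul_right h₁ hp2.le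
    have a₂ : (i : ℝ) < j + 1 := lt_of_mul_lt_mul_right h₂ hp2.le
    have b₁ : j < i := by exact_mod_cast a₁
    have b₂ : i < j + 1 := by exact_mod_cast a₂
    omega
  set p : ℂ := ⟨0, (j + 1 / 2) * (Real.pi / 2)⟩ with hp
  have hpS : p ∈ S := by
    constructor
    · show (j : ℝ) * (Real.pi / 2) < (j + 1 / 2) * (Real.pi / 2)
      nlinarith
    · show ((j : ℝ) + 1 / 2) * (Real.pi / 2) < (j + 1) * (Real.pi / 2)
      nlinarith
  have hsg : ∀ z ∈ S, 0 < (xx p * yy p) * (xx z * yy z) := fun z hz =>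
    bconf_sign hSc (continuous_xx.mul continuous_yy) hSl hpS hz
  have hcont : Continuous fun u => (xx p * yy p) * (fb u).im :=
    continuous_const.mul (Complex.continuous_im.comp differentiable_fb.continuous)
  have hline : ∀ z : ℂ, OnLine z → (xx p * yy p) * (fb z).im = 0 := by
    intro z hz
    unfold OnLine at hz
    rw [im_fb, hz, zero_mul, mul_zero]
  obtain ⟨P, h₁, h₂, h₃, h₄, h₅⟩ := rect_connector (a := -2) (b := 0)
    (c := j * (Real.pi / 2)) (d := (j + 1) * (Real.pi / 2)) (by norm_num) (by nlinarith) hcont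
    (fun z hz _ _ => hline z (onLine_iff.2 ⟨j, hz⟩))
    (fun z hz _ _ => hline z (onLine_iff.2 ⟨j + 1, by push_cast; exact hz⟩))
    (fun z hz ha hb => by
      rw [im_fb, ← mul_assoc]
      exact mul_neg_of_pos_of_neg (hsg z ⟨ha, hb⟩) (GG_neg_left hz))
    (fun z hz ha hb => by
      rw [im_fb, ← mul_assoc]
      exact mul_pos (hsg z ⟨ha, hb⟩) (GG_pos_right hz))
  refine ⟨P, h₁, h₂, h₃, h₄, fun z hz => ?_⟩
  obtain ⟨a₁, a₂, a₃, a₄, a₅⟩ := h₅ z hz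
  refine ⟨⟨(mul_eq_zero.1 a₅).resolve_left (hSl p hpS), ?_⟩, a₁, a₂, a₃, a₄⟩
  linarith [re_fb_rect a₁ a₂]

theorem bconf_strips (j : ℤ) (n : ℕ) :
    ∃ P : Set ℂ, IsCompact P ∧ IsPreconnected P ∧ (⟨-2, j * (Real.pi / 2)⟩ : ℂ) ∈ P ∧
      (⟨-2, (j + n) * (Real.pi / 2)⟩ : ℂ) ∈ P ∧ ∀ z ∈ P, fb z ∈ TT ∧ -2 ≤ z.re ∧ z.re ≤ 0 ∧
        j * (Real.pi / 2) ≤ z.im ∧ z.im ≤ (j + n) * (Real.pi / 2) := by
  have hpi := Real.pi_pos
  induction n with
  | zero =>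
    refine ⟨{⟨-2, j * (Real.pi / 2)⟩}, isCompact_singleton, isPreconnected_singleton, rfl,
      by simp, ?_⟩
    rintro z rfl
    have hm := fb_mem_of_onLine (z := ⟨-2, j * (Real.pi / 2)⟩) (onLine_iff.2 ⟨j, rfl⟩) le_rfl
    refine ⟨⟨hm.1, by linarith [hm.2]⟩, le_rfl, by norm_num, le_rfl, by simp⟩
  | succ n ih =>
    obtain ⟨P, h₁, h₂, h₃, h₄, h₅⟩ := ih
    obtain ⟨Q, k₁, k₂, k₃, k₄, k₅⟩ := bconf_strip (j + n)
    push_cast at k₃ k₄ k₅
    have hn : (0 : ℝ) ≤ n := Nat.cast_nonneg n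
    refine ⟨P ∪ Q, h₁.union k₁, h₂.union _ h₄ k₃ k₂, Or.inl h₃, Or.inr ?_, ?_⟩
    · push_cast
      rw [← add_assoc]
      exact k₄
    · rintro z (hz | hz)
      · obtain ⟨a₁, a₂, a₃, a₄, a₅⟩ := h₅ z hz
        refine ⟨a₁, a₂, a₃, a₄, ?_⟩
        push_cast
        nlinarith
      · obtain ⟨a₁, a₂, a₃, a₄, a₅⟩ := k₅ z hz
        refine ⟨a₁, a₂, a₃, by nlinarith, ?_⟩
        push_cast
        rw [← add_assoc]
        exact a₅

theorem bconf_comb {v v' : ℂ} (hv : OnLine v) (hv' : OnLine v') (h : -2 ≤ v.re)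
    (h' : -2 ≤ v'.re) (hle : v.im ≤ v'.im) :
    ∃ P : Set ℂ, IsCompact P ∧ IsPreconnected P ∧ v ∈ P ∧ v' ∈ P ∧ ∀ z ∈ P, fb z ∈ TT ∧
      -2 ≤ z.re ∧ z.re ≤ max (max v.re v'.re) 0 ∧ v.im ≤ z.im ∧ z.im ≤ v'.im := by
  have hp2 : 0 < Real.pi / 2 := by positivity
  obtain ⟨j, hj⟩ := onLine_iff.1 hv
  obtain ⟨j', hj'⟩ := onLine_iff.1 hv'
  have hjj : j ≤ j' := by
    rw [hj, hj'] at hle
    have : (j : ℝ) ≤ j' := le_of_mul_le_mul_right hle hp2
    exact_mod_cast this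
  obtain ⟨n, hn⟩ := Int.le.dest hjj
  have hn' : (j : ℝ) + n = j' := by exact_mod_cast hn
  obtain ⟨P, h₁, h₂, h₃, h₄, h₅⟩ := bconf_strips j n
  rw [hn'] at h₄ h₅
  rw [← hj] at h₃ h₅
  rw [← hj'] at h₄ h₅
  obtain ⟨A, a₁, a₂, a₃, a₄, a₅⟩ := bconf_horiz hv h
  obtain ⟨B, b₁, b₂, b₃, b₄, b₅⟩ := bconf_horiz hv' h'
  refine ⟨(A ∪ P) ∪ B, (a₁.union h₁).union b₁,
    (a₂.union _ a₄ h₃ h₂).union _ (Or.inr h₄) b₄ b₂, Or.inl (Or.inl a₃), Or.inr b₃, ?_⟩
  rintro z ((hz | hz) | hz)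
  · obtain ⟨c₁, c₂, c₃, c₄⟩ := a₅ z hz
    exact ⟨c₁, c₂, c₃.trans ((le_max_left _ _).trans (le_max_left _ _)), c₄.ge, c₄ ▸ hle⟩
  · obtain ⟨c₁, c₂, c₃, c₄, c₅⟩ := h₅ z hz
    exact ⟨c₁, c₂, c₃.trans (le_max_right _ _), c₄, c₅⟩
  · obtain ⟨c₁, c₂, c₃, c₄⟩ := b₅ z hz
    exact ⟨c₁, c₂, c₃.trans ((le_max_right _ _).trans (le_max_left _ _)), c₄ ▸ hle, c₄.le⟩

/-- The comb. Join `v` to `-2 + i Im v` horizontally, and consecutive points `-2 + i j π / 2` by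
`rect_connector` in `[-2, 0] × [j π / 2, (j + 1) π / 2]` with `h = ± Im fb` (the sign of `x y`
is constant in the open strip). Induction on the number of strips. -/
theorem comb {v v' : ℂ} (hv : OnLine v) (hv' : OnLine v') (h : -2 ≤ v.re) (h' : -2 ≤ v'.re) :
    ∃ P : Set ℂ, IsCompact P ∧ IsPreconnected P ∧ v ∈ P ∧ v' ∈ P ∧ ∀ z ∈ P, fb z ∈ TT ∧
      -2 ≤ z.re ∧ z.re ≤ max (max v.re v'.re) 0 ∧ min v.im v'.im ≤ z.im ∧
      z.im ≤ max v.im v'.im := by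
  rcases le_total v.im v'.im with hle | hle
  · obtain ⟨P, h₁, h₂, h₃, h₄, h₅⟩ := bconf_comb hv hv' h h' hle
    refine ⟨P, h₁, h₂, h₃, h₄, fun z hz => ?_⟩
    rw [min_eq_left hle, max_eq_right hle]
    exact h₅ z hz
  · obtain ⟨P, h₁, h₂, h₃, h₄, h₅⟩ := bconf_comb hv' hv h' h hle
    refine ⟨P, h₁, h₂, h₄, h₃, fun z hz => ?_⟩
    rw [min_eq_right hle, max_eq_left hle, max_comm v.re v'.re]
    exact h₅ z hz

end Pool.Agent.Lib.MP_dbd176_an
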