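import Pool.Agent.Lib.MP_dbd176_an.Base

open Set Metric Filter Topology

namespace Pool.Agent.Lib.MP_dbd176_an

/-- The example for part (b). -/
noncomputable def fb (z : ℂ) : ℂ :=
  10 + Complex.cosh (Complex.exp z) + 1 / 1000 * Complex.exp (-2 * z)
    - 1 / 10 ^ 20 * Complex.exp (-6 * z)

/-- `x = Re (exp z)`. -/
noncomputable def xx (z : ℂ) : ℝ := (Complex.exp z).re

/-- `y = Im (exp z)`. -/
noncomputable def yy (z : ℂ) : ℝ := (Complex.exp z).im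

/-- `z` lies on one of the lines `Im z ∈ (π / 2) ℤ`. -/
def OnLine (z : ℂ) : Prop := xx z * yy z = 0

/-- `Im (fb z) = x y G`. -/
noncomputable def GG (z : ℂ) : ℝ :=
  dslope Real.sinh 0 (xx z) * Real.sinc (yy z) - 2 * Real.exp (-4 * z.re) *
    (1 / 1000 - 1 / 10 ^ 20 *
      (3 * (Complex.exp (-2 * z)).re ^ 2 - (Complex.exp (-2 * z)).im ^ 2))

noncomputable def Et (t : ℝ) : ℝ := Real.exp (7 * t)

/-- The half line `[-2, ∞)`. -/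
def TT : Set ℂ := {z | z.im = 0 ∧ -2 ≤ z.re}

/-- The fast escaping set of the example. -/
def AA : Set ℂ := fastEsc fb 10

/-- All steps of the orbit are far and fast. -/
def FFO (w : ℂ) : Prop := ∀ n : ℕ, 2 ≤ ‖fb^[n] w‖ ∧ Et ‖fb^[n] w‖ < ‖fb^[n + 1] w‖

def GoodN (N : ℕ) (w : ℂ) : Prop := (∀ j < N, 0 ≤ (fb^[j] w).re) ∧ fb^[N] w ∈ TT

/-- `z` lies in every closed half plane bounded by one of the lines that contains `w`. -/
def SameStrip (w z : ℂ) : Prop :=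
  ∀ j : ℤ, (j * (Real.pi / 2) ≤ w.im → j * (Real.pi / 2) ≤ z.im) ∧
    (w.im ≤ j * (Real.pi / 2) → z.im ≤ j * (Real.pi / 2))

/-- `w` is joined to the real axis in `A`. -/
def Conn (w : ℂ) : Prop :=
  ∃ P : Set ℂ, IsCompact P ∧ IsPreconnected P ∧ w ∈ P ∧ (∃ v ∈ P, v.im = 0) ∧
    ∀ z ∈ P, z ∈ AA ∧ -2 ≤ z.re ∧ ‖z‖ ≤ ‖w‖ + 10

/-- `w` is joined to one of the lines in `A`, inside its strip. -/
def Loc (w : ℂ) : Prop :=
  ∃ P : Set ℂ, IsCompact P ∧ IsPreconnected P ∧ w ∈ P ∧ (∃ v ∈ P, OnLine v) ∧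
    ∀ z ∈ P, z ∈ AA ∧ -2 ≤ z.re ∧ z.re ≤ w.re + 3 ∧ SameStrip w z ∧
      (3 * Real.pi / 2 < yy w → Real.pi / 2 ≤ yy z)

/-- The base point `-2 + i π / 2`. -/
noncomputable def σp : ℂ := ⟨-2, Real.pi / 2⟩

/-- `w` is approximated by points joined to `σ` in `A ∩ K`. -/
def Appr (K : Set ℂ) (σ w : ℂ) : Prop :=
  ∀ δ > 0, ∃ w' ∈ ball w δ, ∃ P : Set ℂ, IsCompact P ∧ IsPreconnected P ∧ P ⊆ AA ∩ K ∧
    w' ∈ P ∧ σ ∈ P

end Pool.Agent.Lib.MP_dbd176_an
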