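import Pool.Agent.Lib.MP_dbd176_an.Pre

open Set Metric Filter Topology

namespace Pool.Agent.Lib.MP_dbd176_an

variable {g : ℂ → ℂ}

private theorem lift_inv {φ : ℂ → ℂ} {z₀ : ℂ} (hφ : AnalyticAt ℂ φ z₀) (hφ' : deriv φ z₀ ≠ 0) :
    ∃ ψ : ℂ → ℂ, HasDerivAt ψ (deriv φ z₀)⁻¹ (φ z₀) ∧ (∀ᶠ z in 𝓝 z₀, ψ (φ z) = z) ∧
      ∀ᶠ w in 𝓝 (φ z₀), ContinuousAt ψ w ∧ φ (ψ w) = w := by
  have hl := hφ.hasStrictDerivAt.eventually_left_inverse hφ'
  have hr := hφ.hasStrictDerivAt.eventually_right_inverse hφ'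
  have ha := hφ.analyticAt_localInverse hφ'
  refine ⟨_, (hφ.hasStrictDerivAt.to_localInverse hφ').hasDerivAt, hl, ?_⟩
  filter_upwards [ha.eventually_analyticAt, hr] with w k1 k2
  exact ⟨k1.continuousAt, k2⟩

private theorem lift_clopen {S : Set ℝ} (hS : IsPreconnected S) {P : ℝ → Prop}
    (hcl : IsClosed {s : S | P s}) (hop : ∀ s ∈ S, P s → ∀ᶠ t in 𝓝[S] s, P t) {s s' : ℝ}
    (hs : s ∈ S) (hP : P s) (hs' : s' ∈ S) : P s' := by
  have := isPreconnected_iff_preconnectedSpace.1 hS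
  have ho : IsOpen {s : S | P s} := by
    rw [isOpen_iff_mem_nhds]
    intro t ht
    rw [nhds_subtype_eq_comap_nhdsWithin]
    exact preimage_mem_comap (hop t t.2 ht)
  have h := IsClopen.eq_univ ⟨hcl, ho⟩ ⟨⟨s, hs⟩, hP⟩
  have h' : (⟨s', hs'⟩ : S) ∈ {s : S | P s} := by rw [h]; trivial
  exact h'

/-- Uniqueness of lifts: the coincidence set is closed, and open since `g` is injective near a
noncritical point (`HasStrictDerivAt.eventually_left_inverse`). -/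
theorem lift_unique (hg : Differentiable ℂ g) {S : Set ℝ} (hS : IsPreconnected S) {β₁ β₂ : ℝ → ℂ}
    (h₁ : ContinuousOn β₁ S) (h₂ : ContinuousOn β₂ S) (he : ∀ s ∈ S, g (β₁ s) = g (β₂ s))
    (hd : ∀ s ∈ S, deriv g (β₁ s) ≠ 0) {s₀ : ℝ} (hs₀ : s₀ ∈ S) (h₀ : β₁ s₀ = β₂ s₀) :
    EqOn β₁ β₂ S := by
  intro s hs
  refine lift_clopen hS (P := fun s => β₁ s = β₂ s)
    (isClosed_eq (continuousOn_iff_continuous_domRestrict.1 h₁)
      (continuousOn_iff_continuous_domRestrict.1 h₂)) (fun t ht e => ?_) hs₀ h₀ hs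
  obtain ⟨ψ, -, hl, -⟩ := lift_inv (hg.analyticAt _) (hd t ht)
  have k1 := (h₁ t ht).tendsto.eventually hl
  have k2 := (h₂ t ht).tendsto.eventually (e ▸ hl)
  filter_upwards [k1, k2, self_mem_nhdsWithin] with u e1 e2 hu
  rw [← e1, ← e2, he u hu]

/-- Derivative of a lift: near `s`, `β = g⁻¹ ∘ γ` for the local inverse. -/
theorem lift_hasDerivAt (hg : Differentiable ℂ g) {β γ : ℝ → ℂ} {γ' : ℂ} {s : ℝ}
    (hβ : ContinuousAt β s) (he : ∀ᶠ t in 𝓝 s, g (β t) = γ t) (hγ : HasDerivAt γ γ' s)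
    (hd : deriv g (β s) ≠ 0) : HasDerivAt β (γ' / deriv g (β s)) s := by
  obtain ⟨ψ, hψ, hl, -⟩ := lift_inv (hg.analyticAt _) hd
  have h1 : HasDerivAt ψ (deriv g (β s))⁻¹ (γ s) := he.self_of_nhds ▸ hψ
  have h2 := h1.comp s hγ
  rw [div_eq_inv_mul]
  refine h2.congr_of_eventuallyEq ?_
  filter_upwards [hβ.tendsto.eventually hl, he] with t e1 e2
  rw [Function.comp_apply, ← e2, e1]

/-- Lift a path until it ends or hits the frontier of a bounded open set `B`.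
Let `T` be the supremum of the `t ∈ [a, b]` such that there is a lift on `[a, t]` with values in
`B`. By `lift_unique` these lifts fit together to `β` on `[a, T)`. A cluster point `z` of `β s`,
`s → T⁻`, lies in `closure B`, has `g z = γ T`, so `g' z ≠ 0`; with the local inverse `ψ` at
`z`, `β = ψ ∘ γ` on some `[s, T)` by uniqueness, so `β` extends continuously by `z`, and if
`z ∈ B` and `T < b` it extends further. -/
theorem lift_until (hg : Differentiable ℂ g) {γ : ℝ → ℂ} {a b : ℝ} (hab : a ≤ b)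
    (hγ : ContinuousOn γ (Icc a b)) {B : Set ℂ} (hB : IsOpen B) (hBb : Bornology.IsBounded B)
    {p : ℂ} (hp : p ∈ B) (hpγ : g p = γ a)
    (hd : ∀ z ∈ closure B, ∀ s ∈ Icc a b, g z = γ s → deriv g z ≠ 0) :
    ∃ T ∈ Icc a b, ∃ β : ℝ → ℂ, ContinuousOn β (Icc a T) ∧ β a = p ∧
      (∀ s ∈ Icc a T, g (β s) = γ s) ∧ (∀ s ∈ Ico a T, β s ∈ B) ∧
      ((T = b ∧ β T ∈ B) ∨ β T ∈ frontier B) := by
  classical
  obtain ⟨A, hA⟩ : ∃ A : Set ℝ, A = {t | t ∈ Icc a b ∧ ∃ β : ℝ → ℂ, ContinuousOn β (Icc a t) ∧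
    β a = p ∧ ∀ s ∈ Icc a t, g (β s) = γ s ∧ β s ∈ B} := ⟨_, rfl⟩
  have hAsub : A ⊆ Icc a b := by rw [hA]; exact fun t ht => ht.1
  have haA : a ∈ A := by
    rw [hA]
    refine ⟨⟨le_rfl, hab⟩, fun _ => p, continuousOn_const, rfl, fun s hs => ?_⟩
    obtain rfl : s = a := le_antisymm hs.2 hs.1
    exact ⟨hpγ, hp⟩
  have hex : ∀ t ∈ A, ∃ β : ℝ → ℂ, ContinuousOn β (Icc a t) ∧
      β a = p ∧ ∀ s ∈ Icc a t, g (β s) = γ s ∧ β s ∈ B := by
    rw [hA]; exact fun t ht => ht.2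
  choose! L hLc hLa hL using hex
  have hbdd : BddAbove A := ⟨b, fun t ht => (hAsub ht).2⟩
  obtain ⟨T, hT⟩ : ∃ T, T = sSup A := ⟨_, rfl⟩
  have hle : ∀ t ∈ A, t ≤ T := fun t ht => hT ▸ le_csSup hbdd ht
  have hTm : T ∈ Icc a b := ⟨hle a haA, hT ▸ csSup_le ⟨a, haA⟩ fun t ht => (hAsub ht).2⟩
  have hTc : T ∈ closure A := hT ▸ csSup_mem_closure ⟨a, haA⟩ hbdd
  have hne : (𝓝[A] T).NeBot := mem_closure_iff_nhdsWithin_neBot.1 hTc
  obtain ⟨z, hzB, hz⟩ := hBb.isCompact_closure.exists_mapClusterPt (f := 𝓝[A] T)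
    (u := fun s => L s s) (by
      rw [le_principal_iff, mem_map]
      filter_upwards [self_mem_nhdsWithin] with s hs
      exact subset_closure (hL s hs s ⟨(hAsub hs).1, le_rfl⟩).2)
  have hγT : Tendsto γ (𝓝[A] T) (𝓝 (γ T)) := ((hγ T hTm).mono hAsub).tendsto
  have hgz : g z = γ T := by
    have h1 : MapClusterPt (g z) (𝓝[A] T) (g ∘ fun s => L s s) :=
      hz.continuousAt_comp hg.continuous.continuousAt
    have h2 : Tendsto (g ∘ fun s => L s s) (𝓝[A] T) (𝓝 (γ T)) := by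
      refine hγT.congr' ?_
      filter_upwards [self_mem_nhdsWithin] with s hs
      exact (hL s hs s ⟨(hAsub hs).1, le_rfl⟩).1.symm
    exact eq_of_nhds_neBot (h1.clusterPt.mono h2)
  obtain ⟨ψ, -, hl, hr⟩ := lift_inv (hg.analyticAt z) (hd z hzB T hTm hgz)
  rw [hgz] at hr
  obtain ⟨δ, hδ, hδ'⟩ := Metric.eventually_nhds_iff.1
    (eventually_nhdsWithin_iff.1 ((hγ T hTm).tendsto.eventually hr))
  obtain ⟨s₁, k1, k2, k3⟩ := ((hz.frequently hl).and_eventually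
    ((show ∀ᶠ s in 𝓝[A] T, s ∈ A from self_mem_nhdsWithin).and
      (mem_nhdsWithin_of_mem_nhds (ball_mem_nhds T hδ)))).exists
  have k3' : T - δ < s₁ := by
    have : dist s₁ T < δ := k3
    rw [Real.dist_eq, abs_lt] at this
    linarith
  have hs₁ := hAsub k2
  have hs₁T := hle s₁ k2
  have e₁ : ψ (γ s₁) = L s₁ s₁ := by rw [← (hL s₁ k2 s₁ ⟨hs₁.1, le_rfl⟩).1, k1]
  obtain ⟨β, hβ1, hβ2⟩ : ∃ β : ℝ → ℂ, (∀ s ≤ s₁, β s = L s₁ s) ∧ ∀ s, s₁ ≤ s → β s = ψ (γ s) := by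
    refine ⟨fun s => if s ≤ s₁ then L s₁ s else ψ (γ s), fun s hs => if_pos hs, fun s hs => ?_⟩
    by_cases h : s ≤ s₁
    · obtain rfl : s = s₁ := le_antisymm h hs
      simp only [if_pos h, e₁]
    · exact if_neg h
  obtain ⟨t₁, ht₁T, ht₁b, ht₁δ, ht₁lt⟩ :
      ∃ t₁, T ≤ t₁ ∧ t₁ ≤ b ∧ t₁ < T + δ ∧ (T < b → T < t₁) :=
    ⟨min b (T + δ / 2), le_min hTm.2 (by linarith), min_le_left _ _,
      (min_le_right _ _).trans_lt (by linarith), fun h => lt_min h (by linarith)⟩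
  have hnear : ∀ s ∈ Icc s₁ t₁, s ∈ Icc a b ∧ ContinuousAt ψ (γ s) ∧ g (ψ (γ s)) = γ s := by
    intro s hs
    have hs' : s ∈ Icc a b := ⟨hs₁.1.trans hs.1, hs.2.trans ht₁b⟩
    refine ⟨hs', hδ' ?_ hs'⟩
    rw [Real.dist_eq, abs_lt]
    constructor <;> linarith [hs.1, hs.2]
  have hβc : ContinuousOn β (Icc a t₁) := by
    rw [← Icc_union_Icc_eq_Icc hs₁.1 (hs₁T.trans ht₁T)]
    refine ContinuousOn.union_of_isClosed ((hLc s₁ k2).congr fun s hs => hβ1 s hs.2)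
      (ContinuousOn.congr (f := fun s => ψ (γ s)) (fun s hs => ?_) fun s hs => hβ2 s hs.1)
      isClosed_Icc isClosed_Icc
    exact (hnear s hs).2.1.comp_continuousWithinAt
      ((hγ s (hnear s hs).1).mono fun u hu => (hnear u hu).1)
  have hβa : β a = p := by rw [hβ1 a hs₁.1, hLa s₁ k2]
  have hβg : ∀ s ∈ Icc a t₁, g (β s) = γ s := by
    intro s hs
    rcases le_total s s₁ with h | h
    · rw [hβ1 s h]; exact (hL s₁ k2 s ⟨hs.1, h⟩).1
    · rw [hβ2 s h]; exact (hnear s ⟨h, hs.2⟩).2.2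
  have hβB : ∀ s ∈ Ico a T, β s ∈ B := by
    intro s hs
    obtain ⟨t, ht, hst⟩ := exists_lt_of_lt_csSup ⟨a, haA⟩ (hT ▸ hs.2 : s < sSup A)
    have hsub : Icc a t ⊆ Icc a t₁ := Icc_subset_Icc le_rfl ((hle t ht).trans ht₁T)
    have := lift_unique hg isPreconnected_Icc (hLc t ht) (hβc.mono hsub)
      (fun u hu => (hL t ht u hu).1.trans (hβg u (hsub hu)).symm)
      (fun u hu => hd _ (subset_closure (hL t ht u hu).2) u
        ⟨hu.1, hu.2.trans (hAsub ht).2⟩ (hL t ht u hu).1)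
      (s₀ := a) ⟨le_rfl, (hAsub ht).1⟩ ((hLa t ht).trans hβa.symm) (show s ∈ Icc a t from ⟨hs.1, hst.le⟩)
    rw [← this]
    exact (hL t ht s ⟨hs.1, hst.le⟩).2
  have hsub : Icc a T ⊆ Icc a t₁ := Icc_subset_Icc le_rfl ht₁T
  refine ⟨T, hTm, β, hβc.mono hsub, hβa, fun s hs => hβg s (hsub hs), hβB, ?_⟩
  by_cases hTB : β T ∈ B
  · refine Or.inl ⟨?_, hTB⟩
    by_contra hTb
    have hlt := ht₁lt (lt_of_le_of_ne hTm.2 hTb)
    obtain ⟨η, hη, hη'⟩ := Metric.eventually_nhds_iff.1 (eventually_nhdsWithin_iff.1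
      ((hβc T ⟨hTm.1, ht₁T⟩).tendsto.eventually (hB.mem_nhds hTB)))
    obtain ⟨t, h1, h2, h3⟩ : ∃ t, T < t ∧ t ≤ t₁ ∧ t < T + η :=
      ⟨min t₁ (T + η / 2), lt_min hlt (by linarith), min_le_left _ _,
        (min_le_right _ _).trans_lt (by linarith)⟩
    have htA : t ∈ A := by
      rw [hA]
      refine ⟨⟨hTm.1.trans h1.le, h2.trans ht₁b⟩, β, hβc.mono (Icc_subset_Icc le_rfl h2), hβa,
        fun s hs => ⟨hβg s ⟨hs.1, hs.2.trans h2⟩, ?_⟩⟩
      rcases lt_or_ge s T with h | h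
      · exact hβB s ⟨hs.1, h⟩
      · refine hη' ?_ ⟨hs.1, hs.2.trans h2⟩
        rw [Real.dist_eq, abs_lt]
        constructor <;> linarith [hs.2]
    exact absurd (hle t htA) (not_le.2 h1)
  · refine Or.inr ?_
    rw [hB.frontier_eq]
    refine ⟨?_, hTB⟩
    rw [hβ2 T hs₁T, ← hgz, hl.self_of_nhds]
    exact hzB

/-- The same backwards (apply `lift_until` to `s ↦ γ (-s)`). -/
theorem lift_until_back (hg : Differentiable ℂ g) {γ : ℝ → ℂ} {a b : ℝ} (hab : a ≤ b)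
    (hγ : ContinuousOn γ (Icc a b)) {B : Set ℂ} (hB : IsOpen B) (hBb : Bornology.IsBounded B)
    {p : ℂ} (hp : p ∈ B) (hpγ : g p = γ b)
    (hd : ∀ z ∈ closure B, ∀ s ∈ Icc a b, g z = γ s → deriv g z ≠ 0) :
    ∃ T ∈ Icc a b, ∃ β : ℝ → ℂ, ContinuousOn β (Icc T b) ∧ β b = p ∧
      (∀ s ∈ Icc T b, g (β s) = γ s) ∧ (∀ s ∈ Ioc T b, β s ∈ B) ∧
      ((T = a ∧ β T ∈ B) ∨ β T ∈ frontier B) := by
  have hneg : ∀ s ∈ Icc (-b) (-a), -s ∈ Icc a b := fun s hs =>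
    ⟨by linarith [hs.2], by linarith [hs.1]⟩
  obtain ⟨T, hT, β, h1, h2, h3, h4, h5⟩ := lift_until hg (γ := fun s => γ (-s)) (a := -b)
    (b := -a) (by linarith) (hγ.comp continuous_neg.continuousOn hneg) hB hBb hp
    (by simpa using hpγ) fun z hz s hs e => hd z hz (-s) (hneg s hs) e
  have hneg' : ∀ s ∈ Icc (-T) b, -s ∈ Icc (-b) T := fun s hs =>
    ⟨by linarith [hs.2], by linarith [hs.1]⟩
  refine ⟨-T, hneg T hT, fun s => β (-s), h1.comp continuous_neg.continuousOn hneg', h2,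
    fun s hs => by simpa using h3 (-s) (hneg' s hs),
    fun s hs => h4 (-s) ⟨by linarith [hs.2], by linarith [hs.1]⟩, ?_⟩
  simp only [neg_neg]
  rcases h5 with ⟨e, h⟩ | h
  · exact Or.inl ⟨by rw [e, neg_neg], h⟩
  · exact Or.inr h

/-- Local structure of a level curve at a regular point. In the chart
`φ z = log ((g z - c) / (g z₀ - c))` take `N = φ⁻¹ (small disc)`: the inner side is the image of
a half disc under the local inverse. -/
theorem exists_inner_nhds (hg : Differentiable ℂ g) {c z₀ : ℂ} {τ : ℝ} (hτ : 0 < τ)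
    (hz : ‖g z₀ - c‖ = τ) (hd : deriv g z₀ ≠ 0) {Ω : Set ℂ} (hΩ : Ω ∈ 𝓝 z₀) :
    ∃ N : Set ℂ, IsOpen N ∧ z₀ ∈ N ∧ N ⊆ Ω ∧ IsPreconnected (N ∩ {z | ‖g z - c‖ < τ}) ∧
      N ∩ {z | ‖g z - c‖ = τ} ⊆ closure (N ∩ {z | ‖g z - c‖ < τ}) := by
  have h0 : g z₀ - c ≠ 0 := by
    rw [← norm_pos_iff, hz]; exact hτ
  have han : AnalyticAt ℂ (fun z => (g z - c) / (g z₀ - c)) z₀ :=
    ((hg.analyticAt _).sub analyticAt_const).div_const
  have hsl : (g z₀ - c) / (g z₀ - c) ∈ Complex.slitPlane := by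
    rw [div_self h0]; exact Complex.one_mem_slitPlane
  obtain ⟨φ, hφ, hφ', hφ0, hre⟩ : ∃ φ : ℂ → ℂ, AnalyticAt ℂ φ z₀ ∧ deriv φ z₀ ≠ 0 ∧ φ z₀ = 0 ∧
      ∀ z, (φ z).re = Real.log (‖g z - c‖ / τ) := by
    refine ⟨fun z => Complex.log ((g z - c) / (g z₀ - c)), han.clog hsl, ?_, ?_, fun z => ?_⟩
    · have h1 : HasDerivAt (fun z => (g z - c) / (g z₀ - c)) (deriv g z₀ / (g z₀ - c)) z₀ :=
        ((hg _).hasDerivAt.sub_const c).div_const _
      rw [(h1.clog hsl).deriv]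
      exact div_ne_zero (div_ne_zero hd h0) (div_ne_zero h0 h0)
    · simp only [div_self h0, Complex.log_one]
    · rw [Complex.log_re, norm_div, hz]
  obtain ⟨ψ, -, hl, hr⟩ := lift_inv hφ hφ'
  have hψ0 : ψ 0 = z₀ := by rw [← hφ0]; exact hl.self_of_nhds
  rw [hφ0] at hr
  have h1 : ∀ᶠ z in 𝓝 z₀, g z - c ≠ 0 :=
    ((hg.continuous.sub continuous_const).continuousAt).eventually_ne h0
  obtain ⟨U, hU, hUo, hzU⟩ := _root_.eventually_nhds_iff.1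
    (hl.and (h1.and (hφ.eventually_analyticAt.and (show ∀ᶠ z in 𝓝 z₀, z ∈ Ω from hΩ))))
  have hψt : Tendsto ψ (𝓝 0) (𝓝 z₀) := hψ0 ▸ hr.self_of_nhds.1.tendsto
  obtain ⟨δ, hδ, hδ'⟩ := Metric.eventually_nhds_iff_ball.1
    (hr.and (hψt.eventually (hUo.mem_nhds hzU)))
  have hφc : ContinuousOn φ U := fun z hz => (hU z hz).2.2.1.continuousAt.continuousWithinAt
  have key : U ∩ φ ⁻¹' ball 0 δ ∩ {z | ‖g z - c‖ < τ} = ψ '' (ball 0 δ ∩ {w | w.re < 0}) := by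
    ext z
    constructor
    · rintro ⟨⟨k1, k2⟩, k3⟩
      refine ⟨φ z, ⟨k2, ?_⟩, (hU z k1).1⟩
      simp only [mem_ofPred_eq, hre] at k3 ⊢
      exact Real.log_neg (div_pos (norm_pos_iff.2 (hU z k1).2.1) hτ) ((div_lt_one hτ).2 k3)
    · rintro ⟨w, ⟨k1, k2⟩, rfl⟩
      obtain ⟨⟨-, k3⟩, k4⟩ := hδ' w k1
      refine ⟨⟨k4, by rw [mem_preimage, k3]; exact k1⟩, ?_⟩
      have k5 : (φ (ψ w)).re < 0 := by rw [k3]; exact k2
      rw [hre, Real.log_neg_iff (div_pos (norm_pos_iff.2 (hU _ k4).2.1) hτ), div_lt_one hτ] at k5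
      exact k5
  refine ⟨U ∩ φ ⁻¹' ball 0 δ, hφc.isOpen_inter_preimage hUo isOpen_ball,
    ⟨hzU, by rw [mem_preimage, hφ0]; exact mem_ball_self hδ⟩, fun z hz => (hU z hz.1).2.2.2,
    ?_, ?_⟩
  · rw [key]
    exact ((convex_ball _ _).inter (convex_halfSpace_re_lt 0)).isPreconnected.image _
      fun w hw => (hδ' w hw.1).1.1.continuousWithinAt
  · rintro z ⟨⟨k1, k2⟩, k3⟩
    rw [key, ← (hU z k1).1]
    refine mem_closure_image (hδ' _ k2).1.1 (isOpen_ball.inter_closure ⟨k2, ?_⟩)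
    rw [Complex.closure_setOfPred_re_lt]
    have k4 : ‖g z - c‖ = τ := k3
    simp only [mem_ofPred_eq, hre, k4, div_self hτ.ne', Real.log_one, le_refl]

/-- The component of `Ω ∩ {‖g - c‖ < τ}` adjacent to a regular level arc is the same all along
the arc: by `exists_inner_nhds` the set of `s ∈ S` with `β s ∈ closure H` is relatively open
(and it is relatively closed). -/
theorem inner_adj (hg : Differentiable ℂ g) {c : ℂ} {τ : ℝ} (hτ : 0 < τ) {S : Set ℝ}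
    (hS : IsPreconnected S) {β : ℝ → ℂ} (hβ : ContinuousOn β S)
    (hl : ∀ s ∈ S, ‖g (β s) - c‖ = τ) (hd : ∀ s ∈ S, deriv g (β s) ≠ 0) {Ω : Set ℂ}
    (hΩ : IsOpen Ω) (hβΩ : ∀ s ∈ S, β s ∈ Ω) {p : ℂ} {s s' : ℝ} (hs : s ∈ S) (hs' : s' ∈ S)
    (h : β s ∈ closure (connectedComponentIn (Ω ∩ {z | ‖g z - c‖ < τ}) p)) :
    β s' ∈ closure (connectedComponentIn (Ω ∩ {z | ‖g z - c‖ < τ}) p) := by
  refine lift_clopen hS (P := fun s => β s ∈ closure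
    (connectedComponentIn (Ω ∩ {z | ‖g z - c‖ < τ}) p))
    (isClosed_closure.preimage (continuousOn_iff_continuous_domRestrict.1 hβ))
    (fun t ht k => ?_) hs h hs'
  obtain ⟨N, hN, hzN, hNΩ, hNc, hNcl⟩ := exists_inner_nhds hg hτ (hl t ht) (hd t ht)
    (hΩ.mem_nhds (hβΩ t ht))
  obtain ⟨q, hqN, hq⟩ := mem_closure_iff.1 k N hN hzN
  have hsub : N ∩ {z | ‖g z - c‖ < τ} ⊆ connectedComponentIn (Ω ∩ {z | ‖g z - c‖ < τ}) p := by
    rw [connectedComponentIn_eq hq]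
    exact hNc.subset_connectedComponentIn ⟨hqN, (connectedComponentIn_subset _ _ hq).2⟩
      (inter_subset_inter_left _ hNΩ)
  filter_upwards [(hβ t ht).tendsto.eventually (hN.mem_nhds hzN), self_mem_nhdsWithin]
    with u k1 k2
  exact closure_mono hsub (hNcl ⟨k1, hl u k2⟩)

end Pool.Agent.Lib.MP_dbd176_an
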