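import Pool.Agent.Lib.MP_dbd176_an.BEst2
import Pool.Agent.Lib.MP_dbd176_an.Lift

open Set Metric Filter Topology

namespace Pool.Agent.Lib.MP_dbd176_an

theorem iter_mem_AA_iff {z : ℂ} (n : ℕ) : fb^[n] z ∈ AA ↔ z ∈ AA :=
  big_fb.iter_mem_fastEsc_iff ent_fb n

theorem fb_mem_AA_iff {z : ℂ} : fb z ∈ AA ↔ z ∈ AA := iter_mem_AA_iff 1

theorem bdyn_iter_conj (n : ℕ) (z : ℂ) :
    fb^[n] ((starRingEnd ℂ) z) = (starRingEnd ℂ) (fb^[n] z) := by
  induction n with
  | zero => rfl
  | succ n ih => rw [Function.iterate_succ_apply', Function.iterate_succ_apply', ih, fb_conj]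

theorem bdyn_onLine_of_real {z : ℂ} (h : z.im = 0) : OnLine z :=
  onLine_iff.2 ⟨0, by simp [h]⟩

theorem bdyn_eq_re {z : ℂ} (h : z.im = 0) : z = (z.re : ℂ) :=
  Complex.ext (by simp) (by simp [h])

theorem bdyn_le_Et {t : ℝ} (ht : 0 ≤ t) : t ≤ Et t := by
  have := Real.add_one_le_exp (7 * t)
  unfold Et
  linarith

theorem bdyn_Et_mono : Monotone Et := fun a b h => by
  unfold Et
  exact Real.exp_le_exp.2 (by linarith)

theorem bdyn_Et_iter_nonneg {s : ℝ} (hs : 0 ≤ s) (n : ℕ) : 0 ≤ Et^[n] s := by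
  cases n with
  | zero => exact hs
  | succ n => rw [Function.iterate_succ_apply']; exact (Real.exp_pos _).le

theorem bdyn_thirty_le {w : ℂ} (h₁ : 2 ≤ ‖w‖) (h₂ : Et ‖w‖ < ‖fb w‖) : 30 ≤ ‖fb w‖ := by
  have h1 : (8 : ℝ) ≤ Real.exp 7 := by
    have := Real.add_one_le_exp (7 : ℝ)
    linarith
  have h2 : Real.exp 7 * Real.exp 7 ≤ Et ‖w‖ := by
    rw [← Real.exp_add]
    exact Real.exp_le_exp.2 (by linarith)
  nlinarith

theorem conj_mem_AA {z : ℂ} (hz : z ∈ AA) : (starRingEnd ℂ) z ∈ AA := by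
  obtain ⟨l, hl⟩ := hz
  exact ⟨l, fun n => by rw [bdyn_iter_conj, Complex.norm_conj]; exact hl n⟩

/-- `fb (fb t) ≥ 11` is real, then `maxMod_add_one_le` and induction. -/
theorem TT_subset_AA : TT ⊆ AA := by
  rintro z ⟨h0, h1⟩
  have key : ∀ n : ℕ, (fb^[n + 2] z).im = 0 ∧ (maxMod fb)^[n] 10 + 1 ≤ (fb^[n + 2] z).re := by
    intro n
    induction n with
    | zero =>
      obtain ⟨a1, a2⟩ := fb_mem_of_onLine (bdyn_onLine_of_real h0) h1
      obtain ⟨b1, -⟩ := fb_mem_of_onLine (bdyn_onLine_of_real a1) (by linarith)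
      refine ⟨b1, ?_⟩
      have c1 := re_fb_real (t := (fb z).re) (by linarith)
      rw [← bdyn_eq_re a1] at c1
      have c2 := Real.add_one_le_exp (fb z).re
      have c3 := Real.add_one_le_exp (Real.exp (fb z).re)
      have c4 := Real.exp_pos (-Real.exp (fb z).re)
      rw [Real.cosh_eq] at c1
      change (10 : ℝ) + 1 ≤ (fb (fb z)).re
      linarith
    | succ n ih =>
      obtain ⟨a1, a2⟩ := ih
      have a3 := big_fb.le_iter n
      have e : fb^[n + 1 + 2] z = fb (fb^[n + 2] z) := Function.iterate_succ_apply' fb (n + 2) z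
      rw [e, Function.iterate_succ_apply' (maxMod fb)]
      refine ⟨(fb_mem_of_onLine (bdyn_onLine_of_real a1) (by linarith)).1, ?_⟩
      have := maxMod_add_one_le a3 a2
      rwa [← bdyn_eq_re a1] at this
  refine ⟨2, fun n => ?_⟩
  have h2 := (key n).2
  have h3 := Complex.re_le_norm (fb^[n + 2] z)
  linarith

/-- Only finitely many slow steps. With `s = ‖z‖` and `a m` the number of slow `j < m`,
`‖fb^[m] z‖ ≤ Et^[2 m - a m] s`. Take `k` with `7 s + 3 ≤ M^k 10`; then
`Et^[2 n] s < M^(n + k) 10 ≤ ‖fb^[n + k + l] z‖`, and `j ↦ Et^[j] s` is monotone, so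
`a (n + k + l) < 2 (k + l)` for all `n`. -/
theorem finite_slow {z : ℂ} (hz : z ∈ AA) :
    {m : ℕ | ‖fb^[m + 1] z‖ ≤ Et ‖fb^[m] z‖}.Finite := by
  classical
  obtain ⟨l, hl⟩ := hz
  set s := ‖z‖ with hs
  have hs0 : 0 ≤ s := norm_nonneg z
  let P : ℕ → Prop := fun m => ‖fb^[m + 1] z‖ ≤ Et ‖fb^[m] z‖
  have h1 : ∀ m, ∃ e, e + Nat.count P m = 2 * m ∧ ‖fb^[m] z‖ ≤ Et^[e] s := by
    intro m
    induction m with
    | zero => exact ⟨0, by simp, le_rfl⟩
    | succ m ih =>
      obtain ⟨e, he, hm⟩ := ih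
      rw [Nat.count_succ]
      by_cases hP : P m
      · refine ⟨e + 1, by rw [if_pos hP]; omega, ?_⟩
        rw [Function.iterate_succ_apply' Et]
        exact le_trans hP (bdyn_Et_mono hm)
      · refine ⟨e + 2, by rw [if_neg hP]; omega, ?_⟩
        rw [Function.iterate_succ_apply' Et, Function.iterate_succ_apply' Et,
          Function.iterate_succ_apply' fb]
        exact (norm_fb_le_Et _).trans (bdyn_Et_mono (bdyn_Et_mono hm))
  have h2 : ∀ n : ℕ, 7 * Et^[2 * n] s + 3 ≤ (maxMod fb)^[n] (7 * s + 3) := by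
    intro n
    induction n with
    | zero => exact le_rfl
    | succ n ih =>
      have e : 2 * (n + 1) = 2 * n + 1 + 1 := by ring
      have h0 := bdyn_Et_iter_nonneg hs0 (2 * n)
      rw [e, Function.iterate_succ_apply' Et, Function.iterate_succ_apply' Et,
        Function.iterate_succ_apply' (maxMod fb)]
      exact (le_maxMod_fb h0).trans (maxMod_mono differentiable_fb (by linarith) ih)
  obtain ⟨k, hk⟩ := ((big_fb.tendsto_iter differentiable_fb).eventually_ge_atTop
    (7 * s + 3)).exists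
  have hmono : Monotone fun j : ℕ => Et^[j] s := by
    refine monotone_nat_of_le_succ fun j => ?_
    rw [Function.iterate_succ_apply']
    exact bdyn_le_Et (bdyn_Et_iter_nonneg hs0 j)
  have h3 : ∀ n, Nat.count P (n + k + l) < 2 * (k + l) := by
    intro n
    obtain ⟨e, he, hm⟩ := h1 (n + k + l)
    have a1 := hl (n + k)
    rw [Function.iterate_add_apply (maxMod fb)] at a1
    have a2 := maxMod_iter_mono differentiable_fb (by linarith) hk n
    have a3 := h2 n
    have a4 := bdyn_Et_iter_nonneg hs0 (2 * n)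
    have a5 : Et^[2 * n] s < Et^[e] s := by linarith
    have a6 : 2 * n < e := hmono.reflect_lt a5
    omega
  by_contra hinf
  have h4 := Nat.count_nth_of_infinite (p := P) hinf (2 * (k + l))
  have h5 := h3 (Nat.nth P (2 * (k + l)))
  have h6 := Nat.count_monotone P
    (show Nat.nth P (2 * (k + l)) ≤ Nat.nth P (2 * (k + l)) + k + l by omega)
  omega

theorem notMem_AA_of_neg {z : ℂ} (h₀ : z.im = 0) (h : z.re ≤ -12) : z ∉ AA := by
  intro hz
  have key : ∀ n : ℕ, (fb^[n] z).im = 0 ∧ (fb^[n] z).re ≤ -12 := by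
    intro n
    induction n with
    | zero => exact ⟨h₀, h⟩
    | succ n ih =>
      rw [Function.iterate_succ_apply']
      exact ⟨(fb_neg_real ih.1 ih.2).1, (fb_neg_real ih.1 ih.2).2.1⟩
  refine Set.infinite_univ ((finite_slow hz).subset fun n _ => ?_)
  change ‖fb^[n + 1] z‖ ≤ _
  rw [Function.iterate_succ_apply']
  exact (fb_neg_real (key n).1 (key n).2).2.2

theorem exists_ffo {z : ℂ} (hz : z ∈ AA) : ∃ n : ℕ, FFO (fb^[n] z) := by
  obtain ⟨a, ha⟩ := (finite_slow hz).bddAbove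
  have h1 : z ∈ escaping fb := big_fb.fastEsc_subset_escaping differentiable_fb hz
  obtain ⟨b, hb⟩ := eventually_atTop.1 (Tendsto.eventually_ge_atTop h1 2)
  refine ⟨a + b + 1, fun n => ?_⟩
  rw [← Function.iterate_add_apply, ← Function.iterate_add_apply]
  refine ⟨hb _ (by omega), ?_⟩
  have e : n + 1 + (a + b + 1) = n + (a + b + 1) + 1 := by ring
  rw [e]
  by_contra hcon
  have := ha (not_lt.1 hcon)
  omega

theorem FFO.iter {w : ℂ} (hw : FFO w) (n : ℕ) : FFO (fb^[n] w) := by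
  intro m
  have e : m + 1 + n = m + n + 1 := by ring
  rw [← Function.iterate_add_apply, ← Function.iterate_add_apply, e]
  exact hw (m + n)

theorem FFO.conj {w : ℂ} (hw : FFO w) : FFO ((starRingEnd ℂ) w) := by
  intro m
  rw [bdyn_iter_conj, bdyn_iter_conj, Complex.norm_conj, Complex.norm_conj]
  exact hw m

/-- Expansion: `lift_until` for the segment `γ s = fb w + s (v - fb w)` with
`B = ball w (3 / 2)`; `‖β'‖ ≤ ‖v - fb w‖ / 2` (`lift_hasDerivAt`, `two_le_norm_deriv`) and the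
mean value inequality. -/
theorem exp_step {w v : ℂ} (hw : 2 ≤ w.re) (hf : 30 ≤ ‖fb w‖) (hv : ‖v - fb w‖ ≤ 2) :
    ∃ w', fb w' = v ∧ ‖w' - w‖ ≤ ‖v - fb w‖ / 2 := by
  set d := v - fb w with hd
  let γ : ℝ → ℂ := fun s => fb w + s * d
  have hγ : ∀ s : ℝ, HasDerivAt γ d s := fun s => by
    have := ((hasDerivAt_id s).ofReal_comp.mul_const d).const_add (fb w)
    rw [Complex.ofReal_one, one_mul] at this
    exact this
  have hder : ∀ z ∈ closure (ball w (3 / 2)), ∀ s ∈ Icc (0 : ℝ) 1, fb z = γ s →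
      2 ≤ ‖deriv fb z‖ := by
    intro z hz s hs h
    have h1 : ‖z - w‖ ≤ 3 / 2 := mem_closedBall_iff_norm.1 (closure_ball_subset_closedBall hz)
    have h2 := (abs_le.1 ((Complex.abs_re_le_norm (z - w)).trans h1)).1
    rw [Complex.sub_re] at h2
    refine two_le_norm_deriv (by linarith) ?_
    have h3 : ‖(s : ℂ) * d‖ ≤ 2 := by
      rw [norm_mul, Complex.norm_real, Real.norm_eq_abs, abs_of_nonneg hs.1]
      nlinarith [hs.1, hs.2, norm_nonneg d]
    have h4 : ‖fb w‖ ≤ ‖fb w + s * d‖ + ‖(s : ℂ) * d‖ := norm_le_add_norm_add _ _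
    rw [h]
    change 20 ≤ ‖fb w + s * d‖
    linarith
  obtain ⟨T, hT, β, hβ, hβ0, hβγ, hβB, hend⟩ := lift_until differentiable_fb zero_le_one
    (γ := γ) (fun s _ => (hγ s).continuousAt.continuousWithinAt) isOpen_ball isBounded_ball
    (mem_ball_self (by norm_num : (0 : ℝ) < 3 / 2)) (by simp [γ])
    (fun z hz s hs h => norm_pos_iff.1 (lt_of_lt_of_le two_pos (hder z hz s hs h)))
  have hD : ∀ s ∈ Ioo 0 T, HasDerivAt β (d / deriv fb (β s)) s ∧
      ‖d / deriv fb (β s)‖ ≤ ‖d‖ / 2 := by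
    intro s hs
    have h1 : Icc 0 T ∈ 𝓝 s := Icc_mem_nhds hs.1 hs.2
    have h2 := hder _ (subset_closure (hβB s ⟨hs.1.le, hs.2⟩)) s ⟨hs.1.le, hs.2.le.trans hT.2⟩
      (hβγ s ⟨hs.1.le, hs.2.le⟩)
    refine ⟨lift_hasDerivAt differentiable_fb (hβ.continuousAt h1)
      (Filter.mem_of_superset h1 fun t ht => hβγ t ht) (hγ s)
      (norm_pos_iff.1 (lt_of_lt_of_le two_pos h2)), ?_⟩
    rw [norm_div]
    exact div_le_div_of_nonneg_left (norm_nonneg _) two_pos h2
  have hmv : ‖β T - β 0‖ ≤ ‖d‖ / 2 := by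
    have h1 := norm_sub_le_integral_of_norm_deriv_le_of_le (B := fun _ => ‖d‖ / 2) hT.1 hβ
      (fun s hs => (hD s hs).1.differentiableAt.differentiableWithinAt)
      (Filter.Eventually.of_forall fun s hs => by rw [(hD s hs).1.deriv]; exact (hD s hs).2)
      intervalIntegrable_const
    rw [intervalIntegral.integral_const, smul_eq_mul, sub_zero] at h1
    nlinarith [hT.1, hT.2, norm_nonneg d]
  rw [hβ0] at hmv
  rcases hend with ⟨rfl, -⟩ | h
  · refine ⟨β 1, ?_, hmv⟩
    rw [hβγ 1 ⟨zero_le_one, le_rfl⟩]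
    simp [γ, hd]
  · rw [frontier_ball w (by norm_num), mem_sphere_iff_norm] at h
    linarith

/-- Induction on `N`, for all `w`; for `N = 0` move vertically to a line. -/
theorem FFO.exists_goodN {w : ℂ} (hw : FFO w) (N : ℕ) :
    ∃ w', GoodN (N + 1) w' ∧ ‖w' - w‖ ≤ 2 / 2 ^ N := by
  induction N generalizing w with
  | zero =>
    have h1 := (xx_ge_of_fast (hw 0).1 (hw 0).2).2
    change 2 ≤ w.re at h1
    have hpi : 0 < Real.pi / 2 := by positivity
    let j : ℤ := ⌊w.im / (Real.pi / 2)⌋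
    have a1 : j * (Real.pi / 2) ≤ w.im := (le_div_iff₀ hpi).1 (Int.floor_le _)
    have a2 : w.im < (j + 1) * (Real.pi / 2) := (div_lt_iff₀ hpi).1 (Int.lt_floor_add_one _)
    obtain ⟨b1, b2⟩ := fb_mem_of_onLine (z := ⟨w.re, j * (Real.pi / 2)⟩) (onLine_iff.2 ⟨j, rfl⟩)
      (by change -2 ≤ w.re; linarith)
    refine ⟨⟨w.re, j * (Real.pi / 2)⟩, ⟨fun i hi => ?_, b1, ?_⟩, ?_⟩
    · obtain rfl : i = 0 := by omega
      change 0 ≤ w.re
      linarith
    · change -2 ≤ (fb _).re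
      linarith
    · refine (Complex.norm_le_abs_re_add_abs_im _).trans ?_
      simp only [Complex.sub_re, Complex.sub_im, sub_self, abs_zero, zero_add, pow_zero, div_one]
      rw [abs_le]
      constructor <;> linarith [Real.pi_le_four]
  | succ N ih =>
    obtain ⟨v, ⟨hv1, hv2⟩, hv3⟩ := ih (hw.iter 1)
    change ‖v - fb w‖ ≤ _ at hv3
    have h1 := (xx_ge_of_fast (hw 0).1 (hw 0).2).2
    change 2 ≤ w.re at h1
    have h2 : 30 ≤ ‖fb w‖ := bdyn_thirty_le (hw 0).1 (hw 0).2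
    have h3 : (2 : ℝ) / 2 ^ N ≤ 2 := div_le_self two_pos.le (one_le_pow₀ one_le_two)
    obtain ⟨w', h4, h5⟩ := exp_step h1 h2 (hv3.trans h3)
    refine ⟨w', ⟨fun i hi => ?_, ?_⟩, ?_⟩
    · cases i with
      | zero =>
        have a1 := (abs_le.1 ((Complex.abs_re_le_norm (w' - w)).trans h5)).1
        rw [Complex.sub_re] at a1
        change 0 ≤ w'.re
        linarith
      | succ i =>
        rw [Function.iterate_succ_apply, h4]
        exact hv1 i (by omega)
    · rw [Function.iterate_succ_apply, h4]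
      exact hv2
    · rw [pow_succ, ← div_div]
      linarith

/-- If `|Im w n| ≤ π / 2` and `|y n| ≤ 3 π / 2` for all `n`, then `two_mul_im_le` doubles the
bounded imaginary parts, so `Im w = 0`. -/
theorem FFO.cases {w : ℂ} (hw : FFO w) : w.im = 0 ∨ ∃ (n : ℕ) (v : ℂ),
    (v = fb^[n] w ∨ v = (starRingEnd ℂ) (fb^[n] w)) ∧
      (Real.pi / 2 < v.im ∨ (3 * Real.pi / 2 < yy v ∧ 0 < v.im ∧ v.im < Real.pi)) := by
  by_contra hcon
  rw [not_or] at hcon
  obtain ⟨h0, hn⟩ := hcon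
  have hpi := Real.pi_pos
  have h1 : ∀ n, |(fb^[n] w).im| ≤ Real.pi / 2 := by
    intro n
    rw [abs_le]
    constructor
    · by_contra h
      refine hn ⟨n, _, Or.inr rfl, Or.inl ?_⟩
      rw [Complex.conj_im]
      linarith
    · by_contra h
      exact hn ⟨n, _, Or.inl rfl, Or.inl (not_le.1 h)⟩
  have hpos : ∀ v : ℂ, |v.im| ≤ Real.pi / 2 → 3 * Real.pi / 2 < yy v →
      0 < v.im ∧ v.im < Real.pi := by
    intro v hv hy
    obtain ⟨a1, a2⟩ := abs_le.1 hv
    refine ⟨?_, by linarith⟩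
    by_contra h
    have a3 : Real.sin v.im ≤ 0 := Real.sin_nonpos_of_nonpos_of_neg_pi_le (not_lt.1 h) (by linarith)
    have a4 : yy v ≤ 0 := by
      unfold yy
      rw [Complex.exp_im]
      exact mul_nonpos_of_nonneg_of_nonpos (Real.exp_pos _).le a3
    linarith
  have h2 : ∀ n, |yy (fb^[n] w)| ≤ 3 * Real.pi / 2 := by
    intro n
    rw [abs_le]
    constructor
    · by_contra h
      have a1 : 3 * Real.pi / 2 < yy ((starRingEnd ℂ) (fb^[n] w)) := by
        rw [yy_conj]; linarith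
      exact hn ⟨n, _, Or.inr rfl, Or.inr ⟨a1, hpos _ (by
        rw [Complex.conj_im, abs_neg]; exact h1 n) a1⟩⟩
    · by_contra h
      exact hn ⟨n, _, Or.inl rfl, Or.inr ⟨not_le.1 h, hpos _ (h1 n) (not_le.1 h)⟩⟩
  have h3 : ∀ n, 2 ^ n * |w.im| ≤ |(fb^[n] w).im| := by
    intro n
    induction n with
    | zero => simp
    | succ n ih =>
      have a0 := hw n
      have a1 := hw (n + 1)
      have a2 := h1 (n + 1)
      rw [Function.iterate_succ_apply' fb (n + 1)] at a1
      rw [Function.iterate_succ_apply'] at a0 a1 a2 ⊢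
      have a3 := (xx_ge_of_fast a1.1 a1.2).2
      have a4 := bdyn_thirty_le a0.1 a0.2
      have a5 := Complex.norm_le_abs_re_add_abs_im (fb (fb^[n] w))
      rw [abs_of_nonneg (by linarith : 0 ≤ (fb (fb^[n] w)).re)] at a5
      have a6 := two_mul_im_le (h1 n) (h2 n) (xx_ge_of_fast a0.1 a0.2).1
        (by linarith [Real.pi_le_four])
      rw [pow_succ]
      linarith
  have h4 : 0 < |w.im| := abs_pos.2 h0
  obtain ⟨n, hn'⟩ := pow_unbounded_of_one_lt (Real.pi / 2 / |w.im|) (one_lt_two (α := ℝ))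
  rw [div_lt_iff₀ h4] at hn'
  linarith [h3 n, h1 n]

/-- `U₁ = {Re z < -2, π / 4 < Im z < 3 π / 4, G > 0}` is open; at a frontier point `G = 0`
(`GG_neg_left`, `GG_neg_diag`), so `fb z ∈ (-∞, -12]` and `z ∉ A`. The point `-12 + i π / 2` is in
`A ∩ U₁` and `0 ∈ A \ U₁`; use `subset_of_disjoint_frontier`. -/
theorem not_isPreconnected_AA : ¬ IsPreconnected AA := by
  intro hc
  have hpi := Real.pi_pos
  let U : Set ℂ := {z | z.re < -2 ∧ Real.pi / 4 < z.im ∧ z.im < 3 * Real.pi / 4 ∧ 0 < GG z}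
  let F : Set ℂ := {z | z.re ≤ -2 ∧ Real.pi / 4 ≤ z.im ∧ z.im ≤ 3 * Real.pi / 4 ∧ 0 ≤ GG z}
  have hU : IsOpen U :=
    (isOpen_lt Complex.continuous_re continuous_const).inter
      ((isOpen_lt continuous_const Complex.continuous_im).inter
        ((isOpen_lt Complex.continuous_im continuous_const).inter
          (isOpen_lt continuous_const continuous_GG)))
  have hF : IsClosed F :=
    (isClosed_le Complex.continuous_re continuous_const).inter
      ((isClosed_le continuous_const Complex.continuous_im).inter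
        ((isClosed_le Complex.continuous_im continuous_const).inter
          (isClosed_le continuous_const continuous_GG)))
  have hUF : closure U ⊆ F :=
    closure_minimal (fun z hz => ⟨hz.1.le, hz.2.1.le, hz.2.2.1.le, hz.2.2.2.le⟩) hF
  have hsub := subset_of_disjoint_frontier hc hU
    ⟨⟨-12, Real.pi / 2⟩, fb_mem_AA_iff.1 (TT_subset_AA fb_pt_mem_TT), by norm_num,
      by change _ < Real.pi / 2; linarith, by change Real.pi / 2 < _; linarith, GG_pos_pt⟩ (by
      rw [hU.frontier_eq, disjoint_left]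
      rintro z ⟨hz, hz'⟩ hA
      obtain ⟨a1, a2, a3, a4⟩ := hUF hz
      have b1 : z.re < -2 := lt_of_le_of_ne a1 fun h => by linarith [GG_neg_left h]
      have b2 : Real.pi / 4 < z.im :=
        lt_of_le_of_ne a2 fun h => by linarith [GG_neg_diag a1 (Or.inl h.symm)]
      have b3 : z.im < 3 * Real.pi / 4 :=
        lt_of_le_of_ne a3 fun h => by linarith [GG_neg_diag a1 (Or.inr h)]
      have b4 : GG z = 0 := le_antisymm (not_lt.1 fun h => hz' ⟨b1, b2, b3, h⟩) a4
      exact notMem_AA_of_neg (by rw [im_fb, b4, mul_zero]) (re_fb_le_of_GG_eq_zero a1 a2 a3 b4)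
        (fb_mem_AA_iff.2 hA))
  have h0 : (0 : ℂ) ∈ AA := TT_subset_AA ⟨rfl, by norm_num⟩
  have := (hsub h0).1
  norm_num at this

end Pool.Agent.Lib.MP_dbd176_an
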