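import Pool.Agent.Lib.MP_dbd176_an.BDefs

open Set Metric Filter Topology

namespace Pool.Agent.Lib.MP_dbd176_an

/-! Throughout `ζ = exp z = x + i y`, `r = ‖ζ‖ = exp (Re z)`, `u = exp (-2 z) = ζ ^ (-2)`,
`exp (-6 z) = u ^ 3`, `b = 1 / 1000`, `c = 1 / 10 ^ 20`, `cosh ζ = cosh x cos y + i sinh x sin y`,
`Im u = -2 x y / r ^ 4`, `‖u‖ = r ^ (-2)`, `Im (u ^ 3) = Im u (3 (Re u) ^ 2 - (Im u) ^ 2)`,
`Re (u ^ 3) = Re u ((Re u) ^ 2 - 3 (Im u) ^ 2)`. -/

theorem differentiable_fb : Differentiable ℂ fb := by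
  unfold fb; fun_prop

theorem best1_cosh (ζ : ℂ) : (Complex.cosh ζ).re = Real.cosh ζ.re * Real.cos ζ.im ∧
    (Complex.cosh ζ).im = Real.sinh ζ.re * Real.sin ζ.im := by
  have h : Complex.cosh ζ = (Real.cosh ζ.re * Real.cos ζ.im : ℝ) +
      (Real.sinh ζ.re * Real.sin ζ.im : ℝ) * Complex.I := by
    conv_lhs => rw [← Complex.re_add_im ζ]
    rw [Complex.cosh_add, Complex.cosh_mul_I, Complex.sinh_mul_I]
    push_cast
    ring
  rw [h]
  simp only [Complex.add_re, Complex.ofReal_re, Complex.mul_re, Complex.I_re, Complex.ofReal_im,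
    Complex.I_im, Complex.add_im, Complex.mul_im]
  constructor <;> ring

theorem best1_cube (z : ℂ) : Complex.exp (-6 * z) = Complex.exp (-2 * z) ^ 3 := by
  rw [← Complex.exp_nat_mul]
  congr 1
  push_cast
  ring

theorem best1_xx (z : ℂ) : xx z = Real.exp z.re * Real.cos z.im := Complex.exp_re z

theorem best1_yy (z : ℂ) : yy z = Real.exp z.re * Real.sin z.im := Complex.exp_im z

theorem best1_ure (z : ℂ) :
    (Complex.exp (-2 * z)).re = Real.exp (-2 * z.re) * Real.cos (2 * z.im) := by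
  rw [Complex.exp_re]
  simp

theorem best1_uim' (z : ℂ) :
    (Complex.exp (-2 * z)).im = - (Real.exp (-2 * z.re) * Real.sin (2 * z.im)) := by
  rw [Complex.exp_im]
  simp

theorem best1_uim (z : ℂ) :
    (Complex.exp (-2 * z)).im = -2 * (xx z * yy z) * Real.exp (-4 * z.re) := by
  have h : Real.exp (-2 * z.re) = Real.exp z.re * Real.exp z.re * Real.exp (-4 * z.re) := by
    rw [← Real.exp_add, ← Real.exp_add]
    congr 1
    ring
  rw [best1_uim', best1_xx, best1_yy, Real.sin_two_mul, h]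
  ring

theorem best1_usq (z : ℂ) : (Complex.exp (-2 * z)).re ^ 2 + (Complex.exp (-2 * z)).im ^ 2 =
    Real.exp (-4 * z.re) := by
  have h : Real.exp (-4 * z.re) = Real.exp (-2 * z.re) ^ 2 := by
    rw [← Real.exp_nat_mul]
    congr 1
    push_cast
    ring
  rw [best1_ure, best1_uim', h]
  linear_combination Real.exp (-2 * z.re) ^ 2 * Real.cos_sq_add_sin_sq (2 * z.im)

theorem best1_abs_xx (z : ℂ) : |xx z| ≤ Real.exp z.re := by
  rw [best1_xx, abs_mul, abs_of_pos (Real.exp_pos _)]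
  exact mul_le_of_le_one_right (Real.exp_pos _).le (Real.abs_cos_le_one _)

theorem best1_abs_yy (z : ℂ) : |yy z| ≤ Real.exp z.re := by
  rw [best1_yy, abs_mul, abs_of_pos (Real.exp_pos _)]
  exact mul_le_of_le_one_right (Real.exp_pos _).le (Real.abs_sin_le_one _)

theorem best1_cosh_le {x : ℝ} (hx : |x| ≤ 1) : Real.cosh x ≤ 19 / 10 := by
  have h1 : Real.cosh x ≤ Real.cosh 1 := Real.cosh_le_cosh.mpr (by simpa using hx)
  have h2 := Real.exp_one_lt_d9
  have h3 : Real.exp (-1) ≤ 1 := Real.exp_le_one_iff.mpr (by norm_num)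
  rw [Real.cosh_eq 1] at h1
  linarith

theorem best1_exp_ge (n : ℕ) : (27 / 10 : ℝ) ^ n ≤ Real.exp n := by
  rw [← Real.exp_one_pow]
  have := Real.exp_one_gt_d9
  gcongr
  linarith

theorem best1_exp_le (n : ℕ) : Real.exp n ≤ (68 / 25 : ℝ) ^ n := by
  rw [← Real.exp_one_pow]
  have := Real.exp_one_lt_d9
  gcongr
  linarith

theorem best1_sinc {y : ℝ} (hy : |y| ≤ 1) : 1 / 2 ≤ Real.sinc y := by
  have key : ∀ t : ℝ, 0 < t → t ≤ 1 → 1 / 2 ≤ Real.sinc t := by
    intro t h0 h1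
    rw [Real.sinc_of_ne_zero h0.ne', le_div_iff₀ h0]
    have := Real.sin_ge_sub_cube h0.le
    nlinarith [mul_pos h0 h0]
  rcases lt_trichotomy y 0 with h | h | h
  · rw [← Real.sinc_neg]
    exact key _ (by linarith) (by rw [abs_of_neg h] at hy; exact hy)
  · rw [h, Real.sinc_zero]; norm_num
  · exact key _ h (by rw [abs_of_pos h] at hy; exact hy)

theorem best1_pert {z : ℂ} (hz : -2 ≤ z.re) :
    ‖fb z - 10 - Complex.cosh (Complex.exp z)‖ ≤ 1 / 10 := by
  have h : fb z - 10 - Complex.cosh (Complex.exp z) =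
      1 / 1000 * Complex.exp (-2 * z) - 1 / 10 ^ 20 * Complex.exp (-6 * z) := by
    unfold fb; ring
  have h1 : ‖Complex.exp (-2 * z)‖ ≤ (68 / 25 : ℝ) ^ 4 := by
    rw [Complex.norm_exp]
    refine le_trans (Real.exp_le_exp.mpr ?_) (best1_exp_le 4)
    simp
    linarith
  have h2 : ‖Complex.exp (-6 * z)‖ ≤ (68 / 25 : ℝ) ^ 12 := by
    rw [Complex.norm_exp]
    refine le_trans (Real.exp_le_exp.mpr ?_) (best1_exp_le 12)
    simp
    linarith
  rw [h]
  refine (norm_sub_le _ _).trans ?_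
  rw [norm_mul, norm_mul]
  have e1 : ‖(1 / 1000 : ℂ)‖ = 1 / 1000 := by simp
  have e2 : ‖(1 / 10 ^ 20 : ℂ)‖ = 1 / 10 ^ 20 := by simp
  rw [e1, e2]
  norm_num at h1 h2 ⊢
  linarith

theorem best1_re {z : ℂ} (hz : -2 ≤ z.re) :
    |(fb z).re - 10 - Real.cosh (xx z) * Real.cos (yy z)| ≤ 1 / 10 := by
  have h := (Complex.abs_re_le_norm _).trans (best1_pert hz)
  rwa [Complex.sub_re, Complex.sub_re, (best1_cosh _).1] at h

/-- `fb` has period `π i` and is not constant, so it is not a polynomial: `p - p 0` would have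
infinitely many roots. For instance `fb 0 ≠ fb (π i / 2)` (real parts `> 11` and `< 11`). -/
theorem isTEF_fb : IsTEF fb := by
  refine ⟨differentiable_fb, ?_⟩
  rintro ⟨p, hp⟩
  have hper : ∀ n : ℕ, fb (n * (2 * Real.pi * Complex.I)) = fb 0 := by
    intro n
    have e : ∀ k : ℤ, Complex.exp (k * (n * (2 * Real.pi * Complex.I))) = 1 := by
      intro k
      rw [← Complex.exp_int_mul_two_pi_mul_I (k * n)]
      congr 1
      push_cast
      ring
    have e1 := e 1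
    have e2 := e (-2)
    have e6 := e (-6)
    push_cast at e1 e2 e6
    rw [one_mul] at e1
    simp only [fb, e1, e2, e6, mul_zero, Complex.exp_zero]
  have h0 : p - Polynomial.C (fb 0) = 0 := by
    apply Polynomial.eq_zero_of_infinite_isRoot
    refine Set.infinite_of_injective_forall_mem
      (f := fun n : ℕ => (n : ℂ) * (2 * Real.pi * Complex.I)) (fun a b hab => ?_) fun n => ?_
    · exact_mod_cast mul_right_cancel₀ Complex.two_pi_I_ne_zero hab
    · simp [← hp, hper]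
  have h1 : fb ⟨0, Real.pi / 2⟩ = fb 0 := by
    rw [hp, sub_eq_zero.mp h0, Polynomial.eval_C]
  have h2 := best1_re (z := ⟨0, Real.pi / 2⟩) (by norm_num)
  have h3 := best1_re (z := 0) (by norm_num)
  rw [h1] at h2
  simp only [best1_xx, best1_yy, Real.cos_pi_div_two, mul_zero, Real.cosh_zero, one_mul,
    Complex.zero_re, Complex.zero_im, Real.exp_zero, Real.cos_zero, Real.sin_zero,
    mul_one] at h2 h3
  have h4 := Real.cos_le_one (Real.sin (Real.pi / 2))
  have h5 := Real.exp_one_gt_d9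
  have h6 := Real.exp_pos (-1)
  rw [Real.cosh_eq] at h3
  have := abs_le.mp h2
  have := abs_le.mp h3
  linarith

theorem fb_conj (z : ℂ) : fb ((starRingEnd ℂ) z) = (starRingEnd ℂ) (fb z) := by
  have h : ∀ a : ℝ, Complex.exp (a * (starRingEnd ℂ) z) = (starRingEnd ℂ) (Complex.exp (a * z)) := by
    intro a
    rw [← Complex.exp_conj, map_mul, Complex.conj_ofReal]
  have h2 := h (-2)
  have h6 := h (-6)
  push_cast at h2 h6
  simp only [fb, h2, h6, Complex.exp_conj, Complex.cosh_conj, map_sub, map_add, map_mul, map_div₀,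
    map_one, map_pow, map_ofNat]

theorem continuous_xx : Continuous xx := by
  unfold xx; fun_prop

theorem continuous_yy : Continuous yy := by
  unfold yy; fun_prop

theorem yy_conj (z : ℂ) : yy ((starRingEnd ℂ) z) = - yy z := by
  simp [yy, Complex.exp_conj]

theorem onLine_iff {z : ℂ} : OnLine z ↔ ∃ j : ℤ, z.im = j * (Real.pi / 2) := by
  have h : xx z * yy z = Real.exp z.re ^ 2 / 2 * Real.sin (2 * z.im) := by
    rw [best1_xx, best1_yy, Real.sin_two_mul]; ring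
  rw [OnLine, h, mul_eq_zero, or_iff_right (by positivity), Real.sin_eq_zero_iff]
  constructor <;> rintro ⟨j, hj⟩ <;> exact ⟨j, by linarith⟩

theorem isClosed_onLine : IsClosed {z | OnLine z} :=
  isClosed_eq (continuous_xx.mul continuous_yy) continuous_const

theorem continuous_GG : Continuous GG := by
  have h : Continuous (dslope Real.sinh 0) := by
    rw [← continuousOn_univ, continuousOn_dslope univ_mem]
    exact ⟨Real.continuous_sinh.continuousOn, Real.differentiable_sinh 0⟩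
  have h1 := h.comp continuous_xx
  have h2 := Real.continuous_sinc.comp continuous_yy
  unfold GG
  exact (h1.mul h2).sub (by fun_prop)

theorem im_fb (z : ℂ) : (fb z).im = xx z * yy z * GG z := by
  have h1 : xx z * dslope Real.sinh 0 (xx z) = Real.sinh (xx z) := by
    have := sub_smul_dslope Real.sinh 0 (xx z)
    simpa using this
  have h2 : yy z * Real.sinc (yy z) = Real.sin (yy z) := by
    have := sub_smul_dslope Real.sin 0 (yy z)
    simpa [Real.sinc_eq_dslope] using this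
  have h3 := best1_uim z
  have h4 : (Complex.cosh (Complex.exp z)).im = Real.sinh (xx z) * Real.sin (yy z) :=
    (best1_cosh _).2
  have e1 : (1 / 1000 : ℂ) = ((1 / 1000 : ℝ) : ℂ) := by push_cast; rfl
  have e2 : (1 / 10 ^ 20 : ℂ) = ((1 / 10 ^ 20 : ℝ) : ℂ) := by push_cast; rfl
  rw [fb, e1, e2]
  simp only [GG, best1_cube, Complex.sub_im, Complex.add_im,
    Complex.im_ofNat, h4, pow_succ, pow_zero, one_mul, Complex.mul_im, Complex.mul_re, ← h1, ← h2,
    Complex.ofReal_re, Complex.ofReal_im]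
  generalize (Complex.exp (-2 * z)).re = u₁ at *
  generalize (Complex.exp (-2 * z)).im = u₂ at *
  linear_combination (1 / 1000 - 1 / 10 ^ 20 * (3 * u₁ ^ 2 - u₂ ^ 2)) * h3

theorem re_fb (z : ℂ) : (fb z).re = 10 + Real.cosh (xx z) * Real.cos (yy z) +
    (Complex.exp (-2 * z)).re * (1 / 1000 - 1 / 10 ^ 20 *
      ((Complex.exp (-2 * z)).re ^ 2 - 3 * (Complex.exp (-2 * z)).im ^ 2)) := by
  have h4 : (Complex.cosh (Complex.exp z)).re = Real.cosh (xx z) * Real.cos (yy z) :=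
    (best1_cosh _).1
  have e1 : (1 / 1000 : ℂ) = ((1 / 1000 : ℝ) : ℂ) := by push_cast; rfl
  have e2 : (1 / 10 ^ 20 : ℂ) = ((1 / 10 ^ 20 : ℝ) : ℂ) := by push_cast; rfl
  rw [fb, e1, e2]
  simp only [best1_cube, Complex.sub_re, Complex.add_re,
    Complex.re_ofNat, h4, pow_succ, pow_zero, one_mul, Complex.mul_im, Complex.mul_re,
    Complex.ofReal_re, Complex.ofReal_im]
  ring

/-- `1 ≤ sinh x / x`, and `sinh x / x ≤ cosh x`. -/
theorem dslope_sinh_bounds (x : ℝ) :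
    1 ≤ dslope Real.sinh 0 x ∧ dslope Real.sinh 0 x ≤ Real.cosh x := by
  have key : ∀ t : ℝ, 0 < t → 1 ≤ Real.sinh t / t ∧ Real.sinh t / t ≤ Real.cosh t := by
    intro t ht
    refine ⟨(one_le_div ht).mpr (Real.self_le_sinh_iff.mpr ht.le), ?_⟩
    obtain ⟨ξ, hξ, h⟩ := exists_hasDerivAt_eq_slope Real.sinh Real.cosh ht
      Real.continuous_sinh.continuousOn fun x _ => Real.hasDerivAt_sinh x
    simp only [Real.sinh_zero, sub_zero] at h
    rw [← h, Real.cosh_le_cosh, abs_of_pos hξ.1, abs_of_pos ht]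
    exact hξ.2.le
  rcases lt_trichotomy x 0 with h | h | h
  · have := key (-x) (by linarith)
    rw [Real.sinh_neg, Real.cosh_neg, neg_div_neg_eq] at this
    rw [dslope_of_ne _ h.ne, slope_def_field]
    simpa using this
  · subst h
    simp
  · rw [dslope_of_ne _ h.ne', slope_def_field]
    simpa using key x h

/-- On `Re z = -2`: the first term is at most `cosh 1 < 2`, the second at least
`2 exp 8 (b - 3 c exp 8) > 2`. -/
theorem GG_neg_left {z : ℂ} (hz : z.re = -2) : GG z < 0 := by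
  have hx : |xx z| ≤ 1 := (best1_abs_xx z).trans (Real.exp_le_one_iff.mpr (by linarith))
  have hy : |yy z| ≤ 1 := (best1_abs_yy z).trans (Real.exp_le_one_iff.mpr (by linarith))
  have hS := dslope_sinh_bounds (xx z)
  have hc := best1_cosh_le hx
  have hs1 := best1_sinc hy
  have hs2 := Real.sinc_le_one (yy z)
  have hm1 : dslope Real.sinh 0 (xx z) * Real.sinc (yy z) ≤ 19 / 10 := by nlinarith
  have hm2 : 1 / 2 ≤ dslope Real.sinh 0 (xx z) * Real.sinc (yy z) := by nlinarith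
  have hu := best1_usq z
  have e : -4 * z.re = (8 : ℕ) := by rw [hz]; norm_num
  have h1 := best1_exp_ge 8
  have h2 := best1_exp_le 8
  rw [GG]
  rw [e] at hu ⊢
  generalize Real.exp (8 : ℕ) = E at *
  generalize (Complex.exp (-2 * z)).re = u₁ at *
  generalize (Complex.exp (-2 * z)).im = u₂ at *
  have h3 : 9 / 10000 ≤ 1 / 1000 - 1 / 10 ^ 20 * (3 * u₁ ^ 2 - u₂ ^ 2) := by
    norm_num at h2 ⊢
    nlinarith [sq_nonneg u₂]
  norm_num at h1
  nlinarith

/-- On `Re z = 0`: `|y| ≤ 1`, so `sinc y ≥ 1 / 2`, and the second term is at most `1 / 100`. -/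
theorem GG_pos_right {z : ℂ} (hz : z.re = 0) : 0 < GG z := by
  have hx : |xx z| ≤ 1 := (best1_abs_xx z).trans (Real.exp_le_one_iff.mpr (by linarith))
  have hy : |yy z| ≤ 1 := (best1_abs_yy z).trans (Real.exp_le_one_iff.mpr (by linarith))
  have hS := dslope_sinh_bounds (xx z)
  have hc := best1_cosh_le hx
  have hs1 := best1_sinc hy
  have hs2 := Real.sinc_le_one (yy z)
  have hm1 : dslope Real.sinh 0 (xx z) * Real.sinc (yy z) ≤ 19 / 10 := by nlinarith
  have hm2 : 1 / 2 ≤ dslope Real.sinh 0 (xx z) * Real.sinc (yy z) := by nlinarith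
  have hu := best1_usq z
  rw [GG]
  rw [hz, mul_zero, Real.exp_zero] at hu ⊢
  nlinarith [sq_nonneg (Complex.exp (-2 * z)).re]

/-- On these lines `Re u = 0`. -/
theorem GG_neg_diag {z : ℂ} (hz : z.re ≤ -2)
    (h : z.im = Real.pi / 4 ∨ z.im = 3 * Real.pi / 4) : GG z < 0 := by
  have hx : |xx z| ≤ 1 := (best1_abs_xx z).trans (Real.exp_le_one_iff.mpr (by linarith))
  have hy : |yy z| ≤ 1 := (best1_abs_yy z).trans (Real.exp_le_one_iff.mpr (by linarith))
  have hS := dslope_sinh_bounds (xx z)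
  have hc := best1_cosh_le hx
  have hs1 := best1_sinc hy
  have hs2 := Real.sinc_le_one (yy z)
  have hm1 : dslope Real.sinh 0 (xx z) * Real.sinc (yy z) ≤ 19 / 10 := by nlinarith
  have hm2 : 1 / 2 ≤ dslope Real.sinh 0 (xx z) * Real.sinc (yy z) := by nlinarith
  have hu := best1_usq z
  have h0 : (Complex.exp (-2 * z)).re = 0 := by
    rw [best1_ure]
    rcases h with h | h <;> rw [h]
    · rw [show 2 * (Real.pi / 4) = Real.pi / 2 by ring, Real.cos_pi_div_two, mul_zero]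
    · rw [show 2 * (3 * Real.pi / 4) = Real.pi / 2 + Real.pi by ring, Real.cos_add_pi,
        Real.cos_pi_div_two, neg_zero, mul_zero]
  have h1 : (27 / 10 : ℝ) ^ 8 ≤ Real.exp (-4 * z.re) :=
    (best1_exp_ge 8).trans (Real.exp_le_exp.mpr (by push_cast; linarith))
  rw [GG, h0]
  generalize Real.exp (-4 * z.re) = E at *
  generalize (Complex.exp (-2 * z)).im = u₂ at *
  have h3 : 1 / 1000 ≤ 1 / 1000 - 1 / 10 ^ 20 * (3 * (0 : ℝ) ^ 2 - u₂ ^ 2) := by
    nlinarith [sq_nonneg u₂]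
  norm_num at h1
  nlinarith

/-- Here `Re u ≤ 0`, `0 ≤ y ≤ 1`. From `G = 0`: `b = c (3 u₁ ^ 2 - u₂ ^ 2) + d` with
`0 ≤ d ≤ exp (-8) < b / 2`, so `3 c u₁ ^ 2 ≥ b / 2`, `u₁ ≤ - 10 ^ 8`, and
`b - c u₁ ^ 2 + 3 c u₂ ^ 2 = 2 c u₁ ^ 2 + 2 c u₂ ^ 2 + d ≥ b / 3`. -/
theorem re_fb_le_of_GG_eq_zero {z : ℂ} (hz : z.re ≤ -2) (h₁ : Real.pi / 4 ≤ z.im)
    (h₂ : z.im ≤ 3 * Real.pi / 4) (hG : GG z = 0) : (fb z).re ≤ -12 := by
  have hx : |xx z| ≤ 1 := (best1_abs_xx z).trans (Real.exp_le_one_iff.mpr (by linarith))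
  have hy : |yy z| ≤ 1 := (best1_abs_yy z).trans (Real.exp_le_one_iff.mpr (by linarith))
  have hS := dslope_sinh_bounds (xx z)
  have hc := best1_cosh_le hx
  have hs1 := best1_sinc hy
  have hs2 := Real.sinc_le_one (yy z)
  have hm1 : dslope Real.sinh 0 (xx z) * Real.sinc (yy z) ≤ 19 / 10 := by nlinarith
  have hm2 : 1 / 2 ≤ dslope Real.sinh 0 (xx z) * Real.sinc (yy z) := by nlinarith
  have hu := best1_usq z
  have h0 : (Complex.exp (-2 * z)).re ≤ 0 := by
    rw [best1_ure]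
    exact mul_nonpos_of_nonneg_of_nonpos (Real.exp_pos _).le
      (Real.cos_nonpos_of_pi_div_two_le_of_le (by linarith) (by linarith))
  have h1 : (27 / 10 : ℝ) ^ 8 ≤ Real.exp (-4 * z.re) :=
    (best1_exp_ge 8).trans (Real.exp_le_exp.mpr (by push_cast; linarith))
  have hcc : Real.cosh (xx z) * Real.cos (yy z) ≤ 19 / 10 := by
    nlinarith [Real.cos_le_one (yy z), Real.cosh_pos (xx z)]
  rw [GG] at hG
  rw [re_fb]
  generalize Real.exp (-4 * z.re) = E at *
  generalize (Complex.exp (-2 * z)).re = u₁ at *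
  generalize (Complex.exp (-2 * z)).im = u₂ at *
  set d := 1 / 1000 - 1 / 10 ^ 20 * (3 * u₁ ^ 2 - u₂ ^ 2) with hd
  norm_num at h1
  have d0 : 0 ≤ d := by
    by_contra hcon
    push Not at hcon
    nlinarith
  have d1 : d ≤ 6 / 10000 := by
    by_contra hcon
    push Not at hcon
    nlinarith
  have u1 : (10 ^ 8 : ℝ) ^ 2 ≤ u₁ ^ 2 := by nlinarith [sq_nonneg u₂]
  have u2 : u₁ ≤ -10 ^ 8 := by
    have := abs_le_abs (a := (10 : ℝ) ^ 8) (b := u₁)
    by_contra hcon
    push Not at hcon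
    nlinarith
  have u3 : 1 / 10000 ≤ 1 / 1000 - 1 / 10 ^ 20 * (u₁ ^ 2 - 3 * u₂ ^ 2) := by
    nlinarith [sq_nonneg u₂]
  nlinarith

/-- At `z = -12 + i π / 2`: `x = 0`, `u = - exp 24`, `exp 48 > 10 ^ 20`. -/
theorem GG_pos_pt : 0 < GG ⟨-12, Real.pi / 2⟩ := by
  have e1 : (Complex.exp (-2 * (⟨-12, Real.pi / 2⟩ : ℂ))).re = - Real.exp 24 := by
    rw [best1_ure, show 2 * (Real.pi / 2) = Real.pi by ring, Real.cos_pi]
    norm_num
  have e2 : (Complex.exp (-2 * (⟨-12, Real.pi / 2⟩ : ℂ))).im = 0 := by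
    rw [best1_uim', show 2 * (Real.pi / 2) = Real.pi by ring, Real.sin_pi]
    norm_num
  have e3 : xx ⟨-12, Real.pi / 2⟩ = 0 := by simp [best1_xx]
  have e4 : (10 : ℝ) ^ 9 ≤ Real.exp 24 := by
    have := best1_exp_ge 24
    norm_num at this ⊢
    linarith
  have hy : |yy ⟨-12, Real.pi / 2⟩| ≤ 1 :=
    (best1_abs_yy _).trans (Real.exp_le_one_iff.mpr (by norm_num))
  have hs1 := best1_sinc hy
  have hS := (dslope_sinh_bounds 0).1
  have hE := Real.exp_pos (-4 * (⟨-12, Real.pi / 2⟩ : ℂ).re)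
  rw [GG, e1, e2, e3]
  have h3 : 1 / 1000 - 1 / 10 ^ 20 * (3 * (-Real.exp 24) ^ 2 - (0 : ℝ) ^ 2) ≤ 0 := by nlinarith
  nlinarith

theorem fb_pt_mem_TT : fb ⟨-12, Real.pi / 2⟩ ∈ TT := by
  have e1 : (Complex.exp (-2 * (⟨-12, Real.pi / 2⟩ : ℂ))).re = - Real.exp 24 := by
    rw [best1_ure, show 2 * (Real.pi / 2) = Real.pi by ring, Real.cos_pi]
    norm_num
  have e2 : (Complex.exp (-2 * (⟨-12, Real.pi / 2⟩ : ℂ))).im = 0 := by
    rw [best1_uim', show 2 * (Real.pi / 2) = Real.pi by ring, Real.sin_pi]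
    norm_num
  have e3 : xx ⟨-12, Real.pi / 2⟩ = 0 := by simp [best1_xx]
  have e4 : (10 : ℝ) ^ 9 ≤ Real.exp 24 := by
    have := best1_exp_ge 24
    norm_num at this ⊢
    linarith
  refine ⟨by rw [im_fb, e3, zero_mul, zero_mul], ?_⟩
  rw [re_fb, e1, e2, e3, Real.cosh_zero]
  have h3 : 1 / 1000 - 1 / 10 ^ 20 * ((-Real.exp 24) ^ 2 - 3 * (0 : ℝ) ^ 2) ≤ 0 := by nlinarith
  nlinarith [Real.neg_one_le_cos (yy ⟨-12, Real.pi / 2⟩)]

/-- If `|sin y| ≥ 1 / 2` then `r ≥ |y| ≥ 1 / 2`, `|sinh x| ≥ |x|`, and the imaginary part of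
`b u - c u ^ 3` is at most `|x| / 4` in modulus. -/
theorem im_fb_sign {z : ℂ} (hs : 1 / 2 ≤ |Real.sin (yy z)|) (hx : xx z ≠ 0) :
    0 < (fb z).im * xx z * Real.sin (yy z) := by
  have h2 : yy z * Real.sinc (yy z) = Real.sin (yy z) := by
    have := sub_smul_dslope Real.sin 0 (yy z)
    simpa [Real.sinc_eq_dslope] using this
  have hS := (dslope_sinh_bounds (xx z)).1
  have hu := best1_usq z
  have hr : 1 / 2 ≤ Real.exp z.re := hs.trans (Real.abs_sin_le_abs.trans (best1_abs_yy z))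
  have hE : Real.exp (-4 * z.re) * Real.exp z.re ^ 4 = 1 := by
    rw [← Real.exp_nat_mul, ← Real.exp_add]
    simp
  have hE0 := Real.exp_pos (-4 * z.re)
  have hy := best1_abs_yy z
  have hE1 : Real.exp (-4 * z.re) * Real.exp z.re ≤ 8 := by
    have : (1 / 2 : ℝ) ^ 3 ≤ Real.exp z.re ^ 3 := by gcongr
    have h3 : 0 < Real.exp (-4 * z.re) * Real.exp z.re := by positivity
    nlinarith
  have hE2 : Real.exp (-4 * z.re) ≤ 16 := by nlinarith
  rw [im_fb, GG]
  generalize Real.exp (-4 * z.re) = E at *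
  generalize (Complex.exp (-2 * z)).re = u₁ at *
  generalize (Complex.exp (-2 * z)).im = u₂ at *
  set d := 1 / 1000 - 1 / 10 ^ 20 * (3 * u₁ ^ 2 - u₂ ^ 2) with hd
  have d1 : |d| ≤ 1 / 500 := by
    rw [abs_le]
    constructor <;> nlinarith [sq_nonneg u₁, sq_nonneg u₂]
  have d2 : |yy z * (2 * E * d)| ≤ 1 / 4 := by
    rw [abs_mul, abs_mul, abs_of_pos (by positivity : 0 < 2 * E)]
    have : |yy z| * E ≤ 8 := by nlinarith
    nlinarith [abs_nonneg d, abs_nonneg (yy z)]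
  have d3 : yy z * (2 * E * d) * Real.sin (yy z) ≤ 1 / 4 * |Real.sin (yy z)| := by
    refine (le_abs_self _).trans ?_
    rw [abs_mul]
    gcongr
  have d4 : Real.sin (yy z) ^ 2 = |Real.sin (yy z)| ^ 2 := (sq_abs _).symm
  have d5 : 0 < dslope Real.sinh 0 (xx z) * Real.sin (yy z) ^ 2 -
      yy z * (2 * E * d) * Real.sin (yy z) := by nlinarith
  have d6 : 0 < xx z ^ 2 := by positivity
  have d7 := mul_pos d6 d5
  calc 0 < _ := d7
    _ = _ := by linear_combination (-(xx z ^ 2 * dslope Real.sinh 0 (xx z) * Real.sin (yy z))) * h2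

/-- For `Re z ≥ -2` the perturbation is small. -/
theorem norm_pert_le {z : ℂ} (hz : -2 ≤ z.re) :
    ‖fb z - 10 - Complex.cosh (Complex.exp z)‖ ≤ 1 / 10 := by
  exact best1_pert hz

theorem fb_mem_of_onLine {z : ℂ} (h : OnLine z) (hz : -2 ≤ z.re) :
    (fb z).im = 0 ∧ 8 ≤ (fb z).re := by
  refine ⟨by rw [im_fb, h, zero_mul], ?_⟩
  have h1 := abs_le.mp (best1_re hz)
  rcases mul_eq_zero.mp h with h2 | h2 <;> rw [h2] at h1
  · rw [Real.cosh_zero] at h1
    linarith [Real.neg_one_le_cos (yy z)]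
  · rw [Real.cos_zero] at h1
    linarith [Real.one_le_cosh (xx z)]

theorem re_fb_rect {z : ℂ} (h₁ : -2 ≤ z.re) (h₂ : z.re ≤ 0) : 8 ≤ (fb z).re := by
  have hx : |xx z| ≤ 1 := (best1_abs_xx z).trans (Real.exp_le_one_iff.mpr h₂)
  have hc := best1_cosh_le hx
  have h1 := abs_le.mp (best1_re h₁)
  nlinarith [Real.neg_one_le_cos (yy z), Real.cosh_pos (xx z)]

/-- `|cosh x cos y| ≤ 1 / 10` forces `|sin y| ≥ 1 / 2`; then `im_fb_sign`. -/
theorem onLine_of_fb_eq {z : ℂ} (hz : -2 ≤ z.re) (h : fb z = 10) : OnLine z := by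
  have h1 := best1_re hz
  rw [h, Complex.re_ofNat, sub_self, zero_sub, abs_neg, abs_mul,
    abs_of_pos (Real.cosh_pos _)] at h1
  have h2 : |Real.cos (yy z)| ≤ 1 / 10 := by
    nlinarith [Real.one_le_cosh (xx z), abs_nonneg (Real.cos (yy z))]
  have h3 : 1 / 2 ≤ |Real.sin (yy z)| := by
    have e1 := Real.sin_sq_add_cos_sq (yy z)
    rw [← sq_abs (Real.sin _), ← sq_abs (Real.cos _)] at e1
    nlinarith [abs_nonneg (Real.cos (yy z)), abs_nonneg (Real.sin (yy z))]
  by_cases hx : xx z = 0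
  · rw [OnLine, hx, zero_mul]
  · have := im_fb_sign h3 hx
    simp [h] at this

end Pool.Agent.Lib.MP_dbd176_an
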