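import Pool.Agent.Lib.MP_dbd176_an.Pre

open Set Metric Filter Topology

namespace Pool.Agent.Lib.MP_dbd176_an

variable {f : ℂ → ℂ}

theorem exists_norm_eq_maxMod (hf : Continuous f) {r : ℝ} (hr : 0 ≤ r) :
    ∃ ζ : ℂ, ‖ζ‖ = r ∧ ‖f ζ‖ = maxMod f r := by
  have hne : (sphere (0 : ℂ) r).Nonempty := NormedSpace.sphere_nonempty.2 hr
  obtain ⟨ζ, hζ, hmax⟩ := (isCompact_sphere (0 : ℂ) r).exists_sSup_image_eq hne
    (f := fun z => ‖f z‖) hf.norm.continuousOn
  exact ⟨ζ, by simpa using hζ, hmax.symm⟩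

/-- Maximum principle (`Complex.norm_le_of_forall_mem_frontier_norm_le`). -/
theorem norm_le_maxMod (hf : Differentiable ℂ f) {r : ℝ} {z : ℂ} (hz : ‖z‖ ≤ r) :
    ‖f z‖ ≤ maxMod f r := by
  have hs : ∀ w ∈ sphere (0 : ℂ) r, ‖f w‖ ≤ maxMod f r := fun w hw =>
    le_csSup ((isCompact_sphere (0 : ℂ) r).image hf.continuous.norm).bddAbove ⟨w, hw, rfl⟩
  rcases hz.lt_or_eq with h | h
  · have hr : r ≠ 0 := ((norm_nonneg z).trans_lt h).ne'
    refine Complex.norm_le_of_forall_mem_frontier_norm_le (U := ball 0 r) isBounded_ball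
      hf.diffContOnCl ?_ (subset_closure (by simpa using h))
    rw [frontier_ball _ hr]
    exact hs
  · exact hs z (by simpa using h)

/-- Strict form: `f '' ball 0 r` is open and lies in the closed disc of radius `M r`. -/
theorem Ent.norm_lt_maxMod (hf : Ent f) {r : ℝ} {z : ℂ} (hz : ‖z‖ < r) :
    ‖f z‖ < maxMod f r := by
  have ho : IsOpen (f '' ball 0 r) := hf.opn _ isOpen_ball
  have hsub : f '' ball 0 r ⊆ closedBall 0 (maxMod f r) := by
    rintro _ ⟨w, hw, rfl⟩
    simpa using norm_le_maxMod hf.diff (le_of_lt (by simpa using hw))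
  have h1 := interior_maximal hsub ho ⟨z, by simpa using hz, rfl⟩
  rw [interior_closedBall'] at h1
  simpa using h1

theorem maxMod_nonneg (hf : Differentiable ℂ f) {r : ℝ} (hr : 0 ≤ r) : 0 ≤ maxMod f r := by
  exact (norm_nonneg _).trans (norm_le_maxMod hf (z := 0) (by simpa using hr))

theorem maxMod_mono (hf : Differentiable ℂ f) {r r' : ℝ} (hr : 0 ≤ r) (h : r ≤ r') :
    maxMod f r ≤ maxMod f r' := by
  obtain ⟨ζ, h1, h2⟩ := exists_norm_eq_maxMod hf.continuous hr
  rw [← h2]
  exact norm_le_maxMod hf (h1.trans_le h)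

theorem maxMod_iter_nonneg (hf : Differentiable ℂ f) {r : ℝ} (hr : 0 ≤ r) (n : ℕ) :
    0 ≤ (maxMod f)^[n] r := by
  induction n with
  | zero => exact hr
  | succ n ih => rw [Function.iterate_succ_apply']; exact maxMod_nonneg hf ih

theorem maxMod_iter_mono (hf : Differentiable ℂ f) {r r' : ℝ} (hr : 0 ≤ r) (h : r ≤ r') (n : ℕ) :
    (maxMod f)^[n] r ≤ (maxMod f)^[n] r' := by
  induction n with
  | zero => exact h
  | succ n ih =>
    rw [Function.iterate_succ_apply', Function.iterate_succ_apply']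
    exact maxMod_mono hf (maxMod_iter_nonneg hf hr n) ih

theorem norm_iter_le_maxMod (hf : Differentiable ℂ f) {r : ℝ} {z : ℂ} (hz : ‖z‖ ≤ r) (n : ℕ) :
    ‖f^[n] z‖ ≤ (maxMod f)^[n] r := by
  induction n with
  | zero => exact hz
  | succ n ih =>
    rw [Function.iterate_succ_apply', Function.iterate_succ_apply']
    exact norm_le_maxMod hf ih

theorem Ent.norm_iter_lt_maxMod (hf : Ent f) {r : ℝ} {z : ℂ} (hz : ‖z‖ < r) (n : ℕ) :
    ‖f^[n] z‖ < (maxMod f)^[n] r := by
  induction n with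
  | zero => exact hz
  | succ n ih =>
    rw [Function.iterate_succ_apply', Function.iterate_succ_apply']
    exact hf.norm_lt_maxMod ih

/-- `M r / r ^ k → ∞` for transcendental `f`. Otherwise `M r ≤ C r ^ k` for arbitrarily large
`r`, and the Cauchy estimates (`Complex.norm_iteratedDeriv_le_of_forall_mem_sphere_norm_le` at
any centre, or induction on `k` with `dslope f 0` and Liouville) make `f` a polynomial. -/
theorem IsTEF.tendsto_maxMod_div (hf : IsTEF f) (k : ℕ) :
    Tendsto (fun r : ℝ => maxMod f r / r ^ k) atTop atTop := by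
  by_contra hcon
  rw [Filter.tendsto_atTop] at hcon
  push Not at hcon
  obtain ⟨C, hC⟩ := hcon
  have hzero : ∀ n, k < n → iteratedDeriv n f 0 = 0 := by
    intro n hn
    have hlim : Tendsto (fun r : ℝ => (n.factorial : ℝ) * C * (r ^ (n - k))⁻¹) atTop (𝓝 0) := by
      have := (tendsto_inv_atTop_zero.comp
        (tendsto_pow_atTop (α := ℝ) (n := n - k) (by omega))).const_mul ((n.factorial : ℝ) * C)
      simpa using this
    have hfr : ∃ᶠ r : ℝ in atTop, ‖iteratedDeriv n f 0‖ ≤
        (n.factorial : ℝ) * C * (r ^ (n - k))⁻¹ := by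
      refine (hC.and_eventually (eventually_gt_atTop 0)).mono ?_
      rintro r ⟨h1, hr⟩
      have h2 := Complex.norm_iteratedDeriv_le_of_forall_mem_sphere_norm_le (c := 0) (f := f)
        (C := maxMod f r) n hr hf.1.diffContOnCl
        (fun z hz => norm_le_maxMod hf.1 (le_of_eq (by simpa using hz)))
      refine h2.trans ?_
      have h3 : maxMod f r ≤ C * r ^ k := ((div_lt_iff₀ (pow_pos hr k)).1 h1).le
      have h4 : r ^ n = r ^ k * r ^ (n - k) := by rw [← pow_add]; congr 1; omega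
      rw [div_le_iff₀ (pow_pos hr n), h4]
      have h5 : (0 : ℝ) < r ^ (n - k) := pow_pos hr _
      calc (n.factorial : ℝ) * maxMod f r ≤ n.factorial * (C * r ^ k) := by gcongr
        _ = _ := by field_simp
    have := ge_of_tendsto_of_frequently hlim hfr
    exact norm_le_zero_iff.1 this
  apply hf.2
  refine ⟨∑ n ∈ Finset.range (k + 1),
    Polynomial.C ((n.factorial : ℂ)⁻¹ * iteratedDeriv n f 0) * Polynomial.X ^ n, fun z => ?_⟩
  rw [← Complex.taylorSeries_eq_of_entire' (c := 0) (z := z) hf.1,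
    tsum_eq_sum (s := Finset.range (k + 1))]
  · simp [Polynomial.eval_finsetSum]
  · intro n hn
    rw [hzero n (by simpa [Nat.lt_succ_iff] using hn)]
    simp

/-- With `φ r = M r / r ^ k`, the maximum principle for `f z / z ^ k` on the annulus
`1 < ‖z‖ < r'` gives `φ r ≤ max (φ 1) (φ r')`; take `r₀` with `φ > φ 1` on `[r₀, ∞)`. -/
theorem IsTEF.maxMod_ratio (hf : IsTEF f) (k : ℕ) :
    ∃ r₀ : ℝ, 0 < r₀ ∧ ∀ r r', r₀ ≤ r → r ≤ r' → maxMod f r * (r' / r) ^ k ≤ maxMod f r' := by
  obtain ⟨x, hx⟩ := eventually_atTop.1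
    ((hf.tendsto_maxMod_div k).eventually (eventually_gt_atTop (maxMod f 1)))
  refine ⟨max x 2, by positivity, fun r r' hr hrr' => ?_⟩
  have hr2 : 2 ≤ r := (le_max_right _ _).trans hr
  have hr0 : 0 < r := by linarith
  have hr0' : 0 < r' := by linarith
  obtain ⟨ζ, h1, h2⟩ := exists_norm_eq_maxMod hf.1.continuous hr0.le
  set U : Set ℂ := ball 0 r' \ closedBall 0 1 with hU
  have hcl : closure U ⊆ closedBall 0 r' \ ball 0 1 := by
    refine closure_minimal ?_ (isClosed_closedBall.sdiff isOpen_ball)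
    exact fun z hz => ⟨ball_subset_closedBall hz.1, fun h => hz.2 (ball_subset_closedBall h)⟩
  have hUo : IsOpen U := isOpen_ball.sdiff isClosed_closedBall
  have hd : DifferentiableOn ℂ (fun z => f z / z ^ k) (closure U) := by
    refine DifferentiableOn.div hf.1.differentiableOn (differentiable_pow k).differentiableOn ?_
    intro z hz h0
    have h3 := (hcl hz).2
    rw [pow_eq_zero_iff'] at h0
    exact h3 (by simp [h0.1])
  have hbd : ∀ z ∈ frontier U, ‖f z / z ^ k‖ ≤ max (maxMod f 1) (maxMod f r' / r' ^ k) := by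
    intro z hz
    rw [hUo.frontier_eq] at hz
    obtain ⟨hz1, hz2⟩ := hz
    obtain ⟨h3, h4⟩ := hcl hz1
    simp only [mem_closedBall, dist_zero_right, mem_ball, not_lt] at h3 h4
    rw [norm_div, norm_pow]
    rcases h4.lt_or_eq with h5 | h5
    · have h6 : ‖z‖ = r' := by
        by_contra hne
        exact hz2 ⟨by simpa using lt_of_le_of_ne h3 hne, by simpa using h5⟩
      refine le_max_of_le_right ?_
      rw [h6]
      exact div_le_div_of_nonneg_right (norm_le_maxMod hf.1 h3) (pow_pos hr0' k).le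
    · refine le_max_of_le_left ?_
      rw [← h5, one_pow, div_one]
      exact norm_le_maxMod hf.1 h5.ge
  have key : maxMod f r / r ^ k ≤ maxMod f r' / r' ^ k := by
    rcases hrr'.lt_or_eq with h | h
    · have h7 := Complex.norm_le_of_forall_mem_frontier_norm_le (U := U)
        (isBounded_ball.subset sdiff_subset) hd.diffContOnCl hbd (z := ζ)
        (subset_closure ⟨by simpa [h1] using h, by simp [h1]; linarith⟩)
      rw [norm_div, norm_pow, h1, h2] at h7
      rcases le_max_iff.1 h7 with h8 | h8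
      · exact absurd (hx r ((le_max_left _ _).trans hr)) (not_lt.2 h8)
      · exact h8
    · rw [h]
  rw [div_le_div_iff₀ (pow_pos hr0 k) (pow_pos hr0' k)] at key
  rw [div_pow, ← mul_div_assoc, div_le_iff₀ (pow_pos hr0 k)]
  exact key

theorem IsTEF.exists_big (hf : IsTEF f) : ∃ R, Big f R := by
  obtain ⟨x, hx⟩ := eventually_atTop.1
    ((hf.tendsto_maxMod_div 1).eventually (eventually_gt_atTop 1))
  refine ⟨max x 1, by positivity, fun r hr => ?_⟩
  have h0 : 0 < r := lt_of_lt_of_le one_pos ((le_max_right _ _).trans hr)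
  have := hx r ((le_max_left _ _).trans hr)
  rwa [pow_one, one_lt_div h0] at this

theorem IsTEF.big_of_lt (hf : IsTEF f) {R : ℝ} (hR : Rf f < R) : Big f R := by
  obtain ⟨R₀, h₀, h₁⟩ := exists_lt_of_csInf_lt hf.exists_big hR
  exact Big.mono h₀ h₁.le

theorem Big.le_iter {R : ℝ} (hR : Big f R) (n : ℕ) : R ≤ (maxMod f)^[n] R := by
  induction n with
  | zero => exact le_rfl
  | succ n ih => rw [Function.iterate_succ_apply']; exact ih.trans (hR.2 _ ih).le

theorem Big.iter {R : ℝ} (hR : Big f R) (n : ℕ) : Big f ((maxMod f)^[n] R) :=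
  hR.mono (hR.le_iter n)

theorem Big.monotone_iter {R : ℝ} (hR : Big f R) : Monotone fun n : ℕ => (maxMod f)^[n] R := by
  refine monotone_nat_of_le_succ fun n => ?_
  rw [Function.iterate_succ_apply']
  exact (hR.2 _ (hR.le_iter n)).le

/-- If the increasing sequence `r n = M^n R` had a finite limit `r`, then `‖f z‖ ≤ r` whenever
`‖z‖ < r`, hence whenever `‖z‖ ≤ r`, so `M r ≤ r`. -/
theorem Big.tendsto_iter (hf : Differentiable ℂ f) {R : ℝ} (hR : Big f R) :
    Tendsto (fun n : ℕ => (maxMod f)^[n] R) atTop atTop := by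
  refine tendsto_atTop_atTop_of_monotone' hR.monotone_iter fun hb => ?_
  set L : ℝ := ⨆ n : ℕ, (maxMod f)^[n] R with hL
  have hle : ∀ n, (maxMod f)^[n] R ≤ L := fun n => le_ciSup hb n
  have hRL : R ≤ L := hle 0
  have hL0 : 0 < L := hR.1.trans_le hRL
  have h1 : ∀ z ∈ ball (0 : ℂ) L, ‖f z‖ ≤ L := by
    intro z hz
    obtain ⟨n, hn⟩ := exists_lt_of_lt_ciSup (show ‖z‖ < L by simpa using hz)
    have := hle (n + 1)
    rw [Function.iterate_succ_apply'] at this
    exact (norm_le_maxMod hf hn.le).trans this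
  have h2 : closure (ball (0 : ℂ) L) ⊆ {z | ‖f z‖ ≤ L} :=
    closure_minimal h1 (isClosed_le hf.continuous.norm continuous_const)
  obtain ⟨ζ, h3, h4⟩ := exists_norm_eq_maxMod hf.continuous hL0.le
  have h5 := h2 (show ζ ∈ closure (ball (0 : ℂ) L) by
    rw [closure_ball _ hL0.ne']; simp [h3])
  have h6 := hR.2 L hRL
  simp only [mem_ofPred_eq, h4] at h5
  linarith

/-- The inequality `M^n ρ ≤ ‖f^n z‖` passes to smaller `n`. -/
theorem Ent.le_norm_iter_of_le (hf : Ent f) {ρ : ℝ} {z : ℂ} {m n : ℕ} (hmn : m ≤ n)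
    (h : (maxMod f)^[n] ρ ≤ ‖f^[n] z‖) : (maxMod f)^[m] ρ ≤ ‖f^[m] z‖ := by
  by_contra hlt
  obtain ⟨d, rfl⟩ := Nat.exists_eq_add_of_le' hmn
  have := hf.norm_iter_lt_maxMod (not_le.1 hlt) d
  rw [← Function.iterate_add_apply, ← Function.iterate_add_apply] at this
  exact absurd h (not_le.2 this)

theorem isClosed_levelSet (hf : Continuous f) (ρ : ℝ) : IsClosed (levelSet f ρ) := by
  have : levelSet f ρ = ⋂ n : ℕ, {z | (maxMod f)^[n] ρ ≤ ‖f^[n] z‖} := by
    ext z; simp [levelSet]
  rw [this]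
  exact isClosed_iInter fun n => isClosed_le continuous_const (hf.iterate n).norm

theorem levelSet_anti (hf : Differentiable ℂ f) {ρ ρ' : ℝ} (hρ : 0 ≤ ρ) (h : ρ ≤ ρ') :
    levelSet f ρ' ⊆ levelSet f ρ := by
  exact fun z hz n => (maxMod_iter_mono hf hρ h n).trans (hz n)

theorem le_norm_of_mem_levelSet {ρ : ℝ} {z : ℂ} (hz : z ∈ levelSet f ρ) : ρ ≤ ‖z‖ := hz 0

theorem Ent.preimage_levelSet (hf : Ent f) (ρ : ℝ) (n : ℕ) :
    f^[n] ⁻¹' levelSet f ((maxMod f)^[n] ρ) = levelSet f ρ := by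
  ext z
  constructor
  · intro hz m
    have := hz m
    rw [← Function.iterate_add_apply, ← Function.iterate_add_apply] at this
    exact hf.le_norm_iter_of_le (Nat.le_add_right m n) this
  · intro hz m
    rw [← Function.iterate_add_apply, ← Function.iterate_add_apply]
    exact hz _

theorem mem_fastEsc_iff {R : ℝ} {z : ℂ} : z ∈ fastEsc f R ↔ ∃ l : ℕ, f^[l] z ∈ levelSet f R := by
  simp only [fastEsc, levelSet, mem_ofPred_eq, Function.iterate_add_apply]

theorem Big.levelSet_subset_escaping (hf : Differentiable ℂ f) {R : ℝ} (hR : Big f R) :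
    levelSet f R ⊆ escaping f := by
  exact fun z hz => tendsto_atTop_mono hz (hR.tendsto_iter hf)

theorem iter_mem_escaping_iff {z : ℂ} (n : ℕ) : f^[n] z ∈ escaping f ↔ z ∈ escaping f := by
  simp only [escaping, mem_ofPred_eq, ← Function.iterate_add_apply]
  exact tendsto_add_atTop_iff_nat (f := fun m : ℕ => ‖f^[m] z‖) n

theorem Big.fastEsc_subset_escaping (hf : Differentiable ℂ f) {R : ℝ} (hR : Big f R) :
    fastEsc f R ⊆ escaping f := by
  intro z hz
  obtain ⟨l, hl⟩ := mem_fastEsc_iff.1 hz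
  exact (iter_mem_escaping_iff l).1 (hR.levelSet_subset_escaping hf hl)

/-- `f^[n]` maps `A_R` into `A_{M^n R} ⊆ A_R`. -/
theorem Big.iter_mem_levelSet (hf : Ent f) {R : ℝ} (hR : Big f R) {z : ℂ} (hz : z ∈ levelSet f R)
    (n : ℕ) : f^[n] z ∈ levelSet f R := by
  rw [← hf.preimage_levelSet R n] at hz
  exact levelSet_anti hf.diff hR.1.le (hR.le_iter n) hz

theorem Big.iter_mem_fastEsc_iff (hf : Ent f) {R : ℝ} (hR : Big f R) {z : ℂ} (n : ℕ) :
    f^[n] z ∈ fastEsc f R ↔ z ∈ fastEsc f R := by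
  simp only [mem_fastEsc_iff]
  constructor
  · rintro ⟨l, hl⟩
    exact ⟨l + n, by rwa [Function.iterate_add_apply]⟩
  · rintro ⟨l, hl⟩
    refine ⟨l, ?_⟩
    rw [← Function.iterate_add_apply, add_comm, Function.iterate_add_apply]
    exact hR.iter_mem_levelSet hf hl n

/-- The fast escaping set does not depend on `R`. -/
theorem Big.fastEsc_eq (hf : Ent f) {R R' : ℝ} (hR : Big f R) (hR' : Big f R') :
    fastEsc f R = fastEsc f R' := by
  have key : ∀ {S S' : ℝ}, Big f S → Big f S' → fastEsc f S ⊆ fastEsc f S' := by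
    intro S S' hS hS' z hz
    obtain ⟨l, hl⟩ := mem_fastEsc_iff.1 hz
    obtain ⟨n, hn⟩ := ((hS.tendsto_iter hf.diff).eventually (eventually_ge_atTop S')).exists
    rw [← hf.preimage_levelSet S n] at hl
    refine mem_fastEsc_iff.2 ⟨n + l, ?_⟩
    rw [Function.iterate_add_apply]
    exact levelSet_anti hf.diff hS'.1.le hn hl
  exact Subset.antisymm (key hR hR') (key hR' hR)

/-- If a sparse subsequence of the orbit escapes, the orbit escapes: `f^[j]`, `j ≤ L`, are
bounded on bounded sets. -/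
theorem mem_escaping_of_subseq (hf : Continuous f) {z : ℂ} {n L : ℕ} (hL : 0 < L)
    (h : Tendsto (fun i : ℕ => ‖f^[n + L * i] z‖) atTop atTop) : z ∈ escaping f := by
  refine tendsto_atTop.2 fun B => ?_
  have hb : ∀ j : ℕ, ∃ C : ℝ, ∀ w ∈ closedBall (0 : ℂ) B, ‖f^[j] w‖ ≤ C := fun j =>
    (isCompact_closedBall (0 : ℂ) B).exists_bound_of_continuousOn (hf.iterate j).continuousOn
  choose C hC using hb
  obtain ⟨D, hD⟩ := ((Finset.range (L + 1)).image C).bddAbove
  obtain ⟨i₀, hi₀⟩ := eventually_atTop.1 (h.eventually (eventually_gt_atTop D))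
  refine eventually_atTop.2 ⟨n + L * i₀, fun m hm => ?_⟩
  by_contra hlt
  obtain ⟨d, rfl⟩ := Nat.exists_eq_add_of_le (le_trans (Nat.le_add_right n _) hm)
  have h1 : i₀ ≤ d / L := (Nat.le_div_iff_mul_le hL).2 (by rw [mul_comm]; omega)
  have h2 := hi₀ (d / L + 1) (by omega)
  have h3 := Nat.div_add_mod d L
  have h4 := Nat.mod_lt d hL
  have h5 : n + L * (d / L + 1) = (L - d % L) + (n + d) := by
    rw [mul_add]; omega
  rw [h5, Function.iterate_add_apply] at h2
  have h6 := hC (L - d % L) (f^[n + d] z) (by simpa using (not_le.1 hlt).le)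
  have h7 : C (L - d % L) ≤ D := hD (by
    simp only [Finset.coe_image, mem_image, Finset.mem_coe, Finset.mem_range]
    exact ⟨_, by omega, rfl⟩)
  linarith

/-- Maximum principle for one iterate: `‖g‖ < B` on the compact frontier gives `‖g‖ < B` on `V`. -/
theorem disjoint_of_disjoint_frontier {g : ℂ → ℂ} (hg : Differentiable ℂ g) {B : ℝ} {V : Set ℂ}
    (hV : IsOpen V) (hb : Bornology.IsBounded V) (hd : Disjoint (frontier V) {z | B ≤ ‖g z‖}) :
    Disjoint V {z | B ≤ ‖g z‖} := by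
  rcases eq_empty_or_nonempty V with rfl | hne
  · simp
  have hfr : (frontier V).Nonempty := by
    rw [nonempty_frontier_iff]
    refine ⟨hne, fun h => ?_⟩
    rw [h] at hb
    exact NormedSpace.unbounded_univ ℝ ℂ hb
  have hc : IsCompact (frontier V) :=
    Metric.isCompact_of_isClosed_isBounded isClosed_frontier
      (hb.closure.subset frontier_subset_closure)
  obtain ⟨w, hw, hmax⟩ := hc.exists_isMaxOn hfr (f := fun z => ‖g z‖)
    hg.continuous.norm.continuousOn
  have h1 : ‖g w‖ < B := not_le.1 (disjoint_left.1 hd hw)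
  refine disjoint_left.2 fun z hz h2 => ?_
  have := Complex.norm_le_of_forall_mem_frontier_norm_le hb hg.diffContOnCl
    (C := ‖g w‖) (fun y hy => hmax hy) (subset_closure hz)
  exact absurd (le_trans h2 this) (not_le.2 h1)

/-- The open sets `{‖f^[n + l] z‖ < M^n ρ}` increase with `n` and cover the compact set
`frontier V`; use `disjoint_of_disjoint_frontier`. -/
theorem Ent.disjoint_levelSet_of_frontier (hf : Ent f) {ρ : ℝ} {l : ℕ} {V : Set ℂ}
    (hV : IsOpen V) (hb : Bornology.IsBounded V)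
    (hd : Disjoint (frontier V) (f^[l] ⁻¹' levelSet f ρ)) :
    Disjoint V (f^[l] ⁻¹' levelSet f ρ) := by
  have hc : IsCompact (frontier V) :=
    Metric.isCompact_of_isClosed_isBounded isClosed_frontier
      (hb.closure.subset frontier_subset_closure)
  let O : ℕ → Set ℂ := fun n => {z | ‖f^[n] (f^[l] z)‖ < (maxMod f)^[n] ρ}
  have hO : ∀ n, IsOpen (O n) := fun n =>
    isOpen_lt ((hf.continuous.iterate n).comp (hf.continuous.iterate l)).norm continuous_const
  have hmono : Monotone O := fun m n hmn z hz =>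
    not_le.1 fun h => absurd (hf.le_norm_iter_of_le hmn h) (not_le.2 hz)
  have hcov : frontier V ⊆ ⋃ n, O n := by
    intro z hz
    have := disjoint_left.1 hd hz
    simp only [mem_preimage, levelSet, mem_ofPred_eq, not_forall, not_le] at this
    exact mem_iUnion.2 this
  obtain ⟨n, hn⟩ := hc.elim_directed_cover O hO hcov hmono.directed_le
  have := disjoint_of_disjoint_frontier (g := fun z => f^[n] (f^[l] z))
    ((hf.iterate n).diff.comp (hf.iterate l).diff) (B := (maxMod f)^[n] ρ) hV hb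
    (disjoint_left.2 fun z hz h =>
      not_le.2 (show ‖f^[n] (f^[l] z)‖ < (maxMod f)^[n] ρ from hn hz) h)
  exact this.mono_right fun z hz => hz n

/-- Components of `f^{-l}(A_ρ)` are unbounded (`bump`). -/
theorem Ent.uc_levelSet (hf : Ent f) {ρ : ℝ} {l : ℕ} {z : ℂ} (hz : f^[l] z ∈ levelSet f ρ) :
    UC (connectedComponentIn (f^[l] ⁻¹' levelSet f ρ) z) := by
  have hcl : IsClosed (f^[l] ⁻¹' levelSet f ρ) :=
    (isClosed_levelSet hf.continuous ρ).preimage (hf.continuous.iterate l)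
  refine uc_of_unbounded_comp hcl fun hb => ?_
  obtain ⟨V, hV, hVb, hsub, -, hd⟩ := bump hcl (x := z) hz hb isOpen_univ (subset_univ _)
  exact disjoint_left.1 (hf.disjoint_levelSet_of_frontier hV hVb hd)
    (hsub (mem_connectedComponentIn hz)) hz

theorem Ent.uc_levelSet' (hf : Ent f) {ρ : ℝ} {z : ℂ} (hz : z ∈ levelSet f ρ) :
    UC (connectedComponentIn (levelSet f ρ) z) :=
  hf.uc_levelSet (l := 0) hz

/-- Components of `{B ≤ ‖g‖}` are unbounded. -/
theorem uc_superlevel {g : ℂ → ℂ} (hg : Differentiable ℂ g) {B : ℝ} {z : ℂ} (hz : B ≤ ‖g z‖) :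
    UC (connectedComponentIn {z | B ≤ ‖g z‖} z) := by
  have hcl : IsClosed {z | B ≤ ‖g z‖} := isClosed_le continuous_const hg.continuous.norm
  refine uc_of_unbounded_comp hcl fun hb => ?_
  obtain ⟨V, hV, hVb, hsub, -, hd⟩ := bump hcl (x := z) hz hb isOpen_univ (subset_univ _)
  exact disjoint_left.1 (disjoint_of_disjoint_frontier hg hV hVb hd)
    (hsub (mem_connectedComponentIn hz)) hz

theorem Good.mem_fastEsc (hf : Ent f) {R : ℝ} (hR : Big f R) {w : ℂ} (hw : Good f R w) :
    w ∈ fastEsc f R := by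
  obtain ⟨l, ρ, hρ, hw⟩ := hw
  have hcl : IsClosed (f^[l] ⁻¹' levelSet f ρ) :=
    (isClosed_levelSet hf.continuous ρ).preimage (hf.continuous.iterate l)
  exact mem_fastEsc_iff.2 ⟨l, levelSet_anti hf.diff hR.1.le hρ (hcl.frontier_subset hw)⟩

/-- Preimages of good points are good (open map). -/
theorem Good.of_iter (hf : Ent f) {R : ℝ} {w : ℂ} {n : ℕ} (hw : Good f R (f^[n] w)) :
    Good f R w := by
  obtain ⟨l, ρ, hρ, hw⟩ := hw
  refine ⟨l + n, ρ, hρ, ?_⟩
  rw [Function.iterate_add, preimage_comp,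
    ← (hf.iterate n).opn.preimage_frontier_eq_frontier_preimage (hf.continuous.iterate n)]
  exact hw

end Pool.Agent.Lib.MP_dbd176_an
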