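import Pool.Agent.Lib.MP_dbd176_an.BEst1
import Pool.Agent.Lib.MP_dbd176_an.MaxMod

open Set Metric Filter Topology

namespace Pool.Agent.Lib.MP_dbd176_an

theorem ent_fb : Ent fb := isTEF_fb.ent

theorem best2_norm_cosh_le (ζ : ℂ) : ‖Complex.cosh ζ‖ ≤ Real.cosh ζ.re := by
  have h := norm_add_le (Complex.exp ζ) (Complex.exp (-ζ))
  rw [← Complex.two_cosh, norm_mul, Complex.norm_exp, Complex.norm_exp, Complex.neg_re,
    Complex.norm_two] at h
  rw [Real.cosh_eq]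
  linarith

theorem best2_sinh_le (ζ : ℂ) : Real.sinh |ζ.re| ≤ ‖Complex.cosh ζ‖ := by
  have h := abs_norm_sub_norm_le (Complex.exp ζ) (-Complex.exp (-ζ))
  rw [sub_neg_eq_add, ← Complex.two_cosh, norm_mul, norm_neg, Complex.norm_exp, Complex.norm_exp,
    Complex.neg_re, Complex.norm_two] at h
  rw [← Real.abs_sinh, Real.sinh_eq, abs_div, abs_two]
  linarith

theorem best2_norm_sinh (ζ : ℂ) : ‖Complex.cosh ζ‖ - 1 ≤ ‖Complex.sinh ζ‖ := by
  rcases le_total 0 ζ.re with h | h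
  · have h1 := norm_sub_norm_le (Complex.cosh ζ) (Complex.sinh ζ)
    rw [Complex.cosh_sub_sinh, Complex.norm_exp, Complex.neg_re] at h1
    have := Real.exp_le_one_iff.2 (neg_nonpos.2 h)
    linarith
  · have h1 := norm_sub_norm_le (Complex.cosh ζ) (-Complex.sinh ζ)
    rw [sub_neg_eq_add, Complex.cosh_add_sinh, Complex.norm_exp, norm_neg] at h1
    have := Real.exp_le_one_iff.2 h
    linarith

theorem best2_cosh_le (x : ℝ) : Real.cosh x ≤ Real.exp |x| := by
  rw [Real.cosh_eq]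
  have := Real.exp_le_exp.2 (le_abs_self x)
  have := Real.exp_le_exp.2 (neg_le_abs x)
  linarith

theorem best2_le_cosh (x : ℝ) : Real.exp x / 2 ≤ Real.cosh x := by
  rw [Real.cosh_eq]
  have := Real.exp_pos (-x)
  linarith

theorem best2_abs_xx (z : ℂ) : |xx z| ≤ Real.exp z.re := by
  rw [← Complex.norm_exp]; exact Complex.abs_re_le_norm _

theorem best2_abs_yy (z : ℂ) : |yy z| ≤ Real.exp z.re := by
  rw [← Complex.norm_exp]; exact Complex.abs_im_le_norm _

theorem best2_exp_ge (n : ℕ) : (27 / 10 : ℝ) ^ n ≤ Real.exp n := by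
  rw [← Real.exp_one_pow]
  exact pow_le_pow_left₀ (by norm_num) (by linarith [Real.exp_one_gt_d9]) n

theorem best2_norm2 (z : ℂ) : ‖Complex.exp (-2 * z)‖ = Real.exp (-2 * z.re) := by
  rw [Complex.norm_exp]; simp

theorem best2_norm6 (z : ℂ) : ‖Complex.exp (-6 * z)‖ = Real.exp (-6 * z.re) := by
  rw [Complex.norm_exp]; simp

theorem best2_cosh_norm_le {z : ℂ} (hz : -2 ≤ z.re) :
    ‖Complex.cosh (Complex.exp z)‖ ≤ ‖fb z‖ + 11 ∧ ‖fb z‖ ≤ ‖Complex.cosh (Complex.exp z)‖ + 11 := by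
  have h1 := norm_pert_le hz
  have h2 := norm_add_le (fb z - 10 - Complex.cosh (Complex.exp z)) 10
  have h3 := abs_norm_sub_norm_le (fb z) (Complex.cosh (Complex.exp z))
  rw [show fb z - 10 - Complex.cosh (Complex.exp z) + 10 = fb z - Complex.cosh (Complex.exp z) by
    ring, show ‖(10 : ℂ)‖ = 10 by simp] at h2
  rw [abs_le] at h3
  constructor <;> linarith [h3.1, h3.2]

/-- `‖cosh ζ‖ ≤ cosh x`. -/
theorem norm_fb_le (z : ℂ) : ‖fb z‖ ≤ 10 + Real.cosh (xx z) + 1 / 1000 * Real.exp (-2 * z.re) +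
    1 / 10 ^ 20 * Real.exp (-6 * z.re) := by
  refine (norm_sub_le _ _).trans (add_le_add ((norm_add_le _ _).trans (add_le_add
    ((norm_add_le _ _).trans (add_le_add (by simp) (best2_norm_cosh_le _))) ?_)) ?_)
  · rw [norm_mul, best2_norm2]; simp
  · rw [norm_mul, best2_norm6]; simp

theorem best2_norm_fb_le (z : ℂ) : ‖fb z‖ ≤ 10 + Real.cosh (xx z) + 1 / 1000 * Real.exp (2 * ‖z‖) +
    1 / 10 ^ 20 * Real.exp (6 * ‖z‖) := by
  have h := abs_le.1 (Complex.abs_re_le_norm z)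
  have h1 : Real.exp (-2 * z.re) ≤ Real.exp (2 * ‖z‖) := Real.exp_le_exp.2 (by linarith [h.1])
  have h2 : Real.exp (-6 * z.re) ≤ Real.exp (6 * ‖z‖) := Real.exp_le_exp.2 (by linarith [h.1])
  have := norm_fb_le z
  linarith

theorem norm_fb_le_Et (z : ℂ) : ‖fb z‖ ≤ Et (Et ‖z‖) := by
  have h0 := norm_nonneg z
  have h1 : Real.exp (2 * ‖z‖) ≤ Et ‖z‖ := Real.exp_le_exp.2 (by linarith)
  have h2 : Real.exp (6 * ‖z‖) ≤ Et ‖z‖ := Real.exp_le_exp.2 (by linarith)
  have h3 : Real.cosh (xx z) ≤ Real.exp (Et ‖z‖) := (best2_cosh_le _).trans (Real.exp_le_exp.2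
    ((best2_abs_xx z).trans (Real.exp_le_exp.2 (by linarith [Complex.re_le_norm z]))))
  have h4 : 1 ≤ Et ‖z‖ := Real.one_le_exp (by linarith)
  have h5 := best2_norm_fb_le z
  generalize Et ‖z‖ = E at *
  have h6 : Et E = Real.exp E * Real.exp (6 * E) := by rw [← Real.exp_add, Et]; ring_nf
  have h7 := Real.add_one_le_exp E
  have h8 := Real.add_one_le_exp (6 * E)
  rw [h6]
  nlinarith

theorem maxMod_fb_le {r : ℝ} (hr : 0 ≤ r) :
    maxMod fb r ≤ 10 + Real.cosh (Real.exp r) + 1 / 1000 * Real.exp (2 * r) +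
      1 / 10 ^ 20 * Real.exp (6 * r) := by
  obtain ⟨ζ, rfl, h⟩ := exists_norm_eq_maxMod differentiable_fb.continuous hr
  have h1 : Real.cosh (xx ζ) ≤ Real.cosh (Real.exp ‖ζ‖) := Real.cosh_le_cosh.2 (by
    rw [abs_of_pos (Real.exp_pos _)]
    exact (best2_abs_xx ζ).trans (Real.exp_le_exp.2 (Complex.re_le_norm ζ)))
  have := best2_norm_fb_le ζ
  linarith

/-- On the real axis, for `t ≥ -2`. -/
theorem re_fb_real {t : ℝ} (ht : -2 ≤ t) : 9 + Real.cosh (Real.exp t) ≤ (fb t).re := by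
  have h := (abs_le.1 ((Complex.abs_re_le_norm _).trans (norm_pert_le (z := t) ht))).1
  rw [← Complex.ofReal_exp, Complex.sub_re, Complex.sub_re, Complex.cosh_ofReal_re] at h
  have : (10 : ℂ).re = 10 := by simp
  linarith

theorem best2_le_maxMod {t : ℝ} (ht : 0 ≤ t) : 9 + Real.cosh (Real.exp t) ≤ maxMod fb t :=
  (re_fb_real (by linarith)).trans ((Complex.re_le_norm _).trans
    (norm_le_maxMod differentiable_fb (by rw [Complex.norm_real, Real.norm_of_nonneg ht])))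

theorem le_maxMod_fb {s : ℝ} (hs : 0 ≤ s) : 7 * Et (Et s) + 3 ≤ maxMod fb (7 * s + 3) := by
  have h1 := best2_le_maxMod (t := 7 * s + 3) (by linarith)
  have h2 := best2_le_cosh (Real.exp (7 * s + 3))
  have h3 : 1 ≤ Et s := Real.one_le_exp (by linarith)
  have h4 : Real.exp (7 * s + 3) = Et s * Real.exp 3 := Real.exp_add _ _
  have h5 := best2_exp_ge 3
  have h6 : Real.exp (7 * Et s + 3) ≤ Real.exp (Real.exp (7 * s + 3)) := Real.exp_le_exp.2 (by
    rw [h4]; norm_num at h5; nlinarith)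
  have h7 : Real.exp (7 * Et s + 3) = Et (Et s) * Real.exp 3 := Real.exp_add _ _
  have h8 : 0 < Et (Et s) := Real.exp_pos _
  norm_num at h5
  nlinarith

theorem big_fb : Big fb 10 := by
  refine ⟨by norm_num, fun r hr => ?_⟩
  have h1 := best2_le_maxMod (t := r) (by linarith)
  have h2 := best2_le_cosh (Real.exp r)
  have h3 := Real.two_mul_le_exp (x := Real.exp r)
  have h4 := Real.add_one_le_exp r
  linarith

theorem maxMod_add_one_le {t x : ℝ} (ht : 10 ≤ t) (hx : t + 1 ≤ x) :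
    maxMod fb t + 1 ≤ (fb x).re := by
  have h1 := maxMod_fb_le (r := t) (by linarith)
  have h2 := re_fb_real (t := x) (by linarith)
  have h3 := best2_le_cosh (Real.exp x)
  have h4 : Real.exp t + Real.exp t ≤ Real.exp x := by
    have a : Real.exp (t + 1) ≤ Real.exp x := Real.exp_le_exp.2 hx
    have b := Real.add_one_le_exp 1
    have c := Real.exp_pos t
    rw [Real.exp_add] at a
    nlinarith
  have h5 := Real.exp_le_exp.2 h4
  rw [Real.exp_add] at h5
  have h6 := best2_cosh_le (Real.exp t)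
  rw [abs_of_pos (Real.exp_pos t)] at h6
  have h7 := Real.pow_div_factorial_le_exp _ (Real.exp_pos t).le 2
  have h8 := Real.pow_div_factorial_le_exp _ (Real.exp_pos t).le 6
  rw [← Real.exp_nat_mul] at h7 h8
  norm_num [Nat.factorial] at h7 h8
  have h9 := Real.add_one_le_exp t
  have h10 := Real.add_one_le_exp (Real.exp t)
  have h11 : 12 * Real.exp (Real.exp t) ≤ Real.exp (Real.exp t) * Real.exp (Real.exp t) := by
    nlinarith
  linarith

theorem best2_exp48 : (2 : ℝ) * 10 ^ 20 ≤ Real.exp 48 := by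
  have := best2_exp_ge 48
  norm_num at this ⊢
  linarith

theorem best2_cosh_small {z : ℂ} (h : z.re ≤ 0) : |xx z| ≤ 1 ∧ Real.cosh (xx z) ≤ 3 := by
  have h1 : |xx z| ≤ 1 := (best2_abs_xx z).trans (Real.exp_le_one_iff.2 h)
  exact ⟨h1, (best2_cosh_le _).trans ((Real.exp_le_exp.2 h1).trans Real.exp_one_lt_three.le)⟩

/-- For `t ≤ -12` the term `- c exp (-6 t)` dominates. -/
theorem fb_neg_real {z : ℂ} (h₀ : z.im = 0) (h : z.re ≤ -12) :
    (fb z).im = 0 ∧ (fb z).re ≤ -12 ∧ ‖fb z‖ ≤ Et ‖z‖ := by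
  have hy : yy z = 0 := by rw [yy, Complex.exp_im, h₀, Real.sin_zero, mul_zero]
  have hc := (best2_cosh_small (z := z) (by linarith)).2
  refine ⟨by rw [im_fb, hy, mul_zero, zero_mul], ?_, ?_⟩
  · have h1 : (Complex.exp (-2 * z)).re = Real.exp (-2 * z.re) := by
      rw [Complex.exp_re]; simp [h₀]
    have h2 : (Complex.exp (-2 * z)).im = 0 := by
      rw [Complex.exp_im]; simp [h₀]
    rw [re_fb, hy, Real.cos_zero, h1, h2]
    have h3 := Real.add_one_le_exp (-2 * z.re)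
    have h4 : Real.exp 48 ≤ Real.exp (-2 * z.re) ^ 2 := by
      rw [← Real.exp_nat_mul]; exact Real.exp_le_exp.2 (by push_cast; linarith)
    have h5 := best2_exp48
    have h6 : 1 / 1000 - 1 / 10 ^ 20 * (Real.exp (-2 * z.re) ^ 2 - 3 * 0 ^ 2) ≤ -1 := by linarith
    nlinarith
  · have h1 := best2_norm_fb_le z
    have h2 : 12 ≤ ‖z‖ := by linarith [(abs_le.1 (Complex.abs_re_le_norm z)).1]
    have h3 : Et ‖z‖ = Real.exp (6 * ‖z‖) * Real.exp ‖z‖ := by rw [← Real.exp_add, Et]; ring_nf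
    have h4 : Real.exp (2 * ‖z‖) ≤ Real.exp (6 * ‖z‖) := Real.exp_le_exp.2 (by linarith)
    have h5 := Real.add_one_le_exp (6 * ‖z‖)
    have h6 := Real.add_one_le_exp ‖z‖
    rw [h3]
    nlinarith

theorem best2_two_le_re {w : ℂ} (h : 13 ≤ |xx w|) : 2 ≤ w.re := by
  by_contra hc
  have h1 : Real.exp w.re ≤ Real.exp (1 + 1) := Real.exp_le_exp.2 (by linarith)
  rw [Real.exp_add] at h1
  have := Real.exp_one_lt_three
  have := Real.exp_pos 1
  have := best2_abs_xx w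
  nlinarith

/-- A far and fast step: `cosh x ≥ exp (7 ‖w‖) / 2`. -/
theorem xx_ge_of_fast {w : ℂ} (h₁ : 2 ≤ ‖w‖) (h₂ : Et ‖w‖ < ‖fb w‖) : 13 ≤ |xx w| ∧ 2 ≤ w.re := by
  have h : 13 ≤ |xx w| := by
    by_contra hc
    have a1 := best2_norm_fb_le w
    have a2 := (best2_cosh_le (xx w)).trans (Real.exp_le_exp.2 (not_le.1 hc).le)
    have a3 : Et ‖w‖ = Real.exp (6 * ‖w‖) * Real.exp ‖w‖ := by rw [← Real.exp_add, Et]; ring_nf
    have a4 : Real.exp (2 * ‖w‖) ≤ Real.exp (6 * ‖w‖) := Real.exp_le_exp.2 (by linarith)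
    have a5 := Real.add_one_le_exp (6 * ‖w‖)
    have a6 := Real.add_one_le_exp ‖w‖
    have a7 : Real.exp (13 + 1) ≤ Et ‖w‖ := Real.exp_le_exp.2 (by linarith)
    rw [Real.exp_add] at a7
    have a8 := Real.add_one_le_exp 1
    have a9 := Real.exp_pos 13
    have a10 : 3 * Real.exp (6 * ‖w‖) ≤ Et ‖w‖ := by rw [a3]; nlinarith
    nlinarith
  exact ⟨h, best2_two_le_re h⟩

/-- `|sinh x| ≤ ‖cosh ζ‖ ≤ ‖fb z‖ + 11`, `‖fb w‖ ≤ exp r' + 11` with `r' = exp (Re w) ≥ 1`; so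
`|x| ≤ r' + 4`, `|y| ≤ r' + 7`, `exp (Re z) ≤ 13 r'`. -/
theorem re_le_of_bounds {z w : ℂ} (hz : -2 ≤ z.re) (hw : 0 ≤ w.re) (hf : ‖fb z‖ ≤ ‖fb w‖ + 10)
    (hy : |yy z - yy w| ≤ 2 * Real.pi) : z.re ≤ w.re + 3 := by
  have h1 : 1 ≤ Real.exp w.re := Real.one_le_exp hw
  have h2 : ‖fb w‖ ≤ Real.exp (Real.exp w.re) + 11 := by
    have a := (best2_cosh_norm_le (z := w) (by linarith)).2
    have b := (best2_norm_cosh_le (Complex.exp w)).trans ((best2_cosh_le _).trans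
      (Real.exp_le_exp.2 (best2_abs_xx w)))
    linarith
  have h3 : Real.sinh |xx z| ≤ ‖fb z‖ + 11 := (best2_sinh_le _).trans (best2_cosh_norm_le hz).1
  rw [Real.sinh_eq] at h3
  have h4 := Real.exp_le_one_iff.2 (neg_nonpos.2 (abs_nonneg (xx z)))
  have h5 := Real.add_one_le_exp (Real.exp w.re)
  have h6 := best2_exp_ge 4
  have h7 : |xx z| ≤ Real.exp w.re + 4 := by
    rw [← Real.exp_le_exp, Real.exp_add]
    norm_num at h6
    nlinarith
  have h8 : |yy z| ≤ Real.exp w.re + 7 := by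
    have a := abs_sub_abs_le_abs_sub (yy z) (yy w)
    have b := best2_abs_yy w
    linarith [Real.pi_lt_d2]
  have h9 : Real.exp z.re ≤ |xx z| + |yy z| := by
    rw [← Complex.norm_exp]; exact Complex.norm_le_abs_re_add_abs_im _
  have h10 := best2_exp_ge 3
  rw [← Real.exp_le_exp, Real.exp_add]
  norm_num at h10
  nlinarith

/-- For `Re z → -∞` the last term dominates. -/
theorem exists_bound_of_norm_le (ρ : ℝ) :
    ∃ T : ℝ, ∀ z, ‖fb z‖ ≤ ρ → -T ≤ z.re ∧ |xx z| ≤ T := by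
  refine ⟨|ρ| + 12 + Real.exp 24 + Real.exp 72, fun z hz => ?_⟩
  have a1 := le_abs_self ρ
  have a2 := abs_nonneg ρ
  have a3 := Real.exp_pos 24
  have a4 := Real.exp_pos 72
  have e1 : ‖(1 / 1000 : ℂ) * Complex.exp (-2 * z)‖ = 1 / 1000 * Real.exp (-2 * z.re) := by
    rw [norm_mul, best2_norm2]; simp
  have e2 : ‖(1 / 10 ^ 20 : ℂ) * Complex.exp (-6 * z)‖ = 1 / 10 ^ 20 * Real.exp (-6 * z.re) := by
    rw [norm_mul, best2_norm6]; simp
  have e3 : ‖(10 : ℂ)‖ = 10 := by simp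
  rcases le_total z.re (-12) with h | h
  · obtain ⟨h1, h2⟩ := best2_cosh_small (z := z) (by linarith)
    refine ⟨?_, by linarith⟩
    have b1 : (1 / 10 ^ 20 : ℂ) * Complex.exp (-6 * z) = 10 + Complex.cosh (Complex.exp z) +
        1 / 1000 * Complex.exp (-2 * z) - fb z := by rw [fb]; ring
    have b2 := norm_sub_le (10 + Complex.cosh (Complex.exp z) + 1 / 1000 * Complex.exp (-2 * z))
      (fb z)
    have b3 := norm_add_le (10 + Complex.cosh (Complex.exp z)) (1 / 1000 * Complex.exp (-2 * z))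
    have b4 := norm_add_le 10 (Complex.cosh (Complex.exp z))
    have b5 : ‖Complex.cosh (Complex.exp z)‖ ≤ Real.cosh (xx z) := best2_norm_cosh_le _
    rw [← b1, e2] at b2
    rw [e1] at b3
    have h3 := Real.add_one_le_exp (-2 * z.re)
    have h4 : Real.exp 48 ≤ Real.exp (-2 * z.re) ^ 2 := by
      rw [← Real.exp_nat_mul]; exact Real.exp_le_exp.2 (by push_cast; linarith)
    have h5 := best2_exp48
    have h6 : Real.exp (-6 * z.re) = Real.exp (-2 * z.re) * Real.exp (-2 * z.re) ^ 2 := by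
      rw [← Real.exp_nat_mul, ← Real.exp_add]; push_cast; ring_nf
    have h7 : 2 * 10 ^ 20 * Real.exp (-2 * z.re) ≤ Real.exp (-6 * z.re) := by
      rw [h6]; nlinarith
    linarith
  · refine ⟨by linarith, ?_⟩
    have b1 : Complex.cosh (Complex.exp z) = fb z + (1 / 10 ^ 20 : ℂ) * Complex.exp (-6 * z) -
        (10 + 1 / 1000 * Complex.exp (-2 * z)) := by rw [fb]; ring
    have b2 := norm_sub_le (fb z + (1 / 10 ^ 20 : ℂ) * Complex.exp (-6 * z))
      (10 + 1 / 1000 * Complex.exp (-2 * z))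
    have b3 := norm_add_le (fb z) ((1 / 10 ^ 20 : ℂ) * Complex.exp (-6 * z))
    have b4 := norm_add_le 10 (1 / 1000 * Complex.exp (-2 * z))
    rw [← b1] at b2
    have b5 : Real.sinh |xx z| ≤ ‖Complex.cosh (Complex.exp z)‖ := best2_sinh_le _
    have b6 := Real.self_le_sinh_iff.2 (abs_nonneg (xx z))
    have b7 : Real.exp (-2 * z.re) ≤ Real.exp 24 := Real.exp_le_exp.2 (by linarith)
    have b8 : Real.exp (-6 * z.re) ≤ Real.exp 72 := Real.exp_le_exp.2 (by linarith)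
    linarith

/-- `fb' z = ζ sinh ζ - 2 b u + 6 c u ^ 3`, `‖sinh ζ‖ ≥ ‖cosh ζ‖ - 1`. -/
theorem two_le_norm_deriv {z : ℂ} (hz : 0 ≤ z.re) (hf : 20 ≤ ‖fb z‖) : 2 ≤ ‖deriv fb z‖ := by
  have hd : HasDerivAt fb (Complex.sinh (Complex.exp z) * Complex.exp z +
      1 / 1000 * (Complex.exp (-2 * z) * -2) - 1 / 10 ^ 20 * (Complex.exp (-6 * z) * -6)) z :=
    ((((Complex.hasDerivAt_exp z).ccosh).const_add 10).add
      (((hasDerivAt_const_mul (-2)).cexp).const_mul _)).sub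
      (((hasDerivAt_const_mul (-6)).cexp).const_mul _)
  rw [hd.deriv]
  have h1 := (best2_cosh_norm_le (z := z) (by linarith)).2
  have h2 := best2_norm_sinh (Complex.exp z)
  have h3 : 1 ≤ ‖Complex.exp z‖ := by rw [Complex.norm_exp]; exact Real.one_le_exp hz
  have h4 : 8 ≤ ‖Complex.sinh (Complex.exp z) * Complex.exp z‖ := by rw [norm_mul]; nlinarith
  have h5 : ‖(1 / 1000 : ℂ) * (Complex.exp (-2 * z) * -2)‖ ≤ 1 := by
    have : Real.exp (-2 * z.re) ≤ 1 := Real.exp_le_one_iff.2 (by linarith)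
    rw [norm_mul, norm_mul, best2_norm2]
    generalize Real.exp (-2 * z.re) = a at this ⊢
    norm_num
    linarith
  have h6 : ‖(1 / 10 ^ 20 : ℂ) * (Complex.exp (-6 * z) * -6)‖ ≤ 1 := by
    have : Real.exp (-6 * z.re) ≤ 1 := Real.exp_le_one_iff.2 (by linarith)
    rw [norm_mul, norm_mul, best2_norm6]
    generalize Real.exp (-6 * z.re) = a at this ⊢
    norm_num
    linarith
  have h7 := norm_sub_norm_le (Complex.sinh (Complex.exp z) * Complex.exp z +
      1 / 1000 * (Complex.exp (-2 * z) * -2)) (1 / 10 ^ 20 * (Complex.exp (-6 * z) * -6))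
  have h8 := norm_sub_norm_le (Complex.sinh (Complex.exp z) * Complex.exp z)
    (-(1 / 1000 * (Complex.exp (-2 * z) * -2)))
  rw [sub_neg_eq_add, norm_neg] at h8
  linarith

/-- `cos y > 0` gives `|y| < π / 2`, `sinc y ≥ 2 / π`; `G ≥ 1 / 2`; `|y| ≥ r (2 / π) |Im w|`. -/
theorem two_mul_im_le {w : ℂ} (h₁ : |w.im| ≤ Real.pi / 2) (h₂ : |yy w| ≤ 3 * Real.pi / 2)
    (h₃ : 13 ≤ |xx w|) (h₄ : 12 ≤ (fb w).re) : 2 * |w.im| ≤ |(fb w).im| := by
  have hre := best2_two_le_re h₃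
  have hpi : (6 / 10 : ℝ) ≤ 2 / Real.pi := by
    rw [le_div_iff₀ Real.pi_pos]; linarith [Real.pi_lt_d2]
  have hu : ‖Complex.exp (-2 * w)‖ ≤ 1 := by
    rw [best2_norm2]; exact Real.exp_le_one_iff.2 (by linarith)
  have hu1 := abs_le.1 ((Complex.abs_re_le_norm _).trans hu)
  have hu2 := abs_le.1 ((Complex.abs_im_le_norm _).trans hu)
  have hu3 : (Complex.exp (-2 * w)).re ^ 2 ≤ 1 := by nlinarith
  have hu4 : (Complex.exp (-2 * w)).im ^ 2 ≤ 1 := by nlinarith
  have hu5 := sq_nonneg (Complex.exp (-2 * w)).re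
  have hu6 := sq_nonneg (Complex.exp (-2 * w)).im
  have hy : |yy w| ≤ Real.pi / 2 := by
    by_contra hc
    have a1 := Real.cos_nonpos_of_pi_div_two_le_of_le (not_le.1 hc).le (by linarith)
    rw [Real.cos_abs] at a1
    have a2 := mul_nonpos_of_nonneg_of_nonpos (Real.cosh_pos (xx w)).le a1
    rw [re_fb] at h₄
    nlinarith
  have hs : 6 / 10 ≤ Real.sinc (yy w) := by
    rcases eq_or_ne (yy w) 0 with h | h
    · rw [h, Real.sinc_zero]; norm_num
    · have a1 : Real.sinc (yy w) = Real.sinc |yy w| := by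
        rcases abs_choice (yy w) with e | e <;> rw [e]
        rw [Real.sinc_neg]
      rw [a1, Real.sinc_of_ne_zero (abs_ne_zero.2 h), le_div_iff₀ (abs_pos.2 h)]
      exact (mul_le_mul_of_nonneg_right hpi (abs_nonneg _)).trans (Real.mul_le_sin (abs_nonneg _) hy)
  have hG : 1 / 2 ≤ GG w := by
    have a1 := (dslope_sinh_bounds (xx w)).1
    have a2 : Real.exp (-4 * w.re) ≤ 1 := Real.exp_le_one_iff.2 (by linarith)
    have a3 := Real.exp_pos (-4 * w.re)
    have a4 : 6 / 10 ≤ dslope Real.sinh 0 (xx w) * Real.sinc (yy w) := by nlinarith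
    rw [GG]
    nlinarith
  have hyy : 6 / 10 * |w.im| ≤ |yy w| := by
    have a1 := Real.mul_abs_le_abs_sin h₁
    have a2 : 1 ≤ Real.exp w.re := Real.one_le_exp (by linarith)
    have a3 := abs_nonneg w.im
    have a4 := abs_nonneg (Real.sin w.im)
    rw [yy, Complex.exp_im, abs_mul, abs_of_pos (Real.exp_pos _)]
    nlinarith
  rw [im_fb, abs_mul, abs_mul, abs_of_pos (show 0 < GG w by linarith)]
  have a1 := abs_nonneg w.im
  have a2 : 13 * |yy w| ≤ |xx w| * |yy w| := mul_le_mul_of_nonneg_right h₃ (abs_nonneg _)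
  nlinarith

end Pool.Agent.Lib.MP_dbd176_an
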