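import Pool.Agent.Lib.MP_dbd176_an.BConf

open Set Metric Filter Topology

namespace Pool.Agent.Lib.MP_dbd176_an

theorem bloc_im_le {w z : ℂ} (h : SameStrip w z) : |z.im| ≤ |w.im| + 2 := by
  have hpi : 0 < Real.pi / 2 := by positivity
  have hpi2 : Real.pi / 2 ≤ 2 := by linarith [Real.pi_le_four]
  have h1 : ((⌊w.im / (Real.pi / 2)⌋ : ℤ) : ℝ) * (Real.pi / 2) ≤ w.im := by
    rw [← le_div_iff₀ hpi]; exact Int.floor_le _
  have h2 : w.im ≤ ((⌊w.im / (Real.pi / 2)⌋ + 1 : ℤ) : ℝ) * (Real.pi / 2) := by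
    rw [← div_le_iff₀ hpi]; push_cast; exact (Int.lt_floor_add_one _).le
  have h3 := (h _).1 h1
  have h4 := (h _).2 h2
  push_cast at h2 h4
  rw [add_mul, one_mul] at h2 h4
  have h5 := le_abs_self w.im
  have h6 := neg_abs_le w.im
  rw [abs_le]
  constructor <;> linarith

theorem bloc_norm_le {w z : ℂ} (h₁ : |z.re| ≤ |w.re| + 3) (h₂ : |z.im| ≤ |w.im| + 2) :
    ‖z‖ ≤ ‖w‖ + 10 := by
  have a1 := Complex.abs_re_le_norm w
  have a2 := Complex.abs_im_le_norm w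
  have e1 : ‖z‖ ^ 2 = |z.re| ^ 2 + |z.im| ^ 2 := by
    rw [Complex.sq_norm, Complex.normSq_apply, sq_abs, sq_abs]; ring
  have e2 : ‖w‖ ^ 2 = |w.re| ^ 2 + |w.im| ^ 2 := by
    rw [Complex.sq_norm, Complex.normSq_apply, sq_abs, sq_abs]; ring
  have b1 : |z.re| ^ 2 ≤ (|w.re| + 3) ^ 2 := pow_le_pow_left₀ (abs_nonneg _) h₁ 2
  have b2 : |z.im| ^ 2 ≤ (|w.im| + 2) ^ 2 := pow_le_pow_left₀ (abs_nonneg _) h₂ 2
  have hn := norm_nonneg w
  refine le_of_sq_le_sq ?_ (by positivity)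
  nlinarith

theorem bloc_abs_re_le {w z : ℂ} (hw : 0 ≤ w.re) (h₁ : -2 ≤ z.re) (h₂ : z.re ≤ w.re + 3) :
    |z.re| ≤ |w.re| + 3 := by
  rw [abs_of_nonneg hw, abs_le]
  constructor <;> linarith

theorem bloc_sameStrip_refl (w : ℂ) : SameStrip w w := fun _ => ⟨id, id⟩

theorem bloc_continuous_fb : Continuous fb := differentiable_fb.continuous

/-- The closed set in which the local continuum is confined. -/
def blocC (w : ℂ) (J : Set ℂ) : Set ℂ :=
  {z | fb z ∈ J ∧ -2 ≤ z.re ∧ z.re ≤ w.re + 3 ∧ SameStrip w z ∧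
    (3 * Real.pi / 2 < yy w → Real.pi / 2 ≤ yy z)}

theorem bloc_isClosed_imp {p : Prop} {S : Set ℂ} (hS : IsClosed S) :
    IsClosed {z | p → z ∈ S} := by
  by_cases hp : p
  · simpa [hp] using hS
  · simp [hp]

theorem bloc_isClosed_C (w : ℂ) {J : Set ℂ} (hJ : IsClosed J) : IsClosed (blocC w J) := by
  have h1 : IsClosed {z : ℂ | fb z ∈ J} := hJ.preimage bloc_continuous_fb
  have h2 : IsClosed {z : ℂ | -2 ≤ z.re} := isClosed_le continuous_const Complex.continuous_re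
  have h3 : IsClosed {z : ℂ | z.re ≤ w.re + 3} := isClosed_le Complex.continuous_re continuous_const
  have h4 : IsClosed {z : ℂ | SameStrip w z} := by
    have : {z : ℂ | SameStrip w z} = ⋂ j : ℤ,
        ({z : ℂ | (j : ℝ) * (Real.pi / 2) ≤ w.im → z ∈ {z : ℂ | (j : ℝ) * (Real.pi / 2) ≤ z.im}} ∩
          {z : ℂ | w.im ≤ (j : ℝ) * (Real.pi / 2) →
            z ∈ {z : ℂ | z.im ≤ (j : ℝ) * (Real.pi / 2)}}) := by
      ext z
      simp only [SameStrip, mem_ofPred_eq, mem_iInter, mem_inter_iff]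
    rw [this]
    exact isClosed_iInter fun j =>
      (bloc_isClosed_imp (isClosed_le continuous_const Complex.continuous_im)).inter
        (bloc_isClosed_imp (isClosed_le Complex.continuous_im continuous_const))
  have h5 : IsClosed {z : ℂ | 3 * Real.pi / 2 < yy w → z ∈ {z : ℂ | Real.pi / 2 ≤ yy z}} :=
    bloc_isClosed_imp (isClosed_le continuous_const continuous_yy)
  exact h1.inter (h2.inter (h3.inter (h4.inter h5)))

theorem bloc_isBounded_C {w : ℂ} (hw : 0 ≤ w.re) (J : Set ℂ) :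
    Bornology.IsBounded (blocC w J) := by
  refine (isBounded_closedBall (x := (0 : ℂ)) (r := ‖w‖ + 10)).subset fun z hz => ?_
  rw [mem_closedBall_zero_iff]
  exact bloc_norm_le (bloc_abs_re_le hw hz.2.1 hz.2.2.1) (bloc_im_le hz.2.2.2.1)

theorem bloc_subset_C {w : ℂ} (hw : 0 ≤ w.re) {J P : Set ℂ}
    (hJ : ∀ y ∈ J, ‖y‖ ≤ ‖fb w‖ + 10) (hP : IsPreconnected P) (hwP : w ∈ P)
    (hl : ∀ z ∈ P, ¬ OnLine z) (hs : (∀ z ∈ P, 0 ≤ (fb z).im) ∨ ∀ z ∈ P, (fb z).im ≤ 0)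
    (hPJ : ∀ z ∈ P, fb z ∈ J) : P ⊆ blocC w J := by
  intro z hz
  obtain ⟨h1, h2, h3, h4⟩ := conf hP hl hs hwP hz
  exact ⟨hPJ z hz, h4 hw, re_le_of_bounds (h4 hw) hw (hJ _ (hPJ z hz)) h2, h1, h3⟩

theorem bloc_loc_of_subset {w : ℂ} (hw : 0 ≤ w.re) {J P : Set ℂ} (hJ : IsClosed J)
    (hJA : J ⊆ AA) (hP : IsPreconnected P) (hwP : w ∈ P) (hPC : P ⊆ blocC w J)
    (hv : ∃ v ∈ closure P, OnLine v) : Loc w := by
  have hc : closure P ⊆ blocC w J := closure_minimal hPC (bloc_isClosed_C w hJ)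
  refine ⟨closure P, ((bloc_isBounded_C hw J).subset hPC).isCompact_closure, hP.closure,
    subset_closure hwP, hv, fun z hz => ?_⟩
  obtain ⟨h1, h2⟩ := hc hz
  exact ⟨fb_mem_AA_iff.1 (hJA h1), h2⟩

theorem bloc_sign {P : Set ℂ} (hP : IsPreconnected P) (h : ∀ z ∈ P, (fb z).im ≠ 0) :
    (∀ z ∈ P, 0 ≤ (fb z).im) ∨ ∀ z ∈ P, (fb z).im ≤ 0 := by
  by_contra hcon
  rw [not_or] at hcon
  obtain ⟨h1, h2⟩ := hcon
  push Not at h1 h2
  obtain ⟨a, ha, ha'⟩ := h1
  obtain ⟨b, hb, hb'⟩ := h2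
  have hc : ContinuousOn (fun z => (fb z).im) P :=
    (Complex.continuous_im.comp bloc_continuous_fb).continuousOn
  obtain ⟨z, hz, hz'⟩ := hP.intermediate_value ha hb hc ⟨ha'.le, hb'.le⟩
  exact h z hz hz'

theorem bloc_convex_TT : Convex ℝ TT := by
  intro a ha b hb s t hs ht hst
  refine ⟨?_, ?_⟩
  · simp [ha.1, hb.1]
  · have h1 := ha.2
    have h2 := hb.2
    simp only [Complex.add_re, Complex.real_smul, Complex.mul_re, Complex.ofReal_re,
      Complex.ofReal_im, zero_mul, sub_zero]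
    nlinarith [mul_le_mul_of_nonneg_left h1 hs, mul_le_mul_of_nonneg_left h2 ht]

theorem bloc_onLine_zero : OnLine 0 := onLine_iff.2 ⟨0, by simp⟩

theorem bloc_onLine_σp : OnLine σp := onLine_iff.2 ⟨1, by simp [σp]⟩

/-- Let `J` be the continuum of `Conn (fb w)`. If `w` is on a line take `{w}`. Otherwise it is
enough to find a connected `P ∋ w` missing the lines, on which `Im fb` has a weak sign, with
`fb '' P ⊆ J ∪ J₂` (`J₂ ⊆ TT` a segment, `‖·‖ ≤ ‖fb w‖ + 10` on `J ∪ J₂`) and with closure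
meeting a line: such sets are bounded and confined by `conf` and `re_le_of_bounds`, and
`closure P` works (all conditions are closed, `closure P ⊆ fb⁻¹ (J ∪ J₂) ⊆ A`).
Stage 1: if `Im (fb w) = 0` let `P₁ = {w}`. Otherwise let `P₀` be the component of `w` in
`fb⁻¹ J \ S`, `S = {Im fb = 0}`; it misses the lines and is bounded; `Ent.cmp` and the real
point of `J` show that `closure P₀` meets `S`; if `closure P₀` meets a line take `P = P₀`,
otherwise `P₁ = closure P₀ ∋ v` with `fb v ∈ TT`. Stage 2: `J₂ = segment (fb v) 10`, `P₂` the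
component of `v` in `fb⁻¹ J₂ \ lines`, `P = P₁ ∪ P₂`; if `closure P₂` missed the lines, `Ent.cmp`
would give a point of `P₂` with `fb = 10`, against `onLine_of_fb_eq`. -/
theorem loc_of_conn {w : ℂ} (hw : 0 ≤ w.re) (h : Conn (fb w)) : Loc w := by
  obtain ⟨J, hJc, hJp, hwJ, ⟨v₀, hv₀, hv₀i⟩, hJ⟩ := h
  by_cases hwl : OnLine w
  · refine ⟨{w}, isCompact_singleton, isPreconnected_singleton, rfl, ⟨w, rfl, hwl⟩, ?_⟩
    rintro z rfl
    refine ⟨fb_mem_AA_iff.1 (hJ _ hwJ).1, by linarith, by linarith, bloc_sameStrip_refl z,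
      fun h => ?_⟩
    linarith [Real.pi_pos]
  have hJA : J ⊆ AA := fun y hy => (hJ y hy).1
  have hJn : ∀ y ∈ J, ‖y‖ ≤ ‖fb w‖ + 10 := fun y hy => (hJ y hy).2.2
  have stage1 : Loc w ∨ ∃ P₁ : Set ℂ, IsPreconnected P₁ ∧ w ∈ P₁ ∧ (∀ z ∈ P₁, ¬ OnLine z) ∧
      ((∀ z ∈ P₁, 0 ≤ (fb z).im) ∨ ∀ z ∈ P₁, (fb z).im ≤ 0) ∧ (∀ z ∈ P₁, fb z ∈ J) ∧
      ∃ v ∈ P₁, (fb v).im = 0 := by
    by_cases hwi : (fb w).im = 0
    · refine Or.inr ⟨{w}, isPreconnected_singleton, rfl, ?_, Or.inl ?_, ?_, w, rfl, hwi⟩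
      · rintro z rfl; exact hwl
      · rintro z rfl; exact hwi.ge
      · rintro z rfl; exact hwJ
    obtain ⟨S, hS⟩ : ∃ S : Set ℂ, S = {z | (fb z).im = 0} := ⟨_, rfl⟩
    have hSc : IsClosed S := by
      rw [hS]
      exact isClosed_eq (Complex.continuous_im.comp bloc_continuous_fb) continuous_const
    have hwS : w ∉ S := by rw [hS]; exact hwi
    obtain ⟨P₀, hP₀⟩ : ∃ P₀ : Set ℂ, P₀ = connectedComponentIn (fb ⁻¹' J \ S) w := ⟨_, rfl⟩
    have hsub : P₀ ⊆ fb ⁻¹' J \ S := by rw [hP₀]; exact connectedComponentIn_subset _ _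
    have hp : IsPreconnected P₀ := by rw [hP₀]; exact isPreconnected_connectedComponentIn
    have hwP : w ∈ P₀ := by rw [hP₀]; exact mem_connectedComponentIn ⟨hwJ, hwS⟩
    have hne : ∀ z ∈ P₀, (fb z).im ≠ 0 := fun z hz h => (hsub hz).2 (by rw [hS]; exact h)
    have hl : ∀ z ∈ P₀, ¬ OnLine z := fun z hz h => hne z hz (by
      rw [im_fb, show xx z * yy z = 0 from h, zero_mul])
    have hs := bloc_sign hp hne
    have hC := bloc_subset_C hw hJn hp hwP hl hs fun z hz => (hsub hz).1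
    have hb : Bornology.IsBounded P₀ := (bloc_isBounded_C hw J).subset hC
    by_cases hcl : ∃ v ∈ closure P₀, OnLine v
    · exact Or.inl (bloc_loc_of_subset hw hJc.isClosed hJA hp hwP hC hcl)
    have hmeet : ∃ v ∈ closure P₀, (fb v).im = 0 := by
      by_contra hcon
      have hd : Disjoint (closure P₀) S :=
        disjoint_left.2 fun z hz hzS => hcon ⟨z, hz, by rw [hS] at hzS; exact hzS⟩
      have := ent_fb.cmp hJc.isClosed hJp hSc hwJ hwS (hP₀ ▸ hb) (hP₀ ▸ hd) hv₀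
      rw [← hP₀] at this
      obtain ⟨z, hz, hzv⟩ := this
      exact hne z hz (by rw [hzv]; exact hv₀i)
    refine Or.inr ⟨closure P₀, hp.closure, subset_closure hwP, fun z hz h => hcl ⟨z, hz, h⟩, ?_,
      fun z hz => (closure_minimal hC (bloc_isClosed_C w hJc.isClosed) hz).1, hmeet⟩
    have hci : Continuous fun z => (fb z).im := Complex.continuous_im.comp bloc_continuous_fb
    rcases hs with hs | hs
    · exact Or.inl fun z hz => closure_minimal (t := {z | 0 ≤ (fb z).im}) hs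
        (isClosed_le continuous_const hci) hz
    · exact Or.inr fun z hz => closure_minimal (t := {z | (fb z).im ≤ 0}) hs
        (isClosed_le hci continuous_const) hz
  rcases stage1 with h | ⟨P₁, hp₁, hw₁, hl₁, hs₁, hJ₁, v, hv, hvi⟩
  · exact h
  have hvT : fb v ∈ TT := ⟨hvi, (hJ _ (hJ₁ v hv)).2.1⟩
  have h10 : (10 : ℂ) ∈ TT := ⟨by simp, by norm_num⟩
  obtain ⟨J₂, hJ₂⟩ : ∃ J₂ : Set ℂ, J₂ = segment ℝ (fb v) 10 := ⟨_, rfl⟩
  have hJ₂T : J₂ ⊆ TT := by rw [hJ₂]; exact bloc_convex_TT.segment_subset hvT h10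
  have hJ₂c : IsClosed J₂ := by
    rw [hJ₂, segment_eq_image_lineMap]
    exact (isCompact_Icc.image AffineMap.lineMap_continuous).isClosed
  have hJ₂p : IsPreconnected J₂ := by rw [hJ₂]; exact (convex_segment _ _).isPreconnected
  have hJ₂n : ∀ y ∈ J₂, ‖y‖ ≤ ‖fb w‖ + 10 := by
    have : J₂ ⊆ closedBall 0 (‖fb w‖ + 10) := by
      rw [hJ₂]
      refine (convex_closedBall _ _).segment_subset ?_ ?_
      · rw [mem_closedBall_zero_iff]; exact hJn _ (hJ₁ v hv)
      · rw [mem_closedBall_zero_iff]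
        have : ‖(10 : ℂ)‖ = 10 := by simp
        linarith [norm_nonneg (fb w)]
    exact fun y hy => mem_closedBall_zero_iff.1 (this hy)
  have hvJ₂ : fb v ∈ J₂ := by rw [hJ₂]; exact left_mem_segment _ _ _
  obtain ⟨P₂, hP₂⟩ : ∃ P₂ : Set ℂ,
    P₂ = connectedComponentIn (fb ⁻¹' J₂ \ {z | OnLine z}) v := ⟨_, rfl⟩
  have hsub : P₂ ⊆ fb ⁻¹' J₂ \ {z | OnLine z} := by
    rw [hP₂]; exact connectedComponentIn_subset _ _
  have hp₂ : IsPreconnected P₂ := by rw [hP₂]; exact isPreconnected_connectedComponentIn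
  have hv₂ : v ∈ P₂ := by rw [hP₂]; exact mem_connectedComponentIn ⟨hvJ₂, hl₁ v hv⟩
  have hp : IsPreconnected (P₁ ∪ P₂) := hp₁.union v hv hv₂ hp₂
  have hC : P₁ ∪ P₂ ⊆ blocC w (J ∪ J₂) := by
    refine bloc_subset_C hw ?_ hp (Or.inl hw₁) ?_ ?_ ?_
    · rintro y (hy | hy)
      exacts [hJn y hy, hJ₂n y hy]
    · rintro z (hz | hz)
      exacts [hl₁ z hz, (hsub hz).2]
    · rcases hs₁ with hs | hs
      · refine Or.inl ?_
        rintro z (hz | hz)
        exacts [hs z hz, (hJ₂T (hsub hz).1).1.ge]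
      · refine Or.inr ?_
        rintro z (hz | hz)
        exacts [hs z hz, (hJ₂T (hsub hz).1).1.le]
    · rintro z (hz | hz)
      exacts [Or.inl (hJ₁ z hz), Or.inr (hsub hz).1]
  refine bloc_loc_of_subset hw (hJc.isClosed.union hJ₂c)
    (union_subset hJA (hJ₂T.trans TT_subset_AA)) hp (Or.inl hw₁) hC ?_
  by_contra hcon
  have hb : Bornology.IsBounded P₂ :=
    (bloc_isBounded_C hw _).subset (subset_union_right.trans hC)
  have hd : Disjoint (closure P₂) {z | OnLine z} :=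
    disjoint_left.2 fun z hz hzl => hcon ⟨z, closure_mono subset_union_right hz, hzl⟩
  have := ent_fb.cmp hJ₂c hJ₂p isClosed_onLine hvJ₂ (hl₁ v hv) (hP₂ ▸ hb) (hP₂ ▸ hd)
    (show (10 : ℂ) ∈ J₂ by rw [hJ₂]; exact right_mem_segment _ _ _)
  rw [← hP₂] at this
  obtain ⟨z, hz, hz10⟩ := this
  exact (hsub hz).2 (onLine_of_fb_eq (hC (Or.inr hz)).2.1 hz10)

/-- Add `comb v 0`. All points have `-2 ≤ Re ≤ Re w + 3` and `|Im| ≤ |Im w| + 2`. -/
theorem conn_of_loc {w : ℂ} (hw : 0 ≤ w.re) (h : Loc w) : Conn w := by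
  obtain ⟨P, hPc, hPp, hwP, ⟨v, hv, hvl⟩, hP⟩ := h
  obtain ⟨-, hv1, hv2, hv3, -⟩ := hP v hv
  obtain ⟨Q, hQc, hQp, hvQ, h0Q, hQ⟩ := comb hvl bloc_onLine_zero hv1 (by simp)
  refine ⟨P ∪ Q, hPc.union hQc, hPp.union v hv hvQ hQp, Or.inl hwP, ⟨0, Or.inr h0Q, rfl⟩, ?_⟩
  rintro z (hz | hz)
  · obtain ⟨h1, h2, h3, h4, -⟩ := hP z hz
    exact ⟨h1, h2, bloc_norm_le (bloc_abs_re_le hw h2 h3) (bloc_im_le h4)⟩
  · obtain ⟨h1, h2, h3, h4, h5⟩ := hQ z hz
    refine ⟨fb_mem_AA_iff.1 (TT_subset_AA h1), h2, bloc_norm_le (bloc_abs_re_le hw h2 ?_) ?_⟩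
    · refine h3.trans (max_le (max_le hv2 ?_) ?_)
      · simp only [Complex.zero_re]; linarith
      · linarith
    · refine le_trans ?_ (bloc_im_le hv3)
      simp only [Complex.zero_im] at h4 h5
      have h6 := le_abs_self v.im
      have h7 := neg_abs_le v.im
      have h8 := abs_nonneg v.im
      rw [abs_le]
      exact ⟨le_trans (le_min h7 (by linarith)) h4, h5.trans (max_le h6 h8)⟩

theorem loc_of_goodN {N : ℕ} {w : ℂ} (h : GoodN (N + 1) w) : Loc w := by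
  induction N generalizing w with
  | zero =>
    have hT : fb w ∈ TT := h.2
    refine loc_of_conn (h.1 0 (by omega)) ⟨{fb w}, isCompact_singleton, isPreconnected_singleton,
      rfl, ⟨fb w, rfl, hT.1⟩, ?_⟩
    rintro z rfl
    exact ⟨TT_subset_AA hT, hT.2, by linarith⟩
  | succ N ih =>
    have h' : GoodN (N + 1) (fb w) := ⟨fun j hj => h.1 (j + 1) (by omega), h.2⟩
    exact loc_of_conn (h.1 0 (by omega)) (conn_of_loc (h.1 1 (by omega)) (ih h'))

theorem bloc_up {w : ℂ} (hw : FFO w) {η : ℝ} (h₀ : 0 < η) (h₁ : η < w.im) (h₂ : η ≤ Real.pi / 2)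
    (h : ∀ᶠ w' in 𝓝 w, ∀ z : ℂ, z.re ≤ w'.re + 3 → SameStrip w' z →
      (3 * Real.pi / 2 < yy w' → Real.pi / 2 ≤ yy z) → η ≤ z.im) :
    ∃ K : Set ℂ, IsCompact K ∧ (∀ z ∈ K, z.im ≠ 0) ∧ K ∈ 𝓝 w ∧ Appr K σp w := by
  refine ⟨{z | η ≤ z.im} ∩ closedBall 0 (‖w‖ + 11),
    (isCompact_closedBall _ _).inter_left (isClosed_le continuous_const Complex.continuous_im),
    fun z hz => (h₀.trans_le hz.1).ne', ?_, fun δ hδ => ?_⟩
  · refine inter_mem ?_ ?_
    · exact mem_of_superset ((isOpen_lt continuous_const Complex.continuous_im).mem_nhds h₁)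
        fun z (hz : η < z.im) => (le_of_lt hz : η ≤ z.im)
    · refine closedBall_mem_nhds_of_mem ?_
      rw [mem_ball_zero_iff]; linarith
  obtain ⟨ε, hε, hball⟩ := Metric.eventually_nhds_iff_ball.1 h
  obtain ⟨N, hN⟩ := exists_pow_lt_of_lt_one (show 0 < min (min δ ε) 1 / 2 by positivity)
    (show (1 / 2 : ℝ) < 1 by norm_num)
  obtain ⟨w', hg, hw'⟩ := hw.exists_goodN N
  have hlt : ‖w' - w‖ < min (min δ ε) 1 := by
    have e : (2 : ℝ) / 2 ^ N = 2 * (1 / 2) ^ N := by rw [one_div, inv_pow, div_eq_mul_inv]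
    linarith
  have hδ' : w' ∈ ball w δ := by
    rw [mem_ball, dist_eq_norm]
    exact hlt.trans_le ((min_le_left _ _).trans (min_le_left _ _))
  have hε' : w' ∈ ball w ε := by
    rw [mem_ball, dist_eq_norm]
    exact hlt.trans_le ((min_le_left _ _).trans (min_le_right _ _))
  have hn : ‖w'‖ ≤ ‖w‖ + 1 := by
    have h3 := hlt.trans_le (min_le_right _ _)
    have h4 := norm_sub_norm_le w' w
    linarith
  have hre : 0 ≤ w'.re := hg.1 0 (by omega)
  obtain ⟨P, hPc, hPp, hwP, ⟨v, hv, hvl⟩, hP⟩ := loc_of_goodN hg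
  obtain ⟨-, hv1, hv2, hv3, hv4⟩ := hP v hv
  have hvη := hball w' hε' v hv2 hv3 hv4
  obtain ⟨Q, hQc, hQp, hvQ, hσQ, hQ⟩ := comb hvl bloc_onLine_σp hv1 (by simp [σp])
  refine ⟨w', hδ', P ∪ Q, hPc.union hQc, hPp.union v hv hvQ hQp, ?_, Or.inl hwP, Or.inr hσQ⟩
  rintro z (hz | hz)
  · obtain ⟨h3, h4, h5, h6, h7⟩ := hP z hz
    refine ⟨h3, hball w' hε' z h5 h6 h7, ?_⟩
    rw [mem_closedBall_zero_iff]
    linarith [bloc_norm_le (bloc_abs_re_le hre h4 h5) (bloc_im_le h6)]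
  · obtain ⟨h3, h4, h5, h6, h7⟩ := hQ z hz
    have e1 : σp.re = -2 := rfl
    have e2 : σp.im = Real.pi / 2 := rfl
    rw [e1] at h5
    rw [e2] at h6 h7
    have h8 : η ≤ z.im := le_trans (le_min hvη h₂) h6
    refine ⟨fb_mem_AA_iff.1 (TT_subset_AA h3), h8, ?_⟩
    rw [mem_closedBall_zero_iff]
    have h9 : z.re ≤ w'.re + 3 := h5.trans (max_le (max_le hv2 (by linarith)) (by linarith))
    have h10 : |z.im| ≤ |w'.im| + 2 := by
      rw [abs_of_pos (h₀.trans_le h8)]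
      refine h7.trans (max_le ((le_abs_self _).trans (bloc_im_le hv3)) ?_)
      linarith [Real.pi_le_four, abs_nonneg w'.im]
    linarith [bloc_norm_le (bloc_abs_re_le hre h4 h9) h10]

/-- Take `w'` from `FFO.exists_goodN` so close to `w` that it satisfies the same (open) case
condition and `‖w' - w‖ ≤ 1`; join it to a line point `v` by `Loc w'`, and `v` to `σp` by `comb`.
First case: everything has `Im ≥ π / 2`. Second case: on the local part `y ≥ π / 2`,
`0 ≤ Im ≤ π`, `exp Re ≤ B = exp (Re w + 4)`, so `Im ≥ sin Im ≥ (π / 2) / B`, and `Im v = π / 2`.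
`K = {η ≤ Im} ∩ closedBall 0 ρ`. -/
theorem FFO.up {w : ℂ} (hw : FFO w)
    (h : Real.pi / 2 < w.im ∨ (3 * Real.pi / 2 < yy w ∧ 0 < w.im ∧ w.im < Real.pi)) :
    ∃ K : Set ℂ, IsCompact K ∧ (∀ z ∈ K, z.im ≠ 0) ∧ K ∈ 𝓝 w ∧ Appr K σp w := by
  have hpi := Real.pi_pos
  rcases h with h | ⟨h₁, h₂, h₃⟩
  · refine bloc_up hw (η := Real.pi / 2) (by positivity) h le_rfl ?_
    filter_upwards [(isOpen_lt continuous_const Complex.continuous_im).mem_nhds h] with w' hw'
    intro z _ hs _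
    have := (hs 1).1 (by simpa using le_of_lt hw')
    simpa using this
  · have hB : 0 < Real.exp (w.re + 4) := Real.exp_pos _
    refine bloc_up hw (η := min (Real.pi / 2 / Real.exp (w.re + 4)) (w.im / 2))
      (lt_min (by positivity) (by positivity)) ((min_le_right _ _).trans_lt (by linarith))
      ((min_le_right _ _).trans (by linarith)) ?_
    filter_upwards [(isOpen_lt continuous_const continuous_yy).mem_nhds h₁,
      (isOpen_lt continuous_const Complex.continuous_im).mem_nhds h₂,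
      (isOpen_lt Complex.continuous_im continuous_const).mem_nhds h₃,
      (isOpen_lt Complex.continuous_re continuous_const).mem_nhds
        (show w.re < w.re + 1 by linarith)] with w' k₁ k₂ k₃ k₄
    intro z hz hs hy
    have k₂' : 0 < w'.im := k₂
    have k₃' : w'.im < Real.pi := k₃
    have k₄' : w'.re < w.re + 1 := k₄
    have a1 : 0 ≤ z.im := by
      have := (hs 0).1 (by simpa using k₂'.le)
      simpa using this
    have a2 : z.im ≤ Real.pi := by
      have := (hs 2).2 (by push_cast; linarith)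
      push_cast at this
      linarith
    have a3 : Real.pi / 2 ≤ Real.exp z.re * Real.sin z.im := by
      have := hy k₁
      rwa [yy, Complex.exp_im] at this
    have a4 : 0 ≤ Real.sin z.im := Real.sin_nonneg_of_nonneg_of_le_pi a1 a2
    have a5 : Real.exp z.re ≤ Real.exp (w.re + 4) := Real.exp_le_exp.2 (by linarith)
    have a6 : Real.sin z.im ≤ z.im := Real.sin_le a1
    refine (min_le_left _ _).trans ?_
    rw [div_le_iff₀ hB]
    calc Real.pi / 2 ≤ Real.exp z.re * Real.sin z.im := a3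
      _ ≤ Real.exp (w.re + 4) * z.im := mul_le_mul a5 a6 a4 hB.le
      _ = z.im * Real.exp (w.re + 4) := mul_comm _ _

theorem Appr.conj {K : Set ℂ} {σ w : ℂ} (h : Appr K σ w) :
    Appr ((starRingEnd ℂ) '' K) ((starRingEnd ℂ) σ) ((starRingEnd ℂ) w) := by
  intro δ hδ
  obtain ⟨w', hw', P, hPc, hPp, hPK, hwP, hσP⟩ := h δ hδ
  refine ⟨(starRingEnd ℂ) w', ?_, (starRingEnd ℂ) '' P, hPc.image Complex.continuous_conj,
    hPp.image _ Complex.continuous_conj.continuousOn, ?_, mem_image_of_mem _ hwP,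
    mem_image_of_mem _ hσP⟩
  · rw [mem_ball, Complex.dist_conj_conj]; exact hw'
  · rintro _ ⟨z, hz, rfl⟩
    exact ⟨conj_mem_AA (hPK hz).1, mem_image_of_mem _ (hPK hz).2⟩

end Pool.Agent.Lib.MP_dbd176_an
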