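import Pool.Agent.Lib.MP_dbd176_an.Log

open Set Metric Filter Topology

namespace Pool.Agent.Lib.MP_dbd176_an

theorem bar_sep {K F : Set ℂ} (hK : IsCompact K) (hF : IsClosed F) (hd : Disjoint K F) {R : ℝ}
    (hR : 0 < R) : ∀ᶠ η in 𝓝[>] (0 : ℝ), ∀ w ∈ K, ∀ z ∈ F, R * η < ‖z - w‖ := by
  obtain ⟨δ, hδ, h⟩ := hK.exists_cthickening_subset_open hF.isOpen_compl
    (disjoint_left.1 hd)
  filter_upwards [Ioo_mem_nhdsGT (div_pos hδ hR)] with η hη w hw z hz
  by_contra hc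
  refine h (mem_cthickening_of_dist_le z w δ K hw ?_) hz
  rw [dist_eq_norm]
  have := (lt_div_iff₀ hR).1 hη.2
  linarith

theorem bar_arc {a v w : ℂ} {R η : ℝ} (hη : 0 < η) (hv : v ∈ sphere a R) (hw : w ∈ sphere a R)
    (h : ⌊Complex.arg (w - a) / η⌋ = ⌊Complex.arg (v - a) / η⌋) :
    ∃ t : ℝ, |t| ≤ η ∧ w = a + (v - a) * Complex.exp (Complex.I * t) := by
  refine ⟨Complex.arg (w - a) - Complex.arg (v - a), ?_, ?_⟩
  · have := Int.abs_sub_lt_one_of_floor_eq_floor h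
    rw [← sub_div, abs_div, abs_of_pos hη, div_lt_one hη] at this
    exact this.le
  · have h1 := Complex.norm_mul_exp_arg_mul_I (w - a)
    have h2 := Complex.norm_mul_exp_arg_mul_I (v - a)
    rw [mem_sphere_iff_norm.1 hw] at h1
    rw [mem_sphere_iff_norm.1 hv] at h2
    have h3 : (v - a) * Complex.exp (Complex.I *
        ((Complex.arg (w - a) - Complex.arg (v - a) : ℝ) : ℂ)) = w - a := by
      calc (v - a) * Complex.exp (Complex.I *
            ((Complex.arg (w - a) - Complex.arg (v - a) : ℝ) : ℂ))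
          = (R * Complex.exp (Complex.arg (v - a) * Complex.I)) * Complex.exp (Complex.I *
            ((Complex.arg (w - a) - Complex.arg (v - a) : ℝ) : ℂ)) := by rw [h2]
        _ = R * Complex.exp (Complex.arg (w - a) * Complex.I) := by
          rw [mul_assoc, ← Complex.exp_add]
          congr 2
          push_cast
          ring
        _ = w - a := h1
    rw [h3]
    ring

theorem bar_arc_dist {a v : ℂ} {R η t : ℝ} (hv : v ∈ sphere a R) (ht : |t| ≤ η) :
    ‖a + (v - a) * Complex.exp (Complex.I * t) - v‖ ≤ R * η := by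
  have h : a + (v - a) * Complex.exp (Complex.I * t) - v =
      (v - a) * (Complex.exp (Complex.I * t) - 1) := by ring
  rw [h, norm_mul, mem_sphere_iff_norm.1 hv]
  refine mul_le_mul_of_nonneg_left (Real.norm_exp_I_mul_ofReal_sub_one_le.trans ht) ?_
  rw [← mem_sphere_iff_norm.1 hv]
  exact norm_nonneg _

theorem bar_re {d : ℂ} {c : ℝ} (hc : 0 ≤ c) (hd : 0 < d.re) :
    0 ≤ ((c : ℂ) / d).re ∧ ((c : ℂ) / d).re ≤ c / d.re := by
  have h1 : ((c : ℂ) / d).re = c * d.re / Complex.normSq d := by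
    rw [Complex.div_re]; simp
  have h2 : d.re * d.re ≤ Complex.normSq d := Complex.re_sq_le_normSq d
  have h3 : 0 < d.re * d.re := by positivity
  rw [h1]
  refine ⟨div_nonneg (by positivity) (Complex.normSq_nonneg d), ?_⟩
  rw [div_le_div_iff₀ (by linarith) hd, mul_assoc]
  exact mul_le_mul_of_nonneg_left h2 hc

/-- Barriers. Let `u` be the branch of `log (w - a)` on `Zᶜ` (`exists_holo_log`), so
`Re (u w) = log ‖w - a‖`. Choose `0 < η ≤ 1` so small that points of different `K i` are more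
than `R η` apart and `closedBall w (R η)` misses `Z` for `w ∈ K i`. Let
`k w = ⌊arg (w - a) / η⌋`, which takes at most `2 π / η + 2` values. For `i ∈ s` let `J i` be the
finite set `k '' K i`; these sets are pairwise disjoint (equal `k` forces
`‖w - w'‖ ≤ R η`). For `j ∈ J i` pick `v i j ∈ K i` with `k = j`, and put
`b i w = ∑ j ∈ J i, 2 η / (ε (u w - u (v i j)) + η)`, `ω i = 2 η * card (J i)`.
The denominator `d` has real part `ε log (‖w - a‖ / R) + η`, and `Re (1 / d) = Re d / ‖d‖ ^ 2`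
lies in `[0, 1 / Re d]`. For `w ∈ K i` with `k w = j`, `w = a + (v - a) exp (i t)` with
`|t| ≤ η` and `u w - u v = i t` (`log_sub_const_real` along the arc), so `‖d‖ ^ 2 ≤ 2 η ^ 2`. -/
theorem barrier {Z : Set ℂ} (hZ : UC Z) {a : ℂ} (ha : a ∈ Z) {R : ℝ} (hR : 0 < R) {ε : ℝ}
    (hε : ε = 1 ∨ ε = -1) {ι : Type} (s : Finset ι) (K : ι → Set ℂ)
    (hK : ∀ i ∈ s, IsCompact (K i) ∧ K i ⊆ sphere a R ∧ Disjoint (K i) Z)
    (hdis : ∀ i ∈ s, ∀ j ∈ s, i ≠ j → Disjoint (K i) (K j)) :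
    ∃ (b : ι → ℂ → ℂ) (ω : ι → ℝ), (∀ i ∈ s, 0 ≤ ω i) ∧ ∑ i ∈ s, ω i ≤ 20 ∧ ∀ i ∈ s,
      (∀ w ∉ Z, 0 ≤ ε * Real.log (‖w - a‖ / R) →
        DifferentiableAt ℂ (b i) w ∧ 0 ≤ (b i w).re) ∧
      (∀ w ∈ K i, 1 ≤ (b i w).re) ∧
      ∀ w ∉ Z, 0 < ε * Real.log (‖w - a‖ / R) →
        (b i w).re ≤ ω i / (ε * Real.log (‖w - a‖ / R)) := by
  classical
  obtain ⟨u, hu, hexp⟩ := exists_holo_log hZ ha
  obtain ⟨η, ⟨hη, hη1⟩, hZη, hKη⟩ : ∃ η : ℝ, (0 < η ∧ η < 1) ∧
      (∀ i ∈ s, ∀ w ∈ K i, ∀ z ∈ Z, R * η < ‖z - w‖) ∧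
      ∀ i ∈ s, ∀ j ∈ s, i ≠ j → ∀ w ∈ K i, ∀ z ∈ K j, R * η < ‖z - w‖ := by
    refine (Filter.Eventually.and (f := 𝓝[>] (0 : ℝ)) (Ioo_mem_nhdsGT one_pos)
      (Filter.Eventually.and ?_ ?_)).exists
    · exact (eventually_all_finset s).2 fun i hi =>
        bar_sep (hK i hi).1 hZ.closed (hK i hi).2.2 hR
    · refine (eventually_all_finset s).2 fun i hi => (eventually_all_finset s).2 fun j hj => ?_
      by_cases hij : i = j
      · exact Eventually.of_forall fun _ h => absurd hij h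
      · exact (bar_sep (hK i hi).1 (hK j hj).1.isClosed (hdis i hi j hj hij) hR).mono
          fun _ h _ => h
  obtain ⟨T, hT⟩ : ∃ T : Finset ℤ, T = Finset.Icc ⌊-Real.pi / η⌋ ⌊Real.pi / η⌋ := ⟨_, rfl⟩
  have hTmem : ∀ w : ℂ, ⌊Complex.arg (w - a) / η⌋ ∈ T := fun w => by
    rw [hT, Finset.mem_Icc]
    exact ⟨Int.floor_le_floor (div_le_div_of_nonneg_right (Complex.neg_pi_lt_arg _).le hη.le),
      Int.floor_le_floor (div_le_div_of_nonneg_right (Complex.arg_le_pi _) hη.le)⟩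
  have hTcard : 2 * η * (T.card : ℝ) ≤ 20 := by
    have h0 : ⌊-Real.pi / η⌋ ≤ ⌊Real.pi / η⌋ + 1 := by
      have := Finset.mem_Icc.1 (hT ▸ hTmem 0)
      omega
    have h1 : (T.card : ℤ) = ⌊Real.pi / η⌋ + 1 - ⌊-Real.pi / η⌋ := by
      rw [hT, Int.card_Icc_of_le _ _ h0]
    have h2 : (T.card : ℝ) = ⌊Real.pi / η⌋ + 1 - ⌊-Real.pi / η⌋ := by exact_mod_cast h1
    have h3 := Int.floor_le (Real.pi / η)
    have h4 := Int.lt_floor_add_one (-Real.pi / η)
    have h5 : (T.card : ℝ) ≤ 2 * (Real.pi / η) + 2 := by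
      rw [neg_div] at h2 h4
      linarith
    have h6 : η * (Real.pi / η) = Real.pi := mul_div_cancel₀ _ hη.ne'
    have h7 := Real.pi_le_four
    nlinarith
  obtain ⟨J, hJ⟩ : ∃ J : ι → Finset ℤ, ∀ i j, j ∈ J i ↔
      j ∈ T ∧ ∃ w ∈ K i, ⌊Complex.arg (w - a) / η⌋ = j :=
    ⟨fun i => T.filter fun j => ∃ w ∈ K i, ⌊Complex.arg (w - a) / η⌋ = j,
      fun _ _ => Finset.mem_filter⟩
  have hv : ∀ i j, ∃ v : ℂ, j ∈ J i → v ∈ K i ∧ ⌊Complex.arg (v - a) / η⌋ = j := fun i j => by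
    by_cases h : j ∈ J i
    · obtain ⟨w, hw⟩ := ((hJ i j).1 h).2
      exact ⟨w, fun _ => hw⟩
    · exact ⟨0, fun h' => absurd h' h⟩
  choose v hv using hv
  have hre : ∀ w ∉ Z, (u w).re = Real.log ‖w - a‖ := fun w hw => by
    rw [← hexp w hw, Complex.norm_exp, Real.log_exp]
  have hden : ∀ i ∈ s, ∀ j ∈ J i, ∀ w ∉ Z,
      ((ε : ℂ) * (u w - u (v i j)) + η).re = ε * Real.log (‖w - a‖ / R) + η := by
    intro i hi j hj w hw
    have h1 := (hv i j hj).1
    have h2 : ‖w - a‖ ≠ 0 := norm_ne_zero_iff.2 (sub_ne_zero.2 fun h => hw (h ▸ ha))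
    rw [Complex.add_re, Complex.re_ofReal_mul, Complex.sub_re, Complex.ofReal_re, hre w hw,
      hre _ (disjoint_left.1 (hK i hi).2.2 h1), mem_sphere_iff_norm.1 ((hK i hi).2.1 h1),
      Real.log_div h2 hR.ne']
  have hnn : ∀ i ∈ s, ∀ j ∈ J i, ∀ w ∉ Z, 0 ≤ ε * Real.log (‖w - a‖ / R) →
      0 ≤ (((2 * η : ℝ) : ℂ) / ((ε : ℂ) * (u w - u (v i j)) + η)).re := fun i hi j hj w hw h =>
    (bar_re (by positivity) (by rw [hden i hi j hj w hw]; linarith)).1
  refine ⟨fun i w => ∑ j ∈ J i, ((2 * η : ℝ) : ℂ) / ((ε : ℂ) * (u w - u (v i j)) + η),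
    fun i => 2 * η * (J i).card, fun i _ => by positivity, ?_, fun i hi => ⟨?_, ?_, ?_⟩⟩
  · rw [← Finset.mul_sum, ← Nat.cast_sum, ← Finset.card_biUnion]
    · refine le_trans ?_ hTcard
      gcongr
      exact Finset.biUnion_subset.2 fun i _ j hj => ((hJ i j).1 hj).1
    · intro i hi j hj hij
      refine Finset.disjoint_left.2 fun k hki hkj => ?_
      obtain ⟨h1, h2⟩ := hv i k hki
      obtain ⟨h3, h4⟩ := hv j k hkj
      obtain ⟨t, ht, he⟩ := bar_arc hη ((hK i hi).2.1 h1) ((hK j hj).2.1 h3) (h4.trans h2.symm)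
      have h5 := hKη i hi j hj hij _ h1 _ h3
      rw [he] at h5
      exact absurd (bar_arc_dist ((hK i hi).2.1 h1) ht) (not_le.2 h5)
  · intro w hw h
    constructor
    · refine DifferentiableAt.fun_sum fun j hj => ?_
      have h1 : DifferentiableAt ℂ u w :=
        hu.differentiableAt (hZ.closed.isOpen_compl.mem_nhds hw)
      refine DifferentiableAt.div (by fun_prop) (by fun_prop) fun h0 => ?_
      have := hden i hi j hj w hw
      rw [h0, Complex.zero_re] at this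
      linarith
    · rw [Complex.re_sum]
      exact Finset.sum_nonneg fun j hj => hnn i hi j hj w hw h
  · intro w hw
    have hwZ : w ∉ Z := disjoint_left.1 (hK i hi).2.2 hw
    have hws := (hK i hi).2.1 hw
    have hj : ⌊Complex.arg (w - a) / η⌋ ∈ J i := (hJ _ _).2 ⟨hTmem w, w, hw, rfl⟩
    rw [Complex.re_sum]
    refine le_trans ?_ (Finset.single_le_sum (fun j hj => hnn i hi j hj w hwZ (by
      rw [mem_sphere_iff_norm.1 hws, div_self hR.ne', Real.log_one, mul_zero])) hj)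
    obtain ⟨h1, h2⟩ := hv i _ hj
    obtain ⟨x, hx⟩ : ∃ x, x = v i ⌊Complex.arg (w - a) / η⌋ := ⟨_, rfl⟩
    rw [← hx] at h1 h2 ⊢
    have hxs := (hK i hi).2.1 h1
    obtain ⟨t, ht, he⟩ := bar_arc hη hxs hws h2.symm
    have harc : ∀ r ∈ Icc (-η) η, a + (x - a) * Complex.exp (Complex.I * r) ∉ Z :=
      fun r hr hz => absurd (bar_arc_dist hxs (abs_le.2 hr)) (not_le.2 (hZη i hi x h1 _ hz))
    have hlog := log_sub_const_real (S := Icc (-η) η) isPreconnected_Icc
      (l := fun r : ℝ => u (a + (x - a) * Complex.exp (Complex.I * r)))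
      (m := fun r : ℝ => u x + Complex.I * r)
      (hu.continuousOn.comp (by fun_prop) harc) (by fun_prop)
      (fun r hr => by
        rw [hexp _ (harc r hr), Complex.exp_add, hexp x (disjoint_left.1 (hK i hi).2.2 h1)]
        ring) (abs_le.1 ht) (y := 0) ⟨by linarith, hη.le⟩
    simp only [Complex.ofReal_zero, mul_zero, Complex.exp_zero, mul_one, add_sub_cancel, add_zero,
      sub_self] at hlog
    rw [← he] at hlog
    have h3 : u w - u x = Complex.I * t := by linear_combination hlog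
    have h4 : t * t ≤ η * η := by
      have := abs_le.1 ht
      nlinarith [this.1, this.2]
    rw [h3, Complex.div_re, Complex.normSq_apply]
    have h5 : 0 < η * η + t * t := add_pos_of_pos_of_nonneg (mul_pos hη hη) (mul_self_nonneg t)
    rcases hε with rfl | rfl
    · simp
      rw [le_div_iff₀ h5]
      nlinarith
    · simp
      rw [le_div_iff₀ h5]
      nlinarith
  · intro w hw h
    rw [Complex.re_sum, mul_div_right_comm, ← nsmul_eq_mul']
    refine Finset.sum_le_card_nsmul _ _ _ fun j hj => ?_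
    refine (bar_re (by positivity) (by rw [hden i hi j hj w hw]; linarith)).2.trans ?_
    rw [hden i hi j hj w hw]
    gcongr
    linarith

end Pool.Agent.Lib.MP_dbd176_an
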