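import Pool.Agent.Lib.MP_dbd176_an.Defs

open Set Metric Filter Topology

namespace Pool.Agent.Lib.MP_dbd176_an

/-- A nonconstant entire function, packaged as: entire and open. -/
structure Ent (g : ℂ → ℂ) : Prop where
  diff : Differentiable ℂ g
  opn : IsOpenMap g

/-- An unbounded continuum: closed, connected, unbounded. -/
structure UC (Z : Set ℂ) : Prop where
  closed : IsClosed Z
  conn : IsPreconnected Z
  unb : ¬ Bornology.IsBounded Z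

/-- Points that can be joined to infinity by an unbounded continuum avoiding `K`. -/
def Out (K : Set ℂ) : Set ℂ := {z | ∃ Z, UC Z ∧ z ∈ Z ∧ Disjoint Z K}

/-- `h` has a continuous logarithm on `K`. -/
def HasLog (h : ℂ → ℂ) (K : Set ℂ) : Prop :=
  ∃ l : ℂ → ℂ, ContinuousOn l K ∧ ∀ z ∈ K, Complex.exp (l z) = h z

/-- `β` on `[s₁, s₂]` is a lift under `g` of the circle of centre `c` and radius `τ`. -/
def IsArcLift (g : ℂ → ℂ) (c : ℂ) (τ : ℝ) (β : ℝ → ℂ) (s₁ s₂ : ℝ) : Prop :=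
  ContinuousOn β (Icc s₁ s₂) ∧ ∀ s ∈ Icc s₁ s₂, g (β s) = circleMap c τ s

/-- The circle of centre `c` and radius `τ` contains no critical value of `g`. -/
def Reg (g : ℂ → ℂ) (c : ℂ) (τ : ℝ) : Prop :=
  ∀ z, ‖g z - c‖ = τ → deriv g z ≠ 0

/-- A generic circle: regular, and every point over it has a lift of a full turn in both
directions. -/
def Gen (g : ℂ → ℂ) (c : ℂ) (τ : ℝ) : Prop :=
  0 < τ ∧ Reg g c τ ∧ ∀ (p : ℂ) (θ : ℝ), g p = circleMap c τ θ →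
    ∃ β : ℝ → ℂ, IsArcLift g c τ β (θ - 2 * Real.pi) (θ + 2 * Real.pi) ∧ β θ = p

/-- `U` is an open union of components of `g⁻¹(V)`. -/
structure IsSat (g : ℂ → ℂ) (V U : Set ℂ) : Prop where
  opn : IsOpen U
  maps : MapsTo g U V
  sat : ∀ P : Set ℂ, IsPreconnected P → P ⊆ g ⁻¹' V → (P ∩ U).Nonempty → P ⊆ U

/-- `M(r) > r` for all `r ≥ R`, and `R > 0`. -/
def Big (f : ℂ → ℂ) (R : ℝ) : Prop := 0 < R ∧ ∀ r, R ≤ r → r < maxMod f r

/-- Good points: boundary points of some `f^{-l}(A_ρ)` with `ρ ≥ R`. -/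
def Good (f : ℂ → ℂ) (R : ℝ) (w : ℂ) : Prop :=
  ∃ (l : ℕ) (ρ : ℝ), R ≤ ρ ∧ w ∈ frontier (f^[l] ⁻¹' levelSet f ρ)

/-- `X` contains, on every large circle, a good point whose orbit stays far away. -/
def EBig (f : ℂ → ℂ) (R : ℝ) (X : Set ℂ) : Prop :=
  ∀ r : ℝ, ∃ x : ℝ, ∀ τ, x ≤ τ → ∃ w ∈ X, Good f R w ∧ ‖w‖ = τ ∧ ∀ k : ℕ, r ≤ ‖f^[k] w‖

/-- `U₀, U₁` are disjoint open sets covering `X`. -/
structure Split (X U₀ U₁ : Set ℂ) : Prop where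
  o₀ : IsOpen U₀
  o₁ : IsOpen U₁
  disj : Disjoint U₀ U₁
  cover : X ⊆ U₀ ∪ U₁

theorem Split.symm {X U₀ U₁ : Set ℂ} (h : Split X U₀ U₁) : Split X U₁ U₀ :=
  ⟨h.o₁, h.o₀, h.disj.symm, by rw [union_comm]; exact h.cover⟩

theorem Split.subset_left {X U₀ U₁ P : Set ℂ} (h : Split X U₀ U₁) (hP : IsPreconnected P)
    (hPX : P ⊆ X) (hne : (P ∩ U₀).Nonempty) : P ⊆ U₀ :=
  hP.subset_left_of_subset_union h.o₀ h.o₁ h.disj (hPX.trans h.cover) hne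

theorem Big.mono {f : ℂ → ℂ} {R R' : ℝ} (h : Big f R) (hR : R ≤ R') : Big f R' :=
  ⟨h.1.trans_le hR, fun r hr => h.2 r (hR.trans hr)⟩

theorem IsArcLift.mono {g : ℂ → ℂ} {c : ℂ} {τ : ℝ} {β : ℝ → ℂ} {s₁ s₂ t₁ t₂ : ℝ}
    (h : IsArcLift g c τ β s₁ s₂) (h₁ : s₁ ≤ t₁) (h₂ : t₂ ≤ s₂) : IsArcLift g c τ β t₁ t₂ :=
  ⟨h.1.mono (Icc_subset_Icc h₁ h₂), fun s hs => h.2 s (Icc_subset_Icc h₁ h₂ hs)⟩

theorem IsArcLift.norm_eq {g : ℂ → ℂ} {c : ℂ} {τ : ℝ} {β : ℝ → ℂ} {s₁ s₂ : ℝ}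
    (h : IsArcLift g c τ β s₁ s₂) (hτ : 0 ≤ τ) {s : ℝ} (hs : s ∈ Icc s₁ s₂) :
    ‖g (β s) - c‖ = τ := by
  rw [h.2 s hs, circleMap_sub_center, norm_circleMap_zero, abs_of_nonneg hτ]

theorem Ent.continuous {g : ℂ → ℂ} (h : Ent g) : Continuous g := h.diff.continuous

theorem ent_id : Ent (fun z : ℂ => z) := ⟨differentiable_id, IsOpenMap.id⟩

theorem Ent.comp {g h : ℂ → ℂ} (hg : Ent g) (hh : Ent h) : Ent (g ∘ h) :=
  ⟨hg.diff.comp hh.diff, hg.opn.comp hh.opn⟩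

theorem Ent.iterate {g : ℂ → ℂ} (hg : Ent g) (n : ℕ) : Ent g^[n] := by
  induction n with
  | zero => exact ent_id
  | succ n ih => rw [Function.iterate_succ]; exact ih.comp hg

theorem IsTEF.ent {f : ℂ → ℂ} (hf : IsTEF f) : Ent f := by
  refine ⟨hf.1, ?_⟩
  rcases (hf.1.differentiableOn.analyticOnNhd isOpen_univ).is_constant_or_isOpenMap with
    ⟨w, hw⟩ | h
  · exact absurd ⟨Polynomial.C w, fun z => by simp [hw z]⟩ hf.2
  · exact h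

end Pool.Agent.Lib.MP_dbd176_an
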