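import Pool.Agent.Lib.MP_dbd176_an.Circ
import Pool.Agent.Lib.MP_dbd176_an.MaxMod

open Set Metric Filter Topology

namespace Pool.Agent.Lib.MP_dbd176_an

variable {f : ℂ → ℂ}

/-- Eremenko type lemma. Let `K` be the covering constant, `k` with `4 K ≤ 2 ^ k`, `ρ₀ ≥ r₀ k`
(`IsTEF.maxMod_ratio`) and `Big f ρ₀`. With `X n ρ = {M^n ρ ≤ ‖f^n z‖}` show by induction on `n`,
for all `ρ ≥ ρ₀`, that `X n ρ` meets `closedBall 0 (4 ρ)`: `X n (M ρ)` has an unbounded component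
(`uc_superlevel`) meeting every circle of radius `≥ 4 M ρ`; the covering lemma with `c = y = 0`,
`δ = 2 ρ`, `a = 4 M ρ`, `p = 0`, `z` a maximum point of radius `2 ρ`, gives a point of
`ball 0 (4 ρ)` mapped into it. The closed sets `X n ρ` decrease; compactness. -/
theorem IsTEF.levelSet_meets (hf : IsTEF f) :
    ∃ ρ₀ : ℝ, ∀ ρ, ρ₀ ≤ ρ → ∃ x ∈ levelSet f ρ, ‖x‖ ≤ 4 * ρ := by
  obtain ⟨K, hK, hcov⟩ := exists_cover_const
  obtain ⟨k, hk⟩ := pow_unbounded_of_one_lt (4 * K) (one_lt_two : (1 : ℝ) < 2)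
  obtain ⟨r₀, -, hr⟩ := hf.maxMod_ratio k
  obtain ⟨R, hR⟩ := hf.exists_big
  have key : ∀ n : ℕ, ∀ ρ, max r₀ R ≤ ρ →
      ∃ x : ℂ, ‖x‖ ≤ 4 * ρ ∧ (maxMod f)^[n] ρ ≤ ‖f^[n] x‖ := by
    intro n
    induction n with
    | zero =>
      intro ρ hρ
      have h0 : 0 < ρ := hR.1.trans_le ((le_max_right _ _).trans hρ)
      refine ⟨ρ, ?_, ?_⟩
      · rw [Complex.norm_real, Real.norm_of_nonneg h0.le]; linarith
      · simp only [Function.iterate_zero, id]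
        rw [Complex.norm_real, Real.norm_of_nonneg h0.le]
    | succ n ih =>
      intro ρ hρ
      have hRρ : R ≤ ρ := (le_max_right _ _).trans hρ
      have h0 : 0 < ρ := hR.1.trans_le hRρ
      have hM : ρ < maxMod f ρ := hR.2 ρ hRρ
      obtain ⟨x, hx1, hx2⟩ := ih (maxMod f ρ) (hρ.trans hM.le)
      obtain ⟨ζ, hζ1, hζ2⟩ := exists_norm_eq_maxMod hf.1.continuous (r := 2 * ρ) (by linarith)
      have h1 := hr ρ (2 * ρ) ((le_max_left _ _).trans hρ) (by linarith)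
      rw [mul_div_cancel_right₀ _ h0.ne'] at h1
      have h2 : ‖f 0‖ ≤ maxMod f ρ := norm_le_maxMod hf.1 (by simpa using h0.le)
      obtain ⟨τ, hτ, hsub⟩ := hcov f hf.ent 0 0 (2 * ρ) (4 * maxMod f ρ) (by linarith)
        (by linarith) 0 (by simpa using h0.le) ζ (by simp [hζ1]) (by rw [sub_zero]; linarith)
        (by rw [sub_zero, hζ2]; nlinarith)
      obtain ⟨y, hy1, hy2⟩ := (uc_superlevel (hf.ent.iterate n).diff hx2).meets_sphere
        (mem_connectedComponentIn hx2) (c := 0) (τ := τ) (by rw [sub_zero]; linarith [hτ.1])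
      obtain ⟨w, hw1, rfl⟩ := hsub (mem_sphere_iff_norm.2 hy2)
      have hy3 := connectedComponentIn_subset _ _ hy1
      refine ⟨w, ?_, hy3⟩
      rw [mem_ball_zero_iff] at hw1
      linarith
  refine ⟨max r₀ R, fun ρ hρ => ?_⟩
  have hcl : ∀ n : ℕ, IsClosed {z : ℂ | (maxMod f)^[n] ρ ≤ ‖f^[n] z‖} := fun n =>
    isClosed_le continuous_const (hf.ent.iterate n).continuous.norm
  obtain ⟨x, hx⟩ := IsCompact.nonempty_iInter_of_sequence_nonempty_isCompact_isClosed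
    (fun n : ℕ => closedBall (0 : ℂ) (4 * ρ) ∩ {z : ℂ | (maxMod f)^[n] ρ ≤ ‖f^[n] z‖})
    (fun n z hz => ⟨hz.1, hf.ent.le_norm_iter_of_le (Nat.le_succ n) hz.2⟩)
    (fun n => by
      obtain ⟨x, hx1, hx2⟩ := key n ρ hρ
      exact ⟨x, mem_closedBall_zero_iff.2 hx1, hx2⟩)
    ((isCompact_closedBall _ _).inter_right (hcl 0))
    (fun n => isClosed_closedBall.inter (hcl n))
  rw [mem_iInter] at hx
  exact ⟨x, fun n => (hx n).2, mem_closedBall_zero_iff.1 (hx 0).1⟩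

theorem IsTEF.levelSet_nonempty (hf : IsTEF f) {R : ℝ} (hR : 0 ≤ R) : (levelSet f R).Nonempty := by
  obtain ⟨ρ₀, h⟩ := hf.levelSet_meets
  obtain ⟨x, hx, -⟩ := h (max ρ₀ R) (le_max_left _ _)
  exact ⟨x, levelSet_anti hf.1 hR (le_max_right _ _) hx⟩

/-- Three circles trick. If `φ` is entire, `0 < ε < d`, `‖φ‖ ≤ m` on `sphere p ε`,
`σ ≤ ‖φ z‖` with `‖z - p‖ = d`, and `m (d / ε) ^ N < σ`, then the maximum principle for
`φ w / (w - p) ^ N` on the annulus `ε < ‖w - p‖ < 2 d` gives a point of `sphere p (2 d)` with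
`2 ^ N σ ≤ ‖φ‖`. -/
theorem three_circles {φ : ℂ → ℂ} (hφ : Differentiable ℂ φ) {p z : ℂ} {ε d m σ : ℝ} {N : ℕ}
    (hε : 0 < ε) (hεd : ε < d) (hm : ∀ w ∈ sphere p ε, ‖φ w‖ ≤ m) (hz : ‖z - p‖ = d)
    (hσ : σ ≤ ‖φ z‖) (h : m * (d / ε) ^ N < σ) : ∃ w ∈ sphere p (2 * d), 2 ^ N * σ ≤ ‖φ w‖ := by
  have hd : 0 < d := hε.trans hεd
  have hcl : closure (ball p (2 * d) ∩ (closedBall p ε)ᶜ) ⊆ {w | ε ≤ ‖w - p‖} := by
    refine closure_minimal (fun w hw => ?_) (isClosed_le continuous_const (by fun_prop))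
    have := hw.2
    rw [mem_compl_iff, mem_closedBall_iff_norm, not_le] at this
    exact this.le
  have hdiff : DifferentiableOn ℂ (fun w => φ w / (w - p) ^ N)
      (closure (ball p (2 * d) ∩ (closedBall p ε)ᶜ)) := by
    refine DifferentiableOn.div hφ.differentiableOn (by fun_prop) fun w hw => ?_
    have h1 : ε ≤ ‖w - p‖ := hcl hw
    exact pow_ne_zero _ (norm_pos_iff.1 (hε.trans_le h1))
  have hzU : z ∈ ball p (2 * d) ∩ (closedBall p ε)ᶜ := by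
    refine ⟨mem_ball_iff_norm.2 (by linarith), ?_⟩
    rw [mem_compl_iff, mem_closedBall_iff_norm, not_le]
    linarith
  obtain ⟨w, hw, hmax⟩ := Complex.exists_mem_frontier_isMaxOn_norm
    (isBounded_ball.subset inter_subset_left) ⟨z, hzU⟩ hdiff.diffContOnCl
  have h1 : ‖φ z / (z - p) ^ N‖ ≤ ‖φ w / (w - p) ^ N‖ := hmax (subset_closure hzU)
  rw [norm_div, norm_div, norm_pow, norm_pow, hz] at h1
  have h2 : σ / d ^ N ≤ ‖φ w‖ / ‖w - p‖ ^ N := le_trans (by gcongr) h1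
  rcases frontier_inter_subset _ _ hw with h3 | h3
  · have h4 := frontier_ball_subset_sphere h3.1
    refine ⟨w, h4, ?_⟩
    rw [mem_sphere_iff_norm.1 h4, mul_pow, div_le_div_iff₀ (by positivity) (by positivity)] at h2
    have h5 : 0 < d ^ N := by positivity
    nlinarith
  · exfalso
    have h4 : w ∈ sphere p ε := by
      have := h3.2
      rw [frontier_compl] at this
      exact frontier_closedBall_subset_sphere this
    rw [mem_sphere_iff_norm.1 h4] at h2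
    have h5 : ‖φ w‖ / ε ^ N ≤ m / ε ^ N := by gcongr; exact hm w h4
    have h6 : m / ε ^ N < σ / d ^ N := by
      rw [lt_div_iff₀ (by positivity)]
      rw [div_pow] at h
      calc m / ε ^ N * d ^ N = m * (d ^ N / ε ^ N) := by ring
        _ < σ := h
    linarith

/-- Blowing up at a boundary point `z` of `X = f^{-l}(A_ρ)`. Take `p ∉ X` with
`d = ‖z - p‖ < δ / 3`. Choose `n₀` with `‖f^[n₀ + l] p‖ < σ n₀`, `σ n = M^n ρ`, and so large that
`σ n₀ / 2 ≥ r₀ 2` and `Big f (σ n₀ / 2)`; then `r ∈ [σ n₀ / 2, σ n₀)` and `ε < d` with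
`‖f^[n₀ + l]‖ ≤ r` on `closedBall p ε`. By `IsTEF.maxMod_ratio` with `k = 2`,
`M^j (σ n₀) / M^j r ≥ (σ n₀ / r) ^ (2 ^ j) → ∞`, and `‖f^[n₀ + j + l]‖ ≤ M^j r` on the small
disc. Now `three_circles` with `2 ^ N ≥ Q`. -/
theorem IsTEF.blowup (hf : IsTEF f) {ρ : ℝ} (hρ : Big f ρ) {l : ℕ} {z : ℂ}
    (hz : z ∈ frontier (f^[l] ⁻¹' levelSet f ρ)) {δ : ℝ} (hδ : 0 < δ) {Q : ℝ} (hQ : 1 ≤ Q) :
    ∃ N : ℕ, ∀ n, N ≤ n → ∃ p ∈ ball z δ, ∃ z' ∈ ball z δ,
      Q * ‖f^[n + l] p‖ ≤ (maxMod f)^[n] ρ ∧ Q * (maxMod f)^[n] ρ ≤ ‖f^[n + l] z'‖ := by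
  have hX : IsClosed (f^[l] ⁻¹' levelSet f ρ) :=
    (isClosed_levelSet hf.1.continuous ρ).preimage (hf.ent.iterate l).continuous
  have hzX : z ∈ f^[l] ⁻¹' levelSet f ρ := hX.frontier_subset hz
  rw [frontier_eq_closure_inter_closure] at hz
  obtain ⟨p, hpX, hp⟩ := Metric.mem_closure_iff.1 hz.2 (δ / 3) (by linarith)
  rw [dist_eq_norm] at hp
  have hd : 0 < ‖z - p‖ := norm_pos_iff.2 (sub_ne_zero.2 fun h => hpX (h ▸ hzX))
  obtain ⟨n₁, hn₁⟩ : ∃ n₁ : ℕ, ‖f^[n₁] (f^[l] p)‖ < (maxMod f)^[n₁] ρ := by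
    by_contra hc
    push Not at hc
    exact hpX hc
  obtain ⟨r₀, -, hr⟩ := hf.maxMod_ratio 2
  obtain ⟨n₀, hn₀, hn₀'⟩ := (((hρ.tendsto_iter hf.1).eventually_ge_atTop
    (2 * max r₀ ρ)).and (eventually_ge_atTop n₁)).exists
  have hlt : ‖f^[n₀ + l] p‖ < (maxMod f)^[n₀] ρ := by
    rw [Function.iterate_add_apply]
    by_contra hc
    exact absurd (hf.ent.le_norm_iter_of_le hn₀' (not_lt.1 hc)) (not_le.2 hn₁)
  obtain ⟨σ, hσ⟩ : ∃ σ, σ = (maxMod f)^[n₀] ρ := ⟨_, rfl⟩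
  rw [← hσ] at hlt hn₀
  obtain ⟨r, hr1, hr2, hr3⟩ : ∃ r, ‖f^[n₀ + l] p‖ < r ∧ r < σ ∧ max r₀ ρ ≤ r :=
    ⟨(‖f^[n₀ + l] p‖ + σ) / 2, by linarith, by linarith,
      by linarith [norm_nonneg (f^[n₀ + l] p)]⟩
  have hbr : Big f r := hρ.mono ((le_max_right _ _).trans hr3)
  have hq : 1 < σ / r := (one_lt_div hbr.1).2 hr2
  obtain ⟨ε, hε, hεd, hεb⟩ : ∃ ε, 0 < ε ∧ ε < ‖z - p‖ ∧
      ∀ w ∈ closedBall p ε, ‖f^[n₀ + l] w‖ ≤ r := by
    have h1 : {w | ‖f^[n₀ + l] w‖ < r} ∈ 𝓝 p :=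
      (isOpen_lt (hf.ent.iterate _).continuous.norm continuous_const).mem_nhds hr1
    obtain ⟨ε, hε, h2⟩ := Metric.mem_nhds_iff.1 h1
    have h3 : 0 < min ε ‖z - p‖ := lt_min hε hd
    refine ⟨min ε ‖z - p‖ / 2, by linarith, by linarith [min_le_right ε ‖z - p‖],
      fun w hw => le_of_lt (h2 (closedBall_subset_ball ?_ hw))⟩
    linarith [min_le_left ε ‖z - p‖]
  have hpos : ∀ j : ℕ, 0 < (maxMod f)^[j] r := fun j => hbr.1.trans_le (hbr.le_iter j)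
  have hgrow : ∀ j : ℕ, (maxMod f)^[j] r * (σ / r) ^ (j + 1) ≤ (maxMod f)^[j] σ := by
    intro j
    induction j with
    | zero => simp [mul_div_cancel₀ _ hbr.1.ne']
    | succ j ih =>
      rw [Function.iterate_succ_apply', Function.iterate_succ_apply']
      refine le_trans ?_ (hr _ _ (((le_max_left _ _).trans hr3).trans (hbr.le_iter j))
        (maxMod_iter_mono hf.1 hbr.1.le hr2.le j))
      refine mul_le_mul_of_nonneg_left ?_ (maxMod_nonneg hf.1 (hpos j).le)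
      have h1 : (σ / r) ^ (j + 1) ≤ (maxMod f)^[j] σ / (maxMod f)^[j] r := by
        rw [le_div_iff₀ (hpos j), mul_comm]; exact ih
      calc (σ / r) ^ (j + 1 + 1) ≤ (σ / r) ^ ((j + 1) * 2) :=
            pow_le_pow_right₀ hq.le (by omega)
        _ = ((σ / r) ^ (j + 1)) ^ 2 := pow_mul _ _ _
        _ ≤ _ := pow_le_pow_left₀ (by positivity) h1 2
  obtain ⟨N, hN⟩ := pow_unbounded_of_one_lt Q (one_lt_two : (1 : ℝ) < 2)
  obtain ⟨J, hJ⟩ := pow_unbounded_of_one_lt (max Q ((‖z - p‖ / ε) ^ N)) hq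
  refine ⟨J + n₀, fun n hn => ?_⟩
  obtain ⟨j, rfl⟩ : ∃ j, n = j + n₀ := ⟨n - n₀, by omega⟩
  have hj : max Q ((‖z - p‖ / ε) ^ N) < (σ / r) ^ (j + 1) :=
    hJ.trans_le (pow_le_pow_right₀ hq.le (by omega))
  have hm : ∀ w ∈ closedBall p ε, ‖f^[j + n₀ + l] w‖ ≤ (maxMod f)^[j] r := fun w hw => by
    rw [add_assoc, Function.iterate_add_apply]
    exact norm_iter_le_maxMod hf.1 (hεb w hw) j
  have hσj : (maxMod f)^[j + n₀] ρ = (maxMod f)^[j] σ := by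
    rw [Function.iterate_add_apply, hσ]
  have hσpos : 0 < (maxMod f)^[j] σ := (hpos j).trans_le (maxMod_iter_mono hf.1 hbr.1.le hr2.le j)
  obtain ⟨w, hw1, hw2⟩ := three_circles (hf.ent.iterate (j + n₀ + l)).diff (N := N)
    (σ := (maxMod f)^[j] σ) hε hεd
    (fun w hw => hm w (sphere_subset_closedBall hw)) rfl
    (by rw [← hσj, Function.iterate_add_apply f (j + n₀) l]; exact hzX _)
    (lt_of_lt_of_le (mul_lt_mul_of_pos_left ((le_max_right _ _).trans_lt hj) (hpos j)) (hgrow j))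
  refine ⟨p, ?_, w, ?_, ?_, ?_⟩
  · rw [mem_ball_iff_norm, norm_sub_rev]; linarith
  · rw [mem_sphere_iff_norm] at hw1
    rw [mem_ball_iff_norm]
    have := norm_sub_le (w - p) (z - p)
    rw [sub_sub_sub_cancel_right] at this
    linarith
  · rw [hσj]
    refine le_trans ?_ (hgrow j)
    rw [mul_comm]
    exact mul_le_mul (hm p (mem_closedBall_self hε.le)) ((le_max_left _ _).trans hj.le)
      (by linarith) (hpos j).le
  · rw [hσj]
    exact le_trans (mul_le_mul_of_nonneg_right hN.le hσpos.le) hw2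

/-- Covering of big circles: `blowup` and the covering lemma (centre `z`, radius `δ / 2`).
For any `Q > 0`, for large `n`, some circle of radius in `(Q σ n, K Q σ n)` is covered. -/
theorem IsTEF.blowup_cover (hf : IsTEF f) : ∃ K : ℝ, 1 < K ∧ ∀ {ρ : ℝ}, Big f ρ → ∀ {l : ℕ} {z : ℂ},
    z ∈ frontier (f^[l] ⁻¹' levelSet f ρ) → ∀ {δ : ℝ}, 0 < δ → ∀ {Q : ℝ}, 0 < Q →
      ∃ N : ℕ, ∀ n, N ≤ n → ∃ τ ∈ Ioo (Q * (maxMod f)^[n] ρ) (K * (Q * (maxMod f)^[n] ρ)),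
        sphere (0 : ℂ) τ ⊆ f^[n + l] '' ball z δ := by
  obtain ⟨K, hK, hcov⟩ := exists_cover_const
  refine ⟨K, hK, fun {ρ} hρ {l z} hz {δ} hδ {Q} hQ => ?_⟩
  obtain ⟨N, hN⟩ := hf.blowup hρ hz (δ := δ / 2) (by linarith)
    (Q := max 1 (max Q⁻¹ (K * Q))) (le_max_left _ _)
  refine ⟨N, fun n hn => ?_⟩
  obtain ⟨p, hp, z', hz', h1, h2⟩ := hN n hn
  have hσ : 0 < (maxMod f)^[n] ρ := hρ.1.trans_le (hρ.le_iter n)
  have h3 : Q⁻¹ ≤ max 1 (max Q⁻¹ (K * Q)) := (le_max_left _ _).trans (le_max_right _ _)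
  have h4 : K * Q ≤ max 1 (max Q⁻¹ (K * Q)) := (le_max_right _ _).trans (le_max_right _ _)
  have := hcov _ (hf.ent.iterate (n + l)) z 0 (δ / 2) (Q * (maxMod f)^[n] ρ) (by linarith)
    (by positivity) p (ball_subset_closedBall hp) z' (ball_subset_closedBall hz')
    (by
      rw [sub_zero, ← inv_mul_le_iff₀ hQ]
      exact le_trans (mul_le_mul_of_nonneg_right h3 (norm_nonneg _)) h1)
    (by
      rw [sub_zero, ← mul_assoc]
      exact le_trans (mul_le_mul_of_nonneg_right h4 hσ.le) h2)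
  rwa [show 2 * (δ / 2) = δ by ring] at this

end Pool.Agent.Lib.MP_dbd176_an
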