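import Pool.Agent.Lib.MP_dbd176_an.Circ

open Set Metric Filter Topology

namespace Pool.Agent.Lib.MP_dbd176_an

/-- The state of the chain of circles: a connected set `P ∋ z` in `g⁻¹ Ω` and in the annulus
`‖z‖ / K ≤ ‖·‖ ≤ K ‖z‖` on which `‖g - q‖` takes all values in `(ε / 2, ε)`. -/
def ChainSt (g : ℂ → ℂ) (Ω : Set ℂ) (ε : ℝ) (z : ℂ) (K : ℝ) (q : ℂ) : Prop :=
  ∃ P : Set ℂ, IsPreconnected P ∧ z ∈ P ∧ P ⊆ g ⁻¹' Ω ∧
    (∀ w ∈ P, ‖z‖ / K ≤ ‖w‖ ∧ ‖w‖ ≤ K * ‖z‖) ∧ ∀ τ ∈ Ioo (ε / 2) ε, ∃ w ∈ P, ‖g w - q‖ = τ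

/-- One full circle. `K₀ = exp (8 π ^ 2 / log 2 + 1)`; `Ent.circ_annulus` with centre `q`,
`a = ε / 2`, `b = ε`, `r₁ = ‖z‖ / K`, `r₂ = K ‖z‖`; add the lift of the full circle to `P`. -/
theorem exists_chain_circle : ∃ K₀ : ℝ, 1 < K₀ ∧ ∀ (g : ℂ → ℂ), Ent g → ∀ (Ω : Set ℂ) (ε : ℝ)
    (z : ℂ) (K : ℝ) (q : ℂ), 0 < ε → z ≠ 0 → 1 ≤ K → closedBall q ε ⊆ Ω →
      ChainSt g Ω ε z K q → ∃ τ ∈ Ioo (ε / 2) ε, ∃ P : Set ℂ, IsPreconnected P ∧ z ∈ P ∧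
        P ⊆ g ⁻¹' Ω ∧ (∀ w ∈ P, ‖z‖ / (K₀ * K) ≤ ‖w‖ ∧ ‖w‖ ≤ K₀ * K * ‖z‖) ∧
        sphere q τ ⊆ g '' P := by
  have hl2 : 0 < Real.log 2 := Real.log_pos one_lt_two
  have hpos : 0 < 8 * Real.pi ^ 2 / Real.log 2 + 1 := by positivity
  refine ⟨Real.exp (8 * Real.pi ^ 2 / Real.log 2 + 1), Real.one_lt_exp_iff.2 hpos, ?_⟩
  set K₀ := Real.exp (8 * Real.pi ^ 2 / Real.log 2 + 1) with hK₀
  have hK₀1 : 1 < K₀ := Real.one_lt_exp_iff.2 hpos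
  rintro g hg Ω ε z K q hε hz hK hΩ ⟨P, hP, hzP, hPΩ, hPn, hPτ⟩
  have hz0 : 0 < ‖z‖ := norm_pos_iff.2 hz
  have hK0 : 0 < K := by linarith
  have hr : ‖z‖ / K ≤ K * ‖z‖ := (div_le_self hz0.le hK).trans (le_mul_of_one_le_left hz0.le hK)
  obtain ⟨τ, hτ, -, hlift⟩ := hg.circ_annulus q (a := ε / 2) (b := ε) (r₁ := ‖z‖ / K)
    (r₂ := K * ‖z‖) (K := K₀) (by linarith) (by linarith) (by positivity) hr hK₀1 (by
      rw [hK₀, Real.log_exp, show ε / (ε / 2) = 2 by field_simp, add_mul,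
        div_mul_cancel₀ _ hl2.ne']
      linarith)
  have hτ0 : 0 < τ := by linarith [hτ.1]
  obtain ⟨p, hp, hpτ⟩ := hPτ τ hτ
  have hrange : g p ∈ range (circleMap q τ) := by
    rw [range_circleMap, abs_of_pos hτ0, mem_sphere, dist_eq_norm]; exact hpτ
  obtain ⟨θ, hθ⟩ := hrange
  obtain ⟨β, hβ, hβ0, hβn⟩ := hlift p (hPn p hp).1 (hPn p hp).2 θ hθ.symm
  have hle : θ ≤ θ + 2 * Real.pi := by linarith [Real.pi_pos]
  refine ⟨τ, hτ, P ∪ β '' Icc θ (θ + 2 * Real.pi),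
    hP.union p hp ⟨θ, left_mem_Icc.2 hle, hβ0⟩ (isPreconnected_Icc.image β hβ.1), Or.inl hzP,
    union_subset hPΩ ?_, ?_, ?_⟩
  · rintro _ ⟨s, hs, rfl⟩
    exact hΩ (mem_closedBall_iff_norm.2 ((hβ.norm_eq hτ0.le hs).le.trans hτ.2.le))
  · rintro w (hw | ⟨s, hs, rfl⟩)
    · refine ⟨le_trans ?_ (hPn w hw).1, (hPn w hw).2.trans ?_⟩
      · exact div_le_div_of_nonneg_left hz0.le hK0 (le_mul_of_one_le_left hK0.le hK₀1.le)
      · rw [mul_assoc]; exact le_mul_of_one_le_left (by positivity) hK₀1.le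
    · refine ⟨le_trans (le_of_eq ?_) (hβn s hs).1.le, (hβn s hs).2.le.trans (le_of_eq ?_)⟩
      · rw [div_div, mul_comm]
      · rw [mul_assoc]
  · intro w hw
    have h1 : w ∈ range (circleMap q τ) := by rw [range_circleMap, abs_of_pos hτ0]; exact hw
    rw [← (periodic_circleMap q τ).image_Ioc Real.two_pi_pos θ] at h1
    obtain ⟨s, hs, rfl⟩ := h1
    exact ⟨β s, Or.inr (mem_image_of_mem _ (Ioc_subset_Icc_self hs)),
      hβ.2 s (Ioc_subset_Icc_self hs)⟩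

theorem chain_sphere_dist {q₁ q₂ : ℂ} {τ t : ℝ} (hτ : 0 < τ) (hd : q₁ ≠ q₂)
    (h₁ : |τ - ‖q₁ - q₂‖| ≤ t) (h₂ : t ≤ τ + ‖q₁ - q₂‖) : ∃ w ∈ sphere q₁ τ, ‖w - q₂‖ = t := by
  set d := ‖q₁ - q₂‖ with hdef
  have hd0 : 0 < d := norm_pos_iff.2 (sub_ne_zero.2 hd)
  have hc : IsPreconnected (sphere q₁ τ) :=
    isPreconnected_sphere (by rw [Complex.rank_real_complex]; norm_num) q₁ τ
  have hu : ∀ s : ℝ, ‖(s : ℂ) * ((q₁ - q₂) / d)‖ = |s| := fun s => by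
    rw [norm_mul, norm_div, Complex.norm_real, Complex.norm_real, ← hdef, Real.norm_eq_abs,
      Real.norm_eq_abs, abs_of_pos hd0, div_self hd0.ne', mul_one]
  have hd' : (d : ℂ) ≠ 0 := by exact_mod_cast hd0.ne'
  have hm : ∀ s : ℝ, |s| = τ → q₁ + s * ((q₁ - q₂) / d) ∈ sphere q₁ τ := fun s hs => by
    rw [mem_sphere, dist_eq_norm, add_sub_cancel_left, hu, hs]
  have hv : ∀ s : ℝ, ‖q₁ + s * ((q₁ - q₂) / d) - q₂‖ = |s + d| := fun s => by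
    rw [← hu]
    congr 1
    push_cast
    field_simp
    ring
  have := hc.intermediate_value (hm (-τ) (by rw [abs_neg, abs_of_pos hτ])) (hm τ (abs_of_pos hτ))
    (f := fun w => ‖w - q₂‖) (by fun_prop)
  simp only [hv] at this
  obtain ⟨w, hw, hwt⟩ := this (show t ∈ Icc |-τ + d| |τ + d| from ⟨by
    rwa [show -τ + d = -(τ - d) by ring, abs_neg], by rwa [abs_of_pos (by linarith)]⟩)
  exact ⟨w, hw, hwt⟩

/-- Chain lemma. Let `κ` be the range of a path in `Ω` from `q` to `y` (compact, connected) and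
`0 < ε ≤ ε₁` with `cthickening (2 ε) κ ⊆ Ω`. Move: if `closedBall q₁ ε ⊆ Ω` and
`ε / 2 ≤ ‖q₁ - q₂‖ ≤ ε`, then `ChainSt .. K q₁` implies `ChainSt .. (K₀ K) q₂`, because on
`sphere q₁ τ` the distance to `q₂` takes all values between `|τ - d| ≤ ε / 2` and `τ + d ≥ ε`.
Points `q₁, q₂ ∈ κ` with `‖q₁ - q₂‖ ≤ ε / 2` are joined by two moves through
`q₁ + (3 ε / 4) u`, `u` a unit vector orthogonal to `q₂ - q₁`. The relation
`∃ C ≥ 1, ∀ z ≠ 0, ∀ K ≥ 1, ChainSt .. z K q₁ → ChainSt .. z (C K) q₂` is transitive, so it holds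
for `q, y` (`IsPreconnected.induction₂'`). Initial state with `K = 1`: the component of `z` in
`sphere 0 ‖z‖ ∩ g⁻¹ (closedBall q ε)` reaches the level `ε` (`exists_exit`). Final step:
`exists_chain_circle` at `y`. -/
theorem Ent.chain {g : ℂ → ℂ} (hg : Ent g) {Ω E : Set ℂ} (hΩ : IsOpen Ω) (hΩc : IsPreconnected Ω)
    {q y : ℂ} (hq : q ∈ Ω) (hy : y ∈ Ω) {ε₁ : ℝ} (hε₁ : 0 < ε₁)
    (hE : ∀ τ ∈ Ioo 0 ε₁, ∃ e ∈ E, ‖e - y‖ = τ) :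
    ∃ ε K : ℝ, 0 < ε ∧ 1 ≤ K ∧ ∀ z : ℂ, z ≠ 0 → ‖g z - q‖ ≤ ε / 2 →
      (∃ z' : ℂ, ‖z'‖ = ‖z‖ ∧ ε < ‖g z' - q‖) →
      ∃ P : Set ℂ, IsPreconnected P ∧ z ∈ P ∧ P ⊆ g ⁻¹' Ω ∧ (∀ w ∈ P, ‖z‖ / K ≤ ‖w‖) ∧
        ∃ w ∈ P, g w ∈ E := by
  obtain ⟨K₀, hK₀, hcirc⟩ := exists_chain_circle
  obtain ⟨p, hp, hp0, hp1, hpΩ⟩ := exists_path_of_isOpen hΩ hΩc hq hy
  set κ := p '' Icc (0 : ℝ) 1 with hκ
  have hκc : IsCompact κ := isCompact_Icc.image hp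
  have hκp : IsPreconnected κ := isPreconnected_Icc.image p hp.continuousOn
  obtain ⟨δ, hδ, hδΩ⟩ := hκc.exists_cthickening_subset_open hΩ
    (by rintro _ ⟨t, -, rfl⟩; exact hpΩ t)
  set ε := min (δ / 2) ε₁ with hεdef
  have hε : 0 < ε := lt_min (by linarith) hε₁
  have hεδ : 2 * ε ≤ δ := by linarith [min_le_left (δ / 2) ε₁]
  have hball : ∀ q₁ ∈ κ, closedBall q₁ (2 * ε) ⊆ Ω := fun q₁ h =>
    ((closedBall_subset_closedBall hεδ).trans (closedBall_subset_cthickening h δ)).trans hδΩ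
  have move : ∀ (q₁ q₂ : ℂ), closedBall q₁ ε ⊆ Ω → ε / 2 ≤ ‖q₁ - q₂‖ → ‖q₁ - q₂‖ ≤ ε →
      ∀ z, z ≠ 0 → ∀ K, 1 ≤ K → ChainSt g Ω ε z K q₁ → ChainSt g Ω ε z (K₀ * K) q₂ := by
    intro q₁ q₂ hb h₁ h₂ z hz K hK hst
    obtain ⟨τ, hτ, P, hP, hzP, hPΩ, hPn, hPs⟩ := hcirc g hg Ω ε z K q₁ hε hz hK hb hst
    refine ⟨P, hP, hzP, hPΩ, hPn, fun t ht => ?_⟩
    obtain ⟨w, hw, hwt⟩ := chain_sphere_dist (q₁ := q₁) (q₂ := q₂) (τ := τ) (t := t)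
      (by linarith [hτ.1]) (by
        intro h; rw [h, sub_self, norm_zero] at h₁; linarith)
      (by rw [abs_le]; constructor <;> linarith [hτ.1, hτ.2, ht.1, ht.2])
      (by linarith [hτ.1, ht.2])
    obtain ⟨u, hu, rfl⟩ := hPs hw
    exact ⟨u, hu, hwt⟩
  have move2 : ∀ q₁ ∈ κ, ∀ q₂ : ℂ, ‖q₂ - q₁‖ ≤ ε / 4 → ∀ z, z ≠ 0 → ∀ K, 1 ≤ K →
      ChainSt g Ω ε z K q₁ → ChainSt g Ω ε z (K₀ * K₀ * K) q₂ := by
    intro q₁ h₁ q₂ h z hz K hK hst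
    have hn : ‖((3 * ε / 4 : ℝ) : ℂ)‖ = 3 * ε / 4 := by
      rw [Complex.norm_real, Real.norm_eq_abs, abs_of_pos (by linarith)]
    have h1 : ‖q₁ - (q₁ + ((3 * ε / 4 : ℝ) : ℂ))‖ = 3 * ε / 4 := by
      rw [sub_add_cancel_left, norm_neg, hn]
    have h2 := norm_sub_le ((3 * ε / 4 : ℝ) : ℂ) (q₂ - q₁)
    have h3 := norm_sub_norm_le ((3 * ε / 4 : ℝ) : ℂ) (q₂ - q₁)
    have h4 : q₁ + ((3 * ε / 4 : ℝ) : ℂ) - q₂ = ((3 * ε / 4 : ℝ) : ℂ) - (q₂ - q₁) := by ring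
    rw [mul_assoc]
    refine move (q₁ + ((3 * ε / 4 : ℝ) : ℂ)) q₂ (subset_trans ?_ (hball q₁ h₁))
      (by rw [h4]; linarith) (by rw [h4]; linarith) z hz _ (by nlinarith)
      (move q₁ _ ((closedBall_subset_closedBall (by linarith)).trans (hball q₁ h₁))
        (by rw [h1]; linarith) (by rw [h1]; linarith) z hz K hK hst)
    refine closedBall_subset_closedBall' ?_
    rw [dist_eq_norm, add_sub_cancel_left, hn]
    linarith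
  have hK₀₀ : 1 ≤ K₀ * K₀ := by nlinarith
  obtain ⟨C, hC, hrel⟩ : ∃ C : ℝ, 1 ≤ C ∧ ∀ z, z ≠ 0 → ∀ K, 1 ≤ K → ChainSt g Ω ε z K q →
      ChainSt g Ω ε z (C * K) y := by
    refine hκp.induction₂' (fun q₁ q₂ => ∃ C : ℝ, 1 ≤ C ∧ ∀ z, z ≠ 0 → ∀ K, 1 ≤ K →
      ChainSt g Ω ε z K q₁ → ChainSt g Ω ε z (C * K) q₂) ?_ ?_
      ⟨0, left_mem_Icc.2 zero_le_one, hp0⟩ ⟨1, right_mem_Icc.2 zero_le_one, hp1⟩
    · intro x hx
      filter_upwards [mem_nhdsWithin_of_mem_nhds (closedBall_mem_nhds x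
        (show 0 < ε / 4 by linarith)), self_mem_nhdsWithin] with u hu huκ
      have h1 := mem_closedBall_iff_norm.1 hu
      exact ⟨⟨_, hK₀₀, move2 x hx u h1⟩, ⟨_, hK₀₀, move2 u huκ x (by rwa [norm_sub_rev])⟩⟩
    · rintro a b c - - - ⟨C₁, hC₁, h₁⟩ ⟨C₂, hC₂, h₂⟩
      refine ⟨C₂ * C₁, by nlinarith, fun z hz K hK hst => ?_⟩
      rw [mul_assoc]
      exact h₂ z hz _ (by nlinarith) (h₁ z hz K hK hst)
  have hqκ : q ∈ κ := ⟨0, left_mem_Icc.2 zero_le_one, hp0⟩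
  have hyκ : y ∈ κ := ⟨1, right_mem_Icc.2 zero_le_one, hp1⟩
  have hb1 : ∀ q₁ ∈ κ, closedBall q₁ ε ⊆ Ω := fun q₁ h =>
    (closedBall_subset_closedBall (by linarith)).trans (hball q₁ h)
  refine ⟨ε, K₀ * (C * 1), hε, by nlinarith, ?_⟩
  rintro z hz hzq ⟨z', hz', hz'q⟩
  have hinit : ChainSt g Ω ε z 1 q := by
    have hX : IsClosed (g ⁻¹' closedBall q ε) := isClosed_closedBall.preimage hg.continuous
    have hzm : z ∈ sphere (0 : ℂ) ‖z‖ ∩ g ⁻¹' closedBall q ε :=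
      ⟨by simp, mem_closedBall_iff_norm.2 (by linarith)⟩
    obtain ⟨w, hw, hwf⟩ := exists_exit hX (isCompact_sphere (0 : ℂ) ‖z‖)
      (isPreconnected_sphere (by rw [Complex.rank_real_complex]; norm_num) 0 _) hzm (fun h => by
        have h1 : g z' ∈ closedBall q ε := h (by simpa using hz')
        exact absurd (mem_closedBall_iff_norm.1 h1) (not_le.2 hz'q))
    have hwε : ‖g w - q‖ = ε := by
      have h1 := hg.continuous.frontier_preimage_subset _ hwf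
      rw [frontier_closedBall q hε.ne'] at h1
      exact mem_sphere_iff_norm.1 h1
    have hs := connectedComponentIn_subset (sphere (0 : ℂ) ‖z‖ ∩ g ⁻¹' closedBall q ε) z
    refine ⟨_, isPreconnected_connectedComponentIn, mem_connectedComponentIn hzm,
      fun u hu => hb1 q hqκ (hs hu).2, fun u hu => ?_, fun t ht => ?_⟩
    · have : ‖u‖ = ‖z‖ := by simpa using (hs hu).1
      simp [this]
    · have hcont : Continuous fun u => ‖g u - q‖ := (hg.continuous.sub continuous_const).norm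
      exact isPreconnected_connectedComponentIn.intermediate_value (mem_connectedComponentIn hzm)
        hw hcont.continuousOn ⟨hzq.trans ht.1.le, by rw [hwε]; exact ht.2.le⟩
  obtain ⟨τ, hτ, P, hP, hzP, hPΩ, hPn, hPs⟩ := hcirc g hg Ω ε z (C * 1) y hε hz (by linarith)
    (hb1 y hyκ) (hrel z hz 1 le_rfl hinit)
  obtain ⟨e, heE, he⟩ := hE τ ⟨by linarith [hτ.1], hτ.2.trans_le (min_le_right _ _)⟩
  obtain ⟨w, hw, rfl⟩ := hPs (mem_sphere_iff_norm.2 he)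
  exact ⟨P, hP, hzP, hPΩ, fun u hu => (hPn u hu).1, w, hw, heE⟩

end Pool.Agent.Lib.MP_dbd176_an
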