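import Pool.Agent.Lib.MP_dbd176_an.LA

open Set Metric Filter Topology MeasureTheory

namespace Pool.Agent.Lib.MP_dbd176_an

variable {g : ℂ → ℂ}

theorem circ_log_le {a b : ℝ} (ha : 0 < a) (hab : a < b) {N T : Set ℝ} (hN : N.Countable)
    (h : Ioo a b ⊆ N ∪ T) :
    ENNReal.ofReal (Real.log (b / a)) ≤ ∫⁻ τ in T, ENNReal.ofReal (1 / τ) := by
  rw [← lintegral_inv_Ioo ha hab.le]
  refine (lintegral_mono_set h).trans ((lintegral_union_le _ _ _).trans ?_)
  rw [setLIntegral_measure_zero _ _ (hN.measure_zero _), zero_add]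

theorem circ_last_time {φ : ℝ → ℝ} {s₁ s₂ r : ℝ} (h12 : s₁ ≤ s₂)
    (hφ : ContinuousOn φ (Icc s₁ s₂)) (h1 : φ s₁ ≤ r) (h2 : r ≤ φ s₂) :
    ∃ t ∈ Icc s₁ s₂, φ t = r ∧ ∀ s ∈ Icc t s₂, r ≤ φ s := by
  have hc : IsCompact (Icc s₁ s₂ ∩ φ ⁻¹' Iic r) :=
    isCompact_Icc.of_isClosed_subset (hφ.preimage_isClosed_of_isClosed isClosed_Icc isClosed_Iic)
      inter_subset_left
  obtain ⟨t, ⟨ht, ht'⟩, hmax⟩ := hc.exists_isGreatest ⟨s₁, left_mem_Icc.mpr h12, h1⟩
  obtain ⟨u, hu, hu'⟩ := intermediate_value_Icc ht.2 (hφ.mono (Icc_subset_Icc_left ht.1))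
    (⟨ht', h2⟩ : r ∈ Icc (φ t) (φ s₂))
  have hut : u = t := le_antisymm (hmax ⟨⟨ht.1.trans hu.1, hu.2⟩, hu'.le⟩) hu.1
  refine ⟨t, ht, hut ▸ hu', fun s hs => ?_⟩
  by_contra hlt
  have h3 : s ≤ t := hmax ⟨⟨ht.1.trans hs.1, hs.2⟩, (not_le.mp hlt).le⟩
  rw [le_antisymm h3 hs.1, ← hut, hu'] at hlt
  exact hlt le_rfl

theorem circ_first_time {φ : ℝ → ℝ} {s₁ s₂ r : ℝ} (h12 : s₁ ≤ s₂)
    (hφ : ContinuousOn φ (Icc s₁ s₂)) (h1 : r ≤ φ s₁) (h2 : φ s₂ ≤ r) :
    ∃ t ∈ Icc s₁ s₂, φ t = r ∧ ∀ s ∈ Icc s₁ t, r ≤ φ s := by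
  have hc : ContinuousOn (fun s => φ (-s)) (Icc (-s₂) (-s₁)) :=
    hφ.comp continuous_neg.continuousOn fun s hs => ⟨by linarith [hs.2], by linarith [hs.1]⟩
  obtain ⟨t, ht, h3, h4⟩ := circ_last_time (r := r) (neg_le_neg h12) hc (by simpa using h2)
    (by simpa using h1)
  refine ⟨-t, ⟨by linarith [ht.2], by linarith [ht.1]⟩, h3, fun s hs => ?_⟩
  have := h4 (-s) ⟨by linarith [hs.2], by linarith [hs.1]⟩
  simpa using this

theorem circ_reg {c : ℂ} {τ : ℝ} (hτ : 0 < τ) (hR : Reg g c τ) {z : ℂ} {s : ℝ}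
    (h : g z = circleMap c τ s) : deriv g z ≠ 0 :=
  hR z (by rw [h, circleMap_sub_center, norm_circleMap_zero, abs_of_pos hτ])

theorem circ_closure {B : Set ℂ} (hB : IsOpen B) {β : ℝ → ℂ} {a b T : ℝ}
    (h1 : ∀ s ∈ Ico a T, β s ∈ B) (h2 : (T = b ∧ β T ∈ B) ∨ β T ∈ frontier B) :
    ∀ s ∈ Icc a T, β s ∈ closure B := by
  intro s hs
  rcases hs.2.lt_or_eq with h | h
  · exact subset_closure (h1 s ⟨hs.1, h⟩)
  · subst h
    rcases h2 with h2 | h2
    · exact subset_closure h2.2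
    · exact (hB.frontier_eq ▸ h2).1

/-- A regular circle all of whose lifts starting in the disc `closedBall z₀ δ` are short.
Otherwise every `τ ∈ (a, b)` off the countable set `Ent.countable_not_reg` has, by `lift_until`
with `B = ball p lam`, a lift in `closedBall z₀ (2 δ)` with end points at distance `lam`; this
contradicts `length_area_disc` and `lintegral_inv_Ioo` (countable sets are null). -/
theorem Ent.circ_disc (hg : Ent g) (c z₀ : ℂ) (κ : ℕ) {a b δ lam : ℝ} (ha : 0 < a) (hab : a < b)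
    (hlam : 0 < lam) (hδ : lam ≤ δ)
    (h : 8 * Real.pi ^ 2 * κ ^ 2 * δ ^ 2 < lam ^ 2 * Real.log (b / a)) :
    ∃ τ ∈ Ioo a b, Reg g c τ ∧ ∀ p ∈ closedBall z₀ δ, ∀ θ : ℝ, g p = circleMap c τ θ →
      ∃ β : ℝ → ℂ, IsArcLift g c τ β θ (θ + 2 * Real.pi * κ) ∧ β θ = p ∧
        ∀ s ∈ Icc θ (θ + 2 * Real.pi * κ), β s ∈ ball p lam := by
  by_contra hcon
  push Not at hcon
  have hlog := circ_log_le (T := {τ ∈ Ioo a b | Reg g c τ}) ha hab (hg.countable_not_reg c)
    (fun τ hτ => by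
      by_cases h1 : Reg g c τ
      · exact Or.inr ⟨hτ, h1⟩
      · exact Or.inl h1)
  have hLA := length_area_disc hg.diff c z₀ κ (r := 2 * δ) (by linarith) hlam.le
    (T := {τ ∈ Ioo a b | Reg g c τ}) (fun τ hτ => ha.trans hτ.1.1) (by
      rintro τ ⟨hτ, hR⟩
      have hτ0 : 0 < τ := ha.trans hτ.1
      obtain ⟨p, hp, θ, hθ, hno⟩ := hcon τ hτ hR
      have hκ : 0 ≤ 2 * Real.pi * κ := by positivity
      obtain ⟨T, hT, β, hβ, hβp, hβg, hβB, hend⟩ := lift_until hg.diff (γ := circleMap c τ)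
        (a := θ) (b := θ + 2 * Real.pi * κ) (by linarith) (continuous_circleMap c τ).continuousOn
        isOpen_ball isBounded_ball (mem_ball_self hlam) hθ
        (fun z _ s _ hz => circ_reg hτ0 hR hz)
      have hcl := circ_closure isOpen_ball hβB hend
      rcases hend with ⟨h1, h2⟩ | h2
      · exfalso
        subst h1
        obtain ⟨s, hs, hs'⟩ := hno β ⟨hβ, hβg⟩ hβp
        rcases hs.2.lt_or_eq with h3 | h3
        · exact hs' (hβB s ⟨hs.1, h3⟩)
        · exact hs' (h3 ▸ h2)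
      · refine ⟨β, θ, T, hT.1, by linarith [hT.2], ⟨hβ, hβg⟩, fun s hs =>
          ⟨circ_reg hτ0 hR (hβg s hs), ?_⟩, ?_⟩
        · have h3 := closure_ball_subset_closedBall (hcl s hs)
          rw [mem_closedBall] at h3 hp ⊢
          linarith [dist_triangle (β s) p z₀]
        · rw [frontier_ball p hlam.ne', mem_sphere_iff_norm] at h2
          rw [hβp, h2])
  have h1 := (mul_le_mul_right hlog _).trans hLA
  rw [← ENNReal.ofReal_mul (by positivity),
    ENNReal.ofReal_le_ofReal_iff (by positivity)] at h1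
  nlinarith

/-- The same for annuli. A lift from `p` that hits the frontier of
`B = {r₁ / K < ‖z‖ < K r₂}` has a subarc crossing `r₂ ≤ ‖z‖ ≤ K r₂` or `r₁ / K ≤ ‖z‖ ≤ r₁`
(last time on the circle of radius `r₂`, resp. `r₁`); each of the two bad sets of radii is
bounded by `length_area_annulus`; use `lintegral_union_le`. -/
theorem Ent.circ_annulus (hg : Ent g) (c : ℂ) {a b r₁ r₂ K : ℝ} (ha : 0 < a) (hab : a < b)
    (hr₁ : 0 < r₁) (hr : r₁ ≤ r₂) (hK : 1 < K)
    (h : 8 * Real.pi ^ 2 < Real.log K * Real.log (b / a)) :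
    ∃ τ ∈ Ioo a b, Reg g c τ ∧ ∀ p : ℂ, r₁ ≤ ‖p‖ → ‖p‖ ≤ r₂ → ∀ θ : ℝ, g p = circleMap c τ θ →
      ∃ β : ℝ → ℂ, IsArcLift g c τ β θ (θ + 2 * Real.pi) ∧ β θ = p ∧
        ∀ s ∈ Icc θ (θ + 2 * Real.pi), r₁ / K < ‖β s‖ ∧ ‖β s‖ < K * r₂ := by
  by_contra hcon
  push Not at hcon
  have hK0 : 0 < K := by linarith
  have hr₂ : 0 < r₂ := hr₁.trans_le hr
  let S : ℝ → Set ℝ := fun r => {τ ∈ Ioo a b | ∃ (β : ℝ → ℂ) (s₁ s₂ : ℝ), s₁ ≤ s₂ ∧
    s₂ - s₁ ≤ 2 * Real.pi * (1 : ℕ) ∧ IsArcLift g c τ β s₁ s₂ ∧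
      (∀ s ∈ Icc s₁ s₂, deriv g (β s) ≠ 0 ∧ r ≤ ‖β s‖ ∧ ‖β s‖ ≤ K * r) ∧
      ((‖β s₁‖ = r ∧ ‖β s₂‖ = K * r) ∨ (‖β s₁‖ = K * r ∧ ‖β s₂‖ = r))}
  have hS : ∀ r, 0 < r → ENNReal.ofReal (Real.log K) * ∫⁻ τ in S r, ENNReal.ofReal (1 / τ) ≤
      ENNReal.ofReal (4 * Real.pi ^ 2 * (1 : ℕ) ^ 2) := fun r hr0 =>
    length_area_annulus hg.diff c 1 hr0 hK (fun τ hτ => ha.trans hτ.1.1) (fun τ hτ => hτ.2)
  have hKr : K * (r₁ / K) = r₁ := by field_simp
  have hlt1 : r₁ / K < r₁ := div_lt_self hr₁ hK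
  have hlt2 : r₂ < K * r₂ := by nlinarith
  have hlog := circ_log_le (T := S r₂ ∪ S (r₁ / K)) ha hab (hg.countable_not_reg c) (by
    intro τ hτ
    by_cases hR : Reg g c τ
    swap
    · exact Or.inl hR
    right
    have hτ0 : 0 < τ := ha.trans hτ.1
    obtain ⟨p, hp1, hp2, θ, hθ, hno⟩ := hcon τ hτ hR
    let B : Set ℂ := {z | r₁ / K < ‖z‖ ∧ ‖z‖ < K * r₂}
    have hBo : IsOpen B := (isOpen_lt continuous_const continuous_norm).inter
      (isOpen_lt continuous_norm continuous_const)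
    have hBc : closure B ⊆ {z | r₁ / K ≤ ‖z‖ ∧ ‖z‖ ≤ K * r₂} :=
      closure_minimal (fun z hz => ⟨hz.1.le, hz.2.le⟩)
        ((isClosed_le continuous_const continuous_norm).inter
          (isClosed_le continuous_norm continuous_const))
    obtain ⟨T, hT, β, hβ, hβp, hβg, hβB, hend⟩ := lift_until hg.diff (γ := circleMap c τ)
      (a := θ) (b := θ + 2 * Real.pi) (by linarith [Real.pi_pos])
      (continuous_circleMap c τ).continuousOn hBo
      ((isBounded_ball (x := (0 : ℂ)) (r := K * r₂)).subset fun z hz => by simpa using hz.2)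
      (⟨by linarith, by linarith⟩ : p ∈ B) hθ (fun z _ s _ hz => circ_reg hτ0 hR hz)
    have hcl := fun s hs => hBc (circ_closure hBo hβB hend s hs)
    rcases hend with ⟨h1, h2⟩ | h2
    · exfalso
      subst h1
      obtain ⟨s, hs, hs'⟩ := hno β ⟨hβ, hβg⟩ hβp
      have h4 : β s ∈ B := by
        rcases hs.2.lt_or_eq with h3 | h3
        · exact hβB s ⟨hs.1, h3⟩
        · exact h3 ▸ h2
      exact absurd h4.2 (not_lt.mpr (hs' h4.1))
    · have h3 := hcl T (right_mem_Icc.mpr hT.1)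
      have h4 : β T ∉ B := (hBo.frontier_eq ▸ h2).2
      have hA : IsArcLift g c τ β θ T := ⟨hβ, hβg⟩
      rcases h3.2.lt_or_eq with h5 | h5
      · have h6 : ‖β T‖ = r₁ / K := by
          by_contra h6
          exact h4 ⟨lt_of_le_of_ne h3.1 (Ne.symm h6), h5⟩
        obtain ⟨t, ht, h7, h8⟩ := circ_last_time (φ := fun s => -‖β s‖) (r := -r₁) hT.1
          hβ.norm.neg (by simpa [hβp] using hp1) (by simp only [h6]; linarith)
        refine Or.inr ⟨hτ, β, t, T, ht.2, by push_cast; linarith [ht.1, hT.2],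
          hA.mono ht.1 le_rfl, fun s hs => ⟨circ_reg hτ0 hR (hβg s ⟨ht.1.trans hs.1, hs.2⟩),
            (hcl s ⟨ht.1.trans hs.1, hs.2⟩).1, ?_⟩, Or.inr ⟨?_, h6⟩⟩
        · have := h8 s hs
          linarith
        · linarith
      · obtain ⟨t, ht, h7, h8⟩ := circ_last_time (φ := fun s => ‖β s‖) (r := r₂) hT.1
          hβ.norm (by simpa [hβp] using hp2) (by simp only [h5]; linarith)
        exact Or.inl ⟨hτ, β, t, T, ht.2, by push_cast; linarith [ht.1, hT.2],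
          hA.mono ht.1 le_rfl, fun s hs => ⟨circ_reg hτ0 hR (hβg s ⟨ht.1.trans hs.1, hs.2⟩),
            h8 s hs, (hcl s ⟨ht.1.trans hs.1, hs.2⟩).2⟩, Or.inl ⟨h7, h5⟩⟩)
  have h1 := mul_le_mul_right (hlog.trans (lintegral_union_le _ _ _))
    (ENNReal.ofReal (Real.log K))
  rw [mul_add] at h1
  have h2 := h1.trans (add_le_add (hS r₂ hr₂) (hS _ (div_pos hr₁ hK0)))
  rw [← ENNReal.ofReal_mul (Real.log_nonneg hK.le), ← ENNReal.ofReal_add (by positivity)
    (by positivity), ENNReal.ofReal_le_ofReal_iff (by positivity)] at h2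
  push_cast at h2
  linarith

/-- Gross star type theorem: almost every circle around `c` is generic. For `n ≥ 1` let `T n`
be the set of regular `τ ∈ (a, b)` for which some `p` with `‖p‖ ≤ n` has no two-sided lift.
For every `K > 1`, `lift_until` and `lift_until_back` with `B = ball 0 (K n)` (glue the two
halves when both reach the end) give a lift crossing `n ≤ ‖z‖ ≤ K n`, so the logarithmic measure
of `T n` is at most `4 π ^ 2 / log K`, hence zero (`lintegral_iUnion_le`). -/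
theorem Ent.exists_gen (hg : Ent g) (c : ℂ) {a b : ℝ} (ha : 0 < a) (hab : a < b) :
    ∃ τ ∈ Ioo a b, Gen g c τ := by
  by_contra hcon
  push Not at hcon
  let S : ℕ → Set ℝ := fun n => {τ ∈ Ioo a b | Reg g c τ ∧ ∃ (p : ℂ) (θ : ℝ), ‖p‖ ≤ n + 1 ∧
    g p = circleMap c τ θ ∧ ¬ ∃ β : ℝ → ℂ,
      IsArcLift g c τ β (θ - 2 * Real.pi) (θ + 2 * Real.pi) ∧ β θ = p}
  have hS : ∀ n, ∫⁻ τ in S n, ENNReal.ofReal (1 / τ) = 0 := by
    intro n
    by_contra hne
    obtain ⟨m, hm⟩ := ENNReal.exists_nat_mul_gt hne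
      (ENNReal.ofReal_ne_top (r := 4 * Real.pi ^ 2 * (1 : ℕ) ^ 2))
    have hm0 : 0 < m := by
      rcases Nat.eq_zero_or_pos m with h | h
      · rw [h] at hm
        simp at hm
      · exact h
    have hK : 1 < Real.exp m := Real.one_lt_exp_iff.mpr (by exact_mod_cast hm0)
    have hn : (0 : ℝ) < n + 1 := by positivity
    have hlt : (n : ℝ) + 1 < Real.exp m * (n + 1) := by nlinarith
    have := length_area_annulus hg.diff c 1 hn hK (T := S n) (fun τ hτ => ha.trans hτ.1.1) (by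
      rintro τ ⟨hτ, hR, p, θ, hp, hθ, hno⟩
      have hτ0 : 0 < τ := ha.trans hτ.1
      have hpB : p ∈ ball (0 : ℂ) (Real.exp m * (n + 1)) := by
        rw [mem_ball_zero_iff]
        linarith
      have hfr : frontier (ball (0 : ℂ) (Real.exp m * (n + 1)))
          = sphere 0 (Real.exp m * (n + 1)) := frontier_ball _ (by positivity)
      obtain ⟨T, hT, β, hβ, hβp, hβg, hβB, hend⟩ := lift_until hg.diff (γ := circleMap c τ)
        (a := θ) (b := θ + 2 * Real.pi) (by linarith [Real.pi_pos])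
        (continuous_circleMap c τ).continuousOn isOpen_ball isBounded_ball hpB hθ
        (fun z _ s _ hz => circ_reg hτ0 hR hz)
      obtain ⟨T', hT', β', hβ', hβp', hβg', hβB', hend'⟩ := lift_until_back hg.diff
        (γ := circleMap c τ) (a := θ - 2 * Real.pi) (b := θ) (by linarith [Real.pi_pos])
        (continuous_circleMap c τ).continuousOn isOpen_ball isBounded_ball hpB hθ
        (fun z _ s _ hz => circ_reg hτ0 hR hz)
      rcases hend with ⟨h1, _⟩ | h2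
      · rcases hend' with ⟨h1', _⟩ | h2'
        · exfalso
          subst h1 h1'
          have e1 : ∀ s ∈ Icc (θ - 2 * Real.pi) θ, (if s ≤ θ then β' s else β s) = β' s :=
            fun s hs => if_pos hs.2
          have e2 : ∀ s ∈ Icc θ (θ + 2 * Real.pi), (if s ≤ θ then β' s else β s) = β s := by
            intro s hs
            split_ifs with h
            · rw [le_antisymm h hs.1, hβp, hβp']
            · rfl
          refine hno ⟨fun s => if s ≤ θ then β' s else β s, ⟨?_, fun s hs => ?_⟩, ?_⟩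
          · rw [← Icc_union_Icc_eq_Icc hT'.2 hT.1]
            exact (hβ'.congr e1).union_of_isClosed (hβ.congr e2) isClosed_Icc isClosed_Icc
          · show g (if s ≤ θ then β' s else β s) = _
            rcases le_total s θ with h | h
            · rw [e1 s ⟨hs.1, h⟩]
              exact hβg' s ⟨hs.1, h⟩
            · rw [e2 s ⟨h, hs.2⟩]
              exact hβg s ⟨h, hs.2⟩
          · simp [hβp']
        · rw [hfr, mem_sphere_zero_iff_norm] at h2'
          obtain ⟨t, ht, h7, h8⟩ := circ_first_time (φ := fun s => ‖β' s‖) (r := n + 1) hT'.2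
            hβ'.norm (by simp only [h2']; linarith) (by simpa [hβp'] using hp)
          have hA : IsArcLift g c τ β' T' θ := ⟨hβ', hβg'⟩
          refine ⟨β', T', t, ht.1, by push_cast; linarith [ht.2, hT'.1], hA.mono le_rfl ht.2,
            fun s hs => ⟨circ_reg hτ0 hR (hβg' s ⟨hs.1, hs.2.trans ht.2⟩), h8 s hs, ?_⟩,
            Or.inr ⟨h2', h7⟩⟩
          rcases hs.1.lt_or_eq with h | h
          · exact (mem_ball_zero_iff.mp (hβB' s ⟨h, hs.2.trans ht.2⟩)).le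
          · rw [← h, h2']
      · rw [hfr, mem_sphere_zero_iff_norm] at h2
        obtain ⟨t, ht, h7, h8⟩ := circ_last_time (φ := fun s => ‖β s‖) (r := n + 1) hT.1
          hβ.norm (by simpa [hβp] using hp) (by simp only [h2]; linarith)
        have hA : IsArcLift g c τ β θ T := ⟨hβ, hβg⟩
        refine ⟨β, t, T, ht.2, by push_cast; linarith [ht.1, hT.2], hA.mono ht.1 le_rfl,
          fun s hs => ⟨circ_reg hτ0 hR (hβg s ⟨ht.1.trans hs.1, hs.2⟩), h8 s hs, ?_⟩,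
          Or.inl ⟨h7, h2⟩⟩
        rcases hs.2.lt_or_eq with h | h
        · exact (mem_ball_zero_iff.mp (hβB s ⟨ht.1.trans hs.1, h⟩)).le
        · rw [h, h2])
    rw [Real.log_exp, ENNReal.ofReal_natCast] at this
    exact absurd this (not_le.mpr hm)
  have hlog := circ_log_le (T := ⋃ n, S n) ha hab (hg.countable_not_reg c) (by
    intro τ hτ
    by_cases hR : Reg g c τ
    swap
    · exact Or.inl hR
    right
    have h1 := hcon τ hτ
    unfold Gen at h1
    push Not at h1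
    obtain ⟨p, θ, hθ, hno⟩ := h1 (ha.trans hτ.1) hR
    obtain ⟨n, hn⟩ := exists_nat_ge ‖p‖
    exact mem_iUnion.mpr ⟨n, hτ, hR, p, θ, by linarith, hθ, fun ⟨β, h2, h3⟩ => hno β h2 h3⟩)
  have h1 := hlog.trans (lintegral_iUnion_le _ _)
  simp only [hS, tsum_zero, nonpos_iff_eq_zero, ENNReal.ofReal_eq_zero] at h1
  have h2 : 0 < Real.log (b / a) := Real.log_pos ((one_lt_div ha).mpr hab)
  linarith

/-- Covering lemma. `circ_disc` with `κ = 1`, `lam = δ`, `b = K a`, `K = exp (8 π ^ 2 + 1)`; the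
segment from `p` to `z` contains a point on the level `τ`. -/
theorem exists_cover_const : ∃ K : ℝ, 1 < K ∧ ∀ g : ℂ → ℂ, Ent g → ∀ (c y : ℂ) (δ a : ℝ),
    0 < δ → 0 < a → ∀ p ∈ closedBall c δ, ∀ z ∈ closedBall c δ, ‖g p - y‖ ≤ a →
      K * a ≤ ‖g z - y‖ → ∃ τ ∈ Ioo a (K * a), sphere y τ ⊆ g '' ball c (2 * δ) := by
  have hK : 1 < Real.exp (8 * Real.pi ^ 2 + 1) := Real.one_lt_exp_iff.mpr (by positivity)
  refine ⟨Real.exp (8 * Real.pi ^ 2 + 1), hK, fun g hg c y δ a hδ ha p hp z hz hpa hza => ?_⟩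
  obtain ⟨τ, hτ, -, hl⟩ := hg.circ_disc y c 1 (b := Real.exp (8 * Real.pi ^ 2 + 1) * a) ha
    (by nlinarith) hδ le_rfl (by
      rw [mul_div_cancel_right₀ _ ha.ne', Real.log_exp]
      push_cast
      nlinarith [sq_pos_of_pos hδ])
  have hτ0 : 0 < τ := ha.trans hτ.1
  obtain ⟨q, hq, hqτ⟩ := (convex_closedBall c δ).isPreconnected.intermediate_value hp hz
    (f := fun w => ‖g w - y‖) (hg.continuous.sub continuous_const).norm.continuousOn
    (⟨hpa.trans hτ.1.le, hτ.2.le.trans hza⟩ : τ ∈ Icc _ _)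
  have hq' : g q ∈ range (circleMap y τ) := by
    rw [range_circleMap, abs_of_pos hτ0, mem_sphere_iff_norm]
    exact hqτ
  obtain ⟨θ, hθ⟩ := hq'
  obtain ⟨β, hβ, -, hβb⟩ := hl q hq θ hθ.symm
  refine ⟨τ, hτ, fun w hw => ?_⟩
  have hw' : w ∈ circleMap y τ '' Ioc θ (θ + 2 * Real.pi) := by
    rw [(periodic_circleMap y τ).image_Ioc Real.two_pi_pos, range_circleMap, abs_of_pos hτ0]
    exact hw
  obtain ⟨s, hs, rfl⟩ := hw'
  have hs' : s ∈ Icc θ (θ + 2 * Real.pi * (1 : ℕ)) := ⟨hs.1.le, by simpa using hs.2⟩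
  refine ⟨β s, ?_, hβ.2 s hs'⟩
  have h1 := hβb s hs'
  rw [mem_ball] at h1 ⊢
  rw [mem_closedBall] at hq
  linarith [dist_triangle (β s) q c]

end Pool.Agent.Lib.MP_dbd176_an
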