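import Mathlib

namespace Pool.Agent.Lib.MP_dbd176_an

/-- `f` is a transcendental entire function. -/
def IsTEF (f : ℂ → ℂ) : Prop :=
  Differentiable ℂ f ∧ ¬ ∃ p : Polynomial ℂ, ∀ z, f z = p.eval z

/-- The maximum modulus `M(r, f)`. -/
noncomputable def maxMod (f : ℂ → ℂ) (r : ℝ) : ℝ :=
  sSup ((fun z => ‖f z‖) '' Metric.sphere (0 : ℂ) r)

/-- The number `R(f)`. -/
noncomputable def Rf (f : ℂ → ℂ) : ℝ :=
  sInf {R₀ : ℝ | 0 < R₀ ∧ ∀ r, R₀ ≤ r → r < maxMod f r}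

/-- The escaping set `I(f)`. -/
def escaping (f : ℂ → ℂ) : Set ℂ :=
  {z | Filter.Tendsto (fun n : ℕ => ‖f^[n] z‖) Filter.atTop Filter.atTop}

/-- The level set `A_R(f)`. -/
def levelSet (f : ℂ → ℂ) (R : ℝ) : Set ℂ :=
  {z | ∀ n : ℕ, (maxMod f)^[n] R ≤ ‖f^[n] z‖}

/-- The fast escaping set `A(f)`, defined with the radius `R`. -/
def fastEsc (f : ℂ → ℂ) (R : ℝ) : Set ℂ :=
  {z | ∃ l : ℕ, ∀ n : ℕ, (maxMod f)^[n] R ≤ ‖f^[n + l] z‖}

/-- `X` is connected or has uncountably many connected components. -/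
def ConnOrUnc (X : Set ℂ) : Prop :=
  IsConnected X ∨ ¬ Countable (ConnectedComponents X)

end Pool.Agent.Lib.MP_dbd176_an
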