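import Pool.Agent.Lib.MP_dbd176_an.Circ

open Set Metric Filter Topology

namespace Pool.Agent.Lib.MP_dbd176_an

variable {g : ℂ → ℂ}

/-- Points with two different preimages in `U`. -/
def Two (g : ℂ → ℂ) (U : Set ℂ) : Set ℂ := {w | ∃ p ∈ U, ∃ p' ∈ U, p ≠ p' ∧ g p = w ∧ g p' = w}

theorem dens_push {m p : ℂ} {τ : ℝ} (hρ : 0 < ‖p - m‖) (hτ : ‖p - m‖ ≤ τ) :
    ∃ q ∈ sphere m τ, dist q p = τ - ‖p - m‖ := by
  refine ⟨m + ((τ / ‖p - m‖ : ℝ) : ℂ) * (p - m), ?_, ?_⟩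
  · rw [mem_sphere, dist_eq_norm, add_sub_cancel_left, norm_mul, Complex.norm_real,
      Real.norm_of_nonneg (div_nonneg (hρ.le.trans hτ) hρ.le), div_mul_cancel₀ _ hρ.ne']
  · have : m + ((τ / ‖p - m‖ : ℝ) : ℂ) * (p - m) - p = ((τ / ‖p - m‖ - 1 : ℝ) : ℂ) * (p - m) := by
      push_cast; ring
    rw [dist_eq_norm, this, norm_mul, Complex.norm_real,
      Real.norm_of_nonneg (sub_nonneg.2 ((one_le_div hρ).2 hτ)), sub_mul,
      div_mul_cancel₀ _ hρ.ne', one_mul]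

theorem dens_angle {y v : ℂ} {τ : ℝ} (hτ : 0 < τ) (hv : v ∈ sphere y τ) :
    ∃ θ, v = circleMap y τ θ := by
  have : v ∈ range (circleMap y τ) := by rw [range_circleMap, abs_of_pos hτ]; exact hv
  obtain ⟨θ, h⟩ := this
  exact ⟨θ, h.symm⟩

theorem dens_turn {y v : ℂ} {τ : ℝ} (hτ : 0 < τ) (θ : ℝ) (hv : v ∈ sphere y τ) :
    ∃ s ∈ Icc (θ - 2 * Real.pi) (θ + 2 * Real.pi), circleMap y τ s = v := by
  have : v ∈ circleMap y τ '' Ioc θ (θ + 2 * Real.pi) := by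
    rw [(periodic_circleMap y τ).image_Ioc Real.two_pi_pos, range_circleMap, abs_of_pos hτ]
    exact hv
  obtain ⟨s, hs, h⟩ := this
  exact ⟨s, ⟨by linarith [hs.1, Real.pi_pos], hs.2⟩, h⟩

theorem dens_lift_mem {V U : Set ℂ} (hU : IsSat g V U) {y : ℂ} {τ θ : ℝ} (hτ : 0 < τ)
    (hV : sphere y τ ⊆ V) {β : ℝ → ℂ}
    (hβ : IsArcLift g y τ β (θ - 2 * Real.pi) (θ + 2 * Real.pi)) (hp : β θ ∈ U) {s : ℝ}
    (hs : s ∈ Icc (θ - 2 * Real.pi) (θ + 2 * Real.pi)) : β s ∈ U := by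
  refine hU.sat _ (isPreconnected_Icc.image β hβ.1) ?_
    ⟨β θ, ⟨θ, ⟨by linarith [Real.pi_pos], by linarith [Real.pi_pos]⟩, rfl⟩, hp⟩ ⟨s, hs, rfl⟩
  rintro _ ⟨t, ht, rfl⟩
  refine hV ?_
  rw [mem_sphere, dist_eq_norm]
  exact hβ.norm_eq hτ.le ht

/-- An open set `T` that contains every generic circle in `O` that it meets is dense in `O`.
The set `O ∩ closure T` is relatively closed in `O`; it is open: let `y ∈ O ∩ closure T`,
`ball y (10 ε) ⊆ O`, `e ∈ ball y ε`, `η > 0` small. Take `w ∈ T ∩ ball y ε`; if `w ≠ e`, a generic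
circle (`Ent.exists_gen`) centred at the midpoint of `w, e` with radius slightly larger than
`‖w - e‖ / 2` passes through the open set `T` near `w` and through `ball e η`. -/
theorem Ent.dense_of_gen (hg : Ent g) {O T : Set ℂ} (hO : IsOpen O) (hOc : IsPreconnected O)
    (hT : IsOpen T) (hne : (O ∩ T).Nonempty)
    (h : ∀ y τ, Gen g y τ → sphere y τ ⊆ O → (sphere y τ ∩ T).Nonempty → sphere y τ ⊆ T) :
    O ⊆ closure T := by
  have key : O ⊆ interior (closure T) ∪ (closure T)ᶜ := by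
    intro y hy
    by_cases hyT : y ∈ closure T
    · left
      obtain ⟨δ, hδ, hb⟩ := Metric.isOpen_iff.1 hO y hy
      have hε : 0 < δ / 10 := by positivity
      refine mem_interior_iff_mem_nhds.2 (mem_of_superset (ball_mem_nhds y hε) fun e he => ?_)
      obtain ⟨w, hwT, hw⟩ := Metric.mem_closure_iff.1 hyT _ hε
      by_cases hwe : w = e
      · exact subset_closure (hwe ▸ hwT)
      refine Metric.mem_closure_iff.2 fun η hη => ?_
      obtain ⟨κ, hκ, hκT⟩ := Metric.isOpen_iff.1 hT w hwT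
      have hρ : 0 < ‖w - e‖ / 2 := half_pos (norm_pos_iff.2 (sub_ne_zero.2 hwe))
      have hm : 0 < min κ (min η (δ / 10)) := lt_min hκ (lt_min hη hε)
      obtain ⟨τ, hτ, hG⟩ := hg.exists_gen ((w + e) / 2) hρ (lt_add_of_pos_right _ hm)
      have e1 : ‖w - (w + e) / 2‖ = ‖w - e‖ / 2 := by
        have : w - (w + e) / 2 = (w - e) / 2 := by ring
        rw [this, norm_div, Complex.norm_ofNat]
      have e2 : ‖e - (w + e) / 2‖ = ‖w - e‖ / 2 := by
        have : e - (w + e) / 2 = -((w - e) / 2) := by ring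
        rw [this, norm_neg, norm_div, Complex.norm_ofNat]
      obtain ⟨w', hw1, hw2⟩ := dens_push (e1 ▸ hρ) (e1 ▸ hτ.1.le)
      obtain ⟨e', he1, he2⟩ := dens_push (e2 ▸ hρ) (e2 ▸ hτ.1.le)
      have m1 := min_le_left κ (min η (δ / 10))
      have m2 := (min_le_right κ _).trans (min_le_left η (δ / 10))
      have m3 := (min_le_right κ _).trans (min_le_right η (δ / 10))
      have d1 : ‖w - y‖ < δ / 10 := by rw [← dist_eq_norm, dist_comm]; exact hw
      have d2 : ‖e - y‖ < δ / 10 := by rw [← dist_eq_norm]; exact he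
      have d3 : ‖w - e‖ ≤ ‖w - y‖ + ‖e - y‖ := by
        have : w - e = (w - y) - (e - y) := by ring
        rw [this]; exact norm_sub_le _ _
      have hs := h _ τ hG (fun u hu => hb ?_) ⟨w', hw1, hκT ?_⟩
      · refine ⟨e', hs he1, ?_⟩
        rw [dist_comm, he2, e2]
        linarith [hτ.2]
      · have d4 := dist_triangle4 u ((w + e) / 2) w y
        rw [mem_sphere.1 hu, dist_comm ((w + e) / 2) w, dist_eq_norm w, e1, dist_eq_norm w] at d4
        rw [mem_ball]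
        linarith [hτ.2]
      · rw [mem_ball, hw2, e1]
        linarith [hτ.2]
    · exact Or.inr hyT
  obtain ⟨x, hxO, hxT⟩ := hne
  refine (hOc.subset_left_of_subset_union isOpen_interior isClosed_closure.isOpen_compl
    (disjoint_compl_right.mono_left interior_subset) key ⟨x, hxO, ?_⟩).trans interior_subset
  exact interior_maximal subset_closure hT hxT

/-- The lift of the full circle stays in `U` by saturation. -/
theorem IsSat.gen_one {V U : Set ℂ} (hU : IsSat g V U) {y : ℂ} {τ : ℝ} (hG : Gen g y τ)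
    (hV : sphere y τ ⊆ V) (hne : (sphere y τ ∩ g '' U).Nonempty) : sphere y τ ⊆ g '' U := by
  obtain ⟨_, hs, p, hp, rfl⟩ := hne
  obtain ⟨θ, hθ⟩ := dens_angle hG.1 hs
  obtain ⟨β, hβ, hβp⟩ := hG.2.2 p θ hθ
  intro v hv
  obtain ⟨s, hs1, rfl⟩ := dens_turn hG.1 θ hv
  exact ⟨β s, dens_lift_mem hU hG.1 hV hβ (hβp ▸ hp) hs1, hβ.2 s hs1⟩

/-- Two lifts from different points stay different (`lift_unique`). -/
theorem IsSat.gen_two (hg : Ent g) {V U : Set ℂ} (hU : IsSat g V U) {y : ℂ} {τ : ℝ}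
    (hG : Gen g y τ) (hV : sphere y τ ⊆ V) (hne : (sphere y τ ∩ Two g U).Nonempty) :
    sphere y τ ⊆ Two g U := by
  obtain ⟨w, hs, p, hp, p', hp', hpp, rfl, hw⟩ := hne
  obtain ⟨θ, hθ⟩ := dens_angle hG.1 hs
  obtain ⟨β, hβ, hβp⟩ := hG.2.2 p θ hθ
  obtain ⟨β', hβ', hβp'⟩ := hG.2.2 p' θ (hw.trans hθ)
  intro v hv
  obtain ⟨s, hs1, rfl⟩ := dens_turn hG.1 θ hv
  refine ⟨β s, dens_lift_mem hU hG.1 hV hβ (hβp ▸ hp) hs1, β' s,
    dens_lift_mem hU hG.1 hV hβ' (hβp' ▸ hp') hs1, fun he => hpp ?_, hβ.2 s hs1, hβ'.2 s hs1⟩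
  have := lift_unique hg.diff isPreconnected_Icc hβ.1 hβ'.1
    (fun t ht => (hβ.2 t ht).trans (hβ'.2 t ht).symm)
    (fun t ht => hG.2.1 _ (hβ.norm_eq hG.1.le ht)) hs1 he
    (show θ ∈ Icc (θ - 2 * Real.pi) (θ + 2 * Real.pi) from
      ⟨by linarith [Real.pi_pos], by linarith [Real.pi_pos]⟩)
  rwa [hβp, hβp'] at this

theorem Ent.isOpen_two (hg : Ent g) {U : Set ℂ} (hU : IsOpen U) : IsOpen (Two g U) := by
  refine isOpen_iff_forall_mem_open.2 ?_
  rintro w ⟨p, hp, p', hp', hpp, h1, h2⟩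
  obtain ⟨A, B, hA, hB, hpA, hpB, hAB⟩ := t2_separation hpp
  refine ⟨g '' (U ∩ A) ∩ g '' (U ∩ B), ?_, (hg.opn _ (hU.inter hA)).inter (hg.opn _ (hU.inter hB)),
    ⟨p, ⟨hp, hpA⟩, h1⟩, ⟨p', ⟨hp', hpB⟩, h2⟩⟩
  rintro v ⟨⟨q, hq, h3⟩, ⟨q', hq', h4⟩⟩
  exact ⟨q, hq.1, q', hq'.1, fun h => disjoint_left.1 hAB hq.2 (h ▸ hq'.2), h3, h4⟩

theorem IsSat.dense_one (hg : Ent g) {V U : Set ℂ} (hV : IsOpen V) (hVc : IsPreconnected V)
    (hU : IsSat g V U) (hne : U.Nonempty) : V ⊆ closure (g '' U) := by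
  obtain ⟨u, hu⟩ := hne
  exact hg.dense_of_gen hV hVc (hg.opn U hU.opn) ⟨g u, hU.maps hu, u, hu, rfl⟩
    fun y τ hG h1 h2 => hU.gen_one hG h1 h2

theorem IsSat.dense_two (hg : Ent g) {V U : Set ℂ} (hV : IsOpen V) (hVc : IsPreconnected V)
    (hU : IsSat g V U) (hne : (Two g U).Nonempty) : V ⊆ closure (Two g U) := by
  obtain ⟨w, hw⟩ := hne
  refine hg.dense_of_gen hV hVc (hg.isOpen_two hU.opn) ⟨w, ?_, hw⟩
    fun y τ hG h1 h2 => hU.gen_two hg hG h1 h2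
  obtain ⟨p, hp, -, -, -, rfl, -⟩ := hw
  exact hU.maps hp

/-- `g '' U` meets every unbounded continuum `E` through a point `y ∈ V`: either `y ∈ g '' U`, or
the open set `g '' U` has a point `w ≠ y` near `y`, and a generic circle around `y` with radius
close to `‖w - y‖` lies in `g '' U` and meets `E`. -/
theorem IsSat.hit (hg : Ent g) {V U : Set ℂ} (hV : IsOpen V) (hVc : IsPreconnected V)
    (hU : IsSat g V U) (hne : U.Nonempty) {E : Set ℂ} (hE : UC E) {y : ℂ} (hy : y ∈ V)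
    (hyE : y ∈ E) : (g '' U ∩ E).Nonempty := by
  by_cases hyU : y ∈ g '' U
  · exact ⟨y, hyU, hyE⟩
  obtain ⟨ε, hε, hb⟩ := Metric.isOpen_iff.1 hV y hy
  obtain ⟨w, hwU, hw⟩ := Metric.mem_closure_iff.1 (hU.dense_one hg hV hVc hne hy) _ (half_pos hε)
  have hρ : 0 < ‖w - y‖ := norm_pos_iff.2 (sub_ne_zero.2 fun h => hyU (h ▸ hwU))
  obtain ⟨κ, hκ, hκT⟩ := Metric.isOpen_iff.1 (hg.opn U hU.opn) w hwU
  obtain ⟨τ, hτ, hG⟩ := hg.exists_gen y hρ (lt_add_of_pos_right _ (lt_min hκ (half_pos hε)))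
  obtain ⟨w', hw1, hw2⟩ := dens_push hρ hτ.1.le
  have m1 := min_le_left κ (ε / 2)
  have m2 := min_le_right κ (ε / 2)
  rw [dist_comm, dist_eq_norm] at hw
  have hs := hU.gen_one hG (fun u hu => hb (by
    rw [mem_ball, mem_sphere.1 hu]; linarith [hτ.2])) ⟨w', hw1, hκT (by
    rw [mem_ball, hw2]; linarith [hτ.2])⟩
  obtain ⟨z, hz, hzτ⟩ := hE.meets_sphere (c := y) hyE (τ := τ) (by simpa using hG.1.le)
  exact ⟨z, hs (by rw [mem_sphere, dist_eq_norm]; exact hzτ), hz⟩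

/-- A component of the preimage of an open set is saturated. -/
theorem isSat_comp (hg : Continuous g) {V : Set ℂ} (hV : IsOpen V) (z : ℂ) :
    IsSat g V (connectedComponentIn (g ⁻¹' V) z) := by
  refine ⟨(hV.preimage hg).connectedComponentIn, 
    fun u hu => connectedComponentIn_subset (g ⁻¹' V) z hu, ?_⟩
  rintro P hP hPV ⟨x, hxP, hx⟩
  rw [connectedComponentIn_eq hx]
  exact hP.subset_connectedComponentIn hxP hPV

end Pool.Agent.Lib.MP_dbd176_an
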