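import Pool.Agent.Lib.MP_dbd176_an.Jump

open Set Metric Filter Topology

namespace Pool.Agent.Lib.MP_dbd176_an

theorem four_circle {c p z : ℂ} {δ : ℝ} (hp : p ∈ sphere c δ) (hz : z ∈ sphere c δ) :
    ((z - p) * (starRingEnd ℂ) (c - p)).re ^ 2 + ((z - p) * (starRingEnd ℂ) (c - p)).im ^ 2 =
      2 * δ ^ 2 * ((z - p) * (starRingEnd ℂ) (c - p)).re := by
  have aux : ∀ w : ℂ, w ∈ sphere c δ → (w.re - c.re) ^ 2 + (w.im - c.im) ^ 2 = δ ^ 2 := by
    intro w hw
    rw [mem_sphere, dist_eq_norm] at hw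
    rw [← hw, Complex.sq_norm, Complex.normSq_apply, Complex.sub_re, Complex.sub_im]
    ring
  have h1 := aux p hp
  have h2 := aux z hz
  simp only [Complex.mul_re, Complex.mul_im, Complex.sub_re, Complex.sub_im, Complex.conj_re,
    Complex.conj_im]
  linear_combination ((z.re - p.re) ^ 2 + (z.im - p.im) ^ 2 - δ ^ 2) * h1 + δ ^ 2 * h2

theorem four_sort (m : Fin 4 → ℝ) (h12 : m 1 ≠ m 2) (h13 : m 1 ≠ m 3) (h23 : m 2 ≠ m 3) :
    ∃ b i j : Fin 4, b ≠ 0 ∧ i ≠ 0 ∧ j ≠ 0 ∧ m j < m b ∧ m b < m i := by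
  rcases lt_or_gt_of_ne h12 with h1 | h1 <;> rcases lt_or_gt_of_ne h13 with h2 | h2 <;>
    rcases lt_or_gt_of_ne h23 with h3 | h3
  · exact ⟨2, 3, 1, by decide, by decide, by decide, h1, h3⟩
  · exact ⟨3, 2, 1, by decide, by decide, by decide, h2, h3⟩
  · exact absurd (h1.trans h3) (lt_asymm h2)
  · exact ⟨1, 2, 3, by decide, by decide, by decide, h2, h1⟩
  · exact ⟨1, 3, 2, by decide, by decide, by decide, h1, h2⟩
  · exact absurd (h2.trans h3) (lt_asymm h1)
  · exact ⟨3, 1, 2, by decide, by decide, by decide, h3, h2⟩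
  · exact ⟨2, 1, 3, by decide, by decide, by decide, h3, h1⟩

/-- A point of the open disc on the same side of the chord as `q` is joined to `q` off `Y`. -/
theorem four_join {c : ℂ} {δ : ℝ} {Y : Set ℂ} {f : ℂ → ℝ} {w q : ℂ} (hw : w ∈ ball c δ)
    (hq : q ∈ closedBall c δ) (hqY : q ∉ Y) (hf : Convex ℝ {z | 0 < f z}) (hfw : 0 < f w)
    (hfq : 0 < f q) (hY : ∀ z ∈ Y, z ∈ ball c δ → ¬ 0 < f z) :
    w ∈ connectedComponentIn Yᶜ q := by
  refine (convex_segment w q).isPreconnected.subset_connectedComponentIn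
    (right_mem_segment ℝ w q) ?_ (left_mem_segment ℝ w q)
  intro z hz hzY
  have h1 : 0 < f z := hf.segment_subset hfw hfq hz
  rw [← insert_endpoints_openSegment] at hz
  rcases hz with h | h | h
  · exact hY z hzY (h ▸ hw) h1
  · exact hqY (h ▸ hzY)
  · refine hY z hzY ?_ h1
    have := (convex_ball c δ).openSegment_interior_closure_subset_interior (x := w) (y := q)
      (by rwa [isOpen_ball.interior_eq]) (by
        rw [closure_ball c (pos_of_mem_ball hw).ne']
        exact hq) h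
    rwa [isOpen_ball.interior_eq] at this

theorem four_convex (z₀ v : ℂ) (σ : ℝ) : Convex ℝ {z : ℂ | 0 < σ * ((z - z₀) / v).im} := by
  intro x hx y hy a b ha hb hab
  have e : (a • x + b • y - z₀) / v = a * ((x - z₀) / v) + b * ((y - z₀) / v) := by
    have : (b : ℂ) = 1 - a := by
      rw [← Complex.ofReal_one, ← hab]; push_cast; ring
    rw [Complex.real_smul, Complex.real_smul, this]
    ring
  simp only [mem_ofPred_eq] at hx hy ⊢
  rw [e]
  simp only [Complex.add_im, Complex.mul_im, Complex.ofReal_re, Complex.ofReal_im, zero_mul,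
    add_zero]
  rcases ha.eq_or_lt with h | h
  · have : b = 1 := by linarith
    rw [← h, this]
    simpa using hy
  · have h1 := mul_pos h hx
    have h2 := mul_nonneg hb hy.le
    nlinarith

theorem four_core {c : ℂ} {δ : ℝ} {La Lb : Set ℂ} {ea eb ei ej : ℂ} (hLa : UC La) (hLb : UC Lb)
    (hDa : Disjoint La (ball c δ)) (hDb : Disjoint Lb (ball c δ)) (hea : ea ∈ La) (heb : eb ∈ Lb)
    (ha : ea ∈ closedBall c δ) (hb : eb ∈ closedBall c δ) (hi : ei ∈ closedBall c δ)
    (hj : ej ∈ closedBall c δ) (hab : ea ≠ eb) (hiY : ei ∉ La ∪ segment ℝ ea eb ∪ Lb)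
    (hjY : ej ∉ La ∪ segment ℝ ea eb ∪ Lb)
    (hpos : 0 < ((ei - (ea + eb) / 2) / (eb - ea)).im)
    (hneg : ((ej - (ea + eb) / 2) / (eb - ea)).im < 0) :
    ej ∉ connectedComponentIn (La ∪ segment ℝ ea eb ∪ Lb)ᶜ ei := by
  intro hW
  obtain ⟨z₀, hz₀⟩ : ∃ z₀, z₀ = (ea + eb) / 2 := ⟨_, rfl⟩
  obtain ⟨v, hv⟩ : ∃ v, v = eb - ea := ⟨_, rfl⟩
  obtain ⟨Y, hY⟩ : ∃ Y, Y = La ∪ segment ℝ ea eb ∪ Lb := ⟨_, rfl⟩
  rw [← hz₀, ← hv] at hpos hneg
  have hv0 : v ≠ 0 := hv ▸ sub_ne_zero.2 hab.symm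
  have hYc : IsClosed Y := by
    rw [hY, segment_eq_image]
    exact (hLa.closed.union (isCompact_Icc.image (by fun_prop)).isClosed).union hLb.closed
  have hq : ∀ t : ℝ, -(1 / 2) ≤ t → t ≤ 1 / 2 → z₀ + t * v ∈ segment ℝ ea eb := by
    intro t h1 h2
    refine ⟨1 / 2 - t, 1 / 2 + t, by linarith, by linarith, by ring, ?_⟩
    rw [hz₀, hv, Complex.real_smul, Complex.real_smul]
    push_cast
    ring
  have hqY : ∀ t : ℝ, -(1 / 2) ≤ t → t ≤ 1 / 2 → z₀ + t * v ∈ Y := fun t h1 h2 =>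
    hY ▸ Or.inl (Or.inr (hq t h1 h2))
  have hφq : ∀ w : ℂ, (z₀ + w * v - z₀) / v = w := fun w => by field_simp; ring
  have hYim : ∀ z ∈ Y, z ∈ ball c δ → ((z - z₀) / v).im = 0 := by
    intro z hz hzb
    rw [hY] at hz
    rcases hz with (h | h) | h
    · exact absurd hzb (disjoint_left.1 hDa h)
    · obtain ⟨s, t, -, -, hst, rfl⟩ := h
      have : s • ea + t • eb = z₀ + ((t - 1 / 2 : ℝ) : ℂ) * v := by
        have : (s : ℂ) = 1 - t := by
          rw [← Complex.ofReal_one, ← hst]; push_cast; ring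
        rw [hz₀, hv, Complex.real_smul, Complex.real_smul, this]
        push_cast
        ring
      rw [this, hφq, Complex.ofReal_im]
    · exact absurd hzb (disjoint_left.1 hDb h)
  have hz₀b : z₀ ∈ ball c δ := by
    refine openSegment_subset_ball_of_ne ha hb hab ⟨1 / 2, 1 / 2, by norm_num, by norm_num,
      by norm_num, ?_⟩
    rw [hz₀, Complex.real_smul, Complex.real_smul]
    push_cast
    ring
  let β : ℝ → ℂ := fun s => z₀ + (s * Complex.I) * v
  have hβ : Continuous β := by fun_prop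
  have hβ0 : β 0 = z₀ := by simp [β]
  have hφβ : ∀ s, (β s - z₀) / v = s * Complex.I := fun s => hφq _
  obtain ⟨ε, hε, hεb⟩ := nhds_basis_closedBall.mem_iff.1
    (hβ.continuousAt.preimage_mem_nhds (x := 0) (isOpen_ball.mem_nhds (hβ0.symm ▸ hz₀b)))
  have hβb : ∀ s ∈ Icc (-ε) ε, β s ∈ ball c δ := fun s hs => hεb (by
    rw [Real.closedBall_eq_Icc]
    simpa using hs)
  rw [← hY] at hW hiY hjY
  have h2 : β ε ∈ connectedComponentIn Yᶜ ei :=
    four_join (hβb ε ⟨by linarith, le_rfl⟩) hi hiY (four_convex z₀ v 1)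
      (by rw [hφβ]; simpa using hε) (by simpa using hpos)
      fun z hz hzb => by rw [hYim z hz hzb]; simp
  have h1 : β (-ε) ∈ connectedComponentIn Yᶜ ei := by
    rw [connectedComponentIn_eq hW]
    exact four_join (hβb (-ε) ⟨le_rfl, by linarith⟩) hj hjY (four_convex z₀ v (-1))
      (by rw [hφβ]; simpa using hε) (by simpa using hneg)
      fun z hz hzb => by rw [hYim z hz hzb]; simp
  obtain ⟨p, hp, hp0, hp1, hpW⟩ := exists_path_of_isOpen hYc.isOpen_compl.connectedComponentIn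
    isPreconnected_connectedComponentIn h1 h2
  have hΛY : ∀ z ∈ p '' Icc 0 1, z ∉ Y := by
    rintro _ ⟨t, -, rfl⟩
    exact connectedComponentIn_subset _ _ (hpW t)
  have hout : ∀ (L : Set ℂ) (J : Set ℝ), UC L → L ⊆ Y → Disjoint L (ball c δ) → IsCompact J →
      IsPreconnected J → (∃ t ∈ J, z₀ + t * v ∈ L) → (∀ t ∈ J, -(1 / 2) ≤ t ∧ t ≤ 1 / 2 ∧ t ≠ 0) →
      ∀ t ∈ J, z₀ + t * v ∈ Out (p '' Icc 0 1 ∪ β '' Icc (-ε) ε) := by
    rintro L J hL hLY hLD hJ hJc ⟨t₀, ht₀, ht₀L⟩ hJt t ht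
    have hc : Continuous fun t : ℝ => z₀ + t * v := by fun_prop
    refine ⟨L ∪ (fun t : ℝ => z₀ + t * v) '' J, hL.union (hJ.image hc).isClosed
      (hJc.image _ hc.continuousOn) ⟨_, ht₀L, t₀, ht₀, rfl⟩, Or.inr ⟨t, ht, rfl⟩, ?_⟩
    rw [disjoint_left]
    rintro z (hz | ⟨s, hs, rfl⟩) (hz' | ⟨r, hr, hz'⟩)
    · exact hΛY z hz' (hLY hz)
    · exact disjoint_left.1 hLD hz (hz' ▸ hβb r hr)
    · exact hΛY _ hz' (hqY s (hJt s hs).1 (hJt s hs).2.1)
    · have e1 := hφβ r
      rw [hz', hφq] at e1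
      have e2 := congrArg Complex.re e1
      simp only [Complex.ofReal_re, Complex.mul_re, Complex.I_re, mul_zero, Complex.ofReal_im,
        Complex.I_im, mul_one, sub_self] at e2
      exact (hJt s hs).2.2 e2
  have hc : Continuous fun t : ℝ => z₀ + t * v := by fun_prop
  refine jump_side (φ := fun z => (z - z₀) / v) (z₀ := z₀) (by fun_prop) ?_ (β := β)
    (s₁ := -ε) (s₀ := 0) (s₂ := ε) (by linarith) hε hβ.continuousOn hβ0
    (Eventually.of_forall fun s => by rw [hφβ, sub_zero]) ?_ (Λ := p '' Icc 0 1)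
    (isPreconnected_Icc.image _ hp.continuousOn) ⟨0, ⟨le_rfl, zero_le_one⟩, hp0⟩
    ⟨1, ⟨zero_le_one, le_rfl⟩, hp1⟩ ?_ ?_ ?_
  · have : HasDerivAt (fun z => (z - z₀) / v) (1 / v) z₀ :=
      ((hasDerivAt_id z₀).sub_const z₀).div_const v
    rw [this.deriv]
    exact one_div_ne_zero hv0
  · intro s _ hs
    have e1 := hφβ s
    rw [hs, sub_self, zero_div] at e1
    simpa using e1.symm
  · rw [(isCompact_Icc.image hp).isClosed.closure_eq]
    intro h
    exact hΛY _ h (by simpa using hqY 0 (by norm_num) (by norm_num))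
  · have hcl : (0 : ℝ) ∈ closure (Ioc (0 : ℝ) (1 / 2)) := by
      rw [closure_Ioc (by norm_num)]
      exact ⟨le_rfl, by norm_num⟩
    have := map_mem_closure hc hcl
      (t := Out (p '' Icc 0 1 ∪ β '' Icc (-ε) ε) ∩ {z | 0 < ((z - z₀) / v).re}) fun t ht =>
      ⟨hout Lb (Icc t (1 / 2)) hLb (hY ▸ subset_union_right) hDb isCompact_Icc isPreconnected_Icc
        ⟨1 / 2, ⟨ht.2, le_rfl⟩, by
          have : z₀ + ((1 / 2 : ℝ) : ℂ) * v = eb := by rw [hz₀, hv]; push_cast; ring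
          rw [this]; exact heb⟩
        (fun s hs => ⟨by linarith [hs.1, ht.1], hs.2, (ht.1.trans_le hs.1).ne'⟩) t ⟨le_rfl, ht.2⟩,
       by
        rw [mem_ofPred_eq, hφq, Complex.ofReal_re]
        exact ht.1⟩
    simpa using this
  · have hcl : (0 : ℝ) ∈ closure (Ico (-(1 / 2) : ℝ) 0) := by
      rw [closure_Ico (by norm_num)]
      exact ⟨by norm_num, le_rfl⟩
    have := map_mem_closure hc hcl
      (t := Out (p '' Icc 0 1 ∪ β '' Icc (-ε) ε) ∩ {z | ((z - z₀) / v).re < 0}) fun t ht =>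
      ⟨hout La (Icc (-(1 / 2)) t) hLa (hY ▸ subset_union_left.trans subset_union_left) hDa
        isCompact_Icc isPreconnected_Icc
        ⟨-(1 / 2), ⟨le_rfl, ht.1⟩, by
          have : z₀ + ((-(1 / 2) : ℝ) : ℂ) * v = ea := by rw [hz₀, hv]; push_cast; ring
          rw [this]; exact hea⟩
        (fun s hs => ⟨hs.1, by linarith [hs.2, ht.2], (hs.2.trans_lt ht.2).ne⟩) t ⟨ht.1, le_rfl⟩,
       by
        rw [mem_ofPred_eq, hφq, Complex.ofReal_re]
        exact ht.2⟩
    simpa using this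

/-- Four disjoint unbounded continua landing on a circle: two of them, joined by a chord,
separate the other two. Take `a = 0`; for the three other points let `m e` be the slope
`Im / Re` of `(e - e 0) * conj (c - e 0)` (real part positive; `m` is injective on the circle
minus `e 0`); `b` is the index with the middle slope, so `e i`, `e j` lie strictly on opposite
sides of the line through `e a`, `e b`. `Y` is closed. Suppose `e j` lies in the component `W` of
`e i` in `Yᶜ`. Let `z₀` be the midpoint of the chord (in the open disc), `v = e b - e a`,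
`φ z = (z - z₀) / v` and `β s = z₀ + s i v`, `|s| ≤ ε`, inside the disc. The end points of `β`
are joined to `e i`, `e j` by segments missing `Y`, hence lie in `W`; let `Λ` be a path in `W`
joining them. Points of the chord on both sides of `z₀` are in `Out (Λ ∪ β)`, through the
rest of the chord and `L a` or `L b`. Now `jump_side`. -/
theorem four_points {c : ℂ} {δ : ℝ} (hδ : 0 < δ) {L : Fin 4 → Set ℂ} {e : Fin 4 → ℂ}
    (hL : ∀ i, UC (L i)) (hdis : ∀ i j, i ≠ j → Disjoint (L i) (L j))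
    (hD : ∀ i, Disjoint (L i) (ball c δ)) (he : ∀ i, e i ∈ L i ∧ e i ∈ sphere c δ) :
    ∃ a b i j : Fin 4, a ≠ b ∧ a ≠ i ∧ a ≠ j ∧ b ≠ i ∧ b ≠ j ∧ i ≠ j ∧
      Disjoint (L i) (L a ∪ segment ℝ (e a) (e b) ∪ L b) ∧
      Disjoint (L j) (L a ∪ segment ℝ (e a) (e b) ∪ L b) ∧
      e j ∉ connectedComponentIn (L a ∪ segment ℝ (e a) (e b) ∪ L b)ᶜ (e i) := by
  have hne : ∀ k l, k ≠ l → e k ≠ e l := fun k l hkl h =>
    disjoint_left.1 (hdis k l hkl) (he k).1 (h ▸ (he l).1)
  have hn : c - e 0 ≠ 0 := by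
    intro h
    have h1 := (he 0).2
    rw [mem_sphere, dist_comm, dist_eq_norm, h, norm_zero] at h1
    exact hδ.ne h1
  have hn' : (starRingEnd ℂ) (c - e 0) ≠ 0 := (map_ne_zero _).2 hn
  let u : Fin 4 → ℂ := fun k => (e k - e 0) * (starRingEnd ℂ) (c - e 0)
  have hu : ∀ k, (u k).re ^ 2 + (u k).im ^ 2 = 2 * δ ^ 2 * (u k).re := fun k =>
    four_circle (he 0).2 (he k).2
  have hu0 : ∀ k, k ≠ 0 → u k ≠ 0 := fun k hk =>
    mul_ne_zero (sub_ne_zero.2 (hne k 0 hk)) hn'
  have hpos : ∀ k, k ≠ 0 → 0 < (u k).re := by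
    intro k hk
    have h1 : 0 < (u k).re ^ 2 + (u k).im ^ 2 := by
      have := Complex.normSq_pos.2 (hu0 k hk)
      rw [Complex.normSq_apply] at this
      nlinarith
    rw [hu k] at h1
    exact (pos_iff_pos_of_mul_pos h1).1 (by positivity)
  let m : Fin 4 → ℝ := fun k => (u k).im / (u k).re
  have hm : ∀ k, k ≠ 0 → (u k).im = m k * (u k).re := fun k hk => by
    simp only [m]
    rw [div_mul_cancel₀ _ (hpos k hk).ne']
  have hinj : ∀ k l, k ≠ 0 → l ≠ 0 → k ≠ l → m k ≠ m l := by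
    intro k l hk hl hkl h
    have aux : ∀ k, k ≠ 0 → (u k).re * (1 + m k ^ 2) = 2 * δ ^ 2 := by
      intro k hk
      have h1 := hu k
      rw [hm k hk] at h1
      refine mul_right_cancel₀ (hpos k hk).ne' ?_
      linarith
    have h1 := aux k hk
    have h2 := aux l hl
    rw [h] at h1
    have h3 : (u k).re = (u l).re :=
      mul_right_cancel₀ (b := 1 + m l ^ 2) (by positivity) (h1.trans h2.symm)
    have h4 : u k = u l := Complex.ext h3 (by rw [hm k hk, hm l hl, h, h3])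
    exact hne k l hkl (sub_left_injective (mul_right_cancel₀ hn' h4))
  have hside : ∀ k b, k ≠ 0 → b ≠ 0 →
      ((e k - (e 0 + e b) / 2) / (e b - e 0)).im * Complex.normSq (u b) =
        (u k).re * (u b).re * (m k - m b) := by
    intro k b hk hb
    have h0 : e b - e 0 ≠ 0 := sub_ne_zero.2 (hne b 0 hb)
    have h1 : (e k - (e 0 + e b) / 2) / (e b - e 0) = u k / u b - ((1 / 2 : ℝ) : ℂ) := by
      simp only [u]
      push_cast
      field_simp
      ring
    have h2 : Complex.normSq (u b) ≠ 0 := (Complex.normSq_pos.2 (hu0 b hb)).ne'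
    rw [h1, Complex.sub_im, Complex.ofReal_im, sub_zero, Complex.div_im, hm k hk, hm b hb]
    field_simp
  obtain ⟨b, i, j, hb, hi, hj, hjb, hbi⟩ := four_sort m (hinj 1 2 (by decide) (by decide) (by decide))
    (hinj 1 3 (by decide) (by decide) (by decide)) (hinj 2 3 (by decide) (by decide) (by decide))
  have hbi' : b ≠ i := fun h => by rw [h] at hbi; exact lt_irrefl _ hbi
  have hbj' : b ≠ j := fun h => by rw [h] at hjb; exact lt_irrefl _ hjb
  have hij' : i ≠ j := fun h => by rw [h] at hbi; exact lt_asymm hjb hbi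
  have hseg : ∀ k, k ≠ 0 → k ≠ b → Disjoint (L k) (L 0 ∪ segment ℝ (e 0) (e b) ∪ L b) := by
    intro k hk hkb
    refine disjoint_union_right.2 ⟨disjoint_union_right.2 ⟨hdis k 0 hk, ?_⟩, hdis k b hkb⟩
    rw [← insert_endpoints_openSegment, disjoint_left]
    rintro z hz (h | h | h)
    · exact disjoint_left.1 (hdis k 0 hk) hz (h ▸ (he 0).1)
    · exact disjoint_left.1 (hdis k b hkb) hz (h ▸ (he b).1)
    · exact disjoint_left.1 (hD k) hz (openSegment_subset_ball_of_ne
        (sphere_subset_closedBall (he 0).2) (sphere_subset_closedBall (he b).2)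
        (hne 0 b hb.symm) h)
  have hN := Complex.normSq_pos.2 (hu0 b hb)
  refine ⟨0, b, i, j, hb.symm, hi.symm, hj.symm, hbi', hbj', hij', hseg i hi hbi'.symm,
    hseg j hj hbj'.symm, ?_⟩
  refine four_core (hL 0) (hL b) (hD 0) (hD b) (he 0).1 (he b).1
    (sphere_subset_closedBall (he 0).2) (sphere_subset_closedBall (he b).2)
    (sphere_subset_closedBall (he i).2) (sphere_subset_closedBall (he j).2) (hne 0 b hb.symm)
    (disjoint_left.1 (hseg i hi hbi'.symm) (he i).1)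
    (disjoint_left.1 (hseg j hj hbj'.symm) (he j).1) ?_ ?_
  · have h1 := hside i b hi hb
    have h2 : 0 < (u i).re * (u b).re * (m i - m b) :=
      mul_pos (mul_pos (hpos i hi) (hpos b hb)) (sub_pos.2 hbi)
    rw [← h1] at h2
    exact (pos_iff_pos_of_mul_pos h2).2 hN
  · have h1 := hside j b hj hb
    have h2 : (u j).re * (u b).re * (m j - m b) < 0 :=
      mul_neg_of_pos_of_neg (mul_pos (hpos j hj) (hpos b hb)) (sub_neg.2 hjb)
    rw [← h1] at h2
    exact neg_of_mul_neg_left h2 hN.le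

end Pool.Agent.Lib.MP_dbd176_an
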