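import Pool.Agent.Lib.MP_dbd176_an.Log

open Set Metric Filter Topology

namespace Pool.Agent.Lib.MP_dbd176_an

private theorem jump_slit_seg (t : ℝ) :
    (1 - (t : ℂ) * Complex.I) / (1 + t * Complex.I) ∈ Complex.slitPlane := by
  have h0 : (0 : ℝ) < 1 + t ^ 2 := by positivity
  have hn : Complex.normSq (1 + (t : ℂ) * Complex.I) = 1 + t ^ 2 := by
    simp [Complex.normSq_apply, sq]
  by_cases ht : t = 0
  · subst ht; simp
  · right
    rw [Complex.div_im, hn]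
    simp only [Complex.sub_im, Complex.one_im, Complex.mul_im, Complex.ofReal_re, Complex.I_im,
      Complex.ofReal_im, Complex.I_re, Complex.add_re, Complex.one_re, Complex.mul_re,
      Complex.sub_re, Complex.add_im]
    intro h
    field_simp at h
    apply ht
    linarith

private theorem jump_slit_circ {w : ℂ} (hw : w ∈ sphere (0 : ℂ) 2) :
    w + 1 ≠ 0 ∧ -((1 - w) / (1 + w)) ∈ Complex.slitPlane := by
  have h1 : ‖w‖ = 2 := by simpa using hw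
  have h2 : w.re * w.re + w.im * w.im = 4 := by
    rw [← Complex.normSq_apply, Complex.normSq_eq_norm_sq, h1]; norm_num
  have h3 : w + 1 ≠ 0 := by
    intro h
    rw [eq_neg_of_add_eq_zero_left h] at h1
    norm_num at h1
  refine ⟨h3, Or.inl ?_⟩
  have h4 : 0 < Complex.normSq (1 + w) := Complex.normSq_pos.2 (by rwa [add_comm])
  rw [← neg_div, Complex.div_re, ← add_div]
  refine div_pos ?_ h4
  simp only [neg_sub, Complex.sub_re, Complex.one_re, Complex.add_re, Complex.sub_im,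
    Complex.one_im, Complex.add_im]
  nlinarith

private theorem jump_log_top : Complex.log (-((1 - 2 * Complex.I) / (1 + 2 * Complex.I))) =
    Complex.log ((1 - 2 * Complex.I) / (1 + 2 * Complex.I)) + Real.pi * Complex.I := by
  have h : ((1 - 2 * Complex.I) / (1 + 2 * Complex.I) : ℂ).im < 0 := by
    rw [Complex.div_im]
    simp [Complex.normSq_apply]
    norm_num
  rw [Complex.log, Complex.log, norm_neg, Complex.arg_neg_eq_arg_add_pi_of_im_neg h]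
  push_cast
  ring

private theorem jump_log_bot :
    Complex.log (-((1 - -(2 * Complex.I)) / (1 + -(2 * Complex.I)))) =
    Complex.log ((1 - -(2 * Complex.I)) / (1 + -(2 * Complex.I))) - Real.pi * Complex.I := by
  have h : 0 < ((1 - -(2 * Complex.I)) / (1 + -(2 * Complex.I)) : ℂ).im := by
    rw [Complex.div_im]
    simp [Complex.normSq_apply]
    norm_num
  rw [Complex.log, Complex.log, norm_neg, Complex.arg_neg_eq_arg_sub_pi_of_im_pos h]
  push_cast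
  ring

private theorem jump_dslope {Ψ : ℂ → ℂ} (hΨ : DifferentiableOn ℂ Ψ (ball 0 3))
    (hinj : InjOn Ψ (ball 0 3)) {c : ℂ} (hc : c ∈ ball (0 : ℂ) 3) (hd : deriv Ψ c ≠ 0) :
    ContinuousOn (dslope Ψ c) (ball 0 3) ∧ ∀ w ∈ ball (0 : ℂ) 3, dslope Ψ c w ≠ 0 := by
  have hn := isOpen_ball.mem_nhds hc
  refine ⟨(continuousOn_dslope hn).2 ⟨hΨ.continuousOn, hΨ.differentiableAt hn⟩, fun w hw h => ?_⟩
  by_cases hwc : w = c
  · rw [hwc, dslope_same] at h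
    exact hd h
  · have := sub_smul_dslope Ψ c w
    rw [h, smul_zero] at this
    exact hwc (hinj hw hc (sub_eq_zero.1 this.symm))

/-- Crossing lemma in a holomorphic chart. Put `a = Ψ 1`, `a' = Ψ (-1)`, `ν = Ψ '' [-1, 1]`,
`η = Ψ '' [-2i, 2i]`, `η' = Ψ '' sphere 0 2`, `h z = (z - a) / (z - a')`.
`Λ` lies in the open set `(Z ∪ Z' ∪ ν)ᶜ`, hence in one component of it; replace `Λ` by a compact
path `Λ'` in that component joining `Ψ (2i)` and `Ψ (-2i)` (`exists_path_of_isOpen`).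
`hasLog_sub` twice gives a logarithm `l` of `h` on `Λ' ∪ η`; `hasLog_div` with the connected set
`ν` gives a logarithm `m` on `Λ' ∪ η'`. On `Λ'`, `l - m` is constant. In the chart
`h (Ψ w) = (w - 1) / (w + 1) * E w` with `E w = dslope Ψ 1 w / dslope Ψ (-1) w` continuous and
nonvanishing on the ball, `E = exp e` (`hasLog_ball`). With `u w = (1 - w) / (1 + w)`:
on the segment `[-2i, 2i]`, `l (Ψ w) - e w - log (u w) - π i` is constant, on the circle
`m (Ψ w) - e w - log (- u w)` is constant (both arguments stay in the slit plane).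
As `Im u (2i) < 0 < Im u (-2i)`, `log (- u) = log u + π i` at `2i` and `log u - π i` at `-2i`:
the three constancy relations give `2 π i = 0`. -/
theorem jump_chart {Ψ : ℂ → ℂ} (hΨ : DifferentiableOn ℂ Ψ (ball 0 3)) (hinj : InjOn Ψ (ball 0 3))
    (hd₁ : deriv Ψ 1 ≠ 0) (hd₂ : deriv Ψ (-1) ≠ 0) {Λ Z Z' : Set ℂ} (hΛ : IsPreconnected Λ)
    (h₁ : Ψ (2 * Complex.I) ∈ Λ) (h₂ : Ψ (-(2 * Complex.I)) ∈ Λ)
    (hν : ∀ t : ℝ, -1 ≤ t → t ≤ 1 → Ψ t ∉ Λ)
    (hZ : UC Z) (hZ' : UC Z') (ha : Ψ 1 ∈ Z) (ha' : Ψ (-1) ∈ Z')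
    (hZΛ : Disjoint Z Λ) (hZ'Λ : Disjoint Z' Λ)
    (hη : ∀ t : ℝ, -2 ≤ t → t ≤ 2 → Ψ (t * Complex.I) ∉ Z ∧ Ψ (t * Complex.I) ∉ Z') : False := by
  have hc := hΨ.continuousOn
  have mR : ∀ t : ℝ, t ∈ Icc (-1 : ℝ) 1 → (t : ℂ) ∈ ball (0 : ℂ) 3 := fun t ht => by
    rw [mem_ball_zero_iff, Complex.norm_real, Real.norm_eq_abs, abs_lt]
    constructor <;> linarith [ht.1, ht.2]
  have mI : ∀ t : ℝ, t ∈ Icc (-2 : ℝ) 2 → (t : ℂ) * Complex.I ∈ ball (0 : ℂ) 3 := fun t ht => by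
    rw [mem_ball_zero_iff, norm_mul, Complex.norm_I, mul_one, Complex.norm_real,
      Real.norm_eq_abs, abs_lt]
    constructor <;> linarith [ht.1, ht.2]
  have mS : sphere (0 : ℂ) 2 ⊆ ball 0 3 := sphere_subset_ball (by norm_num)
  have cν : ContinuousOn (fun t : ℝ => Ψ t) (Icc (-1) 1) :=
    hc.comp (by fun_prop) mR
  have cη : ContinuousOn (fun t : ℝ => Ψ (t * Complex.I)) (Icc (-2) 2) :=
    hc.comp (by fun_prop) mI
  obtain ⟨ν, hνdef⟩ : ∃ ν, ν = (fun t : ℝ => Ψ t) '' Icc (-1) 1 := ⟨_, rfl⟩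
  have kν : IsCompact ν := hνdef ▸ isCompact_Icc.image_of_continuousOn cν
  have pν : IsPreconnected ν := hνdef ▸ isPreconnected_Icc.image _ cν
  have hO : IsOpen (Z ∪ Z' ∪ ν)ᶜ := ((hZ.closed.union hZ'.closed).union kν.isClosed).isOpen_compl
  have hΛO : Λ ⊆ (Z ∪ Z' ∪ ν)ᶜ := by
    rintro z hz ((h | h) | h)
    · exact disjoint_left.1 hZΛ h hz
    · exact disjoint_left.1 hZ'Λ h hz
    · rw [hνdef] at h
      obtain ⟨t, ht, rfl⟩ := h
      exact hν t ht.1 ht.2 hz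
  have hΛW := hΛ.subset_connectedComponentIn h₁ hΛO
  obtain ⟨p, hp, hp0, hp1, hpW⟩ := exists_path_of_isOpen hO.connectedComponentIn
    isPreconnected_connectedComponentIn (hΛW h₁) (hΛW h₂)
  obtain ⟨L, kL, pL, L1, L2, hLO⟩ : ∃ L : Set ℂ, IsCompact L ∧ IsPreconnected L ∧
      Ψ (2 * Complex.I) ∈ L ∧ Ψ (-(2 * Complex.I)) ∈ L ∧ L ⊆ (Z ∪ Z' ∪ ν)ᶜ :=
    ⟨p '' Icc 0 1, isCompact_Icc.image hp, isPreconnected_Icc.image _ hp.continuousOn,
      ⟨0, by simp, hp0⟩, ⟨1, by simp, hp1⟩, by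
        rintro _ ⟨t, -, rfl⟩
        exact connectedComponentIn_subset _ _ (hpW t)⟩
  have k1 : IsCompact (L ∪ (fun t : ℝ => Ψ (t * Complex.I)) '' Icc (-2) 2) :=
    kL.union (isCompact_Icc.image_of_continuousOn cη)
  obtain ⟨l₁, cl₁, el₁⟩ := hasLog_sub k1 hZ.conn hZ.unb (by
    rw [disjoint_right]
    rintro z (hz | ⟨t, ht, rfl⟩) h
    exacts [hLO hz (Or.inl (Or.inl h)), (hη t ht.1 ht.2).1 h]) ha
  obtain ⟨l₂, cl₂, el₂⟩ := hasLog_sub k1 hZ'.conn hZ'.unb (by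
    rw [disjoint_right]
    rintro z (hz | ⟨t, ht, rfl⟩) h
    exacts [hLO hz (Or.inl (Or.inr h)), (hη t ht.1 ht.2).2 h]) ha'
  have k2 : IsCompact (L ∪ Ψ '' sphere 0 2) :=
    kL.union ((isCompact_sphere _ _).image_of_continuousOn (hc.mono mS))
  obtain ⟨m, cm, em⟩ := hasLog_div k2 pν (a := Ψ 1) (a' := Ψ (-1)) (by
    rw [disjoint_right]
    rintro z (hz | ⟨w, hw, rfl⟩) h
    · exact hLO hz (Or.inr h)
    · rw [hνdef] at h
      obtain ⟨t, ht, e⟩ := h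
      have := hinj (mR t ht) (mS hw) e
      rw [← this, mem_sphere_zero_iff_norm, Complex.norm_real, Real.norm_eq_abs] at hw
      have := abs_le.2 ht
      linarith)
    (hνdef ▸ ⟨1, by norm_num, by simp⟩) (hνdef ▸ ⟨-1, by norm_num, by simp⟩)
  have el : ∀ z ∈ L ∪ (fun t : ℝ => Ψ (t * Complex.I)) '' Icc (-2) 2,
      Complex.exp (l₁ z - l₂ z) = (z - Ψ 1) / (z - Ψ (-1)) := fun z hz => by
    rw [Complex.exp_sub, el₁ z hz, el₂ z hz]
  have R1 := log_sub_const pL ((cl₁.sub cl₂).mono subset_union_left) (cm.mono subset_union_left)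
    (fun z hz => (el z (Or.inl hz)).trans (em z (Or.inl hz)).symm) L1 L2
  obtain ⟨c1, n1⟩ := jump_dslope hΨ hinj (c := 1) (by simp) hd₁
  obtain ⟨c2, n2⟩ := jump_dslope hΨ hinj (c := -1) (by simp) hd₂
  obtain ⟨e, ce, ee⟩ := hasLog_ball (c1.div c2 n2) fun w hw => div_ne_zero (n1 w hw) (n2 w hw)
  have chart : ∀ w ∈ ball (0 : ℂ) 3, w + 1 ≠ 0 →
      (Ψ w - Ψ 1) / (Ψ w - Ψ (-1)) = Complex.exp (e w) * -((1 - w) / (1 + w)) := by
    intro w hw hw1
    rw [ee w hw, ← sub_smul_dslope, ← sub_smul_dslope, smul_eq_mul, smul_eq_mul, sub_neg_eq_add,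
      add_comm 1 w]
    have := n2 w hw
    simp only [Pi.div_apply]
    field_simp
    ring
  have hI1 : ∀ t : ℝ, (t : ℂ) * Complex.I + 1 ≠ 0 := fun t h => by
    have := congrArg Complex.re h
    simp at this
  have R2 := log_sub_const_real (S := Icc (-2 : ℝ) 2) isPreconnected_Icc
    (l := fun t => l₁ (Ψ (t * Complex.I)) - l₂ (Ψ (t * Complex.I)))
    (m := fun t => e (t * Complex.I) +
      Complex.log ((1 - (t : ℂ) * Complex.I) / (1 + t * Complex.I)) + Real.pi * Complex.I)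
    ((cl₁.sub cl₂).comp cη fun t ht => Or.inr ⟨t, ht, rfl⟩)
    (((ce.comp (by fun_prop) mI).add (ContinuousOn.clog
      (ContinuousOn.div (by fun_prop) (by fun_prop) fun t _ => by
        rw [add_comm]; exact hI1 t) fun t _ => jump_slit_seg t)).add continuousOn_const)
    (fun t ht => by
      rw [el _ (Or.inr ⟨t, ht, rfl⟩), chart _ (mI t ht) (hI1 t), Complex.exp_add, Complex.exp_add,
        Complex.exp_log (Complex.slitPlane_ne_zero (jump_slit_seg t)), Complex.exp_pi_mul_I]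
      ring)
    (x := 2) (y := -2) (by norm_num) (by norm_num)
  have R3 := log_sub_const (S := sphere (0 : ℂ) 2)
    (isPreconnected_sphere (by rw [Complex.rank_real_complex]; norm_num) _ _)
    (l := fun w => m (Ψ w)) (m := fun w => e w + Complex.log (-((1 - w) / (1 + w))))
    (cm.comp (hc.mono mS) fun w hw => Or.inr ⟨w, hw, rfl⟩)
    ((ce.mono mS).add (ContinuousOn.clog
      (ContinuousOn.div (by fun_prop) (by fun_prop) fun w hw => by
        rw [add_comm]; exact (jump_slit_circ hw).1).neg fun w hw => (jump_slit_circ hw).2))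
    (fun w hw => by
      refine (em _ (Or.inr ⟨w, hw, rfl⟩)).trans ((chart _ (mS hw) (jump_slit_circ hw).1).trans ?_)
      rw [Complex.exp_add,
        Complex.exp_log (Complex.slitPlane_ne_zero (jump_slit_circ hw).2)])
    (x := 2 * Complex.I) (y := -(2 * Complex.I)) (by simp) (by simp)
  simp only [Complex.ofReal_ofNat, Complex.ofReal_neg, neg_mul] at R2
  simp only [Pi.sub_apply] at R1
  rw [jump_log_top, jump_log_bot] at R3
  have : (Real.pi : ℂ) * Complex.I = 0 := by linear_combination (R1 + R3 - R2) / (-2)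
  exact mul_ne_zero (Complex.ofReal_ne_zero.2 Real.pi_ne_zero) Complex.I_ne_zero this

private theorem jump_inv {φ : ℂ → ℂ} {z₀ : ℂ} (hφ : AnalyticAt ℂ φ z₀) (hφ' : deriv φ z₀ ≠ 0) :
    ∃ ψ : ℂ → ℂ, ψ (φ z₀) = z₀ ∧ (∀ᶠ z in 𝓝 z₀, ψ (φ z) = z) ∧
      ∀ᶠ w in 𝓝 (φ z₀), DifferentiableAt ℂ ψ w ∧ φ (ψ w) = w ∧ deriv ψ w ≠ 0 := by
  have hl := hφ.hasStrictDerivAt.eventually_left_inverse hφ'
  have hr := hφ.hasStrictDerivAt.eventually_right_inverse hφ'
  have ha := hφ.analyticAt_localInverse hφ'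
  have hd := (hφ.hasStrictDerivAt.to_localInverse hφ').hasDerivAt.deriv
  refine ⟨_, hl.self_of_nhds, hl, ?_⟩
  have h1 := ha.deriv.continuousAt.eventually_ne (y := 0) (by rw [hd]; exact inv_ne_zero hφ')
  filter_upwards [ha.eventually_analyticAt, hr, h1] with w k1 k2 k3
  exact ⟨k1.differentiableAt, k2, k3⟩

/-- Crossing lemma for an arc `β` which near `s₀` is the curve `Re φ = 0`.
Let `Ψ₀` be the local inverse of `φ` at `z₀` (`HasStrictDerivAt.localInverse` or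
`toOpenPartialHomeomorph`), holomorphic near `0`, `Ψ w = Ψ₀ (ε w)` for small `ε > 0` such that
`Ψ '' ball 0 3` misses `Λ`, meets `β '' [s₁, s₂]` only at points with `Re φ = 0` (points `β s`
with `s` away from `s₀` stay away from `z₀` by compactness and `hinj`), and
`β (s₀ + ε t) = Ψ (t i)` for `|t| ≤ 2`. Apply `jump_chart` with
`Λ' = Λ ∪ β '' [s₁, s₀ - 2ε] ∪ β '' [s₀ + 2ε, s₂]`; `Z` is the continuum of a point
`Ψ w ∈ Out K`, `Re w > 0`, together with `Ψ '' segment w 1`; same for `Z'`. -/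
theorem jump_side {φ : ℂ → ℂ} {z₀ : ℂ} (hφ : AnalyticAt ℂ φ z₀) (hφ' : deriv φ z₀ ≠ 0)
    {β : ℝ → ℂ} {s₁ s₀ s₂ : ℝ} (h₁₀ : s₁ < s₀) (h₀₂ : s₀ < s₂)
    (hβ : ContinuousOn β (Icc s₁ s₂)) (hβ₀ : β s₀ = z₀)
    (hloc : ∀ᶠ s in 𝓝 s₀, φ (β s) = ((s - s₀ : ℝ) : ℂ) * Complex.I)
    (hinj : ∀ s ∈ Icc s₁ s₂, β s = z₀ → s = s₀)
    {Λ : Set ℂ} (hΛ : IsPreconnected Λ) (h₁ : β s₁ ∈ Λ) (h₂ : β s₂ ∈ Λ) (hz : z₀ ∉ closure Λ)
    (hpos : z₀ ∈ closure (Out (Λ ∪ β '' Icc s₁ s₂) ∩ {z | 0 < (φ z).re}))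
    (hneg : z₀ ∈ closure (Out (Λ ∪ β '' Icc s₁ s₂) ∩ {z | (φ z).re < 0})) : False := by
  have hs₀ : s₀ ∈ Icc s₁ s₂ := ⟨h₁₀.le, h₀₂.le⟩
  have hn₀ : Icc s₁ s₂ ∈ 𝓝 s₀ := Icc_mem_nhds h₁₀ h₀₂
  have hφ0 : φ z₀ = 0 := by
    have := hloc.self_of_nhds
    rw [hβ₀] at this
    simpa using this
  obtain ⟨ψ, hψ0, hl, hr⟩ := jump_inv hφ hφ'
  rw [hφ0] at hψ0 hr
  have hβt : Tendsto β (𝓝 s₀) (𝓝 z₀) := hβ₀ ▸ (hβ.continuousAt hn₀).tendsto
  obtain ⟨ρ, hρ, hρ'⟩ := Metric.eventually_nhds_iff.1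
    (hloc.and ((hβt.eventually hl).and (show ∀ᶠ s in 𝓝 s₀, s ∈ Icc s₁ s₂ from hn₀)))
  have kF : IsCompact (β '' (Icc s₁ s₂ \ ball s₀ ρ)) :=
    (isCompact_Icc.diff isOpen_ball).image_of_continuousOn (hβ.mono sdiff_subset)
  have hzF : z₀ ∉ β '' (Icc s₁ s₂ \ ball s₀ ρ) := by
    rintro ⟨s, hs, e⟩
    exact hs.2 (by rw [hinj s hs.1 e]; exact mem_ball_self hρ)
  have hψt : Tendsto ψ (𝓝 0) (𝓝 z₀) := hψ0 ▸ hr.self_of_nhds.1.continuousAt.tendsto
  obtain ⟨δ, hδ, hδ'⟩ := Metric.eventually_nhds_iff.1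
    (hr.and ((hψt.eventually (isClosed_closure.isOpen_compl.mem_nhds hz)).and
      (hψt.eventually (kF.isClosed.isOpen_compl.mem_nhds hzF))))
  obtain ⟨ε, hε, hεδ, hερ⟩ : ∃ ε : ℝ, 0 < ε ∧ 3 * ε ≤ δ ∧ 3 * ε ≤ ρ :=
    ⟨min δ ρ / 3, by positivity, by linarith [min_le_left δ ρ], by linarith [min_le_right δ ρ]⟩
  have hε' : (ε : ℂ) ≠ 0 := Complex.ofReal_ne_zero.2 hε.ne'
  have hball : ∀ w ∈ ball (0 : ℂ) 3, dist ((ε : ℂ) * w) 0 < δ := fun w hw => by
    rw [mem_ball_zero_iff] at hw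
    rw [dist_zero_right, norm_mul, Complex.norm_real, Real.norm_eq_abs, abs_of_pos hε]
    nlinarith
  have hder : ∀ w ∈ ball (0 : ℂ) 3,
      HasDerivAt (fun w => ψ (ε * w)) (deriv ψ (ε * w) * ε) w := fun w hw => by
    have h1 : HasDerivAt (fun w : ℂ => (ε : ℂ) * w) (ε * 1) w := (hasDerivAt_id w).const_mul _
    rw [mul_one] at h1
    exact (hδ' (hball w hw)).1.1.hasDerivAt.comp w h1
  have hdiff : DifferentiableOn ℂ (fun w => ψ (ε * w)) (ball 0 3) := fun w hw =>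
    (hder w hw).differentiableAt.differentiableWithinAt
  have hK : ∀ w ∈ ball (0 : ℂ) 3, ∀ s ∈ Icc s₁ s₂, β s = ψ (ε * w) →
      ε * w = ((s - s₀ : ℝ) : ℂ) * Complex.I := by
    intro w hw s hs e
    have h1 := hδ' (hball w hw)
    have h2 : s ∈ ball s₀ ρ := by
      by_contra hc
      exact h1.2.2 ⟨s, ⟨hs, hc⟩, e⟩
    rw [← h1.1.2.1, ← e]
    exact (hρ' h2).1
  have hΛ' : ∀ w ∈ ball (0 : ℂ) 3, ψ (ε * w) ∉ Λ := fun w hw h =>
    (hδ' (hball w hw)).2.1 (subset_closure h)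
  have harc : ∀ t : ℝ, -2 ≤ t → t ≤ 2 →
      s₀ + ε * t ∈ Icc s₁ s₂ ∧ β (s₀ + ε * t) = ψ (ε * (t * Complex.I)) := by
    intro t h1 h2
    have h3 : dist (s₀ + ε * t) s₀ < ρ := by
      rw [Real.dist_eq, add_sub_cancel_left, abs_lt]
      constructor <;> nlinarith
    obtain ⟨k1, k2, k3⟩ := hρ' h3
    refine ⟨k3, ?_⟩
    rw [← k2, k1, add_sub_cancel_left]
    push_cast
    rw [mul_assoc]
  have side : ∀ σ : ℝ, σ * σ = 1 →
      z₀ ∈ closure (Out (Λ ∪ β '' Icc s₁ s₂) ∩ {z | 0 < σ * (φ z).re}) →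
      ∃ Z, UC Z ∧ ψ (ε * σ) ∈ Z ∧ Disjoint Z (Λ ∪ β '' Icc s₁ s₂) := by
    intro σ hσ hcl
    have h1 : ∀ᶠ z in 𝓝 z₀, ‖φ z‖ < ε := by
      have := hφ.continuousAt.tendsto.norm
      rw [hφ0, norm_zero] at this
      exact this.eventually_lt_const hε
    obtain ⟨z, ⟨⟨Z, hZ, hzZ, hZd⟩, hzσ⟩, k1, k2⟩ :=
      ((mem_closure_iff_frequently.1 hcl).and_eventually (hl.and h1)).exists
    have hσ1 : |σ| = 1 := by
      have : |σ| * |σ| = 1 := by rw [← abs_mul, hσ, abs_one]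
      nlinarith [abs_nonneg σ]
    have hconv : Convex ℝ (ball (0 : ℂ) 3 ∩ {w : ℂ | 0 < σ * w.re}) := by
      refine (convex_ball _ _).inter fun x hx y hy a b ha hb hab => ?_
      simp only [mem_ofPred_eq, Complex.add_re, Complex.smul_re, smul_eq_mul] at hx hy ⊢
      rcases ha.eq_or_lt with rfl | ha'
      · rw [zero_add] at hab
        simpa [hab] using hy
      · nlinarith [mul_pos ha' hx, mul_nonneg hb hy.le]
    have hseg : segment ℝ (φ z / ε) (σ : ℂ) ⊆ ball (0 : ℂ) 3 ∩ {w : ℂ | 0 < σ * w.re} := by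
      refine hconv.segment_subset ⟨?_, ?_⟩ ⟨?_, ?_⟩
      · rw [mem_ball_zero_iff, norm_div, Complex.norm_real, Real.norm_eq_abs, abs_of_pos hε,
          div_lt_iff₀ hε]
        linarith
      · simp only [mem_ofPred_eq, Complex.div_ofReal_re] at hzσ ⊢
        rw [← mul_div_assoc]
        exact div_pos hzσ hε
      · rw [mem_ball_zero_iff, Complex.norm_real, Real.norm_eq_abs, hσ1]
        norm_num
      · simp [hσ]
    have cs : ContinuousOn (fun w => ψ (ε * w)) (segment ℝ (φ z / ε) (σ : ℂ)) :=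
      hdiff.continuousOn.mono fun w hw => (hseg hw).1
    have ks : IsCompact (segment ℝ (φ z / ε) (σ : ℂ)) := by
      rw [segment_eq_image]
      exact isCompact_Icc.image (by fun_prop)
    refine ⟨Z ∪ (fun w => ψ (ε * w)) '' segment ℝ (φ z / ε) (σ : ℂ),
      hZ.union (ks.image_of_continuousOn cs).isClosed
        ((convex_segment _ _).isPreconnected.image _ cs)
        ⟨z, hzZ, φ z / ε, left_mem_segment _ _ _, ?_⟩,
      Or.inr ⟨σ, right_mem_segment _ _ _, rfl⟩, disjoint_union_left.2 ⟨hZd, ?_⟩⟩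
    · show ψ (ε * (φ z / ε)) = z
      rw [mul_div_cancel₀ _ hε', k1]
    · rw [disjoint_left]
      rintro _ ⟨w, hw, rfl⟩ (h | ⟨s, hs, e⟩)
      · exact hΛ' w (hseg hw).1 h
      · have h2 := congrArg Complex.re (hK w (hseg hw).1 s hs e)
        have h3 : 0 < σ * w.re := (hseg hw).2
        simp only [Complex.mul_re, Complex.ofReal_re, Complex.ofReal_im, Complex.I_re,
          Complex.I_im, mul_zero, zero_mul, sub_zero] at h2
        rcases mul_eq_zero.1 h2 with h4 | h4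
        · exact hε.ne' h4
        · rw [h4, mul_zero] at h3
          exact lt_irrefl _ h3
  obtain ⟨Z, hZ, ha, hZd⟩ := side 1 (by norm_num) (by simpa using hpos)
  obtain ⟨Z', hZ', ha', hZ'd⟩ := side (-1) (by norm_num) (by simpa using hneg)
  obtain ⟨m1, e1⟩ := harc 2 (by norm_num) le_rfl
  obtain ⟨m2, e2⟩ := harc (-2) le_rfl (by norm_num)
  have sub1 : Icc s₁ (s₀ + ε * (-2)) ⊆ Icc s₁ s₂ := Icc_subset_Icc le_rfl m2.2
  have sub2 : Icc (s₀ + ε * 2) s₂ ⊆ Icc s₁ s₂ := Icc_subset_Icc m1.1 le_rfl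
  have hsub : Λ ∪ β '' Icc s₁ (s₀ + ε * (-2)) ∪ β '' Icc (s₀ + ε * 2) s₂ ⊆
      Λ ∪ β '' Icc s₁ s₂ :=
    union_subset (union_subset_union_right _ (image_mono sub1))
      ((image_mono sub2).trans subset_union_right)
  refine jump_chart (Ψ := fun w => ψ (ε * w)) hdiff ?_ ?_ ?_
    (Λ := Λ ∪ β '' Icc s₁ (s₀ + ε * (-2)) ∪ β '' Icc (s₀ + ε * 2) s₂) ?_ ?_ ?_ ?_ hZ hZ'
    (by simpa using ha) (by simpa using ha') (hZd.mono_right hsub) (hZ'd.mono_right hsub) ?_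
  · intro x hx y hy e
    have h1 := (hδ' (hball x hx)).1.2.1
    have h2 := (hδ' (hball y hy)).1.2.1
    have e' : ψ (ε * x) = ψ (ε * y) := e
    rw [e', h2] at h1
    exact (mul_left_cancel₀ hε' h1).symm
  · rw [(hder 1 (by simp)).deriv]
    exact mul_ne_zero (hδ' (hball 1 (by simp))).1.2.2 hε'
  · rw [(hder (-1) (by simp)).deriv]
    exact mul_ne_zero (hδ' (hball (-1) (by simp))).1.2.2 hε'
  · refine IsPreconnected.union (β s₂) (Or.inl h₂) ⟨s₂, ⟨m1.2, le_rfl⟩, rfl⟩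
      (hΛ.union (β s₁) h₁ ⟨s₁, ⟨le_rfl, m2.1⟩, rfl⟩
        (isPreconnected_Icc.image _ (hβ.mono sub1)))
      (isPreconnected_Icc.image _ (hβ.mono sub2))
  · exact Or.inr ⟨_, ⟨le_rfl, m1.2⟩, by simpa using e1⟩
  · exact Or.inl (Or.inr ⟨_, ⟨m2.1, le_rfl⟩, by simpa using e2⟩)
  · intro t h1 h2 h
    have ht : (t : ℂ) ∈ ball (0 : ℂ) 3 := by
      rw [mem_ball_zero_iff, Complex.norm_real, Real.norm_eq_abs, abs_lt]
      constructor <;> linarith
    have key : ∀ s ∈ Icc s₁ s₂, β s = ψ (ε * t) → s = s₀ := fun s hs e => by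
      have := congrArg Complex.im (hK t ht s hs e)
      simp at this
      linarith
    rcases h with (h | ⟨s, hs, e⟩) | ⟨s, hs, e⟩
    · exact hΛ' t ht h
    · have := key s (sub1 hs) e
      linarith [hs.2]
    · have := key s (sub2 hs) e
      linarith [hs.1]
  · intro t h1 h2
    obtain ⟨m, e⟩ := harc t h1 h2
    exact ⟨fun h => disjoint_left.1 hZd h (Or.inr ⟨_, m, e⟩),
      fun h => disjoint_left.1 hZ'd h (Or.inr ⟨_, m, e⟩)⟩

/-- Crossing lemma for a level arc: `jump_side` with `φ z = log ((g z - c) / (g z₀ - c))`,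
whose real part is `log (‖g z - c‖ / τ)`. -/
theorem jump_level {g : ℂ → ℂ} (hg : Differentiable ℂ g) {c : ℂ} {τ : ℝ} (hτ : 0 < τ)
    {β : ℝ → ℂ} {s₁ s₀ s₂ : ℝ} (h₁₀ : s₁ < s₀) (h₀₂ : s₀ < s₂)
    (hβ : IsArcLift g c τ β s₁ s₂) (hd : deriv g (β s₀) ≠ 0)
    (hinj : ∀ s ∈ Icc s₁ s₂, β s = β s₀ → s = s₀)
    {Λ : Set ℂ} (hΛ : IsPreconnected Λ) (h₁ : β s₁ ∈ Λ) (h₂ : β s₂ ∈ Λ) (hz : β s₀ ∉ closure Λ)
    (hin : β s₀ ∈ closure (Out (Λ ∪ β '' Icc s₁ s₂) ∩ {z | ‖g z - c‖ < τ}))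
    (hout : β s₀ ∈ closure (Out (Λ ∪ β '' Icc s₁ s₂) ∩ {z | τ < ‖g z - c‖})) : False := by
  have hs₀ : s₀ ∈ Icc s₁ s₂ := ⟨h₁₀.le, h₀₂.le⟩
  have hn := hβ.norm_eq hτ.le hs₀
  have h0 : g (β s₀) - c ≠ 0 := by
    rw [← norm_pos_iff, hn]; exact hτ
  have han : AnalyticAt ℂ (fun z => (g z - c) / (g (β s₀) - c)) (β s₀) :=
    ((hg.analyticAt _).sub analyticAt_const).div_const
  have hsl : (g (β s₀) - c) / (g (β s₀) - c) ∈ Complex.slitPlane := by
    rw [div_self h0]; exact Complex.one_mem_slitPlane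
  have hre : ∀ z, (Complex.log ((g z - c) / (g (β s₀) - c))).re = Real.log (‖g z - c‖ / τ) :=
    fun z => by rw [Complex.log_re, norm_div, hn]
  refine jump_side (φ := fun z => Complex.log ((g z - c) / (g (β s₀) - c))) (han.clog hsl) ?_
    h₁₀ h₀₂ hβ.1 rfl ?_ hinj hΛ h₁ h₂ hz ?_ ?_
  · have h1 : HasDerivAt (fun z => (g z - c) / (g (β s₀) - c))
        (deriv g (β s₀) / (g (β s₀) - c)) (β s₀) :=
      ((hg _).hasDerivAt.sub_const c).div_const _
    rw [(h1.clog hsl).deriv]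
    exact div_ne_zero (div_ne_zero hd h0) (div_ne_zero h0 h0)
  · filter_upwards [Icc_mem_nhds h₁₀ h₀₂, ball_mem_nhds s₀ Real.pi_pos] with s hs hs'
    rw [mem_ball, Real.dist_eq, abs_lt] at hs'
    have hτ' : (τ : ℂ) ≠ 0 := Complex.ofReal_ne_zero.2 hτ.ne'
    rw [hβ.2 s hs, hβ.2 s₀ hs₀, circleMap, circleMap, add_sub_cancel_left, add_sub_cancel_left,
      mul_div_mul_left _ _ hτ', ← Complex.exp_sub, ← sub_mul, ← Complex.ofReal_sub]
    exact Complex.log_exp (by simpa using hs'.1) (by simpa using hs'.2.le)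
  · refine closure_mono (inter_subset_inter_right _ fun z hz => ?_) hout
    simp only [mem_ofPred_eq, hre] at hz ⊢
    exact Real.log_pos ((one_lt_div hτ).2 hz)
  · have h1 : ∀ᶠ z in 𝓝 (β s₀), g z - c ≠ 0 :=
      ((hg.continuous.sub continuous_const).continuousAt).eventually_ne h0
    refine mem_closure_iff_frequently.2
      (((mem_closure_iff_frequently.1 hin).and_eventually h1).mono ?_)
    rintro z ⟨⟨k1, k2⟩, k3⟩
    refine ⟨k1, ?_⟩
    simp only [mem_ofPred_eq, hre] at k2 ⊢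
    exact Real.log_neg (div_pos (norm_pos_iff.2 k3) hτ) ((div_lt_one hτ).2 k2)

end Pool.Agent.Lib.MP_dbd176_an
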