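import Pool.Agent.Lib.MP_dbd176_an.Lift

open Set Metric Filter Topology MeasureTheory

namespace Pool.Agent.Lib.MP_dbd176_an

variable {g : ℂ → ℂ}

theorem la_det (a : ℂ) : (a • (1 : ℂ →L[ℝ] ℂ)).det = ‖a‖ ^ 2 := by
  rw [ContinuousLinearMap.det, ← LinearMap.det_toMatrix Complex.basisOneI, Matrix.det_fin_two,
    Complex.sq_norm, Complex.normSq_apply]
  simp [LinearMap.toMatrix_apply]

theorem la_piece (hg : Differentiable ℂ g) {ρ : ℂ → ENNReal} (hρ : Measurable ρ) {D : Set ℂ}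
    (hD : MeasurableSet D) (hi : InjOn g D) :
    ∃ n : ℂ → ENNReal, Measurable n ∧ ∫⁻ w, n w ≤ ∫⁻ z in D, ρ z ∧
      ∀ z ∈ D, n (g z) = ρ z / ENNReal.ofReal (‖deriv g z‖ ^ 2) := by
  have hemb : MeasurableEmbedding (D.domRestrict g) :=
    hg.continuous.continuousOn.measurableEmbedding hD hi
  have hder : Measurable fun z => ENNReal.ofReal (‖deriv g z‖ ^ 2) :=
    ((measurable_deriv g).norm.pow_const 2).ennreal_ofReal
  set n : ℂ → ENNReal := Function.extend (D.domRestrict g)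
    (fun x : D => ρ x / ENNReal.ofReal (‖deriv g x‖ ^ 2)) 0 with hn
  have hval : ∀ z ∈ D, n (g z) = ρ z / ENNReal.ofReal (‖deriv g z‖ ^ 2) := fun z hz =>
    hemb.injective.extend_apply _ _ ⟨z, hz⟩
  refine ⟨n, hemb.measurable_extend ((hρ.div hder).comp measurable_subtype_coe) measurable_zero,
    ?_, hval⟩
  have h1 : ∫⁻ w, n w = ∫⁻ w in g '' D, n w := by
    refine (setLIntegral_eq_of_support_subset fun w hw => ?_).symm
    by_contra hcon
    apply hw
    rw [hn, Function.extend_apply']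
    · rfl
    · rintro ⟨x, rfl⟩
      exact hcon ⟨x, x.2, rfl⟩
  rw [h1, lintegral_image_eq_lintegral_abs_det_fderiv_mul volume hD
    (fun x _ => (hg x).hasDerivAt.complexToReal_fderiv.hasFDerivWithinAt) hi]
  refine setLIntegral_mono' hD fun x hx => ?_
  rw [hval x hx, la_det, abs_of_nonneg (by positivity)]
  exact ENNReal.mul_div_le

/-- Push-forward density. Cover the open set `D = {g' ≠ 0}` by countably many open sets on which
`g` is injective, make them disjoint (`disjointed`), getting measurable `D k`. Let `n k` be the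
function on the plane equal to `ρ z / ‖g' z‖ ^ 2` at `g z`, `z ∈ D k`, and `0` elsewhere
(`Function.extend`; measurable by `ContinuousOn.measurableEmbedding` and
`MeasurableEmbedding.measurable_extend`). By `lintegral_image_eq_lintegral_abs_det_fderiv_mul`
(the real determinant of multiplication by `g' z` is `‖g' z‖ ^ 2`) the integral of `n k` is the
integral of `ρ` over `D k`. Put `N = ∑' k, n k`. -/
theorem exists_pushforward (hg : Differentiable ℂ g) {ρ : ℂ → ENNReal} (hρ : Measurable ρ) :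
    ∃ N : ℂ → ENNReal, Measurable N ∧ ∫⁻ w, N w ≤ ∫⁻ z, ρ z ∧
      ∀ z, deriv g z ≠ 0 → ρ z / ENNReal.ofReal (‖deriv g z‖ ^ 2) ≤ N (g z) := by
  obtain ⟨T, hTc, hTS, hTU⟩ := TopologicalSpace.isOpen_sUnion_countable
    {U : Set ℂ | IsOpen U ∧ InjOn g U} fun U hU => hU.1
  obtain ⟨U, hU⟩ := (hTc.insert ∅).exists_eq_range (insert_nonempty _ _)
  have hU' : ∀ k, IsOpen (U k) ∧ InjOn g (U k) := by
    intro k
    have : U k ∈ insert ∅ T := hU ▸ mem_range_self k
    rcases this with h | h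
    · rw [h]; exact ⟨isOpen_empty, injOn_empty _⟩
    · exact hTS h
  have hm : ∀ k, MeasurableSet (disjointed U k) :=
    MeasurableSet.disjointed fun k => (hU' k).1.measurableSet
  choose n hn1 hn2 hn3 using fun k => la_piece hg hρ (hm k)
    ((hU' k).2.mono (disjointed_subset U k))
  refine ⟨fun w => ∑' k, n k w, Measurable.tsum hn1, ?_, fun z hz => ?_⟩
  · rw [lintegral_tsum fun k => (hn1 k).aemeasurable]
    calc ∑' k, ∫⁻ w, n k w ≤ ∑' k, ∫⁻ z in disjointed U k, ρ z := ENNReal.tsum_le_tsum hn2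
      _ = ∫⁻ z in ⋃ k, disjointed U k, ρ z := (lintegral_iUnion hm (disjoint_disjointed U) ρ).symm
      _ ≤ ∫⁻ z, ρ z := setLIntegral_le_lintegral _ _
  · have hs : HasStrictDerivAt g (deriv g z) z :=
      (hg.analyticAt z).hasStrictDerivAt
    obtain ⟨V, hV, hVo, hzV⟩ := _root_.mem_nhds_iff.mp (hs.eventually_left_inverse hz)
    have hVi : InjOn g V := fun x hx y hy hxy => by
      have h1 := hV hx
      have h2 := hV hy
      simp only [mem_ofPred_eq] at h1 h2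
      rw [← h1, ← h2, hxy]
    have h1 : z ∈ ⋃₀ T := hTU ▸ ⟨V, ⟨hVo, hVi⟩, hzV⟩
    have h2 : z ∈ ⋃ k, disjointed U k := by
      rw [iUnion_disjointed]
      obtain ⟨W, hW, hzW⟩ := h1
      obtain ⟨k, hk⟩ : W ∈ range U := hU ▸ mem_insert_of_mem _ hW
      exact mem_iUnion.mpr ⟨k, hk ▸ hzW⟩
    obtain ⟨k, hk⟩ := mem_iUnion.mp h2
    rw [← hn3 k z hk]
    exact ENNReal.le_tsum k

theorem la_periodic {F : ℝ → ENNReal} (hF : Function.Periodic F (2 * Real.pi)) (s : ℝ) (k : ℕ) :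
    ∫⁻ x in Ioc s (s + 2 * Real.pi * k), F x ≤ k * ∫⁻ x in Ioo (-Real.pi) Real.pi, F x := by
  have : Fact (0 < 2 * Real.pi) := ⟨Real.two_pi_pos⟩
  have h1 : ∀ t, ∫⁻ x in Ioc t (t + 2 * Real.pi), F x = ∫⁻ x in Ioo (-Real.pi) Real.pi, F x := by
    intro t
    have e1 := AddCircle.lintegral_preimage (2 * Real.pi) t hF.lift
    have e2 := AddCircle.lintegral_preimage (2 * Real.pi) (-Real.pi) hF.lift
    simp only [Function.Periodic.lift_coe] at e1 e2
    rw [e1, ← e2, show -Real.pi + 2 * Real.pi = Real.pi by ring,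
      setLIntegral_congr Ioo_ae_eq_Ioc]
  induction k with
  | zero => simp
  | succ k ih =>
    have hs : Ioc s (s + 2 * Real.pi * (k + 1 : ℕ)) ⊆ Ioc s (s + 2 * Real.pi * k) ∪
        Ioc (s + 2 * Real.pi * k) (s + 2 * Real.pi * k + 2 * Real.pi) := by
      rw [show s + 2 * Real.pi * (k + 1 : ℕ) = s + 2 * Real.pi * k + 2 * Real.pi by
        push_cast; ring]
      exact Ioc_subset_Ioc_union_Ioc
    refine (lintegral_mono_set hs).trans ((lintegral_union_le _ _ _).trans ?_)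
    rw [h1]
    push_cast
    rw [add_mul, one_mul]
    gcongr

theorem la_polar {N : ℂ → ENNReal} (hN : Measurable N) (c : ℂ) :
    ∫⁻ τ in Ioi (0 : ℝ), ENNReal.ofReal τ *
      ∫⁻ s in Ioo (-Real.pi) Real.pi, N (circleMap c τ s) = ∫⁻ z, N z := by
  rw [← lintegral_add_left_eq_self N c, ← Complex.lintegral_comp_polarCoord_symm,
    polarCoord_target, Measure.volume_eq_prod, setLIntegral_prod]
  · refine lintegral_congr fun τ => ?_
    rw [← lintegral_const_mul' _ _ ENNReal.ofReal_ne_top]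
    refine lintegral_congr fun s => ?_
    simp [circleMap, Complex.exp_mul_I]
  · apply Measurable.aemeasurable
    simp only [Complex.polarCoord_symm_apply, smul_eq_mul]
    fun_prop

theorem la_meas {N : ℂ → ENNReal} (hN : Measurable N) (c : ℂ) :
    Measurable fun τ : ℝ => ∫⁻ s in Ioo (-Real.pi) Real.pi, N (circleMap c τ s) := by
  apply Measurable.lintegral_prod_right
  apply hN.comp
  simp only [circleMap]
  fun_prop

theorem la_cs {G : ℝ → ENNReal} (hG : Measurable G) (S : Set ℝ) :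
    (∫⁻ s in S, G s ^ (1 / 2 : ℝ)) ^ 2 ≤ (∫⁻ s in S, G s) * volume S := by
  have h := ENNReal.lintegral_mul_le_Lp_mul_Lq (volume.restrict S) Real.HolderConjugate.two_two
    (f := fun s => G s ^ (1 / 2 : ℝ)) (g := fun _ => 1) (hG.pow_const _).aemeasurable
    aemeasurable_const
  simp only [Pi.mul_apply, mul_one, ← ENNReal.rpow_mul, ENNReal.one_rpow, lintegral_const,
    Measure.restrict_apply_univ, one_mul] at h
  norm_num at h
  calc _ ≤ ((∫⁻ s in S, G s) ^ (1 / 2 : ℝ) * volume S ^ (1 / 2 : ℝ)) ^ 2 := by gcongr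
    _ = _ := by
      rw [← ENNReal.mul_rpow_of_nonneg _ _ (by norm_num), ← ENNReal.rpow_natCast,
        ← ENNReal.rpow_mul]
      norm_num

/-- Length-area inequality for an arbitrary set `T` of radii. Take `N` for `ρ ^ 2`. For `τ ∈ T`,
Cauchy-Schwarz (`ENNReal.lintegral_mul_le_Lp_mul_Lq`) gives
`lam ^ 2 ≤ 2 π κ τ ^ 2 ∫ s in [s₁, s₂], N (circleMap c τ s) ≤ 2 π κ ^ 2 τ ^ 2 A τ` with
`A τ = ∫ s in (-π, π), N (circleMap c τ s)` (periodicity), a measurable function of `τ`.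
So `lam ^ 2 / τ ≤ 2 π κ ^ 2 τ A τ` on `T`; bound the integral over `T` of the left side by the
integral over the measurable superset where this inequality holds, and use Tonelli,
`Complex.lintegral_comp_polarCoord_symm` and translation invariance. -/
theorem length_area (hg : Differentiable ℂ g) (c : ℂ) (κ : ℕ) {ρ : ℂ → ℝ} (hρ : Measurable ρ)
    (hρ0 : ∀ z, 0 ≤ ρ z) {lam : ℝ} (hlam : 0 ≤ lam) {T : Set ℝ} (hT : T ⊆ Ioi 0)
    (h : ∀ τ ∈ T, ∃ (β : ℝ → ℂ) (s₁ s₂ : ℝ), s₁ ≤ s₂ ∧ s₂ - s₁ ≤ 2 * Real.pi * κ ∧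
      IsArcLift g c τ β s₁ s₂ ∧ (∀ s ∈ Icc s₁ s₂, deriv g (β s) ≠ 0) ∧
      ENNReal.ofReal lam ≤
        ∫⁻ s in Icc s₁ s₂, ENNReal.ofReal (ρ (β s) * (τ / ‖deriv g (β s)‖))) :
    ENNReal.ofReal (lam ^ 2) * ∫⁻ τ in T, ENNReal.ofReal (1 / τ) ≤
      ENNReal.ofReal (2 * Real.pi * κ ^ 2) * ∫⁻ z, ENNReal.ofReal (ρ z ^ 2) := by
  obtain ⟨N, hN, hN1, hN2⟩ := exists_pushforward hg (ρ := fun z => ENNReal.ofReal (ρ z ^ 2))
    (hρ.pow_const 2).ennreal_ofReal
  set A : ℝ → ENNReal := fun τ => ∫⁻ s in Ioo (-Real.pi) Real.pi, N (circleMap c τ s) with hA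
  have hAm : Measurable A := la_meas hN c
  have key : ∀ τ ∈ T, ENNReal.ofReal (lam ^ 2) * ENNReal.ofReal (1 / τ) ≤
      ENNReal.ofReal (2 * Real.pi * κ ^ 2) * (ENNReal.ofReal τ * A τ) := by
    intro τ hτ
    have hτ0 : 0 < τ := hT hτ
    obtain ⟨β, s₁, s₂, hs, hs', hβ, hd, hl⟩ := h τ hτ
    have hGm : Measurable fun s => ENNReal.ofReal (τ ^ 2) * N (circleMap c τ s) :=
      (hN.comp (continuous_circleMap c τ).measurable).const_mul _
    have h1 : ENNReal.ofReal lam ≤ ∫⁻ s in Icc s₁ s₂,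
        (ENNReal.ofReal (τ ^ 2) * N (circleMap c τ s)) ^ (1 / 2 : ℝ) := by
      refine hl.trans (setLIntegral_mono' measurableSet_Icc fun s hs => ?_)
      have e1 := hN2 (β s) (hd s hs)
      rw [hβ.2 s hs] at e1
      have hp : 0 < ‖deriv g (β s)‖ := norm_pos_iff.mpr (hd s hs)
      rw [← ENNReal.ofReal_div_of_pos (by positivity)] at e1
      calc ENNReal.ofReal (ρ (β s) * (τ / ‖deriv g (β s)‖))
          = (ENNReal.ofReal (τ ^ 2) *
            ENNReal.ofReal (ρ (β s) ^ 2 / ‖deriv g (β s)‖ ^ 2)) ^ (1 / 2 : ℝ) := by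
            have := hρ0 (β s)
            rw [← ENNReal.ofReal_mul (by positivity),
              ENNReal.ofReal_rpow_of_nonneg (by positivity) (by norm_num), ← Real.sqrt_eq_rpow,
              show τ ^ 2 * (ρ (β s) ^ 2 / ‖deriv g (β s)‖ ^ 2) =
                (ρ (β s) * (τ / ‖deriv g (β s)‖)) ^ 2 by ring, Real.sqrt_sq (by positivity)]
        _ ≤ _ := by gcongr
    have h2 := la_cs hGm (Icc s₁ s₂)
    rw [lintegral_const_mul' _ _ ENNReal.ofReal_ne_top, Real.volume_Icc] at h2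
    have h3 : ∫⁻ s in Icc s₁ s₂, N (circleMap c τ s) ≤ κ * A τ := by
      rw [← setLIntegral_congr Ioc_ae_eq_Icc]
      refine (lintegral_mono_set (Ioc_subset_Ioc_right (by linarith))).trans
        (la_periodic (F := fun s => N (circleMap c τ s)) ?_ s₁ κ)
      intro s
      simp only [periodic_circleMap c τ s]
    have h4 : ENNReal.ofReal (lam ^ 2) ≤
        ENNReal.ofReal (τ ^ 2) * (κ * A τ) * ENNReal.ofReal (2 * Real.pi * κ) := by
      rw [ENNReal.ofReal_pow hlam]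
      calc ENNReal.ofReal lam ^ 2 ≤ _ := pow_le_pow_left' h1 2
        _ ≤ _ := h2
        _ ≤ _ := by gcongr
    calc ENNReal.ofReal (lam ^ 2) * ENNReal.ofReal (1 / τ)
        ≤ ENNReal.ofReal (τ ^ 2) * (κ * A τ) * ENNReal.ofReal (2 * Real.pi * κ) *
          ENNReal.ofReal (1 / τ) := by gcongr
      _ = (ENNReal.ofReal (2 * Real.pi * κ) * ENNReal.ofReal κ) *
          ((ENNReal.ofReal (τ ^ 2) * ENNReal.ofReal (1 / τ)) * A τ) := by
          rw [ENNReal.ofReal_natCast]; ring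
      _ = _ := by
          rw [← ENNReal.ofReal_mul (by positivity), ← ENNReal.ofReal_mul (by positivity),
            show 2 * Real.pi * κ * κ = 2 * Real.pi * κ ^ 2 by ring,
            show τ ^ 2 * (1 / τ) = τ by field_simp]
  rw [← lintegral_const_mul' _ _ ENNReal.ofReal_ne_top]
  calc ∫⁻ τ in T, ENNReal.ofReal (lam ^ 2) * ENNReal.ofReal (1 / τ)
      ≤ ∫⁻ τ in T, ENNReal.ofReal (2 * Real.pi * κ ^ 2) * (ENNReal.ofReal τ * A τ) :=
        setLIntegral_mono ((measurable_id.ennreal_ofReal.mul hAm).const_mul _) key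
    _ ≤ ∫⁻ τ in Ioi 0, ENNReal.ofReal (2 * Real.pi * κ ^ 2) * (ENNReal.ofReal τ * A τ) :=
        lintegral_mono_set hT
    _ = ENNReal.ofReal (2 * Real.pi * κ ^ 2) * ∫⁻ z, N z := by
        rw [lintegral_const_mul' _ _ ENNReal.ofReal_ne_top, la_polar hN c]
    _ ≤ _ := by gcongr

theorem la_deriv (hg : Differentiable ℂ g) {c : ℂ} {τ : ℝ} (hτ : 0 < τ) {β : ℝ → ℂ} {s₁ s₂ : ℝ}
    (hβ : IsArcLift g c τ β s₁ s₂) (hd : ∀ s ∈ Icc s₁ s₂, deriv g (β s) ≠ 0) {s : ℝ}
    (hs : s ∈ Ioo s₁ s₂) : ∃ β' : ℂ, HasDerivAt β β' s ∧ ‖β'‖ = τ / ‖deriv g (β s)‖ := by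
  have hn : Icc s₁ s₂ ∈ 𝓝 s := Icc_mem_nhds hs.1 hs.2
  refine ⟨_, lift_hasDerivAt hg (hβ.1.continuousAt hn)
    (Filter.mem_of_superset hn fun t ht => hβ.2 t ht) (hasDerivAt_circleMap c τ s)
    (hd s (Ioo_subset_Icc_self hs)), ?_⟩
  simp [abs_of_pos hτ]

theorem la_ftc {E : Type*} [NormedAddCommGroup E] [NormedSpace ℝ E] {f : ℝ → E} {B : ℝ → ℝ}
    {a b : ℝ} (hab : a ≤ b) (hf : ContinuousOn f (Icc a b)) (hB : ContinuousOn B (Icc a b))
    (hB0 : ∀ s ∈ Icc a b, 0 ≤ B s) (h : ∀ s ∈ Ioo a b, ∃ f', HasDerivAt f f' s ∧ ‖f'‖ ≤ B s) :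
    ENNReal.ofReal ‖f b - f a‖ ≤ ∫⁻ s in Icc a b, ENNReal.ofReal (B s) := by
  have h1 := norm_sub_le_integral_of_norm_deriv_le_of_le hab hf
    (fun s hs => (h s hs).choose_spec.1.differentiableAt.differentiableWithinAt)
    (B := B) (Eventually.of_forall fun s hs => by
      obtain ⟨f', h1, h2⟩ := h s hs
      rwa [h1.deriv]) (hB.intervalIntegrable_of_Icc hab)
  rw [intervalIntegral.integral_of_le hab, ← integral_Icc_eq_integral_Ioc] at h1
  rw [← ofReal_integral_eq_lintegral_ofReal (hB.integrableOn_Icc)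
    ((ae_restrict_iff' measurableSet_Icc).mpr (Eventually.of_forall hB0))]
  exact ENNReal.ofReal_le_ofReal h1

theorem la_cont (hg : Differentiable ℂ g) {c : ℂ} {τ : ℝ} {β : ℝ → ℂ} {s₁ s₂ : ℝ}
    (hβ : IsArcLift g c τ β s₁ s₂) (hd : ∀ s ∈ Icc s₁ s₂, deriv g (β s) ≠ 0) :
    ContinuousOn (fun s => τ / ‖deriv g (β s)‖) (Icc s₁ s₂) :=
  continuousOn_const.div (hg.deriv.continuous.comp_continuousOn hβ.1).norm
    fun s hs => norm_ne_zero_iff.mpr (hd s hs)

/-- Euclidean case, `ρ` the indicator of the disc: `‖β s₂ - β s₁‖ ≤ ∫ ‖β'‖` with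
`‖β' s‖ = τ / ‖g' (β s)‖` (`lift_hasDerivAt`). -/
theorem length_area_disc (hg : Differentiable ℂ g) (c z₀ : ℂ) (κ : ℕ) {r lam : ℝ} (hr : 0 ≤ r)
    (hlam : 0 ≤ lam) {T : Set ℝ} (hT : T ⊆ Ioi 0)
    (h : ∀ τ ∈ T, ∃ (β : ℝ → ℂ) (s₁ s₂ : ℝ), s₁ ≤ s₂ ∧ s₂ - s₁ ≤ 2 * Real.pi * κ ∧
      IsArcLift g c τ β s₁ s₂ ∧ (∀ s ∈ Icc s₁ s₂, deriv g (β s) ≠ 0 ∧ β s ∈ closedBall z₀ r) ∧
      lam ≤ ‖β s₂ - β s₁‖) :
    ENNReal.ofReal (lam ^ 2) * ∫⁻ τ in T, ENNReal.ofReal (1 / τ) ≤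
      ENNReal.ofReal (2 * Real.pi ^ 2 * κ ^ 2 * r ^ 2) := by
  have h1 := length_area hg c κ (ρ := (closedBall z₀ r).indicator 1)
    (measurable_one.indicator measurableSet_closedBall)
    (fun z => indicator_nonneg (fun _ _ => zero_le_one) z) hlam hT (by
      intro τ hτ
      obtain ⟨β, s₁, s₂, hs, hs', hβ, hd, hl⟩ := h τ hτ
      have hτ0 : 0 < τ := hT hτ
      refine ⟨β, s₁, s₂, hs, hs', hβ, fun s hs => (hd s hs).1, ?_⟩
      refine (ENNReal.ofReal_le_ofReal hl).trans ((la_ftc hs hβ.1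
        (la_cont hg hβ fun s hs => (hd s hs).1) (fun s _ => by positivity) fun s hs => ?_).trans
        (setLIntegral_mono' measurableSet_Icc fun s hs => ?_))
      · obtain ⟨β', h1, h2⟩ := la_deriv hg hτ0 hβ (fun s hs => (hd s hs).1) hs
        exact ⟨β', h1, h2.le⟩
      · simp [indicator_of_mem (hd s hs).2])
  refine h1.trans_eq ?_
  have h2 : (fun z => ENNReal.ofReal ((closedBall z₀ r).indicator (1 : ℂ → ℝ) z ^ 2)) =
      (closedBall z₀ r).indicator 1 := by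
    ext z
    by_cases hz : z ∈ closedBall z₀ r <;> simp [hz]
  rw [h2, lintegral_indicator_one measurableSet_closedBall, Complex.volume_closedBall,
    ← ENNReal.ofReal_pow hr, ← ENNReal.ofReal_coe_nnreal, NNReal.coe_real_pi,
    ← ENNReal.ofReal_mul (by positivity), ← ENNReal.ofReal_mul (by positivity)]
  congr 1
  ring

theorem la_inv_Ioo {a b : ℝ} (ha : 0 < a) (hab : a ≤ b) :
    ∫⁻ τ in Ioo a b, ENNReal.ofReal (1 / τ) = ENNReal.ofReal (Real.log (b / a)) := by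
  have hc : ContinuousOn (fun τ : ℝ => 1 / τ) (Icc a b) :=
    continuousOn_const.div continuousOn_id fun x hx => (ha.trans_le hx.1).ne'
  rw [← ofReal_integral_eq_lintegral_ofReal (hc.integrableOn_Icc.mono_set Ioo_subset_Icc_self)
    ((ae_restrict_iff' measurableSet_Ioo).mpr (Eventually.of_forall fun x hx => by
      have := ha.trans hx.1
      positivity)), ← integral_Ioc_eq_integral_Ioo, ← intervalIntegral.integral_of_le hab,
    integral_one_div_of_pos ha (ha.trans_le hab)]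

/-- Logarithmic case, `ρ z = 1 / ‖z‖` on the annulus `r ≤ ‖z‖ ≤ K r`, whose square has integral
`2 π log K` (polar coordinates); `|log ‖β s₂‖ - log ‖β s₁‖| ≤ ∫ ‖β'‖ / ‖β‖`
(differentiate `log (normSq β) / 2`). -/
theorem length_area_annulus (hg : Differentiable ℂ g) (c : ℂ) (κ : ℕ) {r K : ℝ} (hr : 0 < r)
    (hK : 1 < K) {T : Set ℝ} (hT : T ⊆ Ioi 0)
    (h : ∀ τ ∈ T, ∃ (β : ℝ → ℂ) (s₁ s₂ : ℝ), s₁ ≤ s₂ ∧ s₂ - s₁ ≤ 2 * Real.pi * κ ∧
      IsArcLift g c τ β s₁ s₂ ∧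
      (∀ s ∈ Icc s₁ s₂, deriv g (β s) ≠ 0 ∧ r ≤ ‖β s‖ ∧ ‖β s‖ ≤ K * r) ∧
      ((‖β s₁‖ = r ∧ ‖β s₂‖ = K * r) ∨ (‖β s₁‖ = K * r ∧ ‖β s₂‖ = r))) :
    ENNReal.ofReal (Real.log K) * ∫⁻ τ in T, ENNReal.ofReal (1 / τ) ≤
      ENNReal.ofReal (4 * Real.pi ^ 2 * κ ^ 2) := by
  have hK0 : 0 < Real.log K := Real.log_pos hK
  set ρ : ℂ → ℝ := fun z => (Icc r (K * r)).indicator (fun t => 1 / t) ‖z‖ with hρ
  have hρm : Measurable ρ :=
    ((measurable_const.div measurable_id).indicator measurableSet_Icc).comp measurable_norm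
  have h1 := length_area hg c κ hρm
    (fun z => indicator_nonneg (fun t ht => by have := hr.trans_le ht.1; positivity) _)
    hK0.le hT (by
      intro τ hτ
      obtain ⟨β, s₁, s₂, hs, hs', hβ, hd, hl⟩ := h τ hτ
      have hτ0 : 0 < τ := hT hτ
      refine ⟨β, s₁, s₂, hs, hs', hβ, fun s hs => (hd s hs).1, ?_⟩
      have hpos : ∀ s ∈ Icc s₁ s₂, 0 < ‖β s‖ := fun s hs => hr.trans_le (hd s hs).2.1
      have e1 : Real.log K ≤ ‖Real.log ‖β s₂‖ - Real.log ‖β s₁‖‖ := by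
        have e2 : Real.log (K * r) = Real.log K + Real.log r :=
          Real.log_mul (by linarith) hr.ne'
        rcases hl with ⟨a1, a2⟩ | ⟨a1, a2⟩ <;> rw [a1, a2, e2]
        · simp [abs_of_pos hK0]
        · simp [abs_of_pos hK0]
      refine (ENNReal.ofReal_le_ofReal e1).trans ((la_ftc (f := fun s => Real.log ‖β s‖)
        (B := fun s => 1 / ‖β s‖ * (τ / ‖deriv g (β s)‖)) hs
        (hβ.1.norm.log fun s hs => (hpos s hs).ne')
        ((continuousOn_const.div hβ.1.norm fun s hs => (hpos s hs).ne').mul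
          (la_cont hg hβ fun s hs => (hd s hs).1))
        (fun s _ => by positivity) fun s hs => ?_).trans
        (setLIntegral_mono' measurableSet_Icc fun s hs => ?_))
      · obtain ⟨β', h1, h2⟩ := la_deriv hg hτ0 hβ (fun s hs => (hd s hs).1) hs
        have hp := hpos s (Ioo_subset_Icc_self hs)
        have h3 := (h1.norm_sq.log (by positivity)).div_const 2
        refine ⟨_, h3.congr_of_eventuallyEq (Eventually.of_forall fun t => ?_), ?_⟩
        · simp
        · rw [← h2, Real.norm_eq_abs, abs_div, abs_div, abs_mul, abs_two,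
            abs_of_pos (by positivity : (0 : ℝ) < ‖β s‖ ^ 2), div_div, div_le_iff₀ (by positivity)]
          calc 2 * |inner ℝ (β s) β'| ≤ 2 * (‖β s‖ * ‖β'‖) := by
                gcongr; exact abs_real_inner_le_norm _ _
            _ = _ := by field_simp
      · have : ‖β s‖ ∈ Icc r (K * r) := (hd s hs).2
        simp [hρ, indicator_of_mem this])
  have h2 : ∫⁻ z, ENNReal.ofReal (ρ z ^ 2) = ENNReal.ofReal (2 * Real.pi * Real.log K) := by
    rw [← la_polar (hρm.pow_const 2).ennreal_ofReal 0]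
    have e1 : ∀ τ ∈ Ioi (0 : ℝ), ENNReal.ofReal τ * ∫⁻ s in Ioo (-Real.pi) Real.pi,
        ENNReal.ofReal (ρ (circleMap 0 τ s) ^ 2) = (Icc r (K * r)).indicator
          (fun t => ENNReal.ofReal (2 * Real.pi) * ENNReal.ofReal (1 / t)) τ := by
      intro τ hτ
      have hτ0 : 0 < τ := hτ
      simp only [hρ, norm_circleMap_zero, abs_of_pos hτ0, lintegral_const,
        Measure.restrict_apply_univ, Real.volume_Ioo]
      by_cases ht : τ ∈ Icc r (K * r)
      · rw [indicator_of_mem ht, indicator_of_mem ht, ← ENNReal.ofReal_mul (by positivity),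
          ← ENNReal.ofReal_mul (by positivity), ← ENNReal.ofReal_mul (by positivity)]
        congr 1
        field_simp
        ring
      · simp [indicator_of_notMem ht]
    have e2 : Icc r (K * r) ⊆ Ioi 0 := fun t ht => hr.trans_le ht.1
    rw [setLIntegral_congr_fun measurableSet_Ioi e1, setLIntegral_indicator measurableSet_Icc,
      inter_eq_left.mpr e2,
      lintegral_const_mul' _ _ ENNReal.ofReal_ne_top, ← setLIntegral_congr Ioo_ae_eq_Icc,
      la_inv_Ioo hr (by nlinarith), mul_div_cancel_right₀ _ hr.ne',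
      ← ENNReal.ofReal_mul (by positivity)]
  rw [h2, ← ENNReal.ofReal_mul (by positivity), sq (Real.log K), ENNReal.ofReal_mul hK0.le,
    mul_assoc, show 2 * Real.pi * κ ^ 2 * (2 * Real.pi * Real.log K) =
      Real.log K * (4 * Real.pi ^ 2 * κ ^ 2) by ring, ENNReal.ofReal_mul hK0.le] at h1
  exact (ENNReal.mul_le_mul_iff_right (by simpa using hK0) ENNReal.ofReal_ne_top).mp h1

/-- The logarithmic measure of an interval. -/
theorem lintegral_inv_Ioo {a b : ℝ} (ha : 0 < a) (hab : a ≤ b) :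
    ∫⁻ τ in Ioo a b, ENNReal.ofReal (1 / τ) = ENNReal.ofReal (Real.log (b / a)) := by
  exact la_inv_Ioo ha hab

end Pool.Agent.Lib.MP_dbd176_an
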