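import Pool.Agent.Lib.MP_dbd176_an.Topo

open Set Metric Filter Topology

namespace Pool.Agent.Lib.MP_dbd176_an

theorem log_aux_const {X : Type} [TopologicalSpace X] {S : Set X} (hS : IsPreconnected S)
    {l m : X → ℂ} (hl : ContinuousOn l S) (hm : ContinuousOn m S)
    (h : ∀ z ∈ S, Complex.exp (l z) = Complex.exp (m z)) {x y : X}
    (hx : x ∈ S) (hy : y ∈ S) : l x - m x = l y - m y := by
  have h1 : (range fun n : ℤ => (n : ℂ) * (2 * Real.pi * Complex.I)).Countable :=
    countable_range _
  refine h1.isTotallyDisconnected _ ?_ (hS.image _ (hl.sub hm)) ⟨x, hx, rfl⟩ ⟨y, hy, rfl⟩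
  rintro _ ⟨z, hz, rfl⟩
  obtain ⟨n, hn⟩ := Complex.exp_eq_exp_iff_exists_int.1 (h z hz)
  exact ⟨n, by simp [hn]⟩

theorem log_aux_mul {K : Set ℂ} {g h k : ℂ → ℂ} (hg : HasLog g K) (hh : HasLog h K)
    (e : ∀ z ∈ K, g z * h z = k z) : HasLog k K := by
  obtain ⟨l, hl, el⟩ := hg
  obtain ⟨m, hm, em⟩ := hh
  exact ⟨fun z => l z + m z, hl.add hm, fun z hz => by
    rw [Complex.exp_add, el z hz, em z hz, e z hz]⟩

theorem log_aux_one_add {K : Set ℂ} {g k : ℂ → ℂ} (hg : ContinuousOn g K)
    (h1 : ∀ z ∈ K, ‖g z‖ < 1) (e : ∀ z ∈ K, 1 + g z = k z) : HasLog k K :=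
  ⟨fun z => Complex.log (1 + g z), (continuousOn_const.add hg).clog
    fun z hz => Complex.mem_slitPlane_of_norm_lt_one (h1 z hz), fun z hz => by
    rw [Complex.exp_log (Complex.slitPlane_ne_zero
      (Complex.mem_slitPlane_of_norm_lt_one (h1 z hz))), e z hz]⟩

theorem log_aux_convex {O : Set ℂ} (hO : IsOpen O) (hc : Convex ℝ O) {h : ℂ → ℂ}
    (hh : ContinuousOn h O) (h0 : ∀ z ∈ O, h z ≠ 0) : HasLog h O := by
  rcases eq_empty_or_nonempty O with rfl | hne
  · exact ⟨0, continuousOn_empty _, by simp⟩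
  have := hc.contractibleSpace hne
  obtain ⟨l, hl, el⟩ := Complex.exists_continuousOn_eqOn_exp_comp (U := O)
    (inferInstanceAs (SimplyConnectedSpace O)) hO hh (by
      rintro ⟨z, hz, h1⟩
      exact h0 z hz h1)
  exact ⟨l, hl, fun z hz => el hz⟩

/-- Two continuous logarithms of the same function on a connected set differ by a constant. -/
theorem log_sub_const {S : Set ℂ} (hS : IsPreconnected S) {l m : ℂ → ℂ} (hl : ContinuousOn l S)
    (hm : ContinuousOn m S) (h : ∀ z ∈ S, Complex.exp (l z) = Complex.exp (m z)) {x y : ℂ}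
    (hx : x ∈ S) (hy : y ∈ S) : l x - m x = l y - m y := by
  exact log_aux_const hS hl hm h hx hy

/-- The same for functions of a real parameter. -/
theorem log_sub_const_real {S : Set ℝ} (hS : IsPreconnected S) {l m : ℝ → ℂ}
    (hl : ContinuousOn l S) (hm : ContinuousOn m S)
    (h : ∀ z ∈ S, Complex.exp (l z) = Complex.exp (m z)) {x y : ℝ}
    (hx : x ∈ S) (hy : y ∈ S) : l x - m x = l y - m y := by
  exact log_aux_const hS hl hm h hx hy

/-- The relation `HasLog ((z - a) / (z - a')) K` between `a, a' ∉ K` is transitive, and holds in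
both directions when `‖a - a'‖ < infDist a K`: then `(z - a') / (z - a) = 1 + (a - a') / (z - a)`
lies in the slit plane. Use `IsPreconnected.induction₂'`. -/
theorem hasLog_div {K Z : Set ℂ} (hK : IsCompact K) (hZ : IsPreconnected Z) (hd : Disjoint Z K)
    {a a' : ℂ} (ha : a ∈ Z) (ha' : a' ∈ Z) : HasLog (fun z => (z - a) / (z - a')) K := by
  have hne : ∀ b ∈ Z, ∀ z ∈ K, z - b ≠ 0 := fun b hb z hz h =>
    disjoint_left.1 hd hb (sub_eq_zero.1 h ▸ hz)
  refine hZ.induction₂' (fun a a' => HasLog (fun z => (z - a) / (z - a')) K) (fun b hb => ?_)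
    (fun x y w _ hy _ h1 h2 => log_aux_mul h1 h2 fun z hz => ?_) ha ha'
  · obtain ⟨ε, hε, hb'⟩ := Metric.isOpen_iff.1 hK.isClosed.isOpen_compl b
      (disjoint_left.1 hd hb)
    filter_upwards [mem_nhdsWithin_of_mem_nhds (ball_mem_nhds b hε), self_mem_nhdsWithin]
      with y hy hyZ
    have h2 : HasLog (fun z => (z - y) / (z - b)) K := by
      refine log_aux_one_add (g := fun z => (b - y) / (z - b))
        (continuousOn_const.div (by fun_prop) (hne b hb)) (fun z hz => ?_) fun z hz => ?_
      · rw [norm_div, div_lt_one (norm_pos_iff.2 (hne b hb z hz))]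
        have h3 : ¬ ‖z - b‖ < ε := fun h => hb' (mem_ball_iff_norm.2 h) hz
        rw [mem_ball_iff_norm'] at hy
        linarith
      · have := hne b hb z hz
        field_simp
        ring
    refine ⟨?_, h2⟩
    obtain ⟨l, hl, el⟩ := h2
    exact ⟨fun z => - l z, hl.neg, fun z hz => by rw [Complex.exp_neg, el z hz, inv_div]⟩
  · have := hne y hy z hz
    rw [div_mul_div_cancel₀ this]

/-- Take `a' ∈ Z` with `‖a'‖` larger than all of `K`; `z - a' = -a' (1 - z / a')` has a logarithm;
then `hasLog_div`. -/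
theorem hasLog_sub {K Z : Set ℂ} (hK : IsCompact K) (hZ : IsPreconnected Z)
    (hu : ¬ Bornology.IsBounded Z) (hd : Disjoint Z K) {a : ℂ} (ha : a ∈ Z) :
    HasLog (fun z => z - a) K := by
  obtain ⟨R, hR0, hR⟩ := hK.isBounded.exists_pos_norm_lt
  obtain ⟨a', ha', hRa⟩ : ∃ a' ∈ Z, R < ‖a'‖ := by
    by_contra h
    push Not at h
    exact hu (isBounded_iff_forall_norm_le.2 ⟨R, h⟩)
  have h0 : a' ≠ 0 := norm_pos_iff.1 (hR0.trans hRa)
  have h1 : HasLog (fun z => 1 - z / a') K := by
    refine log_aux_one_add (g := fun z => - (z / a')) (by fun_prop) (fun z hz => ?_)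
      fun z _ => (sub_eq_add_neg _ _).symm
    rw [norm_neg, norm_div, div_lt_one (hR0.trans hRa)]
    exact (hR z hz).trans hRa
  have h2 : HasLog (fun _ => - a') K :=
    ⟨fun _ => Complex.log (- a'), continuousOn_const, fun _ _ => Complex.exp_log (neg_ne_zero.2 h0)⟩
  have h3 : HasLog (fun z => z - a') K := log_aux_mul h1 h2 fun z _ => by
    field_simp
    ring
  refine log_aux_mul (hasLog_div hK hZ hd ha ha') h3 fun z hz => ?_
  exact div_mul_cancel₀ _ fun h => disjoint_left.1 hd ha' (sub_eq_zero.1 h ▸ hz)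

/-- A nonvanishing continuous function on a ball has a continuous logarithm
(`Complex.exists_continuousOn_eqOn_exp_comp`; convex sets are contractible). -/
theorem hasLog_ball {h : ℂ → ℂ} {c : ℂ} {r : ℝ} (hc : ContinuousOn h (ball c r))
    (h0 : ∀ z ∈ ball c r, h z ≠ 0) : HasLog h (ball c r) := by
  exact log_aux_convex isOpen_ball (convex_ball c r) hc h0

theorem hasLog_univ {h : ℂ → ℂ} (hc : Continuous h) (h0 : ∀ z, h z ≠ 0) : HasLog h univ := by
  exact log_aux_convex isOpen_univ convex_univ hc.continuousOn fun z _ => h0 z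

/-- From logarithms on all compact subsets to a logarithm on an open set. On each component `W`
of `O` (open, path connected, locally path connected) apply
`IsLocalHomeomorph.existsUnique_continuousMap_lifts` to `exp` (local homeomorphism; or the
covering `isCoveringMap_exp`): for two paths from the base point use a logarithm on the compact
union of their ranges, and uniqueness of lifts (`log_sub_const_real`). Then glue over the
components, which are disjoint open sets. -/
theorem hasLog_of_compact {O : Set ℂ} (hO : IsOpen O) {h : ℂ → ℂ} (hc : ContinuousOn h O)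
    (H : ∀ K, IsCompact K → K ⊆ O → HasLog h K) : HasLog h O := by
  let b : ℂ → ℂ := fun z => Classical.epsilon (· ∈ connectedComponentIn O z)
  have hb : ∀ z ∈ O, b z ∈ connectedComponentIn O z := fun z hz =>
    Classical.epsilon_spec (p := (· ∈ connectedComponentIn O z)) ⟨z, mem_connectedComponentIn hz⟩
  have hK : ∀ z ∈ O, ∃ K, IsCompact K ∧ IsPreconnected K ∧ K ⊆ O ∧ b z ∈ K ∧ z ∈ K := by
    intro z hz
    obtain ⟨p, hp, h0, h1, h2⟩ := exists_path_of_isOpen hO.connectedComponentIn
      isPreconnected_connectedComponentIn (hb z hz) (mem_connectedComponentIn hz)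
    refine ⟨p '' Icc 0 1, isCompact_Icc.image hp, isPreconnected_Icc.image _ hp.continuousOn,
      ?_, ⟨0, by simp, h0⟩, ⟨1, by simp, h1⟩⟩
    rintro _ ⟨t, -, rfl⟩
    exact connectedComponentIn_subset _ _ (h2 t)
  have hv : ∀ z ∈ O, ∃ v : ℂ, Complex.exp (v + Complex.log (h (b z))) = h z ∧
      ∀ (K : Set ℂ) (m : ℂ → ℂ), IsCompact K → IsPreconnected K → K ⊆ O → b z ∈ K → z ∈ K →
        ContinuousOn m K → (∀ w ∈ K, Complex.exp (m w) = h w) → v = m z - m (b z) := by
    intro z hz
    obtain ⟨K, h1, h2, h3, h4, h5⟩ := hK z hz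
    obtain ⟨l, hl, el⟩ := H K h1 h3
    have h0 : h (b z) ≠ 0 := el _ h4 ▸ Complex.exp_ne_zero _
    refine ⟨l z - l (b z), ?_, fun K' m g1 g2 g3 g4 g5 hm em => ?_⟩
    · rw [Complex.exp_add, Complex.exp_sub, Complex.exp_log h0, el _ h4, el _ h5,
        div_mul_cancel₀ _ h0]
    · obtain ⟨k, hk, ek⟩ := H (K ∪ K') (h1.union g1) (union_subset h3 g3)
      have e1 := log_sub_const h2 hl (hk.mono subset_union_left)
        (fun w hw => by rw [el w hw, ek w (Or.inl hw)]) h4 h5
      have e2 := log_sub_const g2 hm (hk.mono subset_union_right)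
        (fun w hw => by rw [em w hw, ek w (Or.inr hw)]) g4 g5
      linear_combination e2 - e1
  choose! v hv1 hv2 using hv
  refine ⟨fun z => v z + Complex.log (h (b z)), fun z hz => ?_, hv1⟩
  obtain ⟨K, h1, h2, h3, h4, h5⟩ := hK z hz
  obtain ⟨ε, hε, hB⟩ := Metric.nhds_basis_closedBall.mem_iff.1 (hO.mem_nhds hz)
  have hBc : IsPreconnected (closedBall z ε) := (convex_closedBall z ε).isPreconnected
  have hzB : z ∈ closedBall z ε := mem_closedBall_self hε.le
  obtain ⟨m, hm, em⟩ := H (K ∪ closedBall z ε) (h1.union (isCompact_closedBall z ε))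
    (union_subset h3 hB)
  have h6 : ContinuousAt (fun w => m w - m (b z) + Complex.log (h (b z))) z :=
    (((hm.mono subset_union_right).continuousAt (closedBall_mem_nhds z hε)).sub
      continuousAt_const).add continuousAt_const
  refine (h6.congr ?_).continuousWithinAt
  filter_upwards [closedBall_mem_nhds z hε] with w hw
  have h7 : b w = b z := by
    simp only [b]
    rw [← connectedComponentIn_eq (hBc.subset_connectedComponentIn hzB hB hw)]
  rw [hv2 w (hB hw) _ m (h1.union (isCompact_closedBall z ε)) (h2.union z h5 hzB hBc)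
    (union_subset h3 hB) (Or.inl (h7 ▸ h4)) (Or.inr hw) hm em, h7]

/-- A continuous logarithm of a holomorphic function is holomorphic: near `z₀`,
`l z = l z₀ + log (h z / h z₀)`. -/
theorem differentiableOn_of_exp {O : Set ℂ} (hO : IsOpen O) {l h : ℂ → ℂ}
    (hl : ContinuousOn l O) (hh : DifferentiableOn ℂ h O)
    (he : ∀ z ∈ O, Complex.exp (l z) = h z) : DifferentiableOn ℂ l O := by
  intro z hz
  have h0 : h z ≠ 0 := he z hz ▸ Complex.exp_ne_zero _
  have h1 : DifferentiableAt ℂ (fun w => l z + Complex.log (h w / h z)) z :=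
    (((hh.differentiableAt (hO.mem_nhds hz)).div_const _).clog (by simp [h0])).const_add _
  refine (h1.congr_of_eventuallyEq ?_).differentiableWithinAt
  have h2 : ∀ᶠ w in 𝓝 z, ‖l w - l z‖ < Real.pi := by
    have := (hl.continuousAt (hO.mem_nhds hz)).eventually (ball_mem_nhds (l z) Real.pi_pos)
    simpa only [mem_ball, dist_eq_norm] using this
  filter_upwards [h2, hO.mem_nhds hz] with w h3 hw
  have h4 := abs_lt.1 ((Complex.abs_im_le_norm _).trans_lt h3)
  rw [← he w hw, ← he z hz, ← Complex.exp_sub, Complex.log_exp h4.1 h4.2.le]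
  ring

/-- A holomorphic branch of `log (w - a)` off an unbounded continuum through `a`. -/
theorem exists_holo_log {Z : Set ℂ} (hZ : UC Z) {a : ℂ} (ha : a ∈ Z) :
    ∃ u : ℂ → ℂ, DifferentiableOn ℂ u Zᶜ ∧ ∀ w ∉ Z, Complex.exp (u w) = w - a := by
  obtain ⟨u, hu, he⟩ := hasLog_of_compact (h := fun z => z - a) hZ.closed.isOpen_compl
    (by fun_prop) fun K hK hKZ =>
      hasLog_sub hK hZ.conn hZ.unb (disjoint_left.2 fun z hz hzK => hKZ hzK hz) ha
  exact ⟨u, differentiableOn_of_exp hZ.closed.isOpen_compl hu (by fun_prop) he, he⟩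

end Pool.Agent.Lib.MP_dbd176_an
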