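import Pool.Agent.Lib.MP_dbd176_an.Dens
import Pool.Agent.Lib.MP_dbd176_an.Jump

open Set Metric Filter Topology

namespace Pool.Agent.Lib.MP_dbd176_an

variable {g : ℂ → ℂ}

theorem w3_angle {c w : ℂ} {τ : ℝ} (hw : ‖w - c‖ = τ) (a : ℝ) :
    ∃ θ ∈ Ioc a (a + 2 * Real.pi), circleMap c τ θ = w := by
  have h0 : 0 ≤ τ := hw ▸ norm_nonneg _
  have h1 : w ∈ range (circleMap c τ) := by
    rw [range_circleMap, abs_of_nonneg h0, mem_sphere, dist_eq_norm]; exact hw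
  rw [← (periodic_circleMap c τ).image_Ioc Real.two_pi_pos a] at h1
  exact h1

/-- The maximal arc of the circle in the open set `V` through a given angle. -/
theorem exists_max_arc {V : Set ℂ} (hV : IsOpen V) {τ θ : ℝ} (hτ : 0 < τ)
    (hθ : circleMap 0 τ θ ∈ V) (hm : ∃ w ∉ V, ‖w‖ = τ) :
    ∃ θ₁ θ₂ : ℝ, θ₁ < θ ∧ θ < θ₂ ∧ θ₂ - θ₁ ≤ 2 * Real.pi ∧ circleMap 0 τ θ₁ ∉ V ∧
      circleMap 0 τ θ₂ ∉ V ∧ ∀ s ∈ Ioo θ₁ θ₂, circleMap 0 τ s ∈ V := by
  obtain ⟨w, hwV, hw⟩ := hm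
  obtain ⟨θ₀, hθ₀, he⟩ := w3_angle (c := 0) (w := w) (τ := τ) (by simpa using hw)
    (θ - 2 * Real.pi)
  have hcl : IsClosed {s : ℝ | circleMap 0 τ s ∉ V} :=
    hV.isClosed_compl.preimage (continuous_circleMap 0 τ)
  have h0 : θ₀ ≤ θ := by linarith [hθ₀.2]
  obtain ⟨θ₁, ⟨h₁, h₁V⟩, hmax⟩ := (isCompact_Icc.inter_right hcl (s := Icc θ₀ θ)).exists_isGreatest
    ⟨θ₀, left_mem_Icc.2 h0, by simpa [he] using hwV⟩
  have h0' : θ ≤ θ₀ + 2 * Real.pi := by linarith [hθ₀.1]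
  obtain ⟨θ₂, ⟨h₂, h₂V⟩, hmin⟩ :=
    (isCompact_Icc.inter_right hcl (s := Icc θ (θ₀ + 2 * Real.pi))).exists_isLeast
    ⟨θ₀ + 2 * Real.pi, right_mem_Icc.2 h0', by
      show circleMap 0 τ (θ₀ + 2 * Real.pi) ∉ V
      rw [periodic_circleMap 0 τ θ₀, he]; exact hwV⟩
  have h₁θ : θ₁ < θ := lt_of_le_of_ne h₁.2 (by rintro rfl; exact h₁V hθ)
  have h₂θ : θ < θ₂ := lt_of_le_of_ne h₂.1 (by rintro rfl; exact h₂V hθ)
  refine ⟨θ₁, θ₂, h₁θ, h₂θ, by linarith [h₁.1, h₂.2], h₁V, h₂V, fun s hs => ?_⟩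
  by_contra hsV
  rcases le_total s θ with h | h
  · exact absurd (hmax ⟨⟨h₁.1.trans hs.1.le, h⟩, hsV⟩) (not_le.2 hs.1)
  · exact absurd (hmin ⟨⟨h, hs.2.le.trans h₂.2⟩, hsV⟩) (not_le.2 hs.2)

/-- Points of the circle near `circleMap 0 τ θ` have angles near `θ`. -/
theorem w3_near_angle {τ θ θ₁ θ₂ : ℝ} (hτ : 0 < τ) (h₁ : θ₁ < θ) (h₂ : θ < θ₂) :
    ∃ η > 0, ∀ w ∈ ball (circleMap 0 τ θ) η, ‖w‖ = τ → ∃ s ∈ Ioo θ₁ θ₂, circleMap 0 τ s = w := by
  have hc : IsCompact (circleMap 0 τ '' (Icc (θ - Real.pi) (θ + Real.pi) \ Ioo θ₁ θ₂)) :=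
    (isCompact_Icc.diff isOpen_Ioo).image (continuous_circleMap 0 τ)
  have hn : circleMap 0 τ θ ∉ circleMap 0 τ '' (Icc (θ - Real.pi) (θ + Real.pi) \ Ioo θ₁ θ₂) := by
    rintro ⟨s, ⟨hs, hs'⟩, he⟩
    have : s = θ := eq_of_circleMap_eq hτ.ne' (by
      rw [abs_lt]; constructor <;> linarith [hs.1, hs.2, Real.pi_pos]) he
    exact hs' (this ▸ ⟨h₁, h₂⟩)
  obtain ⟨η, hη, hb⟩ := Metric.isOpen_iff.1 hc.isClosed.isOpen_compl _ hn
  refine ⟨η, hη, fun w hw hwτ => ?_⟩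
  obtain ⟨s, hs, he⟩ := w3_angle (c := 0) (w := w) (τ := τ) (by simpa using hwτ) (θ - Real.pi)
  refine ⟨s, ?_, he⟩
  by_contra hs'
  exact hb hw ⟨s, ⟨⟨hs.1.le, by linarith [hs.2]⟩, hs'⟩, he⟩

/-- Two preimages on the boundary. `O ⊆ ball 0 τ` is open and connected, `P` saturated over `O`,
`q = circleMap 0 τ θ` and `ball q η ∩ ball 0 τ ⊆ O`. Shrink `η` so that the points of
`ball q η ∩ sphere 0 τ` have angles in `(θ₁, θ₂)`, and `η < τ`. By `IsSat.dense_two` there is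
`w ∈ Two g P ∩ ball q η` (in `O`, so `w ≠ q`); a generic circle around `q` with radius
`η' < η` close to `‖w - q‖` meets the open set `Two g P` at `circleMap q η' φ₀`. Let `φ₁` be the
first time after `φ₀` with `‖circleMap q η' φ‖ = τ` (there is one before `φ₀ + 2 π`). The two
lifts stay in `P` on `[φ₀, φ₁)` and are different at `φ₁` (`lift_unique`). -/
theorem IsSat.two_on_circle (hg : Ent g) {O P : Set ℂ} (hO : IsOpen O) (hOc : IsPreconnected O)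
    (hP : IsSat g O P) (hne : (Two g P).Nonempty) {τ θ θ₁ θ₂ η : ℝ} (hτ : 0 < τ)
    (hOτ : O ⊆ ball 0 τ) (h₁ : θ₁ < θ) (h₂ : θ < θ₂) (hη : 0 < η)
    (hq : ball (circleMap 0 τ θ) η ∩ ball 0 τ ⊆ O) :
    ∃ s ∈ Ioo θ₁ θ₂, ∃ e ∈ closure P, ∃ e' ∈ closure P, e ≠ e' ∧ g e = circleMap 0 τ s ∧
      g e' = circleMap 0 τ s := by
  set q := circleMap 0 τ θ with hqdef
  have hqn : ‖q‖ = τ := by rw [hqdef, norm_circleMap_zero, abs_of_pos hτ]
  obtain ⟨η₁, hη₁, hang⟩ := w3_near_angle hτ h₁ h₂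
  set η' := min η η₁ with hη'
  have hη'0 : 0 < η' := lt_min hη hη₁
  have hq' : ball q η' ∩ ball 0 τ ⊆ O :=
    (inter_subset_inter_left _ (ball_subset_ball (min_le_left _ _))).trans hq
  have hTO : Two g P ⊆ O := by
    rintro w ⟨p, hp, -, -, -, rfl, -⟩
    exact hP.maps hp
  -- a point of `Two g P` near `q`
  have hqc : q ∈ closure (ball (0 : ℂ) τ) := by
    rw [closure_ball _ hτ.ne']; simp [hqn]
  obtain ⟨w₀, hw₀b, hw₀⟩ : (ball q η' ∩ ball 0 τ).Nonempty :=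
    mem_closure_iff.1 hqc _ isOpen_ball (mem_ball_self hη'0)
  obtain ⟨w, hwb, hwT⟩ : (ball q η' ∩ Two g P).Nonempty :=
    mem_closure_iff.1 (hP.dense_two hg hO hOc hne (hq' ⟨hw₀b, hw₀⟩)) _ isOpen_ball hw₀b
  have hwq : w ≠ q := by
    rintro rfl
    have := hOτ (hTO hwT)
    simp [hqn] at this
  obtain ⟨ε, hε, hεT⟩ := Metric.isOpen_iff.1 (hg.isOpen_two hP.opn) w hwT
  have hd0 : 0 < ‖w - q‖ := norm_pos_iff.2 (sub_ne_zero.2 hwq)
  have hdη : ‖w - q‖ < η' := by simpa [dist_eq_norm] using hwb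
  obtain ⟨r, hr, hG⟩ := hg.exists_gen q hd0 (lt_min hdη (lt_add_of_pos_right _ hε))
  have hr0 : 0 < r := hG.1
  have hrη : r < η' := hr.2.trans_le (min_le_left _ _)
  have hrε : r < ‖w - q‖ + ε := hr.2.trans_le (min_le_right _ _)
  obtain ⟨φ₀, -, hφ₀⟩ := w3_angle (c := q) (w := w) rfl 0
  have hw' : circleMap q r φ₀ ∈ Two g P := by
    apply hεT
    rw [mem_ball, dist_eq_norm]
    nth_rewrite 1 [← hφ₀]
    have : circleMap q r φ₀ - circleMap q ‖w - q‖ φ₀ = circleMap 0 (r - ‖w - q‖) φ₀ := by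
      simp only [circleMap]; push_cast; ring
    rw [this, norm_circleMap_zero, abs_of_pos (by linarith [hr.1])]
    linarith
  obtain ⟨p, hp, p', hp', hpp', hgp, hgp'⟩ := hw'
  obtain ⟨β, hβ, hβ0⟩ := hG.2.2 p φ₀ hgp
  obtain ⟨β', hβ', hβ'0⟩ := hG.2.2 p' φ₀ hgp'
  -- first time outside the disc
  have hcl : IsClosed {φ : ℝ | τ ≤ ‖circleMap q r φ‖} :=
    isClosed_le continuous_const (continuous_circleMap q r).norm
  have hex : (Icc φ₀ (φ₀ + 2 * Real.pi) ∩ {φ : ℝ | τ ≤ ‖circleMap q r φ‖}).Nonempty := by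
    obtain ⟨φ, hφ, he⟩ := w3_angle (c := q) (w := circleMap 0 (τ + r) θ) (τ := r) (by
      have : circleMap 0 (τ + r) θ - q = circleMap 0 r θ := by
        simp only [hqdef, circleMap]; push_cast; ring
      rw [this, norm_circleMap_zero, abs_of_pos hr0]) φ₀
    refine ⟨φ, ⟨hφ.1.le, hφ.2⟩, ?_⟩
    show τ ≤ ‖circleMap q r φ‖
    rw [he, norm_circleMap_zero, abs_of_pos (by linarith)]
    linarith
  obtain ⟨φ₁, ⟨hφ₁, hφ₁τ⟩, hmin⟩ := (isCompact_Icc.inter_right hcl).exists_isLeast hex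
  have hlt : ∀ φ ∈ Ico φ₀ φ₁, ‖circleMap q r φ‖ < τ := by
    intro φ hφ
    by_contra h
    exact absurd (hmin ⟨⟨hφ.1, hφ.2.le.trans hφ₁.2⟩, not_lt.1 h⟩) (not_le.2 hφ.2)
  have hφ₀₁ : φ₀ < φ₁ := by
    refine lt_of_le_of_ne hφ₁.1 ?_
    rintro rfl
    have h1 : g p ∈ ball (0 : ℂ) τ := hOτ (hP.maps hp)
    rw [hgp, mem_ball_zero_iff] at h1
    exact absurd hφ₁τ (not_le.2 h1)
  have hball : ∀ φ, circleMap q r φ ∈ ball q η' := fun φ => by
    rw [mem_ball, dist_eq_norm, circleMap_sub_center, norm_circleMap_zero, abs_of_pos hr0]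
    exact hrη
  have hφ₁c : φ₁ ∈ closure (Ico φ₀ φ₁) := by
    rw [closure_Ico hφ₀₁.ne]; exact right_mem_Icc.2 hφ₀₁.le
  have heq : ‖circleMap q r φ₁‖ = τ := by
    refine le_antisymm ?_ hφ₁τ
    have hc : IsClosed {φ : ℝ | ‖circleMap q r φ‖ ≤ τ} :=
      isClosed_le (continuous_circleMap q r).norm continuous_const
    exact closure_minimal (fun φ hφ => (hlt φ hφ).le) hc hφ₁c
  have hsub : Icc φ₀ φ₁ ⊆ Icc (φ₀ - 2 * Real.pi) (φ₀ + 2 * Real.pi) :=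
    Icc_subset_Icc (by linarith [Real.pi_pos]) hφ₁.2
  have key : ∀ (γ : ℝ → ℂ), IsArcLift g q r γ (φ₀ - 2 * Real.pi) (φ₀ + 2 * Real.pi) →
      γ φ₀ ∈ P → γ φ₁ ∈ closure P := by
    intro γ hγ hγ0
    have hcont : ContinuousOn γ (Ico φ₀ φ₁) := hγ.1.mono (Ico_subset_Icc_self.trans hsub)
    have hPP : γ '' Ico φ₀ φ₁ ⊆ P := by
      refine hP.sat _ (isPreconnected_Ico.image γ hcont) ?_
        ⟨γ φ₀, mem_image_of_mem _ ⟨le_rfl, hφ₀₁⟩, hγ0⟩
      rintro _ ⟨φ, hφ, rfl⟩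
      show g (γ φ) ∈ O
      rw [hγ.2 φ (hsub (Ico_subset_Icc_self hφ))]
      exact hq' ⟨hball φ, mem_ball_zero_iff.2 (hlt φ hφ)⟩
    refine closure_mono hPP ?_
    have hcw : ContinuousWithinAt γ (Ico φ₀ φ₁) φ₁ :=
      (hγ.1 φ₁ (hsub (right_mem_Icc.2 hφ₀₁.le))).mono (Ico_subset_Icc_self.trans hsub)
    exact hcw.mem_closure_image hφ₁c
  obtain ⟨s, hs, hse⟩ := hang (circleMap q r φ₁)
    (ball_subset_ball (min_le_right _ _) (hball φ₁)) heq
  have hφ₁m := hsub (right_mem_Icc.2 hφ₀₁.le)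
  refine ⟨s, hs, β φ₁, key β hβ (hβ0 ▸ hp), β' φ₁, key β' hβ' (hβ'0 ▸ hp'), ?_,
    by rw [hβ.2 φ₁ hφ₁m, hse], by rw [hβ'.2 φ₁ hφ₁m, hse]⟩
  intro he
  have hEq := lift_unique hg.diff isPreconnected_Icc hβ.1 hβ'.1
    (fun s hs => by rw [hβ.2 s hs, hβ'.2 s hs])
    (fun s hs => hG.2.1 _ (hβ.norm_eq hr0.le hs)) hφ₁m he
  have := hEq (hsub (left_mem_Icc.2 hφ₀₁.le))
  rw [hβ0, hβ'0] at this
  exact hpp' this

/-- A non-injective map `g : U → V` onto an unbounded domain forces `Uᶜ` to be disconnected.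
Let `κ` be a path in `U` from `z` to `z'`, `τ` generic for the centre `0`, `τ ≥ τ₀`, `‖g‖ < τ`
on `κ`. `O` is the component of `g z` in `V ∩ ball 0 τ`, and `P` the component of `z` in
`g⁻¹ V ∩ {‖g - 0‖ < τ}`, which is also its component in `g⁻¹ O`; `z' ∈ P ⊆ U`.
`exists_last_exit` with `F = closure O`, `A = Vᶜ`, a path in `V` from `g z` to `Z` (`hfar τ`)
gives `q ∈ closure O ∩ V ∩ closure (Out (closure O ∪ Vᶜ))`; `q ∉ O`, so `‖q‖ = τ`,
`q = circleMap 0 τ θ`. Take the maximal arc `(θ₁, θ₂)`; it lies in `closure O` (`inner_adj` for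
the identity map, `Ω = V`). A small `ball q η ⊆ V` has `ball q η ∩ ball 0 τ ⊆ O` (convex), so
its points outside `closure O` have modulus `> τ`. `two_on_circle` gives `s, e, e'`; both are
in `U`. Let `c, c'` be the lifts of the circle through `e, e'` on `[θ₁, θ₂]`; on `(θ₁, θ₂)` they
lie in `U` and in `closure P` (`inner_adj` with `Ω = g⁻¹ V`), the end points of `c` are not in
`U`, and `c' θ ∉ c '' [θ₁, θ₂]`. Let `K = Uᶜ ∪ c '' [θ₁, θ₂]` (closed). A point of `U` mapped into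
`Out (closure O ∪ Vᶜ)` is in `Out K` (`Ent.uc_preimage`, saturation; the end points of the arc
are in `Vᶜ`). So every point of `U` over `q` is in `closure (Out K ∩ {τ < ‖g‖})`. Hence
`c' θ ∈ Out K`, so `P ⊆ Out K`, and `jump_level` at `c θ` with `Λ = Uᶜ` is absurd. -/
theorem IsSat.w3 (hg : Ent g) {U V : Set ℂ} (hV : IsOpen V) (hVc : IsPreconnected V)
    (hU : IsSat g V U) (hUc : IsPreconnected U) (hUc' : IsPreconnected Uᶜ)
    (hfar : ∀ τ : ℝ, ∃ Z, UC Z ∧ Z ⊆ V ∧ ∀ w ∈ Z, τ < ‖w‖)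
    (hmiss : ∃ τ₀ : ℝ, ∀ τ, τ₀ ≤ τ → ∃ w ∉ V, ‖w‖ = τ) : InjOn g U := by
  intro z hz z' hz' hzz'
  by_contra hne
  obtain ⟨τ₀, hmiss⟩ := hmiss
  obtain ⟨κ, hκ, hκ0, hκ1, hκU⟩ := exists_path_of_isOpen hU.opn hUc hz hz'
  obtain ⟨B, hB⟩ := (isCompact_Icc.image (hg.continuous.comp hκ) :
    IsCompact ((g ∘ κ) '' Icc (0 : ℝ) 1)).isBounded.exists_norm_le
  set a := max (max B τ₀) 1 with ha
  have ha0 : 0 < a := lt_of_lt_of_le one_pos (le_max_right _ _)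
  obtain ⟨τ, hτI, hG⟩ := hg.exists_gen 0 ha0 (lt_add_one a)
  have hτ : 0 < τ := hG.1
  have hBτ : B < τ := ((le_max_left _ _).trans (le_max_left _ _)).trans_lt hτI.1
  have hτ₀ : τ₀ ≤ τ := (((le_max_right _ _).trans (le_max_left _ _)).trans_lt hτI.1).le
  have hκτ : ∀ t ∈ Icc (0 : ℝ) 1, ‖g (κ t) - 0‖ < τ := fun t ht => by
    rw [sub_zero]; exact (hB _ (mem_image_of_mem _ ht)).trans_lt hBτ
  set O := connectedComponentIn (V ∩ {w | ‖w - 0‖ < τ}) (g z) with hOdef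
  set P := connectedComponentIn (g ⁻¹' V ∩ {w | ‖g w - 0‖ < τ}) z with hPdef
  have hlev : IsOpen {w : ℂ | ‖w - 0‖ < τ} := isOpen_lt (by fun_prop) continuous_const
  have hglev : IsOpen {w : ℂ | ‖g w - 0‖ < τ} := hlev.preimage hg.continuous
  have hgV : IsOpen (g ⁻¹' V) := hV.preimage hg.continuous
  have hzm : z ∈ g ⁻¹' V ∩ {w | ‖g w - 0‖ < τ} :=
    ⟨hU.maps hz, by simpa [hκ0] using hκτ 0 (left_mem_Icc.2 zero_le_one)⟩
  have hO : IsOpen O := (hV.inter hlev).connectedComponentIn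
  have hOc : IsPreconnected O := isPreconnected_connectedComponentIn
  have hOsub : O ⊆ V ∩ {w | ‖w - 0‖ < τ} := connectedComponentIn_subset _ _
  have hOτ : O ⊆ ball 0 τ := fun w hw => by simpa using (hOsub hw).2
  have hgzO : g z ∈ O := mem_connectedComponentIn hzm
  have hPo : IsOpen P := (hgV.inter hglev).connectedComponentIn
  have hPc : IsPreconnected P := isPreconnected_connectedComponentIn
  have hPsub : P ⊆ g ⁻¹' V ∩ {w | ‖g w - 0‖ < τ} := connectedComponentIn_subset _ _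
  have hzP : z ∈ P := mem_connectedComponentIn hzm
  have hz'P : z' ∈ P := by
    have h1 : κ '' Icc (0 : ℝ) 1 ⊆ P :=
      (isPreconnected_Icc.image κ hκ.continuousOn).subset_connectedComponentIn
        ⟨0, left_mem_Icc.2 zero_le_one, hκ0⟩ (by
          rintro _ ⟨t, ht, rfl⟩
          exact ⟨hU.maps (hκU t), hκτ t ht⟩)
    exact h1 ⟨1, right_mem_Icc.2 zero_le_one, hκ1⟩
  have hPU : P ⊆ U := hU.sat P hPc (fun w hw => (hPsub hw).1) ⟨z, hzP, hz⟩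
  have hPsat : IsSat g O P := by
    refine ⟨hPo, ?_, ?_⟩
    · have h1 : g '' P ⊆ O :=
        (hPc.image g hg.continuous.continuousOn).subset_connectedComponentIn
          (mem_image_of_mem _ hzP) (by rintro _ ⟨w, hw, rfl⟩; exact hPsub hw)
      exact fun w hw => h1 (mem_image_of_mem _ hw)
    · rintro Q hQ hQO ⟨w, hwQ, hwP⟩
      rw [hPdef, connectedComponentIn_eq hwP]
      exact hQ.subset_connectedComponentIn hwQ fun x hx => hOsub (hQO hx)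
  have hclO : closure O ⊆ closedBall 0 τ :=
    closure_minimal (hOτ.trans ball_subset_closedBall) isClosed_closedBall
  -- the last exit point
  obtain ⟨Z, hZ, hZV, hZτ⟩ := hfar τ
  obtain ⟨ζ, hζ⟩ := hZ.nonempty
  obtain ⟨p, hp, hp0, hp1, hpV⟩ := exists_path_of_isOpen hV hVc (hU.maps hz) (hZV hζ)
  obtain ⟨q, hqO, hqV, hqout⟩ := exists_last_exit (F := closure O) (A := Vᶜ) isClosed_closure hZ
    (disjoint_left.2 fun w hw hw' => by
      rcases hw' with h | h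
      · exact absurd (hZτ w hw) (not_lt.2 (mem_closedBall_zero_iff.1 (hclO h)))
      · exact h (hZV hw)) hp (hp0 ▸ subset_closure hgzO) (hp1 ▸ hζ) (fun t h => h (hpV t))
  replace hqV : q ∈ V := not_not.1 hqV
  have hqnO : q ∉ O := fun h => by
    obtain ⟨w, hwO, hw⟩ := mem_closure_iff.1 hqout O hO h
    exact notMem_of_mem_Out hw (Or.inl (subset_closure hwO))
  have hqτ : ‖q‖ = τ := by
    refine le_antisymm (mem_closedBall_zero_iff.1 (hclO hqO)) (not_lt.1 fun h => hqnO ?_)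
    exact mem_comp_of_mem_closure ⟨hqV, by simpa using h⟩ hqO
  obtain ⟨θ, -, hθ⟩ := w3_angle (c := 0) (w := q) (τ := τ) (by simpa using hqτ) 0
  obtain ⟨θ₁, θ₂, h₁, h₂, h₁₂, h₁V, h₂V, harc⟩ :=
    exists_max_arc hV hτ (hθ ▸ hqV) (hmiss τ hτ₀)
  have hθm : θ ∈ Ioo θ₁ θ₂ := ⟨h₁, h₂⟩
  have harcO : ∀ s ∈ Ioo θ₁ θ₂, circleMap 0 τ s ∈ closure O := fun s hs =>
    inner_adj (g := fun z => z) differentiable_id hτ isPreconnected_Ioo
      (continuous_circleMap 0 τ).continuousOn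
      (fun s _ => by rw [sub_zero, norm_circleMap_zero, abs_of_pos hτ]) (fun s _ => by simp) hV harc
      hθm hs (hθ ▸ hqO)
  obtain ⟨η, hη, hηV⟩ := Metric.isOpen_iff.1 hV q hqV
  have hηO : ball q η ∩ ball 0 τ ⊆ O := by
    obtain ⟨w, hw, hwO⟩ := mem_closure_iff.1 hqO _ isOpen_ball (mem_ball_self hη)
    rw [hOdef, connectedComponentIn_eq hwO]
    exact ((convex_ball q η).inter (convex_ball 0 τ)).isPreconnected.subset_connectedComponentIn
      ⟨hw, hOτ hwO⟩ fun x hx => ⟨hηV hx.1, by simpa using hx.2⟩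
  have hout : ∀ w ∈ ball q η, w ∉ closure O → τ < ‖w‖ := by
    intro w hw hwO
    by_contra h
    apply hwO
    have h1 : w ∈ closure (ball (0 : ℂ) τ) := by
      rw [closure_ball _ hτ.ne']; exact mem_closedBall_zero_iff.2 (not_lt.1 h)
    exact closure_mono hηO (isOpen_ball.inter_closure ⟨hw, h1⟩)
  obtain ⟨s, hs, e, he, e', he', hee', hge, hge'⟩ := hPsat.two_on_circle hg hO hOc
    ⟨g z, z, hzP, z', hz'P, hne, rfl, hzz'.symm⟩ hτ hOτ h₁ h₂ hη (hθ ▸ hηO)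
  -- lifts of the arc
  have hsub : Icc θ₁ θ₂ ⊆ Icc (s - 2 * Real.pi) (s + 2 * Real.pi) :=
    Icc_subset_Icc (by linarith [hs.2]) (by linarith [hs.1])
  have hclU : ∀ x ∈ closure P, g x ∈ V → x ∈ U := by
    intro x hx hxV
    obtain ⟨r, hr, hb⟩ := Metric.isOpen_iff.1 hgV x hxV
    obtain ⟨w, hw, hwP⟩ := mem_closure_iff.1 hx _ isOpen_ball (mem_ball_self hr)
    exact hU.sat _ (convex_ball x r).isPreconnected hb ⟨w, hw, hPU hwP⟩ (mem_ball_self hr)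
  have key : ∀ x ∈ closure P, g x = circleMap 0 τ s → ∃ c : ℝ → ℂ, IsArcLift g 0 τ c θ₁ θ₂ ∧
      c s = x ∧ ∀ t ∈ Ioo θ₁ θ₂, c t ∈ closure P := by
    intro x hx hgx
    obtain ⟨c, hc, hcs⟩ := hG.2.2 x s hgx
    have hc' : IsArcLift g 0 τ c θ₁ θ₂ := hc.mono (by linarith [hs.2]) (by linarith [hs.1])
    refine ⟨c, hc', hcs, fun t ht => ?_⟩
    exact inner_adj hg.diff hτ isPreconnected_Ioo (hc'.1.mono Ioo_subset_Icc_self)
      (fun t ht => hc'.norm_eq hτ.le (Ioo_subset_Icc_self ht))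
      (fun t ht => hG.2.1 _ (hc'.norm_eq hτ.le (Ioo_subset_Icc_self ht))) hgV
      (fun t ht => by
        show g (c t) ∈ V
        rw [hc'.2 t (Ioo_subset_Icc_self ht)]; exact harc t ht) hs ht (hcs ▸ hx)
  obtain ⟨c, hc, hcs, hcP⟩ := key e he hge
  obtain ⟨c', hc', hc's, hc'P⟩ := key e' he' hge'
  have hθm' : θ ∈ Icc θ₁ θ₂ := Ioo_subset_Icc_self hθm
  have hang : ∀ t ∈ Icc θ₁ θ₂, circleMap 0 τ t = circleMap 0 τ θ → t = θ := by
    intro t ht h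
    refine eq_of_circleMap_eq hτ.ne' ?_ h
    rw [abs_lt]; constructor <;> linarith [ht.1, ht.2]
  set K := Uᶜ ∪ c '' Icc θ₁ θ₂ with hK
  have hKc : IsClosed K :=
    hU.opn.isClosed_compl.union (isCompact_Icc.image_of_continuousOn hc.1).isClosed
  have hacc : ∀ x ∈ U, g x = q → x ∈ closure (Out K ∩ {z | τ < ‖g z - 0‖}) := by
    intro x hxU hgx
    have h1 : g x ∈ closure (ball q η ∩ Out (closure O ∪ Vᶜ)) :=
      isOpen_ball.inter_closure ⟨hgx ▸ mem_ball_self hη, hgx ▸ hqout⟩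
    have h2 := hU.opn.inter_closure ⟨hxU, hg.mem_closure_preimage h1⟩
    refine closure_mono ?_ h2
    rintro w ⟨hwU, hwb, E, hE, hwE, hEd⟩
    refine ⟨⟨_, hg.uc_preimage hE hwE, mem_connectedComponentIn hwE, ?_⟩, ?_⟩
    · have hsub' : connectedComponentIn (g ⁻¹' E) w ⊆ g ⁻¹' E := connectedComponentIn_subset _ _
      have hEV : E ⊆ V := fun y hy => not_not.1 fun h => disjoint_left.1 hEd hy (Or.inr h)
      have hQU : connectedComponentIn (g ⁻¹' E) w ⊆ U :=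
        hU.sat _ isPreconnected_connectedComponentIn (fun y hy => hEV (hsub' hy))
          ⟨w, mem_connectedComponentIn hwE, hwU⟩
      refine disjoint_left.2 fun y hy hyK => ?_
      rcases hyK with h | ⟨t, ht, rfl⟩
      · exact h (hQU hy)
      · have hyE : g (c t) ∈ E := hsub' hy
        rw [hc.2 t ht] at hyE
        rcases eq_or_lt_of_le ht.1 with h | h
        · exact h₁V (hEV (h ▸ hyE))
        rcases eq_or_lt_of_le ht.2 with h' | h'
        · exact h₂V (hEV (h' ▸ hyE))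
        exact disjoint_left.1 hEd hyE (Or.inl (harcO t ⟨h, h'⟩))
    · show τ < ‖g w - 0‖
      rw [sub_zero]
      exact hout _ hwb fun h => disjoint_left.1 hEd hwE (Or.inl h)
  have hcq : g (c θ) = q := by rw [hc.2 θ hθm', hθ]
  have hc'q : g (c' θ) = q := by rw [hc'.2 θ hθm', hθ]
  have hcU : c θ ∈ U := hclU _ (hcP θ hθm) (hcq ▸ hqV)
  have hc'U : c' θ ∈ U := hclU _ (hc'P θ hθm) (hc'q ▸ hqV)
  have hc'K : c' θ ∉ K := by
    rintro (h | ⟨t, ht, h⟩)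
    · exact h hc'U
    · have : t = θ := hang t ht (by rw [← hc.2 t ht, h, hc'.2 θ hθm'])
      subst this
      have hEq := lift_unique hg.diff isPreconnected_Icc hc.1 hc'.1
        (fun s hs => by rw [hc.2 s hs, hc'.2 s hs])
        (fun s hs => hG.2.1 _ (hc.norm_eq hτ.le hs)) ht h
      have := hEq (Ioo_subset_Icc_self hs)
      rw [hcs, hc's] at this
      exact hee' this
  have hc'out : c' θ ∈ Out K :=
    mem_Out_of_mem_closure hKc hc'K (closure_mono inter_subset_left (hacc _ hc'U hc'q))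
  have hPK : Disjoint P K := by
    refine disjoint_left.2 fun y hy hyK => ?_
    rcases hyK with h | ⟨t, ht, rfl⟩
    · exact h (hPU hy)
    · exact absurd (hPsub hy).2 (not_lt.2 (hc.norm_eq hτ.le ht).ge)
  have hPout : P ⊆ Out K := by
    obtain ⟨w, hw, hwP⟩ := mem_closure_iff.1 (hc'P θ hθm) _ (isOpen_Out hKc) hc'out
    exact subset_Out hKc hPc hPK ⟨w, hwP, subset_closure hw⟩
  refine jump_level hg.diff hτ h₁ h₂ hc (hG.2.1 _ (hc.norm_eq hτ.le hθm'))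
    (fun t ht h => hang t ht (by rw [← hc.2 t ht, h, hc.2 θ hθm'])) hUc'
    (fun h => h₁V ?_) (fun h => h₂V ?_) ?_ ?_ (hacc _ hcU hcq)
  · rw [← hc.2 θ₁ (left_mem_Icc.2 (h₁.trans h₂).le)]; exact hU.maps h
  · rw [← hc.2 θ₂ (right_mem_Icc.2 (h₁.trans h₂).le)]; exact hU.maps h
  · rw [hU.opn.isClosed_compl.closure_eq]; exact fun h => h hcU
  · exact closure_mono (subset_inter hPout fun w hw => (hPsub hw).2) (hcP θ hθm)

end Pool.Agent.Lib.MP_dbd176_an
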