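import Pool.Agent.Lib.MP_dbd176_an.Bar
import Pool.Agent.Lib.MP_dbd176_an.MaxMod

open Set Metric Filter Topology

namespace Pool.Agent.Lib.MP_dbd176_an

/-- The finite stage. `g i` are entire, `ρ i = S 2 ^ (r i)`, and `W` is the component of `ζ` in
the open set `O = {z ∈ U | ‖z - a‖ < d, ρ i < ‖g i z - a'‖ for i ∈ s}`. Suppose `closure W`
misses `frontier U`, so the compact set `closure W` lies in `U`. Let
`K₀ = closure W ∩ sphere a d` and `K i = g i '' (closure W ∩ {‖g i - a'‖ = ρ i})`. Use `barrier`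
once with `Z = Uᶜ`, `ε = -1`, the single set `K₀`, and for each value `t` of `r` with `Z`,
`ε = 1`, radius `S 2 ^ t` and the family `K i`, `r i = t` (disjoint by `hdis`). Put
`h z = b₀ z + ∑ i ∈ s, b i (g i z)`: differentiable at each point of `closure W` (for `z = a`
note `a ∉ U`), real part `≥ 1` on `frontier W` (which misses `O`, `disjoint_frontier_comp`), and
`Re h ζ ≤ 1 / 5 + ∑ t, 20 / (100 * 2 ^ t) ≤ 3 / 5`. The maximum principle for `exp (- h)`
(`Complex.norm_le_of_forall_mem_frontier_norm_le`) gives a contradiction. -/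
theorem wl_stage {U Z : Set ℂ} (hU : IsOpen U) (hUc : UC Uᶜ) (hZ : UC Z) {a a' ζ : ℂ}
    (ha : a ∉ U) (ha' : a' ∈ Z) (hζ : ζ ∈ U) {d S : ℝ} (hS : 0 < S)
    (hd : Real.exp 100 * ‖ζ - a‖ ≤ d) (s : Finset ℕ) {g : ℕ → ℂ → ℂ}
    (hg : ∀ i, Differentiable ℂ (g i)) (hgZ : ∀ i, ∀ z ∈ U, g i z ∉ Z) (r : ℕ → ℕ)
    (hfar : ∀ i ∈ s, Real.exp (100 * 2 ^ r i) * (S * 2 ^ r i) ≤ ‖g i ζ - a'‖)
    (hdis : ∀ i ∈ s, ∀ j ∈ s, i ≠ j → ∀ z ∈ U, ∀ z' ∈ U, ‖z - a‖ ≤ d → ‖z' - a‖ ≤ d →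
      (∀ k ∈ s, S * 2 ^ r k ≤ ‖g k z - a'‖) → (∀ k ∈ s, S * 2 ^ r k ≤ ‖g k z' - a'‖) →
      g i z ≠ g j z') :
    (closure (connectedComponentIn
      {z | z ∈ U ∧ ‖z - a‖ < d ∧ ∀ i ∈ s, S * 2 ^ r i < ‖g i z - a'‖} ζ) ∩ frontier U).Nonempty := by
  classical
  set O : Set ℂ := {z | z ∈ U ∧ ‖z - a‖ < d ∧ ∀ i ∈ s, S * 2 ^ r i < ‖g i z - a'‖} with hO
  have hgc : ∀ i, Continuous fun z => ‖g i z - a'‖ := fun i =>
    ((hg i).continuous.sub continuous_const).norm
  have hOo : IsOpen O := by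
    have h1 : O = U ∩ ({z | ‖z - a‖ < d} ∩ ⋂ i ∈ s, {z | S * 2 ^ r i < ‖g i z - a'‖}) := by
      ext z; simp only [hO, mem_inter_iff, mem_iInter, mem_ofPred_eq]
    rw [h1]
    exact hU.inter ((isOpen_lt (by fun_prop) continuous_const).inter
      (isOpen_biInter_finset fun i _ => isOpen_lt continuous_const (hgc i)))
  have hζa : 0 < ‖ζ - a‖ := norm_pos_iff.2 (sub_ne_zero.2 fun h => ha (h ▸ hζ))
  have hexp : ∀ x : ℝ, 0 < x → 1 < Real.exp x := fun x hx => Real.one_lt_exp_iff.2 hx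
  have hζd : ‖ζ - a‖ < d := lt_of_lt_of_le (lt_mul_of_one_lt_left hζa (hexp _ (by norm_num))) hd
  have hd0 : 0 < d := hζa.trans hζd
  have hρ : ∀ t : ℕ, 0 < S * 2 ^ t := fun t => by positivity
  have hζO : ζ ∈ O := ⟨hζ, hζd, fun i hi =>
    lt_of_lt_of_le (lt_mul_of_one_lt_left (hρ _) (hexp _ (by positivity))) (hfar i hi)⟩
  set W := connectedComponentIn O ζ with hW
  have hWO : W ⊆ O := connectedComponentIn_subset O ζ
  by_contra hne
  have hCU : closure W ⊆ U := by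
    intro z hz
    have h1 : z ∈ closure U := closure_mono (fun w hw => (hWO hw).1) hz
    rw [closure_eq_self_union_frontier] at h1
    exact h1.resolve_right fun h => hne ⟨z, hz, h⟩
  have hCd : ∀ z ∈ closure W, ‖z - a‖ ≤ d := fun z hz =>
    closure_minimal (t := {z | ‖z - a‖ ≤ d}) (fun w hw => (hWO hw).2.1.le)
      (isClosed_le (by fun_prop) continuous_const) hz
  have hCρ : ∀ z ∈ closure W, ∀ i ∈ s, S * 2 ^ r i ≤ ‖g i z - a'‖ := fun z hz i hi =>
    closure_minimal (t := {z | S * 2 ^ r i ≤ ‖g i z - a'‖}) (fun w hw => ((hWO hw).2.2 i hi).le)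
      (isClosed_le continuous_const (hgc i)) hz
  have hWb : Bornology.IsBounded W :=
    (isBounded_ball (x := a) (r := d)).subset fun w hw => by
      rw [mem_ball_iff_norm]; exact (hWO hw).2.1
  have hC : IsCompact (closure W) := hWb.isCompact_closure
  obtain ⟨b₀, ω₀, -, hω₀, hb₀⟩ := barrier hUc (a := a) ha hd0 (ε := -1) (Or.inr rfl)
    ({()} : Finset Unit) (fun _ => closure W ∩ sphere a d)
    (fun _ _ => ⟨hC.inter_right isClosed_sphere, inter_subset_right,
      disjoint_left.2 fun z hz h => h (hCU hz.1)⟩) (fun _ _ _ _ h => absurd rfl h)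
  obtain ⟨hb₁, hb₂, hb₃⟩ := hb₀ () (Finset.mem_singleton_self _)
  rw [Finset.sum_singleton] at hω₀
  let K : ℕ → Set ℂ := fun i => g i '' (closure W ∩ {z | ‖g i z - a'‖ = S * 2 ^ r i})
  have hbar := fun t : ℕ => barrier hZ ha' (hρ t) (ε := 1) (Or.inl rfl)
    (s.filter fun i => r i = t) K
    (fun i hi => ⟨(hC.inter_right (isClosed_eq (hgc i) continuous_const)).image
      (hg i).continuous, by
        rintro _ ⟨z, hz, rfl⟩
        rw [mem_sphere_iff_norm, ← (Finset.mem_filter.1 hi).2]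
        exact hz.2, disjoint_left.2 (by
        rintro _ ⟨z, hz, rfl⟩
        exact hgZ i z (hCU hz.1))⟩)
    (fun i hi j hj hij => disjoint_left.2 (by
      rintro _ ⟨z, hz, rfl⟩ ⟨z', hz', h⟩
      exact hdis i (Finset.mem_filter.1 hi).1 j (Finset.mem_filter.1 hj).1 hij z (hCU hz.1) z'
        (hCU hz'.1) (hCd z hz.1) (hCd z' hz'.1) (hCρ z hz.1) (hCρ z' hz'.1) h.symm))
  choose b ω hω0 hω hb using hbar
  have hmem : ∀ i ∈ s, i ∈ s.filter fun j => r j = r i := fun i hi => Finset.mem_filter.2 ⟨hi, rfl⟩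
  have h0 : ∀ z ∈ closure W, DifferentiableAt ℂ (b₀ ()) z ∧ 0 ≤ (b₀ () z).re := by
    intro z hz
    refine hb₁ z (fun h => h (hCU hz)) ?_
    have := Real.log_nonpos (div_nonneg (norm_nonneg (z - a)) hd0.le)
      ((div_le_one hd0).2 (hCd z hz))
    linarith
  have h1 : ∀ z ∈ closure W, ∀ i ∈ s,
      DifferentiableAt ℂ (b (r i) i) (g i z) ∧ 0 ≤ (b (r i) i (g i z)).re := by
    intro z hz i hi
    refine (hb (r i) i (hmem i hi)).1 _ (hgZ i z (hCU hz)) ?_
    rw [one_mul]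
    exact Real.log_nonneg ((one_le_div (hρ _)).2 (hCρ z hz i hi))
  let h : ℂ → ℂ := fun z => b₀ () z + ∑ i ∈ s, b (r i) i (g i z)
  have hre : ∀ z, (h z).re = (b₀ () z).re + ∑ i ∈ s, (b (r i) i (g i z)).re := by
    intro z; simp [h]
  have hdiff : DifferentiableOn ℂ (fun z => Complex.exp (- h z)) (closure W) := by
    intro z hz
    refine DifferentiableAt.differentiableWithinAt (DifferentiableAt.cexp (DifferentiableAt.neg ?_))
    exact (h0 z hz).1.add (DifferentiableAt.fun_sum fun i hi => (h1 z hz i hi).1.comp z (hg i z))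
  have hfr : ∀ z ∈ frontier W, ‖Complex.exp (- h z)‖ ≤ Real.exp (-1) := by
    intro z hz
    have hzC : z ∈ closure W := frontier_subset_closure hz
    have hzO : z ∉ O := disjoint_left.1 (disjoint_frontier_comp hOo ζ) hz
    have h2 : 0 ≤ ∑ i ∈ s, (b (r i) i (g i z)).re := Finset.sum_nonneg fun i hi => (h1 z hzC i hi).2
    rw [Complex.norm_exp, Real.exp_le_exp, Complex.neg_re, neg_le_neg_iff, hre]
    by_cases h3 : ‖z - a‖ < d
    · obtain ⟨i, hi, h4⟩ : ∃ i ∈ s, ‖g i z - a'‖ ≤ S * 2 ^ r i := by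
        by_contra h4
        push Not at h4
        exact hzO ⟨hCU hzC, h3, h4⟩
      have h5 := (hb (r i) i (hmem i hi)).2.1 (g i z)
        ⟨z, ⟨hzC, le_antisymm h4 (hCρ z hzC i hi)⟩, rfl⟩
      have h6 := Finset.single_le_sum (f := fun i => (b (r i) i (g i z)).re)
        (fun i hi => (h1 z hzC i hi).2) hi
      have h7 := (h0 z hzC).2
      linarith
    · have h5 := hb₂ z ⟨hzC, mem_sphere_iff_norm.2 (le_antisymm (hCd z hzC) (not_lt.1 h3))⟩
      linarith
  have hmax := Complex.norm_le_of_forall_mem_frontier_norm_le hWb hdiff.diffContOnCl hfr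
    (subset_closure (mem_connectedComponentIn hζO))
  rw [Complex.norm_exp, Real.exp_le_exp, Complex.neg_re, neg_le_neg_iff, hre] at hmax
  have e0 : (b₀ () ζ).re ≤ 1 / 5 := by
    have h2 : 100 ≤ -1 * Real.log (‖ζ - a‖ / d) := by
      have h3 : Real.log (‖ζ - a‖ / d) ≤ -100 := by
        rw [Real.log_le_iff_le_exp (div_pos hζa hd0), div_le_iff₀ hd0, Real.exp_neg,
          ← div_eq_inv_mul, le_div_iff₀ (Real.exp_pos _), mul_comm]
        exact hd
      linarith
    refine (hb₃ ζ (fun h => h hζ) (by linarith)).trans ?_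
    rw [div_le_iff₀ (by linarith)]
    linarith
  have e1 : ∀ i ∈ s, (b (r i) i (g i ζ)).re ≤ ω (r i) i * ((1 / 2) ^ r i / 100) := by
    intro i hi
    have h2 : 100 * 2 ^ r i ≤ 1 * Real.log (‖g i ζ - a'‖ / (S * 2 ^ r i)) := by
      rw [one_mul, Real.le_log_iff_exp_le (div_pos ((hρ _).trans (hζO.2.2 i hi)) (hρ _)),
        le_div_iff₀ (hρ _)]
      exact hfar i hi
    have h3 : (0 : ℝ) < 100 * 2 ^ r i := by positivity
    refine ((hb (r i) i (hmem i hi)).2.2 _ (hgZ i ζ hζ) (h3.trans_le h2)).trans ?_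
    refine (div_le_div_of_nonneg_left (hω0 _ i (hmem i hi)) h3 h2).trans (le_of_eq ?_)
    rw [one_div, inv_pow]
    field_simp
  have e2 : ∑ i ∈ s, ω (r i) i * ((1 / 2) ^ r i / 100) ≤ 2 / 5 := by
    rw [← Finset.sum_fiberwise_of_maps_to (g := r) (t := s.image r)
      (fun i hi => Finset.mem_image_of_mem r hi)]
    have h2 : ∀ t ∈ s.image r, ∑ i ∈ s with r i = t, ω (r i) i * ((1 / 2) ^ r i / 100) ≤
        (1 / 5) * (1 / 2 : ℝ) ^ t := by
      intro t _
      rw [Finset.sum_congr rfl (g := fun i => ω t i * ((1 / 2) ^ t / 100))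
        (fun i hi => by rw [(Finset.mem_filter.1 hi).2]), ← Finset.sum_mul]
      have h3 : (0 : ℝ) ≤ (1 / 2) ^ t := by positivity
      nlinarith [hω t]
    refine (Finset.sum_le_sum h2).trans ?_
    rw [← Finset.mul_sum]
    have h3 := summable_geometric_two.sum_le_tsum (s.image r) (fun _ _ => by positivity)
    rw [tsum_geometric_two] at h3
    linarith
  have e3 := Finset.sum_le_sum e1
  linarith

/-- An escaping point on the boundary. Take `a ∉ U`, `a' ∈ Z`, `d = exp 100 * ‖ζ - a‖`, `S` with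
`‖f^[n] z - a'‖ < S` on `closedBall a d`. For each `t` let `N t` be such that
`exp (100 * 2 ^ t) * (S * 2 ^ t) ≤ ‖f^[k] ζ - a'‖` for `k ≥ N t`. Take `m ≥ 1` with
`N 0 ≤ n + p m`, `g i = f^[n + p * (m * i)]`, `r i = Nat.findGreatest (N · ≤ n + p m i) i → ∞`,
`s = Icc 1 N`. Disjointness for `i < j`: `H` with `k = m i` and `m (j - i)` gives
`f^[n] z = g (j - i) z'`, but the left side is within `S` of `a'` and the right side is not.
The compact sets given by `wl_stage` decrease in `N`; a common point `z` has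
`S 2 ^ (r i) ≤ ‖g i z - a'‖` for all `i ≥ 1`; use `mem_escaping_of_subseq`. -/
theorem wl {f : ℂ → ℂ} (hf : Differentiable ℂ f) {U Z : Set ℂ} (hU : IsOpen U) (hUc : UC Uᶜ)
    (hZ : UC Z) (hZU : ∀ k : ℕ, ∀ z ∈ U, f^[k] z ∉ Z) {ζ : ℂ} (hζ : ζ ∈ U) (hζI : ζ ∈ escaping f)
    {n p : ℕ} (hp : 0 < p)
    (H : ∀ k j : ℕ, 0 < j → ∀ z ∈ U, ∀ z' ∈ U, f^[n + p * k] z = f^[n + p * (k + j)] z' →
      f^[n] z = f^[n + p * j] z') :
    ∃ z ∈ frontier U, z ∈ escaping f := by
  classical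
  obtain ⟨a, ha⟩ := hUc.nonempty
  obtain ⟨a', ha'⟩ := hZ.nonempty
  set d := Real.exp 100 * ‖ζ - a‖ with hd
  have hfc : ∀ k : ℕ, Continuous fun z => ‖f^[k] z - a'‖ := fun k =>
    ((hf.continuous.iterate k).sub continuous_const).norm
  obtain ⟨S, hS, hSb⟩ : ∃ S : ℝ, 0 < S ∧ ∀ z, ‖z - a‖ ≤ d → ‖f^[n] z - a'‖ < S := by
    obtain ⟨B, hB⟩ := (isCompact_closedBall a d).bddAbove_image (hfc n).continuousOn
    refine ⟨max B 0 + 1, by positivity, fun z hz => ?_⟩
    have h1 : ‖f^[n] z - a'‖ ≤ B := hB ⟨z, mem_closedBall_iff_norm.2 hz, rfl⟩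
    linarith [le_max_left B 0]
  have hN : ∀ t : ℕ, ∃ N : ℕ, ∀ k ≥ N,
      Real.exp (100 * 2 ^ t) * (S * 2 ^ t) ≤ ‖f^[k] ζ - a'‖ := by
    intro t
    obtain ⟨N, hN⟩ := eventually_atTop.1
      (tendsto_atTop.1 hζI (Real.exp (100 * 2 ^ t) * (S * 2 ^ t) + ‖a'‖))
    refine ⟨N, fun k hk => ?_⟩
    have h1 := hN k hk
    have h2 := norm_sub_norm_le (f^[k] ζ) a'
    linarith
  choose N hN using hN
  set m := N 0 + 1 with hm
  have hm0 : 0 < m := Nat.succ_pos _
  have hle : ∀ i, i ≤ n + p * (m * i) := fun i =>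
    (Nat.le_mul_of_pos_left i hm0).trans ((Nat.le_mul_of_pos_left _ hp).trans (Nat.le_add_left _ _))
  let g : ℕ → ℂ → ℂ := fun i => f^[n + p * (m * i)]
  let r : ℕ → ℕ := fun i => Nat.findGreatest (fun t => N t ≤ n + p * (m * i)) i
  have hr : ∀ i, 1 ≤ i → N (r i) ≤ n + p * (m * i) := by
    intro i hi
    refine Nat.findGreatest_spec (P := fun t => N t ≤ n + p * (m * i)) (Nat.zero_le i) ?_
    have h1 : m ≤ m * i := Nat.le_mul_of_pos_right m hi
    have h2 : m * i ≤ p * (m * i) := Nat.le_mul_of_pos_left _ hp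
    omega
  have hr' : Tendsto r atTop atTop := by
    refine tendsto_atTop.2 fun t => ?_
    filter_upwards [eventually_ge_atTop (max t (N t))] with i hi
    exact Nat.le_findGreatest (P := fun t => N t ≤ n + p * (m * i)) ((le_max_left _ _).trans hi)
      (((le_max_right _ _).trans hi).trans (hle i))
  let O : ℕ → Set ℂ := fun M =>
    {z | z ∈ U ∧ ‖z - a‖ < d ∧ ∀ i ∈ Finset.Icc 1 M, S * 2 ^ r i < ‖g i z - a'‖}
  have key : ∀ M, ∀ i ∈ Finset.Icc 1 M, ∀ j ∈ Finset.Icc 1 M, i < j → ∀ z ∈ U, ∀ z' ∈ U,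
      ‖z - a‖ ≤ d → (∀ k ∈ Finset.Icc 1 M, S * 2 ^ r k ≤ ‖g k z' - a'‖) → g i z ≠ g j z' := by
    intro M i hi j hj hij z hz z' hz' h1 h2 h3
    obtain ⟨k, rfl⟩ := Nat.exists_eq_add_of_lt hij
    rw [Finset.mem_Icc] at hi hj
    have h4 := H (m * i) (m * (k + 1)) (by positivity) z hz z' hz' (by
      rw [← mul_add, ← add_assoc]; exact h3)
    have h5 := h2 (k + 1) (Finset.mem_Icc.2 ⟨by omega, by omega⟩)
    have h6 := hSb z h1
    rw [h4] at h6
    have h7 : S ≤ S * 2 ^ r (k + 1) := le_mul_of_one_le_right hS.le (one_le_pow₀ (by norm_num))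
    exact absurd (h7.trans h5) (not_le.2 h6)
  have hne : ∀ M, (closure (connectedComponentIn (O M) ζ) ∩ frontier U).Nonempty := fun M =>
    wl_stage hU hUc hZ ha ha' hζ hS le_rfl (Finset.Icc 1 M) (g := g)
      (fun i => hf.iterate _) (fun i => hZU _) r
      (fun i hi => hN _ _ (hr i (Finset.mem_Icc.1 hi).1))
      (fun i hi j hj hij z hz z' hz' h1 h2 h3 h4 => by
        rcases lt_or_gt_of_ne hij with h | h
        · exact key M i hi j hj h z hz z' hz' h1 h4
        · exact (key M j hj i hi h z' hz' z hz h2 h3).symm)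
  obtain ⟨z, hz⟩ := IsCompact.nonempty_iInter_of_sequence_nonempty_isCompact_isClosed
    (fun M => closure (connectedComponentIn (O M) ζ) ∩ frontier U)
    (fun M => inter_subset_inter_left _ (closure_mono (connectedComponentIn_mono ζ
      fun w hw => ⟨hw.1, hw.2.1, fun i hi => hw.2.2 i
        (Finset.Icc_subset_Icc_right (Nat.le_succ M) hi)⟩))) hne
    (IsCompact.inter_right (((isBounded_ball (x := a) (r := d)).subset fun w hw => by
      rw [mem_ball_iff_norm]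
      exact (connectedComponentIn_subset _ _ hw).2.1).isCompact_closure) isClosed_frontier)
    (fun M => isClosed_closure.inter isClosed_frontier)
  rw [mem_iInter] at hz
  refine ⟨z, (hz 0).2, mem_escaping_of_subseq hf.continuous (n := n) (L := p * m)
    (by positivity) ?_⟩
  have h1 : Tendsto (fun i => S * 2 ^ r i + -‖a'‖) atTop atTop :=
    tendsto_atTop_add_const_right _ _
      (((tendsto_pow_atTop_atTop_of_one_lt one_lt_two).comp hr').const_mul_atTop hS)
  refine tendsto_atTop_mono' _ ?_ h1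
  filter_upwards [eventually_ge_atTop 1] with i hi
  have h2 : S * 2 ^ r i ≤ ‖g i z - a'‖ :=
    closure_minimal (t := {z | S * 2 ^ r i ≤ ‖g i z - a'‖})
      (fun w hw => ((connectedComponentIn_subset _ _ hw).2.2 i (Finset.mem_Icc.2 ⟨hi, le_rfl⟩)).le)
      (isClosed_le continuous_const (hfc _)) (hz i).1
  have h3 := norm_sub_le (g i z) a'
  rw [mul_assoc]
  change _ ≤ ‖g i z‖
  linarith

end Pool.Agent.Lib.MP_dbd176_an
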