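import Pool.Agent.Lib.MP_dbd176_an.StepB
import Pool.Agent.Lib.MP_dbd176_an.WL
import Pool.Agent.Lib.MP_dbd176_an.W3

open Set Metric Filter Topology

namespace Pool.Agent.Lib.MP_dbd176_an

variable {f : ℂ → ℂ}

/-- Local uniformity off `A(f)`. Let `E` be a component of `A_R`, meeting all circles of radius
`≥ a₀`. If `ball c (2 δ)` misses `A(f)` and `p, z ∈ closedBall c δ`, then for `a ≥ a₀`, `a > 0`,
the covering lemma shows that `K a ≤ ‖f^[n] z‖` implies `a < ‖f^[n] p‖`. -/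
theorem IsTEF.unif_escape_ball (hf : IsTEF f) {R : ℝ} (hR : Big f R) {c z : ℂ} {δ : ℝ}
    (hδ : 0 < δ) (hd : Disjoint (ball c (2 * δ)) (fastEsc f R)) (hz : z ∈ closedBall c δ)
    (hzI : z ∈ escaping f) (r : ℝ) :
    ∃ N : ℕ, ∀ n, N ≤ n → ∀ p ∈ closedBall c δ, r < ‖f^[n] p‖ := by
  have he := hf.ent
  obtain ⟨K, hK, hcov⟩ := exists_cover_const
  obtain ⟨y, hy⟩ := hf.levelSet_nonempty hR.1.le
  have hE := he.uc_levelSet' hy
  set a := max (max r ‖y‖) 1 with ha
  have ha0 : 0 < a := lt_of_lt_of_le one_pos (le_max_right _ _)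
  obtain ⟨N, hN⟩ := eventually_atTop.1 (hzI.eventually_ge_atTop (K * a))
  refine ⟨N, fun n hn p hp => ?_⟩
  by_contra h
  have h1 : ‖f^[n] p - 0‖ ≤ a := by
    rw [sub_zero]; exact (not_lt.1 h).trans ((le_max_left _ _).trans (le_max_left _ _))
  obtain ⟨τ, hτ, hτc⟩ := hcov _ (he.iterate n) c 0 δ a hδ ha0 p hp z hz h1
    (by rw [sub_zero]; exact hN n hn)
  obtain ⟨v, hv, hvτ⟩ := hE.meets_sphere (c := 0) (mem_connectedComponentIn hy) (τ := τ) (by
    rw [sub_zero]; exact (((le_max_right _ _).trans (le_max_left _ _)).trans hτ.1.le))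
  obtain ⟨u, hu, huv⟩ := hτc (show v ∈ sphere (0 : ℂ) τ by simpa using hvτ)
  exact disjoint_left.1 hd hu
    (mem_fastEsc_iff.2 ⟨n, huv ▸ connectedComponentIn_subset _ _ hv⟩)

/-- A domain missing `A(f)` and meeting `I(f)` lies in `I(f)`. -/
theorem IsTEF.subset_escaping (hf : IsTEF f) {R : ℝ} (hR : Big f R) {O : Set ℂ} (hO : IsOpen O)
    (hOc : IsPreconnected O) (hd : Disjoint O (fastEsc f R)) (hne : (O ∩ escaping f).Nonempty) :
    O ⊆ escaping f := by
  obtain ⟨x, hxO, hxI⟩ := hne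
  intro y hy
  refine hOc.induction₂' (fun a b => a ∈ escaping f → b ∈ escaping f) ?_
    (fun a b c _ _ _ h₁ h₂ h => h₂ (h₁ h)) hxO hy hxI
  intro c hc
  obtain ⟨ε, hε, hb⟩ := Metric.isOpen_iff.1 hO c hc
  have hδ : 0 < ε / 2 := by linarith
  have hd' : Disjoint (ball c (2 * (ε / 2))) (fastEsc f R) := by
    rw [show 2 * (ε / 2) = ε by ring]; exact hd.mono_left hb
  have key : ∀ a ∈ closedBall c (ε / 2), ∀ b ∈ closedBall c (ε / 2), a ∈ escaping f →
      b ∈ escaping f := by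
    intro a ha b hb haI
    refine tendsto_atTop.2 fun r => ?_
    obtain ⟨N, hN⟩ := hf.unif_escape_ball hR hδ hd' ha haI r
    exact eventually_atTop.2 ⟨N, fun n hn => (hN n hn b hb).le⟩
  filter_upwards [mem_nhdsWithin_of_mem_nhds (closedBall_mem_nhds c hδ)] with b hb
  exact ⟨key c (mem_closedBall_self hδ.le) b hb, key b hb c (mem_closedBall_self hδ.le)⟩

theorem IsTEF.unif_escape_compact (hf : IsTEF f) {R : ℝ} (hR : Big f R) {O K : Set ℂ}
    (hO : IsOpen O) (hd : Disjoint O (fastEsc f R)) (hI : O ⊆ escaping f) (hK : IsCompact K)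
    (hKO : K ⊆ O) (r : ℝ) : ∃ N : ℕ, ∀ n, N ≤ n → ∀ p ∈ K, r < ‖f^[n] p‖ := by
  refine hK.induction_on (p := fun S => ∃ N : ℕ, ∀ n, N ≤ n → ∀ p ∈ S, r < ‖f^[n] p‖)
    ⟨0, fun _ _ _ h => h.elim⟩ (fun s t hst ⟨N, hN⟩ => ⟨N, fun n hn p hp => hN n hn p (hst hp)⟩)
    (fun s t ⟨N, hN⟩ ⟨N', hN'⟩ => ⟨max N N', fun n hn p hp => hp.elim
      (hN n ((le_max_left _ _).trans hn) p) (hN' n ((le_max_right _ _).trans hn) p)⟩) ?_
  intro c hc
  obtain ⟨ε, hε, hb⟩ := Metric.isOpen_iff.1 hO c (hKO hc)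
  have hδ : 0 < ε / 2 := by linarith
  have hd' : Disjoint (ball c (2 * (ε / 2))) (fastEsc f R) := by
    rw [show 2 * (ε / 2) = ε by ring]; exact hd.mono_left hb
  exact ⟨_, mem_nhdsWithin_of_mem_nhds (closedBall_mem_nhds c hδ),
    hf.unif_escape_ball hR hδ hd' (mem_closedBall_self hδ.le) (hI (hKO hc)) r⟩

/-- In an invariant domain there are curves to infinity: `γ` a path in `V` from `v` to
`f^[p] v`, `Z = ⋃ k ≥ k₀, f^[p * k] '' γ`; it is closed because only finitely many pieces meet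
a given disc. -/
theorem IsTEF.exists_far_uc (hf : IsTEF f) {R : ℝ} (hR : Big f R) {V : Set ℂ} (hV : IsOpen V)
    (hVc : IsPreconnected V) (hne : V.Nonempty) (hd : Disjoint V (fastEsc f R))
    (hI : V ⊆ escaping f) {p : ℕ} (hp : 0 < p) (hm : MapsTo f^[p] V V) (τ : ℝ) :
    ∃ Z, UC Z ∧ Z ⊆ V ∧ ∀ w ∈ Z, τ < ‖w‖ := by
  obtain ⟨v, hv⟩ := hne
  obtain ⟨γ, hγ, hγ0, hγ1, hγV⟩ := exists_path_of_isOpen hV hVc hv (hm hv)
  set C := γ '' Icc (0 : ℝ) 1 with hC
  have hCc : IsCompact C := isCompact_Icc.image hγ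
  have hCp : IsPreconnected C := isPreconnected_Icc.image γ hγ.continuousOn
  have hCV : C ⊆ V := by rintro _ ⟨t, -, rfl⟩; exact hγV t
  have hvC : v ∈ C := ⟨0, left_mem_Icc.2 zero_le_one, hγ0⟩
  have hvC' : f^[p] v ∈ C := ⟨1, right_mem_Icc.2 zero_le_one, hγ1⟩
  have hun := hf.unif_escape_compact hR hV hd hI hCc hCV
  obtain ⟨N, hN⟩ := hun τ
  set S : ℕ → Set ℂ := fun k => f^[p * (N + k)] '' C with hS
  have hcont : ∀ n, Continuous f^[n] := fun n => (hf.ent.iterate n).continuous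
  have hfar : ∀ r : ℝ, ∃ M : ℕ, ∀ k, M ≤ k → ∀ w ∈ S k, r < ‖w‖ := by
    intro r
    obtain ⟨M, hM⟩ := hun r
    refine ⟨M, fun k hk => ?_⟩
    rintro _ ⟨u, hu, rfl⟩
    exact hM _ (by nlinarith) u hu
  refine ⟨⋃ k, S k, ⟨?_, ?_, ?_⟩, ?_, ?_⟩
  · refine LocallyFinite.isClosed_iUnion ?_ fun k => (hCc.image (hcont _)).isClosed
    intro x
    obtain ⟨M, hM⟩ := hfar (‖x‖ + 1)
    refine ⟨ball x 1, ball_mem_nhds x one_pos, (finite_lt_nat M).subset ?_⟩
    rintro k ⟨w, hw, hwb⟩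
    by_contra hk
    have h1 := hM k (not_lt.1 hk) w hw
    have h2 : ‖w‖ ≤ ‖w - x‖ + ‖x‖ := by simpa using norm_add_le (w - x) x
    have h3 : ‖w - x‖ < 1 := mem_ball_iff_norm.1 hwb
    linarith
  · refine IsPreconnected.iUnion_of_chain (fun k => hCp.image _ (hcont _).continuousOn) fun k => ?_
    refine ⟨f^[p * (N + k)] (f^[p] v), mem_image_of_mem _ hvC', v, hvC, ?_⟩
    rw [← Function.iterate_add_apply]
    congr 1
  · intro hb
    obtain ⟨B, hB⟩ := hb.exists_norm_le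
    obtain ⟨M, hM⟩ := hfar B
    have h1 : f^[p * (N + M)] v ∈ S M := mem_image_of_mem _ hvC
    exact absurd (hB _ (mem_iUnion.2 ⟨M, h1⟩)) (not_le.2 (hM M le_rfl _ h1))
  · refine iUnion_subset fun k => ?_
    rintro _ ⟨u, hu, rfl⟩
    rw [Function.iterate_mul]
    exact (hm.iterate _) (hCV hu)
  · intro w hw
    obtain ⟨k, u, hu, rfl⟩ := mem_iUnion.1 hw
    exact hN _ (by nlinarith) u hu

/-- A domain `U ⊆ I` missing `A(f)`, with connected complement, has an escaping boundary point.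
Suppose `frontier U` misses `I`. Let `ζ ∈ U`, `V k` the component of `f^[k] ζ` in `interior I`.
`f^[j]` maps `V k` into `V (k + j)`, and `IsSat f^[k] (V k) U` (a connected `P ⊆ I` meeting `U`
misses `frontier U`). `V k` misses `A(f)` by `IsSat.hit` and `Ent.uc_levelSet`. `Z` is a
component of `A_R`; `Uᶜ ⊇ Z` is an unbounded continuum. If the `V k` are pairwise different
(so disjoint) use `wl` with `n = 0`, `p = 1`. Otherwise `V = V n = V (n + p)`, `p > 0`. If
`F = f^[p]` is injective on `V` use `wl`. If not, `F v₁ = F v₂` with disjoint open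
neighbourhoods `N₁, N₂ ⊆ V`; `f^[n] '' U` is open and dense in `V` (`IsSat.dense_one`), so the
open sets `F '' (N i ∩ f^[n] '' U)`, dense in `F '' N i`, intersect, and `f^[n + p]` is not
injective on `U`, against `IsSat.w3` (`exists_far_uc`; `V` misses `Z`). -/
theorem IsTEF.exists_boundary_escaping (hf : IsTEF f) {R : ℝ} (hR : Big f R) {U : Set ℂ}
    (hU : IsOpen U) (hUc : IsPreconnected U) (hne : U.Nonempty) (hI : U ⊆ escaping f)
    (hd : Disjoint U (fastEsc f R)) (hUc' : IsPreconnected Uᶜ) :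
    ∃ z ∈ frontier U, z ∈ escaping f := by
  by_contra hcon
  have hfr : Disjoint (frontier U) (escaping f) :=
    disjoint_left.2 fun z hz hz' => hcon ⟨z, hz, hz'⟩
  have he := hf.ent
  obtain ⟨ζ, hζ⟩ := hne
  set V : ℕ → Set ℂ := fun k => connectedComponentIn (interior (escaping f)) (f^[k] ζ) with hV
  have hVo : ∀ k, IsOpen (V k) := fun k => isOpen_interior.connectedComponentIn
  have hVc : ∀ k, IsPreconnected (V k) := fun k => isPreconnected_connectedComponentIn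
  have hVs : ∀ k, V k ⊆ interior (escaping f) := fun k => connectedComponentIn_subset _ _
  have hVI : ∀ k, V k ⊆ escaping f := fun k => (hVs k).trans interior_subset
  have him : ∀ (j : ℕ) (O : Set ℂ), IsOpen O → O ⊆ escaping f →
      f^[j] '' O ⊆ interior (escaping f) := fun j O hO hOI =>
    interior_maximal (by rintro _ ⟨u, hu, rfl⟩; exact (iter_mem_escaping_iff j).2 (hOI hu))
      ((he.iterate j).opn O hO)
  have hUV : ∀ k, MapsTo f^[k] U (V k) := fun k u hu =>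
    (hUc.image _ (he.iterate k).continuous.continuousOn).subset_connectedComponentIn
      (mem_image_of_mem _ hζ) (him k U hU hI) (mem_image_of_mem _ hu)
  have hVV : ∀ k j, MapsTo f^[j] (V k) (V (k + j)) := fun k j u hu => by
    have h1 : f^[k + j] ζ ∈ f^[j] '' V k :=
      ⟨_, hUV k hζ, by rw [add_comm, Function.iterate_add_apply]⟩
    exact ((hVc k).image _ (he.iterate j).continuous.continuousOn).subset_connectedComponentIn
      h1 (him j _ (hVo k) (hVI k)) (mem_image_of_mem _ hu)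
  have hsat : ∀ k, IsSat f^[k] (V k) U := fun k => ⟨hU, hUV k, fun P hP hPV hne =>
    subset_of_disjoint_frontier hP hU hne (hfr.mono_right fun u hu =>
      (iter_mem_escaping_iff k).1 (hVI k (hPV hu)))⟩
  have hVA : ∀ k, Disjoint (V k) (fastEsc f R) := by
    intro k
    refine disjoint_left.2 fun y hy hyA => ?_
    obtain ⟨l, hl⟩ := mem_fastEsc_iff.1 hyA
    obtain ⟨_, ⟨u, hu, rfl⟩, huE⟩ := (hsat k).hit (he.iterate k) (hVo k) (hVc k) ⟨ζ, hζ⟩
      (he.uc_levelSet hl) hy (mem_connectedComponentIn hl)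
    refine disjoint_left.1 hd hu ((hR.iter_mem_fastEsc_iff he k).1 (mem_fastEsc_iff.2 ⟨l, ?_⟩))
    exact connectedComponentIn_subset (f^[l] ⁻¹' levelSet f R) y huE
  obtain ⟨y, hy⟩ := hf.levelSet_nonempty hR.1.le
  set Z := connectedComponentIn (levelSet f R) y with hZdef
  have hZ : UC Z := he.uc_levelSet' hy
  have hZA : Z ⊆ fastEsc f R := fun u hu =>
    mem_fastEsc_iff.2 ⟨0, connectedComponentIn_subset (levelSet f R) y hu⟩
  have hUu : UC Uᶜ := ⟨hU.isClosed_compl, hUc', fun h =>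
    hZ.unb (h.subset fun u hu hu' => disjoint_left.1 hd hu' (hZA hu))⟩
  have hZU : ∀ k : ℕ, ∀ z ∈ U, f^[k] z ∉ Z := fun k z hz h =>
    disjoint_left.1 (hVA k) (hUV k hz) (hZA h)
  by_cases hwand : ∀ k j, 0 < j → V k ≠ V (k + j)
  · refine hcon (wl hf.1 hU hUu hZ hZU hζ (hI hζ) (n := 0) one_pos ?_)
    intro k j hj z hz z' hz' h
    exfalso
    simp only [zero_add, one_mul] at h
    apply hwand k j hj
    have h1 : f^[k] z ∈ V (k + j) := h ▸ hUV (k + j) hz'
    exact (connectedComponentIn_eq (hUV k hz)).trans (connectedComponentIn_eq h1).symm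
  push Not at hwand
  obtain ⟨n, p, hp, hper⟩ := hwand
  have hm : MapsTo f^[p] (V n) (V n) := by
    have := hVV n p
    rwa [← hper] at this
  by_cases hinj : InjOn f^[p] (V n)
  · refine hcon (wl hf.1 hU hUu hZ hZU hζ (hI hζ) (n := n) hp ?_)
    intro k j _ z hz z' hz' h
    have h1 : f^[n + p * j] z' = (f^[p])^[j] (f^[n] z') := by
      rw [← Function.iterate_mul, ← Function.iterate_add_apply, add_comm]
    refine (hinj.iterate hm k) (hUV n hz) (h1 ▸ hm.iterate j (hUV n hz')) ?_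
    rw [← Function.iterate_mul, ← Function.iterate_add_apply, ← Function.iterate_add_apply,
      add_comm (p * k) n, h]
    congr 1
    ring
  · have hw3 : InjOn f^[n + p] U := by
      refine IsSat.w3 (he.iterate _) (hVo n) (hVc n) (hper ▸ hsat (n + p)) hUc hUc'
        (hf.exists_far_uc hR (hVo n) (hVc n) ⟨_, hUV n hζ⟩ (hVA n) (hVI n) hp hm) ⟨‖y‖, ?_⟩
      intro τ hτ
      obtain ⟨w, hw, hwτ⟩ := hZ.meets_sphere (c := 0) (mem_connectedComponentIn hy) (τ := τ)
        (by simpa using hτ)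
      exact ⟨w, fun h => disjoint_left.1 (hVA n) h (hZA hw), by simpa using hwτ⟩
    apply hinj
    intro v₁ hv₁ v₂ hv₂ hv
    by_contra hne
    obtain ⟨N₁, N₂, hN₁, hN₂, hv₁N, hv₂N, hNd⟩ := t2_separation hne
    have hF := he.iterate p
    have hD : IsOpen (f^[n] '' U) := (he.iterate n).opn U hU
    have hdense := (hsat n).dense_one (he.iterate n) (hVo n) (hVc n) ⟨ζ, hζ⟩
    -- first point
    have hO₂ : IsOpen (f^[p] '' (N₂ ∩ V n)) := hF.opn _ (hN₂.inter (hVo n))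
    obtain ⟨u₁, ⟨hu₁N, hu₁O⟩, hu₁D⟩ := mem_closure_iff.1 (hdense hv₁) _
      (hN₁.inter (hO₂.preimage hF.continuous)) ⟨hv₁N, v₂, ⟨hv₂N, hv₂⟩, hv.symm⟩
    obtain ⟨v₂', ⟨hv₂'N, hv₂'⟩, hv'⟩ := hu₁O
    have hO₁ : IsOpen (f^[p] '' (N₁ ∩ f^[n] '' U)) := hF.opn _ (hN₁.inter hD)
    obtain ⟨u₂, ⟨hu₂N, hu₂O⟩, hu₂D⟩ := mem_closure_iff.1 (hdense hv₂') _
      (hN₂.inter (hO₁.preimage hF.continuous)) ⟨hv₂'N, u₁, ⟨hu₁N, hu₁D⟩, hv'.symm⟩
    obtain ⟨u₁', ⟨hu₁'N, z₁, hz₁, rfl⟩, hu⟩ := hu₂O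
    obtain ⟨z₂, hz₂, rfl⟩ := hu₂D
    have : z₁ = z₂ := hw3 hz₁ hz₂ (by
      rw [add_comm, Function.iterate_add_apply, Function.iterate_add_apply, hu])
    subst this
    exact disjoint_left.1 hNd hu₁'N hu₂N

/-- If `frontier U` misses `I` and `Uᶜ` is disconnected, `Uᶜ = F₀ ∪ F₁` with disjoint nonempty
closed sets, then `interior F₀` and `F₀ᶜ` split `I`. Each `F i` meets `frontier U` (otherwise it
is clopen) at a point `q`; a small disc around `q` misses the other set and meets `A(f)`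
(otherwise `subset_escaping` applied to the disc together with `U` gives `q ∈ I`). -/
theorem IsTEF.split_of_compl (hf : IsTEF f) {R : ℝ} (hR : Big f R) {U : Set ℂ}
    (hU : IsOpen U) (hUc : IsPreconnected U) (hne : U.Nonempty) (hI : U ⊆ escaping f)
    (hd : Disjoint U (fastEsc f R)) (hfr : Disjoint (frontier U) (escaping f))
    (hUc' : ¬ IsPreconnected Uᶜ) :
    ∃ V₀ V₁, Split (escaping f) V₀ V₁ ∧ (V₀ ∩ fastEsc f R).Nonempty ∧
      (V₁ ∩ fastEsc f R).Nonempty := by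
  obtain ⟨W₀, W₁, hW, hW₀, hW₁⟩ := exists_split hUc'
  have hAI : fastEsc f R ⊆ escaping f := hR.fastEsc_subset_escaping hf.1
  -- each piece contains a point of `A(f)`
  have key : ∀ {W W' : Set ℂ}, Split Uᶜ W W' → (Uᶜ ∩ W).Nonempty →
      ∃ a ∈ fastEsc f R, a ∉ U ∧ a ∈ W := by
    intro W W' hs hWne
    have hq : (frontier U ∩ W).Nonempty := by
      by_contra h
      have hcl : IsClosed (Uᶜ ∩ W) := by
        have : Uᶜ ∩ W = Uᶜ ∩ W'ᶜ := by
          ext u
          exact ⟨fun h => ⟨h.1, disjoint_left.1 hs.disj h.2⟩,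
            fun h => ⟨h.1, (hs.cover h.1).resolve_right h.2⟩⟩
        rw [this]; exact hU.isClosed_compl.inter hs.o₁.isClosed_compl
      have hop : IsOpen (Uᶜ ∩ W) := by
        have : Uᶜ ∩ W = (closure U)ᶜ ∩ W := by
          ext u
          refine ⟨fun hu => ⟨fun hc => h ⟨u, ?_, hu.2⟩, hu.2⟩,
            fun hu => ⟨fun hc => hu.1 (subset_closure hc), hu.2⟩⟩
          rw [hU.frontier_eq]; exact ⟨hc, hu.1⟩
        rw [this]; exact isClosed_closure.isOpen_compl.inter hs.o₀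
      have := IsClopen.eq_univ ⟨hcl, hop⟩ hWne
      obtain ⟨u, hu⟩ := hne
      exact (this ▸ mem_univ u : u ∈ Uᶜ ∩ W).1 hu
    obtain ⟨q, hq, hqW⟩ := hq
    obtain ⟨ε, hε, hb⟩ := Metric.isOpen_iff.1 hs.o₀ q hqW
    by_contra h
    have hdb : Disjoint (ball q ε) (fastEsc f R) := disjoint_left.2 fun a ha haA =>
      h ⟨a, haA, fun haU => disjoint_left.1 hd haU haA, hb ha⟩
    obtain ⟨u, hub, huU⟩ := mem_closure_iff.1 (frontier_subset_closure hq) _ isOpen_ball
      (mem_ball_self hε)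
    exact disjoint_left.1 hfr hq (hf.subset_escaping hR isOpen_ball
      (convex_ball q ε).isPreconnected hdb ⟨u, hub, hI huU⟩ (mem_ball_self hε))
  obtain ⟨a₀, ha₀, ha₀U, ha₀W⟩ := key hW hW₀
  obtain ⟨a₁, ha₁, ha₁U, ha₁W⟩ := key hW.symm hW₁
  have hncl : ∀ z ∈ escaping f, z ∉ U → z ∉ closure U := fun z hz hzU hc =>
    disjoint_left.1 hfr (by rw [hU.frontier_eq]; exact ⟨hc, hzU⟩) hz
  refine ⟨(closure U)ᶜ ∩ W₀, U ∪ W₁, ⟨isClosed_closure.isOpen_compl.inter hW.o₀, hU.union hW.o₁,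
    ?_, ?_⟩, ⟨a₀, ⟨hncl _ (hAI ha₀) ha₀U, ha₀W⟩, ha₀⟩, ⟨a₁, Or.inr ha₁W, ha₁⟩⟩
  · refine disjoint_left.2 fun z hz hz' => ?_
    rcases hz' with h | h
    · exact hz.1 (subset_closure h)
    · exact disjoint_left.1 hW.disj hz.2 h
  · intro z hz
    by_cases hzU : z ∈ U
    · exact Or.inr (Or.inl hzU)
    · rcases hW.cover hzU with h | h
      · exact Or.inl ⟨hncl z hz hzU, h⟩
      · exact Or.inr (Or.inr h)

/-- Part (a). `I ≠ ∅`. If `I` is disconnected take a split `U₀, U₁`. If both meet `A(f)` use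
`mainA`. Otherwise, say, `U₁` misses `A(f)`; let `U` be the component of a point of `I ∩ U₁` in
`U₁`; `U ⊆ I`, and `frontier U` misses `U₀ ∪ U₁ ⊇ I`. Then `exists_boundary_escaping` shows that
`Uᶜ` is disconnected, and `split_of_compl` with `mainA` concludes. -/
theorem partA (hf : IsTEF f) : ConnOrUnc (escaping f) := by
  obtain ⟨R, hR⟩ := hf.exists_big
  by_cases hc : IsPreconnected (escaping f)
  · obtain ⟨y, hy⟩ := hf.levelSet_nonempty hR.1.le
    exact Or.inl ⟨⟨y, hR.levelSet_subset_escaping hf.1 hy⟩, hc⟩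
  refine Or.inr ?_
  obtain ⟨U₀, U₁, hs, h₀, h₁⟩ := exists_split hc
  have key : ∀ {W₀ W₁ : Set ℂ}, Split (escaping f) W₀ W₁ → (escaping f ∩ W₁).Nonempty →
      ¬ (W₁ ∩ fastEsc f R).Nonempty → ¬ Countable (ConnectedComponents (escaping f)) := by
    intro W₀ W₁ hW ⟨z, hzI, hzW⟩ hA
    set U := connectedComponentIn W₁ z with hUdef
    have hU : IsOpen U := hW.o₁.connectedComponentIn
    have hUc : IsPreconnected U := isPreconnected_connectedComponentIn
    have hzU : z ∈ U := mem_connectedComponentIn hzW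
    have hUW : U ⊆ W₁ := connectedComponentIn_subset _ _
    have hd : Disjoint U (fastEsc f R) := disjoint_left.2 fun u hu hu' => hA ⟨u, hUW hu, hu'⟩
    have hI : U ⊆ escaping f := hf.subset_escaping hR hU hUc hd ⟨z, hzU, hzI⟩
    have hfr : Disjoint (frontier U) (escaping f) := by
      refine disjoint_left.2 fun u hu huI => ?_
      rcases hW.cover huI with h | h
      · obtain ⟨v, hv, hvU⟩ := mem_closure_iff.1 (frontier_subset_closure hu) _ hW.o₀ h
        exact disjoint_left.1 hW.disj hv (hUW hvU)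
      · exact disjoint_left.1 (disjoint_frontier_comp hW.o₁ z) hu h
    have hnc : ¬ IsPreconnected Uᶜ := fun h => by
      obtain ⟨u, hu, huI⟩ := hf.exists_boundary_escaping hR hU hUc ⟨z, hzU⟩ hI hd h
      exact disjoint_left.1 hfr hu huI
    obtain ⟨V₀, V₁, hV, hV₀, hV₁⟩ := hf.split_of_compl hR hU hUc ⟨z, hzU⟩ hI hd hfr hnc
    exact hf.mainA hR hV hV₀ hV₁
  by_cases hA₁ : (U₁ ∩ fastEsc f R).Nonempty
  · by_cases hA₀ : (U₀ ∩ fastEsc f R).Nonempty
    · exact hf.mainA hR hs hA₀ hA₁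
    · exact key hs.symm h₀ hA₀
  · exact key hs h₁ hA₁

end Pool.Agent.Lib.MP_dbd176_an
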