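import Pool.Agent.Lib.MP_dbd176_an.BLoc

open Set Metric Filter Topology

namespace Pool.Agent.Lib.MP_dbd176_an

/-- Pull back. `Q`, the component of `z` in `fb^[n] ⁻¹' K`, is compact and contains a disc around
`z`. For `ε > 0` small, the image of `ball z ε` is a neighbourhood of `fb^[n] z`, so it contains
some `w'` with its continuum `P`; let `z'` be a preimage in the ball; the component of `z'` in
`fb^[n] ⁻¹' P` lies in `Q ∩ A`, and by `Ent.cmp'` contains a point `b` of the finite set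
`F = Q ∩ fb^[n] ⁻¹' {σ}`. So `z` is in the closure of the finite union of the components of `A`
through the points of `F ∩ A`; use `mem_comp_of_mem_closure`. -/
theorem pull_back {n : ℕ} {z σ : ℂ} (hz : z ∈ AA) {K : Set ℂ} (hK : IsCompact K)
    (hK₀ : ∀ w ∈ K, w.im ≠ 0) (hn : K ∈ 𝓝 (fb^[n] z)) (h : Appr K σ (fb^[n] z)) :
    ∃ b ∈ AA, fb^[n] b = σ ∧ z ∈ connectedComponentIn AA b := by
  have hg : Ent fb^[n] := ent_fb.iterate n
  obtain ⟨Q, hQ⟩ : ∃ Q : Set ℂ, Q = connectedComponentIn (fb^[n] ⁻¹' K) z := ⟨_, rfl⟩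
  have hQb : Bornology.IsBounded Q := by rw [hQ]; exact bounded_comp_iter n hK hK₀ z
  have hQc : IsCompact Q := by
    refine Metric.isCompact_of_isClosed_isBounded ?_ hQb
    rw [hQ]
    exact isClosed_connectedComponentIn (hK.isClosed.preimage hg.continuous) z
  obtain ⟨ε₀, hε₀, hball⟩ := Metric.mem_nhds_iff.1 (hg.continuous.continuousAt.preimage_mem_nhds hn)
  have hbQ : ball z ε₀ ⊆ Q := by
    rw [hQ]
    exact (convex_ball z ε₀).isPreconnected.subset_connectedComponentIn (mem_ball_self hε₀) hball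
  have hF : ((Q ∩ fb^[n] ⁻¹' {σ}) ∩ AA).Finite := (hg.finite_fibre hQc σ).inter_of_left AA
  have hcl : z ∈ closure (⋃ b ∈ (Q ∩ fb^[n] ⁻¹' {σ}) ∩ AA, connectedComponentIn AA b) := by
    rw [Metric.mem_closure_iff]
    intro ε hε
    have hε' : 0 < min ε ε₀ := lt_min hε hε₀
    obtain ⟨δ, hδ, hδs⟩ := Metric.mem_nhds_iff.1 (hg.opn.image_mem_nhds (ball_mem_nhds z hε'))
    obtain ⟨w', hw', P, hPc, hPp, hPK, hwP, hσP⟩ := h δ hδ
    obtain ⟨z', hz', hzw⟩ := hδs hw'
    have hz'Q : z' ∈ Q := hbQ (ball_subset_ball (min_le_right _ _) hz')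
    have hz'P : fb^[n] z' ∈ P := by rw [hzw]; exact hwP
    have hCQ : connectedComponentIn (fb^[n] ⁻¹' P) z' ⊆ Q := by
      have e : Q = connectedComponentIn (fb^[n] ⁻¹' K) z' := by
        rw [hQ] at hz'Q ⊢
        exact connectedComponentIn_eq hz'Q
      rw [e]
      exact connectedComponentIn_mono z' (preimage_mono fun y hy => (hPK hy).2)
    obtain ⟨b, hb, hbσ⟩ := hg.cmp' hPc.isClosed hPp hz'P (hQb.subset hCQ) hσP
    have hCA : connectedComponentIn (fb^[n] ⁻¹' P) z' ⊆ AA := fun y hy =>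
      (iter_mem_AA_iff n).1 (hPK (connectedComponentIn_subset (fb^[n] ⁻¹' P) z' hy)).1
    refine ⟨z', mem_biUnion (x := b) ⟨⟨hCQ hb, hbσ⟩, hCA hb⟩ ?_, ?_⟩
    · exact isPreconnected_connectedComponentIn.subset_connectedComponentIn hb hCA
        (mem_connectedComponentIn hz'P)
    · rw [dist_comm]
      exact (mem_ball.1 hz').trans_le (min_le_left _ _)
  rw [hF.closure_biUnion] at hcl
  obtain ⟨b, hb, hzb⟩ := mem_iUnion₂.1 hcl
  exact ⟨b, hb.2, hb.1.2, mem_comp_of_mem_closure hz hzb⟩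

/-- Real case: `Ent.bounded_comp_small`, a rational `q` slightly to the right of `fb^[n] z`, and
`Ent.cmp'` for the segment. -/
theorem pull_back_real {n : ℕ} {z : ℂ} (h : fb^[n] z ∈ TT) :
    ∃ b ∈ AA, (∃ q : ℚ, fb^[n] b = q) ∧ z ∈ connectedComponentIn AA b := by
  have hg : Ent fb^[n] := ent_fb.iterate n
  obtain ⟨ε, hε, hb⟩ := hg.bounded_comp_small z
  obtain ⟨q, hq₁, hq₂⟩ := exists_rat_btwn (show (fb^[n] z).re < (fb^[n] z).re + ε by linarith)
  have hqT : (q : ℂ) ∈ TT := ⟨Complex.ratCast_im q, by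
    rw [Complex.ratCast_re]; linarith [h.2]⟩
  obtain ⟨J, hJ⟩ : ∃ J : Set ℂ, J = segment ℝ (fb^[n] z) q := ⟨_, rfl⟩
  have hJT : J ⊆ TT := by rw [hJ]; exact bloc_convex_TT.segment_subset h hqT
  have hJc : IsClosed J := by
    rw [hJ, segment_eq_image_lineMap]
    exact (isCompact_Icc.image AffineMap.lineMap_continuous).isClosed
  have hJp : IsPreconnected J := by rw [hJ]; exact (convex_segment _ _).isPreconnected
  have hJb : J ⊆ closedBall (fb^[n] z) ε := by
    rw [hJ]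
    refine (convex_closedBall _ _).segment_subset (mem_closedBall_self hε.le) ?_
    rw [mem_closedBall, Complex.dist_of_im_eq (hqT.1.trans h.1.symm), Complex.ratCast_re,
      Real.dist_eq, abs_le]
    constructor <;> linarith
  have hzJ : fb^[n] z ∈ J := by rw [hJ]; exact left_mem_segment _ _ _
  obtain ⟨b, hbC, hbq⟩ := hg.cmp' hJc hJp hzJ
    (hb.subset (connectedComponentIn_mono z (preimage_mono hJb)))
    (show (q : ℂ) ∈ J by rw [hJ]; exact right_mem_segment _ _ _)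
  have hCA : connectedComponentIn (fb^[n] ⁻¹' J) z ⊆ AA := fun y hy =>
    (iter_mem_AA_iff n).1 (TT_subset_AA (hJT (connectedComponentIn_subset (fb^[n] ⁻¹' J) z hy)))
  exact ⟨b, hCA hbC, ⟨q, hbq⟩, isPreconnected_connectedComponentIn.subset_connectedComponentIn
    hbC hCA (mem_connectedComponentIn hzJ)⟩

/-- Base points: `A ∩ ⋃ n, fb^[n] ⁻¹' ({σp, conj σp} ∪ ℚ)`, countable by `Ent.countable_fibre`. -/
theorem countable_components_AA : Countable (ConnectedComponents AA) := by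
  rw [countable_components_iff]
  obtain ⟨T, hT⟩ : ∃ T : Set ℂ,
    T = insert σp (insert ((starRingEnd ℂ) σp) (range fun q : ℚ => (q : ℂ))) := ⟨_, rfl⟩
  have hTc : T.Countable := by rw [hT]; exact ((countable_range _).insert _).insert _
  refine ⟨AA ∩ ⋃ n : ℕ, ⋃ t ∈ T, fb^[n] ⁻¹' {t}, ?_, inter_subset_left, fun z hz => ?_⟩
  · refine Countable.mono inter_subset_right (countable_iUnion fun n => hTc.biUnion fun t _ => ?_)
    exact (ent_fb.iterate n).countable_fibre t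
  have fin : ∀ (n : ℕ) (b : ℂ), b ∈ AA → fb^[n] b ∈ T → z ∈ connectedComponentIn AA b →
      ∃ b ∈ AA ∩ ⋃ n : ℕ, ⋃ t ∈ T, fb^[n] ⁻¹' {t}, z ∈ connectedComponentIn AA b :=
    fun n b hb hbT hzb => ⟨b, ⟨hb, mem_iUnion.2 ⟨n, mem_biUnion hbT rfl⟩⟩, hzb⟩
  obtain ⟨n, hw⟩ := exists_ffo hz
  rcases hw.cases with h | ⟨m, v, hv, h⟩
  · have h0 := hw 0
    have h2 := (xx_ge_of_fast h0.1 h0.2).2
    have h3 : 2 ≤ (fb^[n] z).re := h2
    obtain ⟨b, hb, ⟨q, hq⟩, hzb⟩ := pull_back_real (n := n) (z := z) ⟨h, by linarith⟩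
    exact fin n b hb (by rw [hT, hq]; exact Or.inr (Or.inr ⟨q, rfl⟩)) hzb
  · have e : fb^[m] (fb^[n] z) = fb^[m + n] z := (Function.iterate_add_apply fb m n z).symm
    have hm := hw.iter m
    rw [e] at hv hm
    rcases hv with rfl | rfl
    · obtain ⟨K, hK, hK₀, hKn, hA⟩ := hm.up h
      obtain ⟨b, hb, hbσ, hzb⟩ := pull_back hz hK hK₀ hKn hA
      exact fin (m + n) b hb (by rw [hT, hbσ]; exact Or.inl rfl) hzb
    · obtain ⟨K, hK, hK₀, hKn, hA⟩ := hm.conj.up h
      have hA' := hA.conj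
      rw [Complex.conj_conj] at hA'
      have hn' : (starRingEnd ℂ) '' K ∈ 𝓝 (fb^[m + n] z) := by
        refine mem_of_superset (Complex.continuous_conj.continuousAt.preimage_mem_nhds hKn) ?_
        intro y hy
        exact ⟨_, hy, Complex.conj_conj y⟩
      obtain ⟨b, hb, hbσ, hzb⟩ := pull_back hz (hK.image Complex.continuous_conj) (by
        rintro _ ⟨y, hy, rfl⟩
        rw [Complex.conj_im]
        exact neg_ne_zero.2 (hK₀ y hy)) hn' hA'
      exact fin (m + n) b hb (by rw [hT, hbσ]; exact Or.inr (Or.inl rfl)) hzb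

theorem partB : ∃ f : ℂ → ℂ, IsTEF f ∧ ∀ R, Rf f < R →
    (fastEsc f R).Nonempty ∧ ¬ IsPreconnected (fastEsc f R) ∧
      Countable (ConnectedComponents (fastEsc f R)) := by
  refine ⟨fb, isTEF_fb, fun R hR => ?_⟩
  rw [(isTEF_fb.big_of_lt hR).fastEsc_eq ent_fb big_fb]
  exact ⟨⟨0, TT_subset_AA ⟨by simp, by simp⟩⟩, not_isPreconnected_AA, countable_components_AA⟩

end Pool.Agent.Lib.MP_dbd176_an
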