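import Pool.Agent.Lib.MP_dbd176_an.Six
import Pool.Agent.Lib.MP_dbd176_an.PB

open Set Metric Filter Topology

namespace Pool.Agent.Lib.MP_dbd176_an

variable {f : ℂ → ℂ}

/-- If two disjoint open sets both meet `A(f)` and cover a set `X ⊇ A(f)` or cover a level set,
their complement contains an unbounded continuum: `sep_dichotomy` and
`Ent.disjoint_levelSet_of_frontier`. -/
theorem Ent.exists_uc_compl (hf : Ent f) {ρ : ℝ} {U₀ U₁ : Set ℂ} (h₀ : IsOpen U₀) (h₁ : IsOpen U₁)
    (hd : Disjoint U₀ U₁) {l₀ l₁ : ℕ} {p₀ p₁ : ℂ} (hp₀ : p₀ ∈ U₀) (hp₁ : p₁ ∈ U₁)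
    (hA₀ : f^[l₀] p₀ ∈ levelSet f ρ) (hA₁ : f^[l₁] p₁ ∈ levelSet f ρ)
    (hc₀ : f^[l₀] ⁻¹' levelSet f ρ ⊆ U₀ ∪ U₁) (hc₁ : f^[l₁] ⁻¹' levelSet f ρ ⊆ U₀ ∪ U₁) :
    ∃ Γ, UC Γ ∧ Γ ⊆ (U₀ ∪ U₁)ᶜ := by
  rcases sep_dichotomy h₀ h₁ hd hp₀ hp₁ with h | ⟨V, hV, hb, hp, hfr⟩
  · exact h
  exfalso
  rcases hp with hp | hp
  · exact disjoint_left.1 (hf.disjoint_levelSet_of_frontier hV hb
      (disjoint_left.2 fun z hz hz' => hfr hz (hc₀ hz'))) hp hA₀
  · exact disjoint_left.1 (hf.disjoint_levelSet_of_frontier hV hb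
      (disjoint_left.2 fun z hz hz' => hfr hz (hc₁ hz'))) hp hA₁

/-- Baire category on the frontier of a closed set `X ≠ ∅, univ` with countably many components:
the closed sets `C ∩ frontier X` cover the complete space `frontier X`, so
`ball z δ ∩ frontier X ⊆ C` for some `z ∈ frontier X`. A point `w ∈ ball z δ ∩ X` is joined to a
point of `ball z δ \ X` by a segment; `exists_exit` shows `w ∈ C`. -/
theorem exists_ball_one_comp {X : Set ℂ} (hX : IsClosed X) (hne : X.Nonempty) (hne' : X ≠ univ)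
    (hc : Countable (ConnectedComponents X)) :
    ∃ z ∈ frontier X, ∃ δ > 0, ball z δ ∩ X ⊆ connectedComponentIn X z := by
  obtain ⟨B, hB, -, hcov⟩ := countable_components_iff.1 hc
  have := hB.to_subtype
  have : CompleteSpace (frontier X) := isClosed_frontier.completeSpace_coe
  have := (nonempty_frontier_iff.2 ⟨hne, hne'⟩).to_subtype
  obtain ⟨b, z, hz⟩ := nonempty_interior_of_iUnion_of_closed
    (f := fun b : B => (Subtype.val ⁻¹' connectedComponentIn X b : Set (frontier X)))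
    (fun b => (isClosed_connectedComponentIn hX b).preimage continuous_subtype_val) (by
      refine eq_univ_of_forall fun x => ?_
      obtain ⟨b, hb, hx⟩ := hcov x (hX.frontier_subset x.2)
      exact mem_iUnion.2 ⟨⟨b, hb⟩, hx⟩)
  obtain ⟨δ, hδ, hball⟩ := Metric.mem_nhds_iff.1 (mem_interior_iff_mem_nhds.1 hz)
  have hzb : (z : ℂ) ∈ connectedComponentIn X b := hball (mem_ball_self hδ)
  refine ⟨z, z.2, δ, hδ, fun w hw => ?_⟩
  have hz2 : (z : ℂ) ∈ closure X ∩ closure Xᶜ := frontier_eq_closure_inter_closure.subset z.2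
  obtain ⟨y, hyX, hy⟩ := Metric.mem_closure_iff.1 hz2.2 δ hδ
  have hseg : segment ℝ w y ⊆ ball (z : ℂ) δ :=
    (convex_ball _ _).segment_subset hw.1 (mem_ball'.2 hy)
  have hcomp : IsCompact (segment ℝ w y) := by
    rw [segment_eq_image]
    exact isCompact_Icc.image (by fun_prop)
  obtain ⟨u, hu1, hu2⟩ := exists_exit hX hcomp (convex_segment w y).isPreconnected
    ⟨left_mem_segment ℝ w y, hw.2⟩ fun h => hyX (h (right_mem_segment ℝ w y))
  have hu3 : u ∈ connectedComponentIn X b :=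
    hball (a := ⟨u, hu2⟩) (hseg (connectedComponentIn_subset _ _ hu1).1)
  have hu4 : u ∈ connectedComponentIn X w := connectedComponentIn_mono _ inter_subset_right hu1
  rw [← connectedComponentIn_eq hzb, connectedComponentIn_eq hu3, ← connectedComponentIn_eq hu4]
  exact mem_connectedComponentIn hw.2

/-- Part (c). `A_R ≠ ∅`. If it is disconnected, `exists_split` and `Ent.exists_uc_compl` give
`Γ`. If moreover it has countably many components take `z, δ` from `exists_ball_one_comp`,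
`C` the component of `z`. With `K', σ₀` from `six_components`, `Q = K'`, `l = 0`, and `n` large,
`σ = M^n R`: the component `L i` of `x i` in `A_σ` meets the covered circle, so some
`w i ∈ ball z δ` has `f^[n] (w i) ∈ L i`, hence `w i ∈ A_R` (`Ent.preimage_levelSet`), `w i ∈ C`.
The connected set `f^[n] '' C ⊆ A_σ` meets `L 0` and `L 1`, absurd. -/
theorem partC (hf : IsTEF f) {R : ℝ} (hR : Big f R) : ConnOrUnc (levelSet f R) := by
  by_contra hcon
  rw [ConnOrUnc, not_or, not_not] at hcon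
  have hne := hf.levelSet_nonempty hR.1.le
  obtain ⟨U₀, U₁, hs, ⟨p₀, hp₀⟩, ⟨p₁, hp₁⟩⟩ := exists_split fun h => hcon.1 ⟨hne, h⟩
  obtain ⟨Γ, hΓ, hΓU⟩ := hf.ent.exists_uc_compl (l₀ := 0) (l₁ := 0) hs.o₀ hs.o₁ hs.disj
    hp₀.2 hp₁.2 hp₀.1 hp₁.1 hs.cover hs.cover
  obtain ⟨K', σ₀, hK', hsix⟩ := hf.six_components hR hΓ
    (disjoint_left.2 fun z hz hz' => hΓU hz (hs.cover hz'))
  obtain ⟨z, hz, δ, hδ, hball⟩ := exists_ball_one_comp (isClosed_levelSet hf.1.continuous R) hne
    (fun h => by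
      have h0 : (0 : ℂ) ∈ levelSet f R := h ▸ mem_univ _
      have := le_norm_of_mem_levelSet h0
      rw [norm_zero] at this
      exact absurd hR.1 (not_lt.2 this)) hcon.2
  obtain ⟨K, -, hcov⟩ := hf.blowup_cover
  obtain ⟨N, hN⟩ := hcov hR (l := 0) hz hδ (Q := K') (by linarith)
  obtain ⟨n, hn1, hn2⟩ := (((hR.tendsto_iter hf.1).eventually_ge_atTop σ₀).and
    (eventually_ge_atTop N)).exists
  obtain ⟨τ, hτ, hsub⟩ := hN n hn2
  obtain ⟨G, x, -, -, hx, hne⟩ := hsix _ hn1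
  have hw : ∀ i, ∃ w ∈ connectedComponentIn (levelSet f R) z,
      f^[n] w ∈ connectedComponentIn (levelSet f ((maxMod f)^[n] R)) (x i) := fun i => by
    obtain ⟨y, hy1, hy2⟩ := (hf.ent.uc_levelSet' (hx i).1).meets_sphere
      (mem_connectedComponentIn (hx i).1) (c := 0) (τ := τ)
      (by rw [sub_zero]; exact (hx i).2.2.trans hτ.1.le)
    obtain ⟨w, hw1, rfl⟩ := hsub (mem_sphere_iff_norm.2 hy2)
    have hy3 := connectedComponentIn_subset _ _ hy1
    exact ⟨w, hball ⟨hw1, (hf.ent.preimage_levelSet R n).subset hy3⟩, hy1⟩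
  obtain ⟨w₀, hw₀, hw₀'⟩ := hw 0
  obtain ⟨w₁, hw₁, hw₁'⟩ := hw 1
  have himg : f^[n] '' connectedComponentIn (levelSet f R) z ⊆
      connectedComponentIn (levelSet f ((maxMod f)^[n] R)) (f^[n] w₀) := by
    refine (isPreconnected_connectedComponentIn.image _
      (hf.ent.iterate n).continuous.continuousOn).subset_connectedComponentIn
      (mem_image_of_mem _ hw₀) ?_
    rintro _ ⟨w, hw, rfl⟩
    exact (hf.ent.preimage_levelSet R n).superset (connectedComponentIn_subset _ _ hw)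
  refine hne 0 1 (by decide) ?_
  rw [connectedComponentIn_eq hw₀', connectedComponentIn_eq (himg (mem_image_of_mem _ hw₁)),
    ← connectedComponentIn_eq hw₁']
  exact mem_connectedComponentIn (hx 1).1

end Pool.Agent.Lib.MP_dbd176_an
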