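import Pool.Agent.Lib.MP_dbd176_an.Topo

open Set Metric Filter Topology

namespace Pool.Agent.Lib.MP_dbd176_an

/-- Let `P` be the component of `z` in `g⁻¹ J \ S`, bounded with closure missing `S`
(so `P` is compact). For each open `N ⊇ P`, `bump_diff` gives a bounded open `V` with
`P ⊆ V ⊆ N` whose frontier misses `g⁻¹ J`. The set `g '' V` is open, meets `J`, and
`frontier (g '' V) ⊆ g '' frontier V` (since `g '' closure V` is compact) misses `J`; so
`J ⊆ g '' V ⊆ g '' N`. For `w ∈ J \ g '' P` take `N = (g⁻¹ {w})ᶜ` to get a contradiction. -/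
theorem Ent.cmp {g : ℂ → ℂ} (hg : Ent g) {J S : Set ℂ} (hJ : IsClosed J) (hJc : IsPreconnected J)
    (hS : IsClosed S) {z : ℂ} (hz : g z ∈ J) (hzS : z ∉ S)
    (hb : Bornology.IsBounded (connectedComponentIn (g ⁻¹' J \ S) z))
    (hd : Disjoint (closure (connectedComponentIn (g ⁻¹' J \ S) z)) S) :
    J ⊆ g '' connectedComponentIn (g ⁻¹' J \ S) z := by
  intro w hw
  by_contra hn
  have hN : IsOpen (g ⁻¹' {w})ᶜ := (isClosed_singleton.preimage hg.continuous).isOpen_compl
  obtain ⟨V, hV, hVb, hPV, hVN, hVd⟩ := bump_diff (hJ.preimage hg.continuous) hS ⟨hz, hzS⟩ hb hd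
    hN fun u hu h => hn ⟨u, hu, h⟩
  have hJV : J ⊆ g '' V := by
    refine subset_of_disjoint_frontier hJc (hg.opn V hV)
      ⟨g z, hz, z, hPV (mem_connectedComponentIn ⟨hz, hzS⟩), rfl⟩ ?_
    rw [disjoint_left, (hg.opn V hV).frontier_eq]
    rintro y ⟨h1, h2⟩ hyJ
    have h3 : closure (g '' V) ⊆ g '' closure V :=
      closure_minimal (image_mono subset_closure)
        (hVb.isCompact_closure.image hg.continuous).isClosed
    obtain ⟨v, hv, rfl⟩ := h3 h1
    refine disjoint_left.1 hVd ?_ (show v ∈ g ⁻¹' J from hyJ)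
    rw [hV.frontier_eq]
    exact ⟨hv, fun h => h2 ⟨v, h, rfl⟩⟩
  obtain ⟨v, hv, h⟩ := hJV hw
  exact hVN hv h

/-- Case `S = ∅` of `Ent.cmp`. -/
theorem Ent.cmp' {g : ℂ → ℂ} (hg : Ent g) {J : Set ℂ} (hJ : IsClosed J) (hJc : IsPreconnected J)
    {z : ℂ} (hz : g z ∈ J) (hb : Bornology.IsBounded (connectedComponentIn (g ⁻¹' J) z)) :
    J ⊆ g '' connectedComponentIn (g ⁻¹' J) z := by
  have := hg.cmp hJ hJc isClosed_empty hz (notMem_empty z) (by simpa using hb) (by simp)
  simpa using this

/-- Components of the preimage of an unbounded continuum are unbounded. -/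
theorem Ent.uc_preimage {g : ℂ → ℂ} (hg : Ent g) {E : Set ℂ} (hE : UC E) {z : ℂ} (hz : g z ∈ E) :
    UC (connectedComponentIn (g ⁻¹' E) z) := by
  refine uc_of_unbounded_comp (hE.closed.preimage hg.continuous) fun hb => hE.unb ?_
  refine (hb.isCompact_closure.image hg.continuous).isBounded.subset ?_
  exact (hg.cmp' hE.closed hE.conn hz hb).trans (image_mono subset_closure)

theorem Ent.preimage_Out {g : ℂ → ℂ} (hg : Ent g) (F : Set ℂ) : g ⁻¹' Out F ⊆ Out (g ⁻¹' F) := by
  rintro z ⟨E, hE, hz, hd⟩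
  exact ⟨_, hg.uc_preimage hE hz, mem_connectedComponentIn hz,
    (hd.preimage g).mono_left (connectedComponentIn_subset _ _)⟩

theorem Ent.mem_closure_preimage {g : ℂ → ℂ} (hg : Ent g) {T : Set ℂ} {z : ℂ}
    (hz : g z ∈ closure T) : z ∈ closure (g ⁻¹' T) :=
  hg.opn.preimage_closure_subset_closure_preimage hz

theorem Ent.pre_not_const {g : ℂ → ℂ} (hg : Ent g) (w : ℂ) : ¬ ∀ z, g z = w := by
  intro h
  have h1 : g '' univ = {w} := by
    ext y
    simp [h, eq_comm]
  exact not_isOpen_singleton w (h1 ▸ hg.opn univ isOpen_univ)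

theorem Ent.pre_discrete {g : ℂ → ℂ} (hg : Ent g) (w : ℂ) : IsDiscrete (g ⁻¹' {w}) := by
  have han : AnalyticOnNhd ℂ (fun z => g z - w) univ :=
    (hg.diff.sub_const w).differentiableOn.analyticOnNhd isOpen_univ
  rcases han.eqOn_zero_or_eventually_ne_zero_of_preconnected isPreconnected_univ with h | h
  · exact absurd (fun z => sub_eq_zero.1 (h (mem_univ z))) (hg.pre_not_const w)
  · have h1 := isDiscrete_of_codiscreteWithin (s := g ⁻¹' {w}) (U := univ)
      (by filter_upwards [h] with z hz using fun h0 => hz (sub_eq_zero.2 h0))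
    rwa [inter_univ] at h1

/-- Fibres of a nonconstant entire function are finite in compact sets (identity theorem; an
open map is not constant). -/
theorem Ent.finite_fibre {g : ℂ → ℂ} (hg : Ent g) {K : Set ℂ} (hK : IsCompact K) (w : ℂ) :
    (K ∩ g ⁻¹' {w}).Finite := by
  refine (hK.inter_right (isClosed_singleton.preimage hg.continuous)).finite ?_
  exact (hg.pre_discrete w).mono inter_subset_right

theorem Ent.countable_fibre {g : ℂ → ℂ} (hg : Ent g) (w : ℂ) : (g ⁻¹' {w}).Countable := by
  exact (HereditarilyLindelofSpace.isLindelof _).countable_of_isDiscrete (hg.pre_discrete w)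

/-- Critical points are countable: `deriv g` is entire and not identically zero. -/
theorem Ent.countable_crit {g : ℂ → ℂ} (hg : Ent g) : {z | deriv g z = 0}.Countable := by
  have han : AnalyticOnNhd ℂ (deriv g) univ :=
    (hg.diff.differentiableOn.analyticOnNhd isOpen_univ).deriv
  rcases han.eqOn_zero_or_eventually_ne_zero_of_preconnected isPreconnected_univ with h | h
  · exact absurd (fun z => is_const_of_deriv_eq_zero hg.diff (fun x => h (mem_univ x)) z 0)
      (hg.pre_not_const (g 0))
  · have h1 := isDiscrete_of_codiscreteWithin (s := {z | deriv g z = 0}) (U := univ) h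
    rw [inter_univ] at h1
    exact (HereditarilyLindelofSpace.isLindelof _).countable_of_isDiscrete h1

/-- All but countably many circles around `c` are regular. -/
theorem Ent.countable_not_reg {g : ℂ → ℂ} (hg : Ent g) (c : ℂ) :
    {τ : ℝ | ¬ Reg g c τ}.Countable := by
  refine (hg.countable_crit.image fun z => ‖g z - c‖).mono fun τ hτ => ?_
  by_contra hn
  exact hτ fun z hz h0 => hn ⟨z, h0, hz⟩

/-- Liouville applied to `1 / (g - w)`. -/
theorem Ent.denseRange {g : ℂ → ℂ} (hg : Ent g) : DenseRange g := by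
  intro w
  by_contra hn
  obtain ⟨ε, hε, hb⟩ := Metric.isOpen_iff.1 isClosed_closure.isOpen_compl w hn
  have h1 : ∀ z, ε ≤ ‖g z - w‖ := fun z => by
    by_contra h
    exact hb (show g z ∈ ball w ε by rw [mem_ball, dist_eq_norm]; exact not_le.1 h)
      (subset_closure (mem_range_self z))
  have h2 : ∀ z, g z - w ≠ 0 := fun z => norm_pos_iff.1 (hε.trans_le (h1 z))
  have h3 : Differentiable ℂ fun z => (g z - w)⁻¹ := (hg.diff.sub_const w).inv h2
  have h4 : Bornology.IsBounded (range fun z => (g z - w)⁻¹) := by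
    refine isBounded_iff_forall_norm_le.2 ⟨ε⁻¹, ?_⟩
    rintro _ ⟨z, rfl⟩
    rw [norm_inv]
    exact inv_anti₀ hε (h1 z)
  refine hg.pre_not_const (g 0) fun z => ?_
  exact sub_left_injective (inv_injective (h3.apply_eq_apply_of_bounded h4 z 0))

/-- Maximum principle on discs and Liouville: the maximum of `‖g - y‖` on circles is large. -/
theorem Ent.exists_sphere_gt {g : ℂ → ℂ} (hg : Ent g) (y : ℂ) (B : ℝ) :
    ∃ x : ℝ, ∀ τ, x ≤ τ → ∃ z : ℂ, ‖z‖ = τ ∧ B < ‖g z - y‖ := by
  have hd : Differentiable ℂ fun z => g z - y := hg.diff.sub_const y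
  obtain ⟨z₀, hz₀⟩ : ∃ z₀, B < ‖g z₀ - y‖ := by
    by_contra hn
    push Not at hn
    have h4 : Bornology.IsBounded (range fun z => g z - y) :=
      isBounded_iff_forall_norm_le.2 ⟨B, by rintro _ ⟨z, rfl⟩; exact hn z⟩
    exact hg.pre_not_const (g 0) fun z =>
      sub_left_injective (hd.apply_eq_apply_of_bounded h4 z 0)
  refine ⟨‖z₀‖ + 1, fun τ hτ => ?_⟩
  by_contra hn
  push Not at hn
  have hτ0 : 0 < τ := by linarith [norm_nonneg z₀]
  have := Complex.norm_le_of_forall_mem_frontier_norm_le (f := fun z => g z - y)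
    (U := ball 0 τ) isBounded_ball hd.diffContOnCl (C := B) (z := z₀)
    (fun z hz => hn z (by rw [frontier_ball _ hτ0.ne'] at hz; simpa using hz))
    (subset_closure (by rw [mem_ball_zero_iff]; linarith))
  linarith

/-- Small circles around `z` miss the fibre of `g z`, so a short segment from `g z` has a bounded
preimage component at `z`. -/
theorem Ent.bounded_comp_small {g : ℂ → ℂ} (hg : Ent g) (z : ℂ) :
    ∃ ε > 0, Bornology.IsBounded (connectedComponentIn (g ⁻¹' closedBall (g z) ε) z) := by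
  obtain ⟨r, hr, hrn⟩ := (Ioo_infinite (zero_lt_one' ℝ)).exists_notMem_finite
    ((hg.finite_fibre (isCompact_closedBall z 1) (g z)).image fun u => dist u z)
  obtain ⟨u, hu, hmin⟩ := (isCompact_sphere z r).exists_isMinOn
    (NormedSpace.sphere_nonempty.2 hr.1.le) (f := fun u => dist (g u) (g z))
    (hg.continuous.dist continuous_const).continuousOn
  have hpos : 0 < dist (g u) (g z) := by
    refine dist_pos.2 fun h => hrn ⟨u, ⟨?_, h⟩, hu⟩
    rw [mem_closedBall, mem_sphere.1 hu]
    exact hr.2.le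
  refine ⟨dist (g u) (g z) / 2, half_pos hpos, (isBounded_ball (x := z) (r := r)).subset ?_⟩
  refine subset_of_disjoint_frontier isPreconnected_connectedComponentIn isOpen_ball
    ⟨z, mem_connectedComponentIn (mem_closedBall_self (half_pos hpos).le), mem_ball_self hr.1⟩ ?_
  rw [frontier_ball _ hr.1.ne', disjoint_left]
  intro v hv hv'
  have h1 : dist (g v) (g z) ≤ dist (g u) (g z) / 2 :=
    mem_closedBall.1 (mem_preimage.1 (connectedComponentIn_subset _ _ hv'))
  have h2 : dist (g u) (g z) ≤ dist (g v) (g z) := hmin hv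
  linarith

end Pool.Agent.Lib.MP_dbd176_an
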