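import Pool.Agent.Lib.MP_dbd176_an.Lift
import Pool.Agent.Lib.MP_dbd176_an.Jump

open Set Metric Filter Topology

namespace Pool.Agent.Lib.MP_dbd176_an

/-- The geometric core. `β` is an injective regular level arc of `12` turns starting at the
angle `θ₀` of `γ u₁`; `b j = β (θ₀ + 2 π j)`, `j = 0, …, 11`, lie over `γ u₁`; `c j` is the lift
of `γ` from `b j`; `x i = c (2 i) u₂`, `G = β '' [..] ∪ ⋃ c j '' [u₁, u₂)`.
Lifts from different `b j` are disjoint (`γ` injective, `lift_unique`, `β` injective).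
Let `F = closedBall 0 t ∪ γ '' [u₁, u₂]`; `exists_last_exit` gives `q ∈ F \ A` in
`closure (Out (F ∪ A))`; every point over `q` is in `closure (Out (g⁻¹ (F ∪ A)))`, and points of
`Out (g⁻¹ (F ∪ A))` have `t < ‖g‖`.
Fix `j < j'` even and suppose `c j u₂`, `c j' u₂` lie in one component `C` of `g⁻¹ A`. Let
`Λ = c j '' [u₁, u₂] ∪ C ∪ c j' '' [u₁, u₂]`, `K = Λ ∪ β '' [θ₀ + 2 π j, θ₀ + 2 π j']`, closed,
`K ⊆ g⁻¹ (F ∪ A)`. Claim: there is `θ ∈ [θ₀, θ₀ + 2 π)` such that for all odd `m ≤ 11`,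
`z m = β (θ + 2 π m) ∈ closure (Out K ∩ {t < ‖g‖})`. If `‖q‖ ≤ t` then `‖q‖ = t` (limit of
points outside the disc), take `θ` with `circleMap 0 t θ = q`. Otherwise `q = γ v`,
`u₁ < v < u₂`, take `θ = θ₀`: the connected set `c m '' (u₁, v]` misses `K` and its point `c m v`
is in `closure (Out K)`, so it lies in `Out K` (`subset_Out`).
Now `z 11 ∉ K`, so `z 11 ∈ Out K` (open) and `z 11 ∈ closure H`, so `H ⊆ Out K`; `jump_level` at
`z (j + 1)` gives the contradiction. -/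
theorem Ent.six_core {g : ℂ → ℂ} (hg : Ent g) {t : ℝ} (ht : 0 < t) (hreg : Reg g 0 t)
    {β : ℝ → ℂ} {θ₀ : ℝ} (hβ : IsArcLift g 0 t β θ₀ (θ₀ + 24 * Real.pi))
    (hinj : InjOn β (Icc θ₀ (θ₀ + 24 * Real.pi)))
    (hH : ∀ s ∈ Icc θ₀ (θ₀ + 24 * Real.pi),
      β s ∈ closure (connectedComponentIn {z | ‖g z‖ < t} 0))
    {A : Set ℂ} (hA : IsClosed A) (hAt : Disjoint (closedBall 0 t) A)
    {γ : ℝ → ℂ} {u₁ u₂ : ℝ} (hu : u₁ < u₂) (hγ : ContinuousOn γ (Icc u₁ u₂))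
    (hγi : InjOn γ (Icc u₁ u₂)) (hγ₁ : γ u₁ = circleMap 0 t θ₀)
    (hγt : ∀ u ∈ Ioc u₁ u₂, t < ‖γ u‖) (hγA : ∀ u ∈ Ico u₁ u₂, γ u ∉ A) (hγ₂ : γ u₂ ∈ A)
    (hγreg : ∀ z, ∀ u ∈ Icc u₁ u₂, g z = γ u → deriv g z ≠ 0) {ρ : ℝ}
    (hc : ∀ s ∈ Icc θ₀ (θ₀ + 24 * Real.pi), g (β s) = γ u₁ → ∃ c : ℝ → ℂ,
      ContinuousOn c (Icc u₁ u₂) ∧ c u₁ = β s ∧ ∀ u ∈ Icc u₁ u₂, g (c u) = γ u ∧ ‖c u‖ ≤ ρ)
    {Z : Set ℂ} (hZ : UC Z) (hZd : Disjoint Z (closedBall 0 t ∪ γ '' Icc u₁ u₂ ∪ A))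
    {p : ℝ → ℂ} (hp : Continuous p) (hp₀ : p 0 = 0) (hp₁ : p 1 ∈ Z) (hpA : ∀ v, p v ∉ A) :
    ∃ (G : Set ℂ) (x : Fin 6 → ℂ), IsPreconnected G ∧ Disjoint G (g ⁻¹' A) ∧
      (∀ i, x i ∈ g ⁻¹' A ∧ x i ∈ closure G ∧ ‖x i‖ ≤ ρ) ∧
      ∀ i j, i ≠ j → x j ∉ connectedComponentIn (g ⁻¹' A) (x i) := by
  have hπ := Real.pi_pos
  have hgc := hg.continuous
  have hmem : ∀ j : ℕ, j ≤ 12 → θ₀ + j * (2 * Real.pi) ∈ Icc θ₀ (θ₀ + 24 * Real.pi) := by
    intro j hj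
    have h1 : (j : ℝ) ≤ 12 := by exact_mod_cast hj
    have h2 : (0 : ℝ) ≤ j := Nat.cast_nonneg j
    constructor <;> nlinarith
  have hper : ∀ (θ : ℝ) (j : ℕ), circleMap 0 t (θ + j * (2 * Real.pi)) = circleMap 0 t θ :=
    fun θ j => (periodic_circleMap 0 t).nat_mul j θ
  have hex : ∀ j : ℕ, ∃ c : ℝ → ℂ, j ≤ 12 → ContinuousOn c (Icc u₁ u₂) ∧
      c u₁ = β (θ₀ + j * (2 * Real.pi)) ∧ ∀ u ∈ Icc u₁ u₂, g (c u) = γ u ∧ ‖c u‖ ≤ ρ := by
    intro j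
    by_cases hj : j ≤ 12
    · obtain ⟨c, hc'⟩ := hc _ (hmem j hj) (by rw [hβ.2 _ (hmem j hj), hper, hγ₁])
      exact ⟨c, fun _ => hc'⟩
    · exact ⟨fun _ => 0, fun h => absurd h hj⟩
  choose c hcj using hex
  have hl₁ : u₁ ∈ Icc u₁ u₂ := left_mem_Icc.2 hu.le
  have hl₂ : u₂ ∈ Icc u₁ u₂ := right_mem_Icc.2 hu.le
  have hβn : ∀ s ∈ Icc θ₀ (θ₀ + 24 * Real.pi), ‖g (β s)‖ = t := fun s hs => by
    simpa using hβ.norm_eq ht.le hs
  have hAn : ∀ w ∈ A, t < ‖w‖ := fun w hw => by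
    by_contra h
    exact disjoint_left.1 hAt (mem_closedBall_zero_iff.2 (not_lt.1 h)) hw
  have hγ₁n : ‖γ u₁‖ = t := by rw [hγ₁, norm_circleMap_zero, abs_of_pos ht]
  have hγn : ∀ u ∈ Icc u₁ u₂, t ≤ ‖γ u‖ := fun u hu' => by
    rcases hu'.1.eq_or_lt with h | h
    · rw [← h, hγ₁n]
    · exact (hγt u ⟨h, hu'.2⟩).le
  have D1 : ∀ j j', j ≤ 12 → j' ≤ 12 → ∀ u ∈ Icc u₁ u₂, ∀ u' ∈ Icc u₁ u₂, c j u = c j' u' →
      j = j' := by
    intro j j' hj hj' u hu1 u' hu2 he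
    have h1 : u = u' := hγi hu1 hu2 (by
      rw [← ((hcj j hj).2.2 u hu1).1, he, ((hcj j' hj').2.2 u' hu2).1])
    subst h1
    have h2 := lift_unique hg.diff isPreconnected_Icc (hcj j hj).1 (hcj j' hj').1
      (fun s hs => by rw [((hcj j hj).2.2 s hs).1, ((hcj j' hj').2.2 s hs).1])
      (fun s hs => hγreg _ s hs ((hcj j hj).2.2 s hs).1) hu1 he hl₁
    rw [(hcj j hj).2.1, (hcj j' hj').2.1] at h2
    have h3 := hinj (hmem j hj) (hmem j' hj') h2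
    have h4 : (j : ℝ) = j' := by
      have := add_left_cancel h3
      exact mul_right_cancel₀ (by positivity) this
    exact_mod_cast h4
  have D2 : ∀ j, j ≤ 12 → ∀ u ∈ Icc u₁ u₂, ∀ s ∈ Icc θ₀ (θ₀ + 24 * Real.pi), c j u = β s →
      u = u₁ := by
    intro j hj u hu1 s hs he
    by_contra h
    have h1 := hγt u ⟨lt_of_le_of_ne hu1.1 (Ne.symm h), hu1.2⟩
    rw [← ((hcj j hj).2.2 u hu1).1, he, hβn s hs] at h1
    exact lt_irrefl _ h1
  have D3 : ∀ j, j ≤ 12 → ∀ u ∈ Ico u₁ u₂, g (c j u) ∉ A := by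
    intro j hj u hu1
    rw [((hcj j hj).2.2 u (Ico_subset_Icc_self hu1)).1]
    exact hγA u hu1
  have D4 : ∀ s ∈ Icc θ₀ (θ₀ + 24 * Real.pi), g (β s) ∉ A := fun s hs h =>
    (hAn _ h).ne' (hβn s hs)
  have D5 : ∀ j, j ≤ 12 → g (c j u₂) ∈ A := fun j hj => by
    rw [((hcj j hj).2.2 u₂ hl₂).1]; exact hγ₂
  have hFc : IsClosed (closedBall (0 : ℂ) t ∪ γ '' Icc u₁ u₂) :=
    isClosed_closedBall.union (isCompact_Icc.image_of_continuousOn hγ).isClosed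
  obtain ⟨q, hqF, hqA, hq⟩ := exists_last_exit hFc hZ hZd hp
    (Or.inl (by rw [hp₀]; exact mem_closedBall_self ht.le)) hp₁ hpA
  have key : ∀ j j' : ℕ, j + 2 ≤ j' → j' ≤ 10 →
      c j' u₂ ∉ connectedComponentIn (g ⁻¹' A) (c j u₂) := by
    intro j j' hjj hj10 hcon
    have hj : j ≤ 12 := by omega
    have hj' : j' ≤ 12 := by omega
    set C := connectedComponentIn (g ⁻¹' A) (c j u₂) with hC
    have hCA : C ⊆ g ⁻¹' A := connectedComponentIn_subset _ _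
    set Λ := c j '' Icc u₁ u₂ ∪ C ∪ c j' '' Icc u₁ u₂ with hΛ
    have hΛc : IsClosed Λ :=
      ((isCompact_Icc.image_of_continuousOn (hcj j hj).1).isClosed.union
        (isClosed_connectedComponentIn (hA.preimage hgc) _)).union
        (isCompact_Icc.image_of_continuousOn (hcj j' hj').1).isClosed
    have hΛp : IsPreconnected Λ :=
      IsPreconnected.union (c j' u₂) (Or.inr hcon) ⟨u₂, hl₂, rfl⟩
        (IsPreconnected.union (c j u₂) ⟨u₂, hl₂, rfl⟩ (mem_connectedComponentIn (D5 j hj))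
          (isPreconnected_Icc.image _ (hcj j hj).1) isPreconnected_connectedComponentIn)
        (isPreconnected_Icc.image _ (hcj j' hj').1)
    have hsub : Icc (θ₀ + j * (2 * Real.pi)) (θ₀ + j' * (2 * Real.pi)) ⊆
        Icc θ₀ (θ₀ + 24 * Real.pi) := Icc_subset_Icc (hmem j hj).1 (hmem j' hj').2
    set K := Λ ∪ β '' Icc (θ₀ + j * (2 * Real.pi)) (θ₀ + j' * (2 * Real.pi)) with hK
    have hKc : IsClosed K :=
      hΛc.union (isCompact_Icc.image_of_continuousOn (hβ.1.mono hsub)).isClosed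
    have hKF : K ⊆ g ⁻¹' (closedBall (0 : ℂ) t ∪ γ '' Icc u₁ u₂ ∪ A) := by
      rintro _ (((⟨u, hu1, rfl⟩ | h) | ⟨u, hu1, rfl⟩) | ⟨s, hs, rfl⟩)
      · exact Or.inl (Or.inr ⟨u, hu1, ((hcj j hj).2.2 u hu1).1.symm⟩)
      · exact Or.inr (hCA h)
      · exact Or.inl (Or.inr ⟨u, hu1, ((hcj j' hj').2.2 u hu1).1.symm⟩)
      · exact Or.inl (Or.inl (mem_closedBall_zero_iff.2 (hβn s (hsub hs)).le))
    have hKn : ∀ z ∈ K, t ≤ ‖g z‖ := by
      rintro _ (((⟨u, hu1, rfl⟩ | h) | ⟨u, hu1, rfl⟩) | ⟨s, hs, rfl⟩)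
      · rw [((hcj j hj).2.2 u hu1).1]; exact hγn u hu1
      · exact (hAn _ (hCA h)).le
      · rw [((hcj j' hj').2.2 u hu1).1]; exact hγn u hu1
      · exact (hβn s (hsub hs)).ge
    have hOn : ∀ w ∈ Out (closedBall (0 : ℂ) t ∪ γ '' Icc u₁ u₂ ∪ A), t < ‖w‖ := fun w hw => by
      by_contra h
      exact notMem_of_mem_Out hw (Or.inl (Or.inl (mem_closedBall_zero_iff.2 (not_lt.1 h))))
    have E : ∀ z, g z = q → z ∈ closure (Out K ∩ {z | t < ‖g z - 0‖}) := by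
      intro z hz
      refine closure_mono ?_ (hg.mem_closure_preimage (hz ▸ hq))
      intro w hw
      refine ⟨Out_anti hKF (hg.preimage_Out _ hw), ?_⟩
      simpa using hOn _ hw
    have hβΛ : ∀ s ∈ Icc θ₀ (θ₀ + 24 * Real.pi), s ≠ θ₀ + j * (2 * Real.pi) →
        s ≠ θ₀ + j' * (2 * Real.pi) → β s ∉ Λ := by
      rintro s hs h1 h2 ((⟨u, hu1, he⟩ | h) | ⟨u, hu1, he⟩)
      · rw [D2 j hj u hu1 s hs he, (hcj j hj).2.1] at he
        exact h1 (hinj (hmem j hj) hs he).symm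
      · exact D4 s hs (hCA h)
      · rw [D2 j' hj' u hu1 s hs he, (hcj j' hj').2.1] at he
        exact h2 (hinj (hmem j' hj') hs he).symm
    obtain ⟨θ, hθ, hcl⟩ : ∃ θ ∈ Ico θ₀ (θ₀ + 2 * Real.pi), ∀ m : ℕ, m ≤ 11 → m ≠ j → m ≠ j' →
        β (θ + m * (2 * Real.pi)) ∈ closure (Out K ∩ {z | t < ‖g z - 0‖}) := by
      by_cases hqt : ‖q‖ ≤ t
      · have h1 : t ≤ ‖q‖ :=
          closure_minimal (fun w hw => (hOn w hw).le)
            (isClosed_le continuous_const continuous_norm) hq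
        have h2 : q ∈ range (circleMap 0 t) := by
          rw [range_circleMap, abs_of_pos ht, mem_sphere_zero_iff_norm]
          exact le_antisymm hqt h1
        obtain ⟨θ', rfl⟩ := h2
        obtain ⟨θ, hθ, he⟩ := (periodic_circleMap 0 t).exists_mem_Ico (by positivity) θ' θ₀
        refine ⟨θ, hθ, fun m hm _ _ => E _ ?_⟩
        have h3 : (m : ℝ) ≤ 11 := by exact_mod_cast hm
        have h4 : (0 : ℝ) ≤ m := Nat.cast_nonneg m
        rw [hβ.2 _ ⟨by nlinarith [hθ.1], by nlinarith [hθ.2]⟩, hper, he]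
      · obtain ⟨v, hv, rfl⟩ : q ∈ γ '' Icc u₁ u₂ :=
          hqF.resolve_left fun h => hqt (mem_closedBall_zero_iff.1 h)
        have hv1 : u₁ < v := lt_of_le_of_ne hv.1 (by rintro rfl; exact hqt hγ₁n.le)
        have hv2 : v < u₂ := lt_of_le_of_ne hv.2 (by rintro rfl; exact hqA hγ₂)
        refine ⟨θ₀, ⟨le_rfl, by linarith⟩, fun m hm h1 h2 => ?_⟩
        have hm' : m ≤ 12 := by omega
        have hs : Ioc u₁ v ⊆ Icc u₁ u₂ := fun u hu1 => ⟨hu1.1.le, hu1.2.trans hv.2⟩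
        have hd : Disjoint (c m '' Ioc u₁ v) K := by
          rw [disjoint_left]
          rintro _ ⟨u, hu1, rfl⟩ (((⟨u', hu2, he⟩ | h) | ⟨u', hu2, he⟩) | ⟨s, hs', he⟩)
          · exact h1 (D1 _ _ hj hm' _ hu2 _ (hs hu1) he).symm
          · exact D3 m hm' u ⟨hu1.1.le, hu1.2.trans_lt hv2⟩ (hCA h)
          · exact h2 (D1 _ _ hj' hm' _ hu2 _ (hs hu1) he).symm
          · exact hu1.1.ne' (D2 m hm' u (hs hu1) s (hsub hs') he.symm)
        have hP : c m '' Ioc u₁ v ⊆ Out K :=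
          subset_Out hKc (isPreconnected_Ioc.image _ ((hcj m hm').1.mono hs)) hd
            ⟨c m v, ⟨v, right_mem_Ioc.2 hv1, rfl⟩,
              closure_mono inter_subset_left (E _ ((hcj m hm').2.2 v hv).1)⟩
        rw [← (hcj m hm').2.1]
        have h3 : c m u₁ ∈ closure (c m '' Ioc u₁ v) :=
          (((hcj m hm').1 u₁ hl₁).mono hs).mem_closure_image (by
            rw [closure_Ioc hv1.ne]; exact left_mem_Icc.2 hv1.le)
        refine closure_mono ?_ h3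
        rintro _ ⟨u, hu1, rfl⟩
        refine ⟨hP ⟨u, hu1, rfl⟩, ?_⟩
        have := hγt u ⟨hu1.1, (hs hu1).2⟩
        rw [← ((hcj m hm').2.2 u (hs hu1)).1] at this
        simpa using this
    have hjr : (j : ℝ) + 2 ≤ j' := by exact_mod_cast hjj
    have hjr' : (j' : ℝ) ≤ 10 := by exact_mod_cast hj10
    have hj0 : (0 : ℝ) ≤ j := Nat.cast_nonneg j
    set H := connectedComponentIn {z | ‖g z‖ < t} 0 with hHdef
    have hHn : H ⊆ {z | ‖g z‖ < t} := connectedComponentIn_subset _ _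
    have hHO : H ⊆ Out K := by
      have h11 := hcl 11 le_rfl (by omega) (by omega)
      have hs : θ + (11 : ℕ) * (2 * Real.pi) ∈ Icc θ₀ (θ₀ + 24 * Real.pi) := by
        push_cast
        exact ⟨by nlinarith [hθ.1], by nlinarith [hθ.2]⟩
      have hgt : θ₀ + j' * (2 * Real.pi) < θ + (11 : ℕ) * (2 * Real.pi) := by
        push_cast
        nlinarith [hθ.1]
      have hnK : β (θ + (11 : ℕ) * (2 * Real.pi)) ∉ K := by
        rintro (h | ⟨s, hs', he⟩)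
        · exact hβΛ _ hs (by nlinarith) hgt.ne' h
        · have := hinj (hsub hs') hs he
          exact absurd hs'.2 (by rw [this]; exact not_le.2 hgt)
      have hO := mem_Out_of_mem_closure hKc hnK (closure_mono inter_subset_left h11)
      obtain ⟨w, hw1, hw2⟩ := mem_closure_iff.1 (hH _ hs) _ (isOpen_Out hKc) hO
      exact subset_Out hKc isPreconnected_connectedComponentIn
        (disjoint_left.2 fun z hz hzK => absurd (hHn hz) (not_lt.2 (hKn z hzK)))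
        ⟨w, hw2, subset_closure hw1⟩
    have h1 : θ₀ + j * (2 * Real.pi) < θ + (j + 1 : ℕ) * (2 * Real.pi) := by
      push_cast
      nlinarith [hθ.1]
    have h2 : θ + (j + 1 : ℕ) * (2 * Real.pi) < θ₀ + j' * (2 * Real.pi) := by
      push_cast
      nlinarith [hθ.2]
    have hs₀ := hsub ⟨h1.le, h2.le⟩
    refine jump_level hg.diff ht h1 h2 (hβ.mono (hmem j hj).1 (hmem j' hj').2)
      (hreg _ (hβ.norm_eq ht.le hs₀)) (fun s hs he => hinj (hsub hs) hs₀ he) hΛp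
      (Or.inl (Or.inl ⟨u₁, hl₁, (hcj j hj).2.1⟩)) (Or.inr ⟨u₁, hl₁, (hcj j' hj').2.1⟩) ?_ ?_
      (hcl (j + 1) (by omega) (by omega) (by omega))
    · rw [hΛc.closure_eq]
      exact hβΛ _ hs₀ h1.ne' h2.ne
    · refine closure_mono ?_ (hH _ hs₀)
      intro z hz
      refine ⟨hHO hz, ?_⟩
      simpa using hHn hz
  refine ⟨β '' Icc θ₀ (θ₀ + 24 * Real.pi) ∪ ⋃ j ∈ {j : ℕ | j ≤ 12}, c j '' Ico u₁ u₂,
    fun i => c (2 * i) u₂, ?_, ?_, fun i => ?_, fun i j hij => ?_⟩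
  · have hb : IsPreconnected (β '' Icc θ₀ (θ₀ + 24 * Real.pi)) := isPreconnected_Icc.image _ hβ.1
    have h0 : β θ₀ ∈ β '' Icc θ₀ (θ₀ + 24 * Real.pi) := ⟨θ₀, ⟨le_rfl, by linarith⟩, rfl⟩
    refine isPreconnected_of_forall (β θ₀) ?_
    rintro y (hy | hy)
    · exact ⟨_, subset_union_left, h0, hy, hb⟩
    · obtain ⟨j, hj, hy⟩ := mem_iUnion₂.1 hy
      refine ⟨β '' Icc θ₀ (θ₀ + 24 * Real.pi) ∪ c j '' Ico u₁ u₂,
        union_subset_union_right _ (subset_biUnion_of_mem (u := fun j => c j '' Ico u₁ u₂) hj),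
        Or.inl h0, Or.inr hy, IsPreconnected.union (c j u₁) ⟨_, hmem j hj, (hcj j hj).2.1.symm⟩
          ⟨u₁, left_mem_Ico.2 hu, rfl⟩ hb
          (isPreconnected_Ico.image _ ((hcj j hj).1.mono Ico_subset_Icc_self))⟩
  · rw [disjoint_left]
    rintro _ (⟨s, hs, rfl⟩ | hy)
    · exact D4 s hs
    · obtain ⟨j, hj, u, hu1, rfl⟩ := mem_iUnion₂.1 hy
      exact D3 j hj u hu1
  · have hi : 2 * (i : ℕ) ≤ 12 := by omega
    refine ⟨D5 _ hi, ?_, ((hcj _ hi).2.2 u₂ hl₂).2⟩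
    have h3 : c (2 * i) u₂ ∈ closure (c (2 * i) '' Ico u₁ u₂) :=
      (((hcj _ hi).1 u₂ hl₂).mono Ico_subset_Icc_self).mem_closure_image (by
        rw [closure_Ico hu.ne]; exact hl₂)
    exact closure_mono ((subset_biUnion_of_mem (u := fun j => c j '' Ico u₁ u₂)
      (show 2 * (i : ℕ) ∈ {j : ℕ | j ≤ 12} from hi)).trans subset_union_right) h3
  · have hne : (i : ℕ) ≠ j := fun h => hij (Fin.ext h)
    rcases lt_or_gt_of_ne hne with h | h
    · exact key _ _ (by omega) (by omega)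
    · intro hcon
      refine key (2 * j) (2 * i) (by omega) (by omega) ?_
      rw [← connectedComponentIn_eq hcon]
      exact mem_connectedComponentIn (D5 _ (by omega))

end Pool.Agent.Lib.MP_dbd176_an
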