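import Pool.Agent.Lib.MP_dbd176_an.Blow
import Pool.Agent.Lib.MP_dbd176_an.SixCore

open Set Metric Filter Topology

namespace Pool.Agent.Lib.MP_dbd176_an

theorem six_exists_angle {c w : ℂ} {τ : ℝ} (hw : ‖w - c‖ = τ) (θ : ℝ) :
    ∃ u ∈ Ico θ (θ + 2 * Real.pi), circleMap c τ u = w := by
  obtain ⟨u, hu, he⟩ := (periodic_circleMap c τ).exists_mem_Ico Real.two_pi_pos
    (Complex.arg (w - c)) θ
  refine ⟨u, hu, ?_⟩
  rw [← he, circleMap, ← hw, Complex.norm_mul_exp_arg_mul_I]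
  ring

theorem six_coinc {c : ℂ} {t s s' : ℝ} (ht : 0 < t) (h : circleMap c t s' = circleMap c t s)
    (hs : s - 2 * Real.pi < s') (hne : s' ≠ s) : ∃ n : ℕ, s' = s + 2 * Real.pi * (n + 1) := by
  obtain ⟨n, hn⟩ := (circleMap_eq_circleMap_iff c ht.ne').1 h
  have h1 : s' = s + n * (2 * Real.pi) := by
    have := congrArg Complex.im hn
    simpa using this
  have hpi := Real.pi_pos
  have h2 : (-1 : ℝ) < n := by
    by_contra k
    have : (n : ℝ) * (2 * Real.pi) ≤ -1 * (2 * Real.pi) :=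
      mul_le_mul_of_nonneg_right (not_lt.1 k) (by positivity)
    linarith
  have h3 : (-1 : ℤ) < n := by exact_mod_cast h2
  have h4 : n ≠ 0 := by
    rintro rfl
    simp at h1
    exact hne h1
  obtain ⟨m, rfl⟩ : ∃ m : ℕ, n = m + 1 := ⟨(n - 1).toNat, by omega⟩
  exact ⟨m, by rw [h1]; push_cast; ring⟩

theorem six_mem_Out_closedBall {t : ℝ} (ht : 0 ≤ t) {z : ℂ} (hz : t < ‖z‖) :
    z ∈ Out (closedBall (0 : ℂ) t) := by
  have h0 : z ≠ 0 := norm_pos_iff.1 (ht.trans_lt hz)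
  refine ⟨_, uc_ray z z h0, ⟨0, le_rfl, by simp⟩, disjoint_left.2 ?_⟩
  rintro w ⟨τ, hτ, rfl⟩ hw
  have e : z + τ * z = ((1 + τ : ℝ) : ℂ) * z := by push_cast; ring
  rw [mem_closedBall_zero_iff, e, norm_mul, Complex.norm_real,
    Real.norm_of_nonneg (by linarith)] at hw
  nlinarith [norm_nonneg z]

/-- A regular level arc in a disc not surrounding `0`, adjacent to the component `H` of `0` in
`{‖g‖ < t}`, is injective. If not, let `k ≥ 1` be minimal such that `β s₁ = β (s₁ + 2 π k)` for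
some `s₁` (a coincidence `β s = β s'` forces `s' - s ∈ 2 π ℤ`), `s₂ = s₁ + 2 π k`,
`s₀ = s₁ + π`. By minimality `β s ≠ β s₀` for `s ≠ s₀` in `[s₁, s₂]`. Apply `jump_level` with
`Λ = {β s₁}`, `K = β '' [s₁, s₂] ⊆ g⁻¹ (sphere 0 t)`. Outer access: `g (β s₀)` is a limit of
points `(1 + ε) g (β s₀) ∈ Out (closedBall 0 t)` (`uc_ray`), use `Ent.mem_closure_preimage` and
`Ent.preimage_Out`. Inner access: `H` misses `K` and `0 ∈ Out K` through the ray `- t z₀`
(if `z₀ = 0` the disc is empty), so `H ⊆ Out K` by `subset_Out`. -/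
theorem Ent.arc_injOn {g : ℂ → ℂ} (hg : Ent g) {t : ℝ} (ht : 0 < t) (hreg : Reg g 0 t)
    {β : ℝ → ℂ} {a b : ℝ} (hβ : IsArcLift g 0 t β a b) {z₀ : ℂ}
    (hball : ∀ s ∈ Icc a b, β s ∈ ball z₀ ‖z₀‖)
    (hH : ∀ s ∈ Icc a b, β s ∈ closure (connectedComponentIn {z | ‖g z‖ < t} 0)) :
    InjOn β (Icc a b) := by
  classical
  have hpi := Real.pi_pos
  have key : ¬ ∃ k : ℕ, ∃ s₁, a ≤ s₁ ∧ s₁ + 2 * Real.pi * (k + 1) ≤ b ∧
      β (s₁ + 2 * Real.pi * (k + 1)) = β s₁ := by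
    intro hex
    obtain ⟨s₁, ha, hb, he⟩ := Nat.find_spec hex
    have hmin := fun m => Nat.find_min hex (m := m)
    generalize Nat.find hex = k at hb he hmin
    have hk : (0 : ℝ) ≤ k := Nat.cast_nonneg k
    have hk' : 0 ≤ Real.pi * k := by positivity
    set s₂ := s₁ + 2 * Real.pi * (k + 1) with hs₂
    have h10 : s₁ < s₁ + Real.pi := by linarith
    have h02 : s₁ + Real.pi < s₂ := by rw [hs₂]; linarith
    have hβ' : IsArcLift g 0 t β s₁ s₂ := hβ.mono ha hb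
    have hsub : Icc s₁ s₂ ⊆ Icc a b := Icc_subset_Icc ha hb
    have m0 : s₁ + Real.pi ∈ Icc s₁ s₂ := ⟨h10.le, h02.le⟩
    have m1 : s₁ ∈ Icc s₁ s₂ := ⟨le_rfl, (h10.trans h02).le⟩
    have hinj : ∀ s ∈ Icc s₁ s₂, β s = β (s₁ + Real.pi) → s = s₁ + Real.pi := by
      intro s hs h
      by_contra hne
      obtain ⟨n, hn⟩ := six_coinc (c := 0) (s := s₁ + Real.pi) (s' := s) ht
        (by rw [← hβ'.2 s hs, ← hβ'.2 _ m0, h]) (by linarith [hs.1]) hne
      have h1 : (n : ℝ) < k := by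
        by_contra j
        have : Real.pi * k ≤ Real.pi * n := mul_le_mul_of_nonneg_left (not_lt.1 j) hpi.le
        have := hs.2
        rw [hs₂] at this
        linarith
      exact hmin n (by exact_mod_cast h1)
        ⟨s₁ + Real.pi, by linarith, hn ▸ (hsub hs).2, hn ▸ h⟩
    have hK : ({β s₁} : Set ℂ) ∪ β '' Icc s₁ s₂ = β '' Icc s₁ s₂ :=
      union_eq_self_of_subset_left (singleton_subset_iff.2 ⟨s₁, m1, rfl⟩)
    have hKn : ∀ z ∈ β '' Icc s₁ s₂, ‖g z‖ = t := by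
      rintro _ ⟨s, hs, rfl⟩
      simpa using hβ'.norm_eq ht.le hs
    have hKc : IsClosed (β '' Icc s₁ s₂) := (isCompact_Icc.image_of_continuousOn hβ'.1).isClosed
    refine jump_level hg.diff ht h10 h02 hβ' (hreg _ (hβ'.norm_eq ht.le m0)) hinj
      (Λ := {β s₁}) isPreconnected_singleton rfl he ?_ ?_ ?_
    · rw [closure_singleton]
      intro h
      exact h10.ne (hinj s₁ m1 (Eq.symm h))
    · rw [hK]
      have hcl := hH _ (hsub m0)
      refine closure_mono ?_ hcl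
      have h0 : (0 : ℂ) ∈ {z | ‖g z‖ < t} := by
        by_contra j
        rw [connectedComponentIn_eq_empty j, closure_empty] at hcl
        exact hcl
      have hz₀ : z₀ ≠ 0 := by
        rintro rfl
        simpa using hball _ (hsub m0)
      have hO : (0 : ℂ) ∈ Out (β '' Icc s₁ s₂) := by
        refine ⟨_, uc_ray 0 (-z₀) (neg_ne_zero.2 hz₀), ⟨0, le_rfl, by simp⟩, disjoint_left.2 ?_⟩
        rintro w ⟨τ, hτ, rfl⟩ ⟨s, hs, hw⟩
        have j := hball s (hsub hs)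
        have e : 0 + τ * -z₀ - z₀ = ((-(1 + τ) : ℝ) : ℂ) * z₀ := by push_cast; ring
        rw [hw, mem_ball_iff_norm, e, norm_mul, Complex.norm_real, norm_neg,
          Real.norm_of_nonneg (by linarith)] at j
        nlinarith [norm_nonneg z₀]
      refine subset_inter (subset_Out hKc isPreconnected_connectedComponentIn ?_
        ⟨0, mem_connectedComponentIn h0, subset_closure hO⟩) ?_
      · exact disjoint_left.2 fun z hz hz' =>
          ne_of_lt (mem_ofPred.1 (connectedComponentIn_subset {z | ‖g z‖ < t} 0 hz)) (hKn z hz')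
      · intro z hz
        simpa using connectedComponentIn_subset _ _ hz
    · rw [hK]
      have h1 : g (β (s₁ + Real.pi)) ∈ closure (Out (closedBall (0 : ℂ) t)) := by
        refine closure_mono (s := (closedBall (0 : ℂ) t)ᶜ) (fun z hz =>
          six_mem_Out_closedBall ht.le (by simpa using hz)) ?_
        rw [closure_compl, interior_closedBall _ ht.ne']
        simp [hKn _ ⟨_, m0, rfl⟩]
      refine closure_mono ?_ (hg.mem_closure_preimage h1)
      intro z hz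
      refine ⟨Out_anti ?_ (hg.preimage_Out _ hz), ?_⟩
      · intro w hw
        simp [hKn w hw]
      · simpa using notMem_of_mem_Out hz
  have aux : ∀ s ∈ Icc a b, ∀ s' ∈ Icc a b, s < s' → β s' ≠ β s := by
    intro s hs s' hs' hlt h
    obtain ⟨n, hn⟩ := six_coinc (c := 0) (s := s) (s' := s') ht
      (by rw [← hβ.2 s hs, ← hβ.2 s' hs', h]) (by linarith) hlt.ne'
    exact key ⟨n, s, hs.1, hn ▸ hs'.2, hn ▸ h⟩
  intro s hs s' hs' h
  rcases lt_trichotomy s s' with j | j | j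
  · exact absurd h.symm (aux s hs s' hs' j)
  · exact j
  · exact absurd h (aux s' hs' s hs j)

/-- The level arc. Put `s = M σ`, `T = 128 * 169 * π ^ 2 + 2`. `Ent.circ_disc` with `κ = 13`,
`z₀ = 0`, `δ = σ`, `lam = σ / 4`, `a = s exp (-T)`, `b = s / 2` gives a regular `t`. For large
`σ`, `M (σ / 2) ≤ s exp (-T) < t` (`IsTEF.maxMod_ratio`). Let `ζ` be a maximum point of radius
`σ`, and `z₀ = v ζ` with `v` the first parameter in `[0, 1]` with `‖f (v ζ)‖ = t`; then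
`σ / 2 ≤ ‖z₀‖ ≤ σ`, and `z₀ ∈ closure H`. Lift from `z₀` inside `ball z₀ (σ / 4)`; use
`inner_adj` (with `Ω = univ`) and `Ent.arc_injOn`. -/
theorem IsTEF.exists_level_arc {f : ℂ → ℂ} (hf : IsTEF f) :
    ∃ η σ₀ : ℝ, 0 < η ∧ 0 < σ₀ ∧ ∀ σ, σ₀ ≤ σ → ∃ (t θ : ℝ) (β : ℝ → ℂ),
      η * maxMod f σ < t ∧ t < maxMod f σ / 2 ∧ Reg f 0 t ∧
      IsArcLift f 0 t β θ (θ + 26 * Real.pi) ∧ InjOn β (Icc θ (θ + 26 * Real.pi)) ∧
      ∀ s ∈ Icc θ (θ + 26 * Real.pi), β s ∈ closure (connectedComponentIn {z | ‖f z‖ < t} 0) ∧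
        σ / 4 ≤ ‖β s‖ ∧ ‖β s‖ ≤ 2 * σ := by
  have hE := hf.ent
  have hpi := Real.pi_pos
  obtain ⟨T, hT⟩ : ∃ T : ℝ, T = 128 * 169 * Real.pi ^ 2 + 2 := ⟨_, rfl⟩
  have hT2 : 2 < T := by rw [hT]; nlinarith [sq_pos_of_pos hpi]
  obtain ⟨k, hk⟩ := pow_unbounded_of_one_lt (Real.exp T) (one_lt_two (α := ℝ))
  obtain ⟨r₀, hr₀, hrat⟩ := hf.maxMod_ratio k
  obtain ⟨R, hR⟩ := hf.exists_big
  refine ⟨Real.exp (-T), max (2 * r₀) R, Real.exp_pos _, lt_max_of_lt_right hR.1, fun σ hσ => ?_⟩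
  have hσR : R ≤ σ := le_of_max_le_right hσ
  have hσr : 2 * r₀ ≤ σ := le_of_max_le_left hσ
  have hσ0 : 0 < σ := hR.1.trans_le hσR
  have hs : 0 < maxMod f σ := hσ0.trans (hR.2 σ hσR)
  have hlog : Real.log (maxMod f σ / 2 / (Real.exp (-T) * maxMod f σ)) = T - Real.log 2 := by
    have : maxMod f σ / 2 / (Real.exp (-T) * maxMod f σ) = Real.exp T / 2 := by
      rw [Real.exp_neg]
      field_simp
    rw [this, Real.log_div (Real.exp_pos _).ne' two_ne_zero, Real.log_exp]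
  have hl2 : Real.log 2 ≤ 1 := by linarith [Real.log_le_sub_one_of_pos two_pos]
  have ha : 0 < Real.exp (-T) * maxMod f σ := by positivity
  have hab : Real.exp (-T) * maxMod f σ < maxMod f σ / 2 := by
    have h1 : 0 < Real.log (maxMod f σ / 2 / (Real.exp (-T) * maxMod f σ)) := by
      rw [hlog]; linarith
    exact (one_lt_div ha).1 ((Real.log_pos_iff (by positivity)).1 h1)
  obtain ⟨t, ⟨ht1, ht2⟩, hreg, hlift⟩ := hE.circ_disc 0 0 13 (δ := σ) (lam := σ / 4) ha hab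
    (by positivity) (by linarith) (by
      rw [hlog, hT]
      have : 0 < σ ^ 2 := by positivity
      push_cast
      nlinarith)
  have ht : 0 < t := ha.trans ht1
  have hhalf : maxMod f (σ / 2) < t := by
    have h1 := hrat (σ / 2) σ (by linarith) (by linarith)
    have h2 : σ / (σ / 2) = 2 := by field_simp
    rw [h2] at h1
    have h3 := maxMod_nonneg hf.1 (r := σ / 2) (by positivity)
    have h4 : maxMod f (σ / 2) * Real.exp T ≤ maxMod f σ :=
      (mul_le_mul_of_nonneg_left hk.le h3).trans h1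
    refine lt_of_le_of_lt ?_ ht1
    rw [Real.exp_neg, inv_mul_eq_div, le_div_iff₀ (Real.exp_pos _)]
    exact h4
  have hO : IsOpen {z | ‖f z‖ < t} := isOpen_lt hE.continuous.norm continuous_const
  have h0 : (0 : ℂ) ∈ {z | ‖f z‖ < t} :=
    (norm_le_maxMod hf.1 (r := σ / 2) (by simp; positivity)).trans_lt hhalf
  obtain ⟨ζ, hζ, hζ'⟩ := exists_norm_eq_maxMod hE.continuous hσ0.le
  obtain ⟨z₀, hz₀, hz₀'⟩ : (frontier (connectedComponentIn {z | ‖f z‖ < t} 0) ∩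
      closedBall (0 : ℂ) σ).Nonempty := by
    by_contra j
    have h1 := subset_of_disjoint_frontier (convex_closedBall (0 : ℂ) σ).isPreconnected
      hO.connectedComponentIn ⟨0, mem_closedBall_self hσ0.le, mem_connectedComponentIn h0⟩
      (disjoint_iff_inter_eq_empty.2 (not_nonempty_iff_eq_empty.1 j))
    have h2 : ‖f ζ‖ < t :=
      connectedComponentIn_subset {z | ‖f z‖ < t} 0 (h1 (mem_closedBall_zero_iff.2 hζ.le))
    linarith
  have hcl : z₀ ∈ closure (connectedComponentIn {z | ‖f z‖ < t} 0) := frontier_subset_closure hz₀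
  have hn : ‖f z₀‖ = t := by
    refine le_antisymm ?_ (not_lt.1 (disjoint_left.1 (disjoint_frontier_comp hO 0) hz₀))
    exact closure_minimal (t := {z | ‖f z‖ ≤ t})
      ((connectedComponentIn_subset {z | ‖f z‖ < t} 0).trans fun z hz =>
        mem_ofPred.2 (le_of_lt (mem_ofPred.1 hz)))
      (isClosed_le hE.continuous.norm continuous_const) hcl
  have hz1 : σ / 2 < ‖z₀‖ := by
    by_contra j
    linarith [norm_le_maxMod hf.1 (not_lt.1 j)]
  have hz2 : ‖z₀‖ ≤ σ := mem_closedBall_zero_iff.1 hz₀'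
  obtain ⟨θ, -, hθ⟩ := six_exists_angle (c := 0) (w := f z₀) (τ := t) (by simpa using hn) 0
  obtain ⟨β, hβ, hβ0, hβb⟩ := hlift z₀ hz₀' θ hθ.symm
  have e : θ + 2 * Real.pi * (13 : ℕ) = θ + 26 * Real.pi := by push_cast; ring
  rw [e] at hβ hβb
  have hH : ∀ s ∈ Icc θ (θ + 26 * Real.pi),
      β s ∈ closure (connectedComponentIn {z | ‖f z‖ < t} 0) := by
    intro s hs'
    have := inner_adj hf.1 (c := 0) ht isPreconnected_Icc hβ.1 (fun s hs => hβ.norm_eq ht.le hs)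
      (fun s hs => hreg _ (hβ.norm_eq ht.le hs)) isOpen_univ (fun _ _ => mem_univ _) (p := 0)
      (s := θ) (s' := s) ⟨le_rfl, by linarith⟩ hs' (by simpa [hβ0] using hcl)
    simpa using this
  refine ⟨t, θ, β, ht1, ht2, hreg, hβ, hE.arc_injOn ht hreg hβ (z₀ := z₀)
    (fun s hs => ball_subset_ball (by linarith) (hβb s hs)) hH, fun s hs => ⟨hH s hs, ?_, ?_⟩⟩
  · have h1 := mem_ball_iff_norm.1 (hβb s hs)
    have h2 := norm_sub_norm_le z₀ (β s)
    rw [norm_sub_rev] at h2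
    linarith
  · have h1 := mem_ball_iff_norm.1 (hβb s hs)
    have h2 := norm_sub_norm_le (β s) z₀
    linarith

/-- Six different components of `A_σ` near the origin. Put `s = M σ`, `A = A_s`, so
`A_σ = f⁻¹ A`. Take the level arc, and `y ∈ A` with `‖y‖ = 4 s` (`IsTEF.levelSet_meets`,
`Ent.uc_levelSet'`, `UC.meets_sphere`). `Ent.circ_annulus` with centre `y`, `a = 4 s - t`,
`b = 4 s`, `r₁ = σ / 4`, `r₂ = 2 σ`, and `K` with `8 π ^ 2 < log K * η / 4`
(`log (b / a) ≥ t / (4 s) ≥ η / 4`) gives `τ`. With `γ = circleMap y τ`, pick `u₀` with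
`‖γ u₀‖ = 4 s - τ < t`; `γ` meets `A` in `(u₀, u₀ + 2 π)` (the component of `y` in `A` meets the
circle); `u₂` is the first such time, `u₁` the last time in `[u₀, u₂]` with `‖γ‖ ≤ t`.
Choose `θ₀ ∈ [θ, θ + 2 π)` with `γ u₁ = circleMap 0 t θ₀`. For `s` large, `Γ` meets `ball 0 s`,
so `Γ ∪ ball 0 s` lies in the component of `0` in the open set `Aᶜ`; `Z` is an unbounded
component of `Γ \ ball 0 (9 s)` (`UC.exists_diff`). Apply `Ent.six_core` with `ρ = 2 K σ`. -/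
theorem IsTEF.six_components {f : ℂ → ℂ} (hf : IsTEF f) {R : ℝ} (hR : Big f R) {Γ : Set ℂ}
    (hΓ : UC Γ) (hΓA : Disjoint Γ (levelSet f R)) :
    ∃ K' σ₀ : ℝ, 1 ≤ K' ∧ ∀ σ, σ₀ ≤ σ → ∃ (G : Set ℂ) (x : Fin 6 → ℂ), IsPreconnected G ∧
      Disjoint G (levelSet f σ) ∧
      (∀ i, x i ∈ levelSet f σ ∧ x i ∈ closure G ∧ ‖x i‖ ≤ K' * σ) ∧
      ∀ i j, i ≠ j → x j ∉ connectedComponentIn (levelSet f σ) (x i) := by
  have hE := hf.ent
  have hpi := Real.pi_pos
  obtain ⟨η, σ₀, hη, hσ₀, harc⟩ := hf.exists_level_arc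
  obtain ⟨ρ₀, hρ₀⟩ := hf.levelSet_meets
  obtain ⟨x₀, hx₀⟩ := hΓ.nonempty
  obtain ⟨K, hK1, hKl⟩ : ∃ K : ℝ, 1 < K ∧ 8 * Real.pi ^ 2 ≤ Real.log K * (η / 4) := by
    refine ⟨Real.exp (32 * Real.pi ^ 2 / η), Real.one_lt_exp_iff.2 (by positivity), ?_⟩
    rw [Real.log_exp]
    field_simp
    norm_num
  refine ⟨K * 2, max (max σ₀ R) (max ρ₀ ‖x₀‖), by linarith, fun σ hσ => ?_⟩
  have hσ1 : σ₀ ≤ σ := le_of_max_le_left (le_of_max_le_left hσ)
  have hσ2 : R ≤ σ := le_of_max_le_right (le_of_max_le_left hσ)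
  have hσ3 : ρ₀ ≤ σ := le_of_max_le_left (le_of_max_le_right hσ)
  have hσ4 : ‖x₀‖ ≤ σ := le_of_max_le_right (le_of_max_le_right hσ)
  have hσ0 : 0 < σ := hσ₀.trans_le hσ1
  have hpre : f ⁻¹' levelSet f (maxMod f σ) = levelSet f σ := by
    simpa using hE.preimage_levelSet σ 1
  obtain ⟨t, θ, β, ht1, ht2, hreg, hβ, hinj, hβH⟩ := harc σ hσ1
  have hσs : σ < maxMod f σ := hR.2 σ hσ2
  generalize maxMod f σ = s at hpre ht1 ht2 hσs
  have hs : 0 < s := hσ0.trans hσs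
  have ht : 0 < t := (mul_pos hη hs).trans ht1
  have hAc : IsClosed (levelSet f s) := isClosed_levelSet hE.continuous s
  have hΓA' : Disjoint Γ (levelSet f s) :=
    hΓA.mono_right (levelSet_anti hf.1 hR.1.le (hσ2.trans hσs.le))
  obtain ⟨y, hyA, hy⟩ : ∃ y ∈ levelSet f s, ‖y‖ = 4 * s := by
    obtain ⟨x, hx, hx'⟩ := hρ₀ s (hσ3.trans hσs.le)
    obtain ⟨y, h1, h2⟩ := (hE.uc_levelSet' hx).meets_sphere (c := 0) (τ := 4 * s)
      (mem_connectedComponentIn hx) (by simpa using hx')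
    exact ⟨y, connectedComponentIn_subset _ _ h1, by simpa using h2⟩
  have ha : 0 < 4 * s - t := by linarith
  obtain ⟨τ, ⟨hτ1, hτ2⟩, hregτ, hlift⟩ := hE.circ_annulus y (b := 4 * s) (r₁ := σ / 4)
    (r₂ := 2 * σ) ha (by linarith) (by positivity) (by linarith) hK1 (by
      refine hKl.trans_lt (mul_lt_mul_of_pos_left ?_ (Real.log_pos hK1))
      refine lt_of_lt_of_le ?_ (Real.one_sub_inv_le_log_of_pos (by positivity))
      have : 1 - (4 * s / (4 * s - t))⁻¹ = t / s / 4 := by field_simp; ring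
      rw [this]
      have := (lt_div_iff₀ hs).2 ht1
      linarith)
  have hτ : 0 < τ := ha.trans hτ1
  have hγc : Continuous (circleMap y τ) := continuous_circleMap y τ
  have hγn : ∀ u, ‖circleMap y τ u - y‖ = τ := fun u => by
    rw [circleMap_sub_center, norm_circleMap_zero, abs_of_pos hτ]
  obtain ⟨u₀, hu₀⟩ : ∃ u₀, ‖circleMap y τ u₀‖ < t := by
    obtain ⟨u, -, hu⟩ := six_exists_angle (c := y) (w := ((1 - τ / (4 * s) : ℝ) : ℂ) * y) (τ := τ)
      (by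
        have e : ((1 - τ / (4 * s) : ℝ) : ℂ) * y - y = ((-(τ / (4 * s)) : ℝ) : ℂ) * y := by
          push_cast; ring
        rw [e, norm_mul, Complex.norm_real, norm_neg, Real.norm_of_nonneg (by positivity), hy]
        field_simp) 0
    refine ⟨u, ?_⟩
    have h1 : 0 ≤ 1 - τ / (4 * s) := by
      rw [sub_nonneg, div_le_one (by positivity)]
      exact hτ2.le
    have h2 : (1 - τ / (4 * s)) * (4 * s) = 4 * s - τ := by field_simp
    rw [hu, norm_mul, Complex.norm_real, Real.norm_of_nonneg h1, hy, h2]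
    linarith
  obtain ⟨u₃, hu₃, hu₃A⟩ : ∃ u ∈ Ico u₀ (u₀ + 2 * Real.pi), circleMap y τ u ∈ levelSet f s := by
    obtain ⟨w, h1, h2⟩ := (hE.uc_levelSet' hyA).meets_sphere (c := y) (τ := τ)
      (mem_connectedComponentIn hyA) (by simpa using hτ.le)
    obtain ⟨u, hu, he⟩ := six_exists_angle h2 u₀
    exact ⟨u, hu, he ▸ connectedComponentIn_subset _ _ h1⟩
  obtain ⟨u₂, ⟨hu₂, hu₂A⟩, hu₂m⟩ := (isCompact_Icc.inter_right (hAc.preimage hγc)).exists_isLeast
    ⟨u₃, ⟨hu₃.1, le_rfl⟩, hu₃A⟩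
  have hts : t < ‖circleMap y τ u₂‖ := by linarith [le_norm_of_mem_levelSet hu₂A]
  obtain ⟨u₁, ⟨hu₁, hu₁t⟩, hu₁m⟩ := ((isCompact_Icc (a := u₀) (b := u₂)).inter_right
    (isClosed_le hγc.norm (continuous_const (y := t)))).exists_isGreatest
    ⟨u₀, ⟨le_rfl, hu₂.1⟩, hu₀.le⟩
  have hu₁t' : ‖circleMap y τ u₁‖ ≤ t := hu₁t
  have hu : u₁ < u₂ := lt_of_le_of_ne hu₁.2 fun j => by rw [j] at hu₁t'; linarith
  have hγt : ∀ u ∈ Ioc u₁ u₂, t < ‖circleMap y τ u‖ := fun u h => by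
    by_contra j
    exact h.1.not_ge (hu₁m ⟨⟨hu₁.1.trans h.1.le, h.2⟩, not_lt.1 j⟩)
  have hu₁e : ‖circleMap y τ u₁‖ = t := by
    obtain ⟨u, h1, h2⟩ := intermediate_value_Icc hu.le hγc.norm.continuousOn ⟨hu₁t', hts.le⟩
    rcases h1.1.eq_or_lt with j | j
    · rw [j]
      exact h2
    · exact absurd h2 (hγt u ⟨j, h1.2⟩).ne'
  have hu21 : u₂ < u₁ + 2 * Real.pi := by linarith [hu₂.2, hu₃.2, hu₁.1]
  obtain ⟨θ₀, hθ₀, hθ₀e⟩ := six_exists_angle (c := 0) (w := circleMap y τ u₁) (τ := t)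
    (by simpa using hu₁e) θ
  have hθ₁ : θ₀ + 24 * Real.pi ≤ θ + 26 * Real.pi := by linarith [hθ₀.2]
  have hsub : Icc θ₀ (θ₀ + 24 * Real.pi) ⊆ Icc θ (θ + 26 * Real.pi) := Icc_subset_Icc hθ₀.1 hθ₁
  have hx₀s : x₀ ∈ ball (0 : ℂ) s := mem_ball_zero_iff.2 (hσ4.trans_lt hσs)
  obtain ⟨x, hx, hZ⟩ := hΓ.exists_diff (D := ball 0 (9 * s)) isOpen_ball isBounded_ball
    ⟨x₀, hx₀, ball_subset_ball (by linarith) hx₀s⟩
  have hxD : x ∈ Γ \ ball 0 (9 * s) := ⟨hx.1, fun j => by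
    have := hx.2
    rw [isOpen_ball.frontier_eq] at this
    exact this.2 j⟩
  have hΓO : Γ ∪ ball 0 s ⊆ connectedComponentIn (levelSet f s)ᶜ 0 := by
    refine (hΓ.conn.union x₀ hx₀ hx₀s (convex_ball _ _).isPreconnected).subset_connectedComponentIn
      (Or.inr (mem_ball_self hs)) (union_subset hΓA'.subset_compl_right fun z hz j => ?_)
    exact (mem_ball_zero_iff.1 hz).not_ge (le_norm_of_mem_levelSet j)
  obtain ⟨p, hp, hp0, hp1, hpA⟩ := exists_path_of_isOpen hAc.isOpen_compl.connectedComponentIn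
    isPreconnected_connectedComponentIn (hΓO (Or.inr (mem_ball_self hs))) (hΓO (Or.inl hx.1))
  have main := hE.six_core ht hreg (hβ.mono hθ₀.1 hθ₁) (hinj.mono hsub)
    (fun s hs => (hβH s (hsub hs)).1) hAc
    (disjoint_left.2 fun z hz j => by
      linarith [mem_closedBall_zero_iff.1 hz, le_norm_of_mem_levelSet j])
    hu hγc.continuousOn
    (fun u h u' h' j => eq_of_circleMap_eq hτ.ne'
      (abs_lt.2 ⟨by linarith [h.1, h'.2], by linarith [h.2, h'.1]⟩) j)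
    hθ₀e.symm hγt
    (fun u h j => h.2.not_ge (hu₂m ⟨⟨hu₁.1.trans h.1, h.2.le.trans hu₂.2⟩, j⟩)) hu₂A
    (fun z u _ j => hregτ z (by rw [j, hγn])) (ρ := K * 2 * σ)
    (fun s' hs' j => by
      obtain ⟨c, hc, hc0, hcb⟩ := hlift (β s') (hβH s' (hsub hs')).2.1 (hβH s' (hsub hs')).2.2 u₁ j
      have hc' := hc.mono le_rfl hu21.le
      exact ⟨c, hc'.1, hc0, fun u h => ⟨hc'.2 u h,
        by linarith [(hcb u ⟨h.1, h.2.trans hu21.le⟩).2]⟩⟩)
    hZ (disjoint_left.2 fun z hz j => by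
      have h1 := connectedComponentIn_subset _ _ hz
      have h2 : 9 * s ≤ ‖z‖ := not_lt.1 fun k => h1.2 (mem_ball_zero_iff.2 k)
      rcases j with (j | ⟨u, -, rfl⟩) | j
      · linarith [mem_closedBall_zero_iff.1 j]
      · linarith [norm_sub_norm_le (circleMap y τ u) y, hγn u]
      · exact disjoint_left.1 hΓA' h1.1 j)
    hp hp0 (by rw [hp1]; exact mem_connectedComponentIn hxD)
    fun v => connectedComponentIn_subset _ _ (hpA v)
  rwa [hpre] at main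

end Pool.Agent.Lib.MP_dbd176_an
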