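import Pool.Agent.Lib.MP_dbd176_an.Blow

open Set Metric Filter Topology

namespace Pool.Agent.Lib.MP_dbd176_an

variable {f : ℂ → ℂ}

/-- One step of the construction. Let `w ∈ frontier (f^{-l} A_ρ)`, `σ n = M^n ρ`, `K` from
`IsTEF.blowup_cover`, used with `Q = 1 / K`: for large `n` a circle of radius
`τ ∈ (σ n / K, σ n)` is covered by `f^[n + l] '' ball w δ'`. For `i : Bool`, `EBig` gives a good
point of `U i` on that circle with all iterates `≥ r'`; its preimage `w'` is good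
(`Good.of_iter`). For large `n`, `σ n / K ≥ σ (n - 1)` (`IsTEF.tendsto_maxMod_div` with `k = 1`),
so `σ m ≤ ‖f^[m + l + 1] w'‖` for `m ≤ n - 1` (`Ent.le_norm_iter_of_le` at the point
`f^[l + 1] w'`). Choose first `n'` with `r < σ m` for `m ≥ n'`, and `δ' ≤ δ` such that
`r < ‖f^[k]‖` on `ball w δ'` for `n₀ ≤ k ≤ n' + l + 1` (continuity). -/
theorem IsTEF.step (hf : IsTEF f) {R : ℝ} (hR : Big f R) {U : Bool → Set ℂ}
    (hU : ∀ i, EBig f R (U i)) {w : ℂ} (hw : Good f R w) {δ : ℝ} (hδ : 0 < δ) {n₀ : ℕ} {r : ℝ}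
    (hr : ∀ k, n₀ ≤ k → r < ‖f^[k] w‖) (r' : ℝ) :
    ∃ N, n₀ < N ∧ ∀ i : Bool, ∃ w' ∈ ball w δ, Good f R w' ∧ f^[N] w' ∈ U i ∧
      (∀ k, n₀ ≤ k → k ≤ N → r < ‖f^[k] w'‖) ∧ ∀ k, N ≤ k → r' < ‖f^[k] w'‖ := by
  obtain ⟨l, ρ, hRρ, hw⟩ := hw
  have hρ : Big f ρ := hR.mono hRρ
  have he := hf.ent
  have hσ := hρ.tendsto_iter hf.1
  obtain ⟨n', hn'⟩ := eventually_atTop.1 (hσ.eventually_gt_atTop r)
  have hO : IsOpen (⋂ k ∈ Icc n₀ (n' + l + 1), {z | r < ‖f^[k] z‖}) :=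
    (finite_Icc _ _).isOpen_biInter fun k _ =>
      isOpen_lt continuous_const (he.iterate k).continuous.norm
  obtain ⟨δ₁, hδ₁, hb⟩ := Metric.isOpen_iff.1 hO w (mem_iInter₂.2 fun k hk => hr k hk.1)
  obtain ⟨K, hK, hcov⟩ := hf.blowup_cover
  have hK0 : 0 < K := by linarith
  obtain ⟨N₁, hN₁⟩ := hcov hρ hw (lt_min hδ hδ₁) (one_div_pos.2 hK0)
  choose x hx using fun i => hU i (r' + 1)
  have h1 := hσ.eventually ((hf.tendsto_maxMod_div 1).eventually_ge_atTop K)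
  obtain ⟨n, ⟨⟨⟨h2, h3⟩, h4⟩, h5⟩, h6⟩ := ((((h1.and (hσ.eventually_ge_atTop (x true))).and
    (hσ.eventually_ge_atTop (x false))).and (eventually_ge_atTop N₁)).and
    (eventually_ge_atTop n₀)).exists
  obtain ⟨τ, hτ, hsub⟩ := hN₁ (n + 1) (by omega)
  have hpos : 0 < (maxMod f)^[n] ρ := (hρ.iter n).1
  have hτ1 : (maxMod f)^[n] ρ ≤ τ := by
    refine le_trans ?_ hτ.1.le
    rw [Function.iterate_succ_apply', one_div, inv_mul_eq_div, le_div_iff₀ hK0, mul_comm]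
    rwa [pow_one, le_div_iff₀ hpos] at h2
  refine ⟨n + 1 + l, by omega, fun i => ?_⟩
  obtain ⟨w'', hw1, hw2, hw3, hw4⟩ := hx i τ (le_trans (by cases i <;> assumption) hτ1)
  obtain ⟨w', hw', rfl⟩ := hsub (mem_sphere_zero_iff_norm.2 hw3)
  refine ⟨w', ball_subset_ball (min_le_left _ _) hw', hw2.of_iter he, hw1, fun k hk1 hk2 => ?_,
    fun k hk => ?_⟩
  · by_cases hk : k ≤ n' + l + 1
    · exact mem_iInter₂.1 (hb (ball_subset_ball (min_le_right _ _) hw')) k ⟨hk1, hk⟩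
    · obtain ⟨m, rfl⟩ : ∃ m, k = m + (l + 1) := ⟨k - (l + 1), by omega⟩
      rw [Function.iterate_add_apply]
      refine (hn' m (by omega)).trans_le (he.le_norm_iter_of_le (n := n) (by omega) ?_)
      rw [← Function.iterate_add_apply, show n + (l + 1) = n + 1 + l by omega, hw3]
      exact hτ1
  · obtain ⟨m, rfl⟩ : ∃ m, k = m + (n + 1 + l) := ⟨k - (n + 1 + l), by omega⟩
    rw [Function.iterate_add_apply]
    linarith [hw4 m]

/-- Step A. Suppose countably many components: `countable_components_iff` gives a sequence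
`c j` of points of `I` (`I ≠ ∅`) such that each `z ∈ I` lies in the component of some `c j`.
Build by recursion good points `w j`, times `n j` (strictly increasing) and radii `δ j > 0` with
`j < ‖f^[k] (w j)‖` for `k ≥ n j`, nested closed discs `D j = closedBall (w j) (δ j)`,
`j < ‖f^[k]‖` on `D (j + 1)` for `n j ≤ k ≤ n (j + 1)`, and `f^[n (j + 1)] '' D (j + 1)` inside
the open set `U i` not containing `f^[n (j + 1)] (c j)`. A point `z` of all discs escapes, and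
lies in the component `C` of some `c j`; the connected set `f^[n (j + 1)] '' C ⊆ I` meets both
`U₀` and `U₁`, absurd (`Split.subset_left`). -/
theorem IsTEF.stepA (hf : IsTEF f) {R : ℝ} (hR : Big f R) {U₀ U₁ : Set ℂ}
    (hs : Split (escaping f) U₀ U₁) (h₀ : EBig f R U₀) (h₁ : EBig f R U₁) :
    ¬ Countable (ConnectedComponents (escaping f)) := by
  intro hcount
  have he := hf.ent
  obtain ⟨B, hBc, hBI, hB⟩ := countable_components_iff.1 hcount
  obtain ⟨x, hx⟩ := h₀ 1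
  obtain ⟨w₀, -, hw₀, -, hw₀'⟩ := hx x le_rfl
  have hBne : B.Nonempty := by
    obtain ⟨b, hb, -⟩ := hB w₀ (hR.fastEsc_subset_escaping hf.1 (hw₀.mem_fastEsc he hR))
    exact ⟨b, hb⟩
  obtain ⟨c, rfl⟩ := hBc.exists_eq_range hBne
  let U : Bool → Set ℂ := fun i => cond i U₀ U₁
  have hU : ∀ i, EBig f R (U i) := fun i => by cases i <;> assumption
  have hUo : ∀ i, IsOpen (U i) := fun i => by
    cases i
    · exact hs.o₁
    · exact hs.o₀
  let P : ℕ → ℂ × ℕ × ℝ → Prop := fun j s =>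
    Good f R s.1 ∧ 0 < s.2.2 ∧ ∀ k, s.2.1 ≤ k → (j : ℝ) < ‖f^[k] s.1‖
  let Q : ℕ → ℂ × ℕ × ℝ → ℂ × ℕ × ℝ → Prop := fun j s s' =>
    s.2.1 < s'.2.1 ∧ closedBall s'.1 s'.2.2 ⊆ closedBall s.1 s.2.2 ∧
      (∀ z ∈ closedBall s'.1 s'.2.2, ∀ k, s.2.1 ≤ k → k ≤ s'.2.1 → (j : ℝ) < ‖f^[k] z‖) ∧
      ∃ i, f^[s'.2.1] (c j) ∉ U i ∧ ∀ z ∈ closedBall s'.1 s'.2.2, f^[s'.2.1] z ∈ U i
  have hstep : ∀ j s, P j s → ∃ s', P (j + 1) s' ∧ Q j s s' := by
    rintro j ⟨w, n, δ⟩ ⟨h1, h2, h3⟩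
    obtain ⟨N, hN, hi⟩ := hf.step hR hU h1 (half_pos h2) h3 ((j + 1 : ℕ) : ℝ)
    obtain ⟨i, hi'⟩ : ∃ i, f^[N] (c j) ∉ U i := by
      by_cases h : f^[N] (c j) ∈ U₀
      · exact ⟨false, fun h' => disjoint_left.1 hs.disj h h'⟩
      · exact ⟨true, h⟩
    obtain ⟨w', hw', g1, g2, g3, g4⟩ := hi i
    have hO : IsOpen ((f^[N] ⁻¹' U i ∩ ⋂ k ∈ Icc n N, {z | (j : ℝ) < ‖f^[k] z‖}) ∩
        ball w (δ / 2)) :=
      (((hUo i).preimage (he.iterate N).continuous).inter
        ((finite_Icc _ _).isOpen_biInter fun k _ =>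
          isOpen_lt continuous_const (he.iterate k).continuous.norm)).inter isOpen_ball
    obtain ⟨δ', hδ', hb⟩ := nhds_basis_closedBall.mem_iff.1
      (hO.mem_nhds ⟨⟨g2, mem_iInter₂.2 fun k hk => g3 k hk.1 hk.2⟩, hw'⟩)
    exact ⟨(w', N, δ'), ⟨g1, hδ', g4⟩, hN, fun z hz =>
      ball_subset_closedBall (ball_subset_ball (half_le_self h2.le) (hb hz).2),
      fun z hz k hk1 hk2 => mem_iInter₂.1 (hb hz).1.2 k ⟨hk1, hk2⟩, i, hi', fun z hz => (hb hz).1.1⟩
  choose! g hg using hstep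
  let sq : ℕ → ℂ × ℕ × ℝ := fun j => Nat.rec (w₀, 0, 1) (fun j s => g j s) j
  have hP : ∀ j, P j (sq j) := by
    intro j
    induction j with
    | zero => exact ⟨hw₀, one_pos, fun k _ => by
        rw [Nat.cast_zero]; exact one_pos.trans_le (hw₀' k)⟩
    | succ j ih => exact (hg j _ ih).1
  have hQ : ∀ j, Q j (sq j) (sq (j + 1)) := fun j => (hg j _ (hP j)).2
  obtain ⟨z, hz⟩ := IsCompact.nonempty_iInter_of_sequence_nonempty_isCompact_isClosed
    (fun j => closedBall (sq j).1 (sq j).2.2) (fun j => (hQ j).2.1)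
    (fun j => nonempty_closedBall.2 (hP j).2.1.le) (isCompact_closedBall _ _)
    fun j => isClosed_closedBall
  rw [mem_iInter] at hz
  have hzI : z ∈ escaping f := by
    refine tendsto_atTop.2 fun b => ?_
    obtain ⟨j₀, hj₀⟩ := exists_nat_ge b
    refine eventually_atTop.2 ⟨(sq j₀).2.1, fun k hk => ?_⟩
    obtain ⟨j, hj, h1, h2⟩ : ∃ j, j₀ ≤ j ∧ (sq j).2.1 ≤ k ∧ k ≤ (sq (j + 1)).2.1 := by
      induction k, hk using Nat.le_induction with
      | base => exact ⟨j₀, le_rfl, le_rfl, (hQ j₀).1.le⟩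
      | succ k _ ih =>
        obtain ⟨j, hj, h1, h2⟩ := ih
        by_cases h : k + 1 ≤ (sq (j + 1)).2.1
        · exact ⟨j, hj, by omega, h⟩
        · have := (hQ (j + 1)).1
          exact ⟨j + 1, by omega, by omega, by omega⟩
    have h3 := (hQ j).2.2.1 z (hz (j + 1)) k h1 h2
    have h4 : (j₀ : ℝ) ≤ j := by exact_mod_cast hj
    linarith
  obtain ⟨_, ⟨j, rfl⟩, hj⟩ := hB z hzI
  obtain ⟨i, h1, h2⟩ := (hQ j).2.2.2
  have hC : IsPreconnected (f^[(sq (j + 1)).2.1] '' connectedComponentIn (escaping f) (c j)) :=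
    isPreconnected_connectedComponentIn.image _ (he.iterate _).continuous.continuousOn
  have hCI : f^[(sq (j + 1)).2.1] '' connectedComponentIn (escaping f) (c j) ⊆ escaping f := by
    rintro _ ⟨y, hy, rfl⟩
    exact (iter_mem_escaping_iff _).2 (connectedComponentIn_subset _ _ hy)
  have hcj := mem_image_of_mem f^[(sq (j + 1)).2.1] (mem_connectedComponentIn (hBI ⟨j, rfl⟩))
  have hne : (f^[(sq (j + 1)).2.1] '' connectedComponentIn (escaping f) (c j) ∩ U i).Nonempty :=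
    ⟨_, mem_image_of_mem _ hj, h2 z (hz (j + 1))⟩
  cases i
  · exact h1 (hs.symm.subset_left hC hCI hne hcj)
  · exact h1 (hs.subset_left hC hCI hne hcj)

/-- Given `r`, let `R' = max r R`, `z ∈ U₀ ∩ A_{R'}`, `L` its component in `A_{R'}` (in `U₀`).
A large circle meets `L` and `Γ`; `exists_exit` along the circle gives a point of
`frontier A_{R'}` in `U₀`. -/
theorem Ent.ebig_of_big (hf : Ent f) {R : ℝ} (hR : Big f R) {U₀ U₁ : Set ℂ}
    (hs : Split (escaping f) U₀ U₁) {Γ : Set ℂ} (hΓ : UC Γ) (hΓA : Disjoint Γ (levelSet f R))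
    (hbig : ∀ R', R ≤ R' → (U₀ ∩ levelSet f R').Nonempty) : EBig f R U₀ := by
  intro r
  have hR' : Big f (max r R) := hR.mono (le_max_right _ _)
  obtain ⟨z, hz₀, hz⟩ := hbig (max r R) (le_max_right _ _)
  have hI := hR'.levelSet_subset_escaping hf.diff
  have hL := hf.uc_levelSet' hz
  have hLU : connectedComponentIn (levelSet f (max r R)) z ⊆ U₀ :=
    hs.subset_left hL.conn ((connectedComponentIn_subset _ _).trans hI)
      ⟨z, mem_connectedComponentIn hz, hz₀⟩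
  obtain ⟨y, hy⟩ := hΓ.nonempty
  refine ⟨max ‖z‖ ‖y‖, fun τ hτ => ?_⟩
  obtain ⟨a, ha, ha'⟩ := hL.meets_sphere (c := 0) (τ := τ) (mem_connectedComponentIn hz)
    (by simpa using (le_max_left _ _).trans hτ)
  obtain ⟨b, hb, hb'⟩ := hΓ.meets_sphere (c := 0) (τ := τ) hy
    (by simpa using (le_max_right _ _).trans hτ)
  have haS : a ∈ sphere (0 : ℂ) τ ∩ levelSet f (max r R) :=
    ⟨mem_sphere_iff_norm.2 ha', connectedComponentIn_subset _ _ ha⟩
  obtain ⟨w, hw, hw'⟩ := exists_exit (isClosed_levelSet hf.continuous (max r R))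
    (isCompact_sphere (0 : ℂ) τ) (isPreconnected_sphere (by simp) (0 : ℂ) τ) haS fun h =>
      disjoint_left.1 hΓA hb
        (levelSet_anti hf.diff hR.1.le (le_max_right _ _) (h (mem_sphere_iff_norm.2 hb')))
  have hwS := connectedComponentIn_subset _ _ hw
  refine ⟨w, hs.subset_left isPreconnected_connectedComponentIn
    ((connectedComponentIn_subset _ _).trans (inter_subset_right.trans hI))
    ⟨a, mem_connectedComponentIn haS, hLU ha⟩ hw, ⟨0, max r R, le_max_right _ _, hw'⟩,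
    mem_sphere_zero_iff_norm.1 hwS.1, fun k => ?_⟩
  exact ((le_max_left _ _).trans (hR'.le_iter k)).trans (hwS.2 k)

/-- A point of `A(f)` in `U₀` gives a good point in `U₀`: `exists_exit` along a segment to a
point outside `f^{-l}(A_R)` (`Ent.denseRange`: some `‖f^[l] z‖ < R`). -/
theorem Ent.exists_good (hf : Ent f) {R : ℝ} (hR : Big f R) {U₀ U₁ : Set ℂ}
    (hs : Split (escaping f) U₀ U₁) (h : (U₀ ∩ fastEsc f R).Nonempty) : ∃ w ∈ U₀, Good f R w := by
  obtain ⟨z, hz₀, hz⟩ := h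
  obtain ⟨l, hl⟩ := mem_fastEsc_iff.1 hz
  obtain ⟨y, hy⟩ := (hf.iterate l).denseRange.exists_mem_open isOpen_ball
    (nonempty_ball (x := (0 : ℂ)).2 hR.1)
  have hX : IsClosed (f^[l] ⁻¹' levelSet f R) :=
    (isClosed_levelSet hf.continuous R).preimage (hf.iterate l).continuous
  have hzS : z ∈ segment ℝ z y ∩ f^[l] ⁻¹' levelSet f R := ⟨left_mem_segment _ _ _, hl⟩
  have hSc : IsCompact (segment ℝ z y) := by
    rw [segment_eq_image_lineMap]
    exact isCompact_Icc.image AffineMap.lineMap_continuous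
  obtain ⟨w, hw, hw'⟩ := exists_exit hX hSc (convex_segment z y).isPreconnected hzS fun h =>
    absurd (le_norm_of_mem_levelSet (h (right_mem_segment _ _ _)))
      (not_le.2 (mem_ball_zero_iff.1 hy))
  refine ⟨w, hs.subset_left isPreconnected_connectedComponentIn
    ((connectedComponentIn_subset _ _).trans fun v hv => ?_)
    ⟨z, mem_connectedComponentIn hzS, hz₀⟩ hw, l, R, le_rfl, hw'⟩
  exact (iter_mem_escaping_iff l).1 (hR.levelSet_subset_escaping hf.diff hv.2)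

end Pool.Agent.Lib.MP_dbd176_an
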