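import Pool.Agent.Lib.MP_dbd176_an.StepA
import Pool.Agent.Lib.MP_dbd176_an.Chain
import Pool.Agent.Lib.MP_dbd176_an.PartC
import Pool.Agent.Lib.MP_dbd176_an.Four

open Set Metric Filter Topology

namespace Pool.Agent.Lib.MP_dbd176_an

/-- Let `Ω a b` be the component of `(L a ∪ L b)ᶜ` containing `G` (it is open, contains `x c`
for `c ≠ a, b` because `x c ∈ closure G`, hence contains `L c`). For disjoint pairs,
`Ω a b ∪ Ω c d = univ`: if `y ∉ Ω a b` then `y ∈ L a ∪ L b ⊆ Ω c d`, or `y` lies in another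
component `W` of `(L a ∪ L b)ᶜ`, which misses `L c ∪ L d`, and whose nonempty frontier lies in
`L a ∪ L b ⊆ Ω c d` (open), so `W ⊆ Ω c d`. Call a pair bad if `Ω a b` misses some `A r`. Two
disjoint pairs are not both bad. If a bad pair exists take the other four indices, otherwise
any four. -/
theorem exists_four_good {L : Fin 6 → Set ℂ} {x : Fin 6 → ℂ} {G : Set ℂ}
    (hL : ∀ i, IsClosed (L i) ∧ IsPreconnected (L i) ∧ x i ∈ L i)
    (hdis : ∀ i j, i ≠ j → Disjoint (L i) (L j)) (hG : IsPreconnected G)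
    (hGL : ∀ i, Disjoint G (L i)) (hx : ∀ i, x i ∈ closure G) {A : ℝ → Set ℂ} (hA : Antitone A)
    (hne : ∀ r, (A r).Nonempty) :
    ∃ ι : Fin 4 → Fin 6, Function.Injective ι ∧ ∀ a b c : Fin 4, a ≠ b → c ≠ a → c ≠ b → ∀ r,
      (connectedComponentIn (L (ι a) ∪ L (ι b))ᶜ (x (ι c)) ∩ A r).Nonempty := by
  classical
  obtain ⟨g₀, hg₀⟩ : G.Nonempty := closure_nonempty_iff.1 ⟨_, hx 0⟩
  set Ω : Fin 6 → Fin 6 → Set ℂ := fun a b => connectedComponentIn (L a ∪ L b)ᶜ g₀ with hΩ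
  have hop : ∀ a b, IsOpen (L a ∪ L b)ᶜ := fun a b => ((hL a).1.union (hL b).1).isOpen_compl
  have hGs : ∀ a b, G ⊆ (L a ∪ L b)ᶜ := fun a b w hw h =>
    h.elim (disjoint_left.1 (hGL a) hw) (disjoint_left.1 (hGL b) hw)
  have hLs : ∀ a b c, c ≠ a → c ≠ b → L c ⊆ (L a ∪ L b)ᶜ := fun a b c ha hb w hw h =>
    h.elim (disjoint_left.1 (hdis c a ha) hw) (disjoint_left.1 (hdis c b hb) hw)
  have hcomp : ∀ a b c, c ≠ a → c ≠ b → connectedComponentIn (L a ∪ L b)ᶜ (x c) = Ω a b := by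
    intro a b c ha hb
    obtain ⟨w, hw, hwG⟩ := mem_closure_iff.1 (hx c) _ (hop a b).connectedComponentIn
      (mem_connectedComponentIn (hLs a b c ha hb (hL c).2.2))
    rw [connectedComponentIn_eq hw]
    exact connectedComponentIn_eq (hG.subset_connectedComponentIn hwG (hGs a b) hg₀)
  have hLΩ : ∀ a b c, c ≠ a → c ≠ b → L c ⊆ Ω a b := by
    intro a b c ha hb
    rw [← hcomp a b c ha hb]
    exact (hL c).2.1.subset_connectedComponentIn (hL c).2.2 (hLs a b c ha hb)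
  have hunion : ∀ a b c d, c ≠ a → c ≠ b → d ≠ a → d ≠ b → ∀ y, y ∉ Ω a b → y ∈ Ω c d := by
    intro a b c d hca hcb hda hdb y hy
    have hab : L a ∪ L b ⊆ Ω c d :=
      union_subset (hLΩ c d a hca.symm hda.symm) (hLΩ c d b hcb.symm hdb.symm)
    by_cases hyL : y ∈ L a ∪ L b
    · exact hab hyL
    set W := connectedComponentIn (L a ∪ L b)ᶜ y with hW
    have hyW : y ∈ W := mem_connectedComponentIn hyL
    have hWΩ : ∀ w ∈ W, w ∉ Ω a b := by
      intro w hw hw'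
      apply hy
      have h1 : W = Ω a b := (connectedComponentIn_eq hw).trans (connectedComponentIn_eq hw').symm
      exact h1 ▸ hyW
    have hWs : W ⊆ (L c ∪ L d)ᶜ := fun w hw h =>
      hWΩ w hw (h.elim (fun h => hLΩ a b c hca hcb h) fun h => hLΩ a b d hda hdb h)
    have hfr : (frontier W).Nonempty := by
      rw [nonempty_frontier_iff]
      refine ⟨⟨y, hyW⟩, fun h => ?_⟩
      have : x a ∈ W := h ▸ mem_univ _
      exact connectedComponentIn_subset _ _ this (Or.inl (hL a).2.2)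
    obtain ⟨v, hv⟩ := hfr
    have hvL : v ∈ L a ∪ L b :=
      not_not.1 fun h => disjoint_left.1 (disjoint_frontier_comp (hop a b) y) hv h
    obtain ⟨w, hw, hwW⟩ := mem_closure_iff.1 (frontier_subset_closure hv) _
      (hop c d).connectedComponentIn (hab hvL)
    have := (isPreconnected_connectedComponentIn (F := (L a ∪ L b)ᶜ) (x := y)
      ).subset_connectedComponentIn hwW hWs hyW
    rwa [← connectedComponentIn_eq hw] at this
  by_cases hbad : ∃ a b r, Ω a b ∩ A r = ∅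
  · obtain ⟨a₀, b₀, r₀, h₀⟩ := hbad
    have hcard : 4 ≤ ((Finset.univ.erase a₀).erase b₀ : Finset (Fin 6)).card := by
      have h1 := Finset.pred_card_le_card_erase (s := (Finset.univ : Finset (Fin 6))) (a := a₀)
      have h2 := Finset.pred_card_le_card_erase (s := (Finset.univ.erase a₀ : Finset (Fin 6)))
        (a := b₀)
      simp only [Finset.card_univ, Fintype.card_fin] at h1
      omega
    let ι := Finset.orderEmbOfCardLe _ hcard
    have hι : ∀ k, ι k ≠ a₀ ∧ ι k ≠ b₀ := fun k => by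
      have := Finset.orderEmbOfCardLe_mem _ hcard k
      simp only [Finset.mem_erase] at this
      exact ⟨this.2.1, this.1⟩
    refine ⟨ι, ι.injective, fun a b c _ hca hcb r => ?_⟩
    rw [hcomp _ _ _ (ι.injective.ne hca) (ι.injective.ne hcb)]
    obtain ⟨y, hy⟩ := hne (max r r₀)
    refine ⟨y, hunion a₀ b₀ _ _ (hι a).1 (hι a).2 (hι b).1 (hι b).2 y fun h => ?_,
      hA (le_max_left _ _) hy⟩
    exact (h₀ ▸ ⟨h, hA (le_max_right _ _) hy⟩ : y ∈ (∅ : Set ℂ))
  · push Not at hbad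
    refine ⟨Fin.castLE (by norm_num), Fin.castLE_injective _, fun a b c _ hca hcb r => ?_⟩
    rw [hcomp _ _ _ ((Fin.castLE_injective _).ne hca) ((Fin.castLE_injective _).ne hcb)]
    exact hbad _ _ r

variable {f : ℂ → ℂ}

/-- Far sequences. `r` witnesses that `U₁` is not `EBig`, `r ≤ σ`, `R ≤ σ`. `L'` is a component of
`A_σ`, `Lp` the component of `e` in `f^{-n}(L') \ D`, unbounded, `e ∈ U₁`; so `Lp ⊆ U₁`. On a
large bad circle `S` (missing `D`, meeting `Γ` and `Lp` at `z`), `exists_exit` for the closed set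
`X = f^{-n}(A_σ)` gives `w ∈ frontier X` in the component of `z` in `S ∩ X`, which lies in `Lp`.
`w` is good and in `U₁`, so `‖f^[k] w‖ < r` for some `k`, necessarily `k < n`; so `f^[n] w` stays
in a bounded set, and in the closed set `L'`. Take a cluster point `q`. -/
theorem Ent.far_seq (hf : Ent f) {R : ℝ} (hR : Big f R) {U₀ U₁ : Set ℂ}
    (hs : Split (escaping f) U₀ U₁) {Γ : Set ℂ} (hΓ : UC Γ) (hΓA : Disjoint Γ (fastEsc f R))
    {r σ : ℝ} (hr : ∀ x : ℝ, ∃ τ, x ≤ τ ∧ ∀ w ∈ U₁, Good f R w → ‖w‖ = τ → ∃ k, ‖f^[k] w‖ < r)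
    (hrσ : r ≤ σ) (hRσ : R ≤ σ) {n : ℕ} {x₀ e : ℂ} {D : Set ℂ} (hD : Bornology.IsBounded D)
    (he : e ∈ U₁) (heL : e ∈ f^[n] ⁻¹' connectedComponentIn (levelSet f σ) x₀ \ D)
    (hu : ¬ Bornology.IsBounded
      (connectedComponentIn (f^[n] ⁻¹' connectedComponentIn (levelSet f σ) x₀ \ D) e)) :
    ∃ q ∈ connectedComponentIn (levelSet f σ) x₀, ∀ ε > 0, ∀ x : ℝ,
      ∃ z ∈ connectedComponentIn (f^[n] ⁻¹' connectedComponentIn (levelSet f σ) x₀ \ D) e,
        x ≤ ‖z‖ ∧ ‖f^[n] z - q‖ ≤ ε := by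
  set L' := connectedComponentIn (levelSet f σ) x₀ with hL'
  set Lp := connectedComponentIn (f^[n] ⁻¹' L' \ D) e with hLp
  have hσ : Big f σ := hR.mono hRσ
  have hAc : IsClosed (levelSet f σ) := isClosed_levelSet hf.continuous σ
  have hL'c : IsClosed L' := isClosed_connectedComponentIn hAc x₀
  have hL's : L' ⊆ levelSet f σ := connectedComponentIn_subset _ _
  have hLps : Lp ⊆ f^[n] ⁻¹' L' \ D := connectedComponentIn_subset _ _
  have hLpc : IsPreconnected Lp := isPreconnected_connectedComponentIn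
  have heLp : e ∈ Lp := mem_connectedComponentIn heL
  have hcont : Continuous f^[n] := (hf.iterate n).continuous
  have hLpU : Lp ⊆ U₁ := hs.symm.subset_left hLpc (fun w hw =>
    (iter_mem_escaping_iff n).1 (hσ.levelSet_subset_escaping hf.diff (hL's (hLps hw).1)))
    ⟨e, heLp, he⟩
  obtain ⟨γ₀, hγ₀⟩ := hΓ.nonempty
  obtain ⟨BD, hBD⟩ := hD.exists_norm_le
  have key : ∀ x : ℝ, ∃ w ∈ Lp, x ≤ ‖w‖ ∧ ‖f^[n] w‖ ≤ (maxMod f)^[n] σ := by
    intro x
    obtain ⟨τ, hτ, hbad⟩ := hr (max (max x (BD + 1)) (max ‖e‖ ‖γ₀‖))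
    simp only [max_le_iff] at hτ
    obtain ⟨⟨hxτ, hBτ⟩, heτ, hγτ⟩ := hτ
    obtain ⟨z, hz, hzτ⟩ := exists_mem_sphere hLpc hu (c := 0) heLp (τ := τ) (by simpa using heτ)
    obtain ⟨γ, hγ, hγτ'⟩ := hΓ.meets_sphere (c := 0) hγ₀ (τ := τ) (by simpa using hγτ)
    have hXc : IsClosed (f^[n] ⁻¹' levelSet f σ) := hAc.preimage hcont
    have hzm : z ∈ sphere (0 : ℂ) τ ∩ f^[n] ⁻¹' levelSet f σ :=
      ⟨by simpa using hzτ, hL's (hLps hz).1⟩
    obtain ⟨w, hw, hwf⟩ := exists_exit hXc (isCompact_sphere (0 : ℂ) τ)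
      (isPreconnected_sphere (by rw [Complex.rank_real_complex]; norm_num) 0 τ) hzm (fun h => by
        have h1 : γ ∈ f^[n] ⁻¹' levelSet f σ := h (by simpa using hγτ')
        exact disjoint_left.1 hΓA hγ
          (mem_fastEsc_iff.2 ⟨n, levelSet_anti hf.diff hR.1.le hRσ h1⟩))
    set C := connectedComponentIn (sphere (0 : ℂ) τ ∩ f^[n] ⁻¹' levelSet f σ) z with hC
    have hCs : C ⊆ sphere (0 : ℂ) τ ∩ f^[n] ⁻¹' levelSet f σ := connectedComponentIn_subset _ _
    have hzC : z ∈ C := mem_connectedComponentIn hzm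
    have hCL : f^[n] '' C ⊆ L' := by
      rw [hL', connectedComponentIn_eq (show f^[n] z ∈ L' from (hLps hz).1)]
      exact (isPreconnected_connectedComponentIn.image _ hcont.continuousOn
        ).subset_connectedComponentIn (mem_image_of_mem _ hzC)
        (by rintro _ ⟨y, hy, rfl⟩; exact (hCs hy).2)
    have hCLp : C ⊆ Lp := by
      rw [hLp, connectedComponentIn_eq hz]
      refine isPreconnected_connectedComponentIn.subset_connectedComponentIn hzC fun y hy =>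
        ⟨hCL (mem_image_of_mem _ hy), fun hyD => ?_⟩
      have h1 := hBD y hyD
      have h2 : ‖y‖ = τ := by simpa using (hCs hy).1
      linarith
    have hwτ : ‖w‖ = τ := by simpa using (hCs hw).1
    obtain ⟨k, hk⟩ := hbad w (hLpU (hCLp hw)) ⟨n, σ, hRσ, hwf⟩ hwτ
    refine ⟨w, hCLp hw, hwτ ▸ hxτ, ?_⟩
    have hkn : k ≤ n := by
      by_contra h
      obtain ⟨j, rfl⟩ := Nat.exists_eq_add_of_le' (not_le.1 h).le
      have h1 : (maxMod f)^[j] σ ≤ ‖f^[j] (f^[n] w)‖ := (hCs hw).2 j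
      rw [← Function.iterate_add_apply] at h1
      linarith [hσ.le_iter j]
    obtain ⟨j, rfl⟩ := Nat.exists_eq_add_of_le' hkn
    rw [Function.iterate_add_apply]
    exact (norm_iter_le_maxMod hf.diff (hk.le.trans hrσ) j).trans
      (hσ.monotone_iter (Nat.le_add_right j k))
  choose w hw hxw hb using key
  have hKc : IsCompact (closedBall (0 : ℂ) ((maxMod f)^[n] σ) ∩ L') :=
    (isCompact_closedBall _ _).inter_right hL'c
  obtain ⟨q, hq, φ, hφ, hlim⟩ := hKc.tendsto_subseq (x := fun k : ℕ => f^[n] (w k))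
    fun k => ⟨mem_closedBall_zero_iff.2 (hb k), (hLps (hw k)).1⟩
  refine ⟨q, hq.2, fun ε hε x => ?_⟩
  have h1 : ∀ᶠ k in atTop, dist (f^[n] (w (φ k))) q < ε := Metric.tendsto_nhds.1 hlim ε hε
  have h2 : ∀ᶠ k in atTop, x ≤ ((φ k : ℕ) : ℝ) :=
    (tendsto_natCast_atTop_atTop.comp hφ.tendsto_atTop).eventually_ge_atTop x
  obtain ⟨k, hk1, hk2⟩ := (h1.and h2).exists
  exact ⟨w (φ k), hw _, hk2.trans (hxw _), by rw [← dist_eq_norm]; exact hk1.le⟩

/-- Step B. Let `r` witness that `U₁` is not `EBig`; by `Ent.ebig_of_big`, `U₁` misses some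
`A_{r₁}`, `r₁ ≥ R`. Let `w ∈ frontier (f^{-l} A_ρ)`, `closedBall w δ ⊆ U₁`, `D = ball w δ`,
`K', σ₀` from `six_components`, `m` large, `n = m + l`, `σ = M^m ρ ≥ max r σ₀`, `g = f^[n]`,
`L' i` the component of `x i` in `A_σ`. By `blowup_cover` with `Q = K'` there are `y i ∈ D` with
`g (y i) ∈ L' i`. The component `L i` of `y i` in `g⁻¹ (L' i)` is unbounded (`Ent.uc_preimage`);
`UC.exists_diff` gives `e i ∈ L i ∩ sphere w δ` with an unbounded component of `L i \ D`, so the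
component `Lp i` of `e i` in the closed set `g⁻¹ (L' i) \ D` is an unbounded continuum, contained
in `I`, hence in `U₁`. Choose four indices by `exists_four_good` (with `A r = A_{max r R}`) and
`a, b, i, j` by `four_points`; `Y = Lp a ∪ segment ∪ Lp b ⊆ U₁` is closed. Let `W` be the
component of `e i` in `Yᶜ`, `W' = Yᶜ \ W` (open), `V₀ = U₀ ∩ W`, `V₁ = U₁ ∪ (U₀ ∩ W')`.
For `c = i, j` and `R' ≥ max R r₁`: `q` from `far_seq`, `Ω` the component of `x c` in
`(L' a ∪ L' b)ᶜ` (contains `L' c ∋ q`), `y ∈ Ω ∩ A_{M^n R'}`, `E` its component in `A_{M^n R'}`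
(meets all circles around `y`); `Ent.chain` with `z ∈ Lp c` far out (`Ent.exists_sphere_gt`)
gives a connected `P ∋ z` missing `closedBall w δ` and `g⁻¹ (L' a ∪ L' b)`, so missing `Y`, and
containing a point of `A_{R'}` (`Ent.preimage_levelSet`), which lies in `U₀`. So it lies in the
component of `e c` in `Yᶜ`. -/
theorem IsTEF.stepB (hf : IsTEF f) {R : ℝ} (hR : Big f R) {U₀ U₁ : Set ℂ}
    (hs : Split (escaping f) U₀ U₁) {Γ : Set ℂ} (hΓ : UC Γ) (hΓA : Disjoint Γ (fastEsc f R))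
    {w : ℂ} (hwU : w ∈ U₁) (hw : Good f R w) (hn : ¬ EBig f R U₁) :
    ∃ V₀ V₁, Split (escaping f) V₀ V₁ ∧ (∀ R', R ≤ R' → (V₀ ∩ levelSet f R').Nonempty) ∧
      ∀ R', R ≤ R' → (V₁ ∩ levelSet f R').Nonempty := by
  have he := hf.ent
  have hΓA' : Disjoint Γ (levelSet f R) :=
    hΓA.mono_right fun z hz => mem_fastEsc_iff.2 ⟨0, hz⟩
  obtain ⟨r₁, hr₁, hr₁U⟩ : ∃ r₁, R ≤ r₁ ∧ U₁ ∩ levelSet f r₁ = ∅ := by
    by_contra h
    push Not at h
    exact hn (he.ebig_of_big hR hs.symm hΓ hΓA' h)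
  obtain ⟨r, hr⟩ : ∃ r : ℝ, ∀ x : ℝ, ∃ τ, x ≤ τ ∧ ∀ w ∈ U₁, Good f R w → ‖w‖ = τ →
      ∃ k, ‖f^[k] w‖ < r := by
    unfold EBig at hn
    push Not at hn
    exact hn
  obtain ⟨l, ρ, hRρ, hwf⟩ := hw
  have hρ : Big f ρ := hR.mono hRρ
  obtain ⟨δ, hδ, hδU⟩ := Metric.nhds_basis_closedBall.mem_iff.1 (hs.o₁.mem_nhds hwU)
  obtain ⟨K', σ₀, hK', hsix⟩ := hf.six_components hR hΓ hΓA'
  obtain ⟨K, hK, hcov⟩ := hf.blowup_cover
  obtain ⟨N, hN⟩ := hcov hρ hwf hδ (Q := K') (by linarith)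
  obtain ⟨m, hmN, hm⟩ : ∃ m, N ≤ m ∧ max r σ₀ ≤ (maxMod f)^[m] ρ :=
    ((eventually_ge_atTop N).and ((hρ.tendsto_iter hf.1).eventually_ge_atTop _)).exists
  obtain ⟨τ, hτ, hτc⟩ := hN m hmN
  set σ := (maxMod f)^[m] ρ with hσdef
  set n := m + l with hn'
  have hRσ : R ≤ σ := hRρ.trans (hρ.le_iter m)
  have hσ : Big f σ := hR.mono hRσ
  obtain ⟨G, x, hG, hGA, hx, hxd⟩ := hsix σ ((le_max_right _ _).trans hm)
  set L' : Fin 6 → Set ℂ := fun i => connectedComponentIn (levelSet f σ) (x i) with hL'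
  have hL'u : ∀ i, UC (L' i) := fun i => he.uc_levelSet' (hx i).1
  have hL's : ∀ i, L' i ⊆ levelSet f σ := fun i => connectedComponentIn_subset _ _
  have hxL : ∀ i, x i ∈ L' i := fun i => mem_connectedComponentIn (hx i).1
  have hL'd : ∀ i j, i ≠ j → Disjoint (L' i) (L' j) := by
    intro i j hij
    refine disjoint_left.2 fun y hi hj => hxd i j hij ?_
    have h1 : L' i = L' j := (connectedComponentIn_eq hi).trans (connectedComponentIn_eq hj).symm
    show x j ∈ L' i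
    rw [h1]; exact hxL j
  have hg : Ent f^[n] := he.iterate n
  have hE : ∀ i, ∃ e ∈ sphere w δ, e ∈ f^[n] ⁻¹' L' i \ ball w δ ∧
      ¬ Bornology.IsBounded (connectedComponentIn (f^[n] ⁻¹' L' i \ ball w δ) e) := by
    intro i
    obtain ⟨v, hv, hvτ⟩ := (hL'u i).meets_sphere (c := 0) (hxL i) (τ := τ)
      (by rw [sub_zero]; exact (hx i).2.2.trans hτ.1.le)
    obtain ⟨y, hy, hyv⟩ := hτc (show v ∈ sphere (0 : ℂ) τ by simpa using hvτ)
    have hyL : f^[n] y ∈ L' i := hyv ▸ hv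
    obtain ⟨e, ⟨heL, hef⟩, heu⟩ := (hg.uc_preimage (hL'u i) hyL).exists_diff isOpen_ball
      isBounded_ball ⟨y, mem_connectedComponentIn hyL, hy⟩
    rw [frontier_ball w hδ.ne'] at hef
    refine ⟨e, hef, ⟨connectedComponentIn_subset _ _ heL, fun h => ?_⟩, fun h => heu.unb (h.subset
      (connectedComponentIn_mono e (diff_subset_diff_left (connectedComponentIn_subset _ _))))⟩
    exact absurd (mem_sphere.1 hef) (mem_ball.1 h).ne
  choose e heS heL heu using hE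
  set Lp : Fin 6 → Set ℂ := fun i => connectedComponentIn (f^[n] ⁻¹' L' i \ ball w δ) (e i)
    with hLp
  have hLps : ∀ i, Lp i ⊆ f^[n] ⁻¹' L' i \ ball w δ := fun i => connectedComponentIn_subset _ _
  have hLpu : ∀ i, UC (Lp i) := fun i =>
    uc_of_unbounded_comp (((hL'u i).closed.preimage hg.continuous).sdiff isOpen_ball) (heu i)
  have heLp : ∀ i, e i ∈ Lp i := fun i => mem_connectedComponentIn (heL i)
  have heU : ∀ i, e i ∈ U₁ := fun i => hδU (sphere_subset_closedBall (heS i))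
  have hLpU : ∀ i, Lp i ⊆ U₁ := fun i => hs.symm.subset_left (hLpu i).conn (fun y hy =>
    (iter_mem_escaping_iff n).1 (hσ.levelSet_subset_escaping hf.1 (hL's i (hLps i hy).1)))
    ⟨e i, heLp i, heU i⟩
  obtain ⟨ι, hι, hgood⟩ := exists_four_good (L := L') (x := x) (G := G)
    (fun i => ⟨(hL'u i).closed, (hL'u i).conn, hxL i⟩) hL'd hG
    (fun i => hGA.mono_right (hL's i)) (fun i => (hx i).2.1)
    (A := fun t => levelSet f (max t R))
    (fun t t' h => levelSet_anti hf.1 (hR.1.le.trans (le_max_right _ _)) (max_le_max_right _ h))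
    (fun t => hf.levelSet_nonempty (hR.1.le.trans (le_max_right _ _)))
  obtain ⟨a, b, i, j, hab, hai, haj, hbi, hbj, hij, hiY, hjY, hsep⟩ :=
    four_points hδ (L := fun k => Lp (ι k)) (e := fun k => e (ι k)) (fun k => hLpu _)
      (fun k k' h => disjoint_left.2 fun y hy hy' =>
        disjoint_left.1 (hL'd _ _ (hι.ne h)) (hLps _ hy).1 (hLps _ hy').1)
      (fun k => disjoint_left.2 fun y hy => (hLps _ hy).2) (fun k => ⟨heLp _, heS _⟩)
  set Y := Lp (ι a) ∪ segment ℝ (e (ι a)) (e (ι b)) ∪ Lp (ι b) with hY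
  have hseg : segment ℝ (e (ι a)) (e (ι b)) ⊆ closedBall w δ :=
    (convex_closedBall w δ).segment_subset (sphere_subset_closedBall (heS _))
      (sphere_subset_closedBall (heS _))
  have hsegc : IsClosed (segment ℝ (e (ι a)) (e (ι b))) := by
    rw [segment_eq_image]
    exact (isCompact_Icc.image (by fun_prop)).isClosed
  have hYc : IsClosed Y := ((hLpu _).closed.union hsegc).union (hLpu _).closed
  have hYU : Y ⊆ U₁ := union_subset (union_subset (hLpU _) (hseg.trans hδU)) (hLpU _)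
  have main : ∀ c : Fin 4, c ≠ a → c ≠ b → Disjoint (Lp (ι c)) Y → ∀ R', R ≤ R' →
      ∃ z ∈ U₀, z ∈ connectedComponentIn Yᶜ (e (ι c)) ∧ z ∈ levelSet f R' := by
    intro c hca hcb hcY R' hR'
    set R'' := max R' r₁ with hR''
    have hRR'' : R ≤ R'' := hR'.trans (le_max_left _ _)
    have hbig : Big f R'' := hR.mono hRR''
    obtain ⟨q, hq, hfar⟩ := he.far_seq hR hs hΓ hΓA hr ((le_max_left _ _).trans hm) hRσ
      (isBounded_ball (x := w) (r := δ)) (heU (ι c)) (heL (ι c)) (heu (ι c))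
    set Ω := connectedComponentIn (L' (ι a) ∪ L' (ι b))ᶜ (x (ι c)) with hΩ
    have hΩo : IsOpen Ω := ((hL'u _).closed.union (hL'u _).closed).isOpen_compl.connectedComponentIn
    have hLΩ : L' (ι c) ⊆ Ω := (hL'u _).conn.subset_connectedComponentIn (hxL _) fun y hy h =>
      h.elim (disjoint_left.1 (hL'd _ _ (hι.ne hca)) hy) (disjoint_left.1 (hL'd _ _ (hι.ne hcb)) hy)
    obtain ⟨y, hyΩ, hyA⟩ := hgood a b c hab hca hcb ((maxMod f)^[n] R'')
    have hyA' : y ∈ levelSet f ((maxMod f)^[n] R'') :=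
      levelSet_anti hf.1 (hbig.iter n).1.le (le_max_left _ _) hyA
    have hEu := he.uc_levelSet' hyA'
    obtain ⟨ε, K₁, hε, hK₁, hch⟩ := hg.chain hΩo isPreconnected_connectedComponentIn (hLΩ hq) hyΩ
      one_pos (E := connectedComponentIn (levelSet f ((maxMod f)^[n] R'')) y) fun t ht =>
        hEu.meets_sphere (mem_connectedComponentIn hyA') (by simpa using ht.1.le)
    obtain ⟨x₁, hx₁⟩ := hg.exists_sphere_gt q ε
    obtain ⟨z, hz, hzx, hzq⟩ := hfar (ε / 2) (by linarith) (max x₁ (K₁ * (‖w‖ + δ + 1)))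
    have hK₁0 : 0 < K₁ := by linarith
    have hzK : ‖w‖ + δ + 1 ≤ ‖z‖ / K₁ := by
      rw [le_div_iff₀ hK₁0, mul_comm]; exact (le_max_right _ _).trans hzx
    have hz0 : z ≠ 0 := by
      rintro rfl
      simp only [norm_zero, zero_div] at hzK
      linarith [norm_nonneg w]
    obtain ⟨P, hP, hzP, hPΩ, hPn, v, hvP, hvE⟩ := hch z hz0 hzq
      (hx₁ ‖z‖ ((le_max_left _ _).trans hzx))
    have hPY : P ⊆ Yᶜ := by
      intro u hu huY
      have h1 : f^[n] u ∈ (L' (ι a) ∪ L' (ι b))ᶜ := connectedComponentIn_subset _ _ (hPΩ hu)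
      rcases huY with (h | h) | h
      · exact h1 (Or.inl (hLps _ h).1)
      · have h2 := mem_closedBall_iff_norm.1 (hseg h)
        have h3 := hPn u hu
        have h4 : ‖u‖ ≤ ‖u - w‖ + ‖w‖ := by simpa using norm_add_le (u - w) w
        linarith
      · exact h1 (Or.inr (hLps _ h).1)
    have hvA : v ∈ levelSet f R'' := by
      rw [← he.preimage_levelSet R'' n]
      exact connectedComponentIn_subset (levelSet f ((maxMod f)^[n] R'')) y hvE
    have hvU : v ∈ U₀ := by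
      rcases hs.cover (hbig.levelSet_subset_escaping hf.1 hvA) with h | h
      · exact h
      · exact absurd (hr₁U ▸ ⟨h, levelSet_anti hf.1 (hR.1.le.trans hr₁) (le_max_right _ _) hvA⟩ :
          v ∈ (∅ : Set ℂ)) (notMem_empty v)
    refine ⟨v, hvU, ?_, levelSet_anti hf.1 (hR.1.le.trans hR') (le_max_left _ _) hvA⟩
    have h1 : z ∈ connectedComponentIn Yᶜ (e (ι c)) :=
      (hLpu _).conn.subset_connectedComponentIn (heLp _) (disjoint_left.1 hcY) hz
    rw [connectedComponentIn_eq h1]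
    exact hP.subset_connectedComponentIn hzP hPY hvP
  set W := connectedComponentIn Yᶜ (e (ι i)) with hW
  have hWo : IsOpen W := hYc.isOpen_compl.connectedComponentIn
  have hWs : W ⊆ Yᶜ := connectedComponentIn_subset _ _
  have hW'o : IsOpen (Yᶜ \ W) := by
    rw [isOpen_iff_forall_mem_open]
    intro u hu
    refine ⟨connectedComponentIn Yᶜ u, fun v hv => ⟨connectedComponentIn_subset _ _ hv, fun hvW =>
      hu.2 ?_⟩, hYc.isOpen_compl.connectedComponentIn, mem_connectedComponentIn hu.1⟩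
    have h1 : W = connectedComponentIn Yᶜ u :=
      (connectedComponentIn_eq hvW).trans (connectedComponentIn_eq hv).symm
    rw [h1]; exact mem_connectedComponentIn hu.1
  refine ⟨U₀ ∩ W, U₁ ∪ U₀ ∩ (Yᶜ \ W), ⟨hs.o₀.inter hWo, hs.o₁.union (hs.o₀.inter hW'o), ?_, ?_⟩,
    fun R' hR' => ?_, fun R' hR' => ?_⟩
  · refine disjoint_left.2 fun u hu hu' => ?_
    rcases hu' with h | h
    · exact disjoint_left.1 hs.disj hu.1 h
    · exact h.2.2 hu.2
  · intro u hu
    rcases hs.cover hu with h | h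
    · by_cases hW : u ∈ W
      · exact Or.inl ⟨h, hW⟩
      · exact Or.inr (Or.inr ⟨h, fun hY => disjoint_left.1 hs.disj h (hYU hY), hW⟩)
    · exact Or.inr (Or.inl h)
  · obtain ⟨z, hz, hzW, hzA⟩ := main i hai.symm hbi.symm hiY R' hR'
    exact ⟨z, ⟨hz, hzW⟩, hzA⟩
  · obtain ⟨z, hz, hzW, hzA⟩ := main j haj.symm hbj.symm hjY R' hR'
    refine ⟨z, Or.inr ⟨hz, connectedComponentIn_subset _ _ hzW, fun h => hsep ?_⟩, hzA⟩
    have h1 : W = connectedComponentIn Yᶜ (e (ι j)) :=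
      (connectedComponentIn_eq h).trans (connectedComponentIn_eq hzW).symm
    rw [h1]
    exact mem_connectedComponentIn (disjoint_left.1 hjY (heLp _))

/-- Main case of part (a). `Ent.exists_uc_compl` gives `Γ ⊆ (U₀ ∪ U₁)ᶜ ⊆ Iᶜ`. One of `U₀, U₁`
meets all `A_{R'}` (they are nonempty and decreasing), hence is `EBig`; the other is `EBig` or
`stepB` applies; conclude by `stepA`. -/
theorem IsTEF.mainA (hf : IsTEF f) {R : ℝ} (hR : Big f R) {U₀ U₁ : Set ℂ}
    (hs : Split (escaping f) U₀ U₁) (h₀ : (U₀ ∩ fastEsc f R).Nonempty)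
    (h₁ : (U₁ ∩ fastEsc f R).Nonempty) : ¬ Countable (ConnectedComponents (escaping f)) := by
  have he := hf.ent
  have hAI : fastEsc f R ⊆ escaping f := hR.fastEsc_subset_escaping hf.1
  obtain ⟨Γ, hΓ, hΓU⟩ : ∃ Γ, UC Γ ∧ Γ ⊆ (U₀ ∪ U₁)ᶜ := by
    obtain ⟨p₀, hp₀, hA₀⟩ := h₀
    obtain ⟨p₁, hp₁, hA₁⟩ := h₁
    obtain ⟨l₀, hl₀⟩ := mem_fastEsc_iff.1 hA₀
    obtain ⟨l₁, hl₁⟩ := mem_fastEsc_iff.1 hA₁
    exact he.exists_uc_compl hs.o₀ hs.o₁ hs.disj hp₀ hp₁ hl₀ hl₁
      (fun z hz => hs.cover (hAI (mem_fastEsc_iff.2 ⟨l₀, hz⟩)))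
      (fun z hz => hs.cover (hAI (mem_fastEsc_iff.2 ⟨l₁, hz⟩)))
  have hΓA : Disjoint Γ (fastEsc f R) :=
    disjoint_left.2 fun z hz hz' => hΓU hz (hs.cover (hAI hz'))
  have hΓA' : Disjoint Γ (levelSet f R) :=
    hΓA.mono_right fun z hz => mem_fastEsc_iff.2 ⟨0, hz⟩
  have key : ∀ {V₀ V₁ : Set ℂ}, Split (escaping f) V₀ V₁ → (V₁ ∩ fastEsc f R).Nonempty →
      ¬ EBig f R V₁ → ¬ Countable (ConnectedComponents (escaping f)) := by
    intro V₀ V₁ hV hne hn
    obtain ⟨w, hwV, hw⟩ := he.exists_good hR hV.symm hne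
    obtain ⟨W₀, W₁, hW, hW₀, hW₁⟩ := hf.stepB hR hV hΓ hΓA hwV hw hn
    exact hf.stepA hR hW (he.ebig_of_big hR hW hΓ hΓA' hW₀) (he.ebig_of_big hR hW.symm hΓ hΓA' hW₁)
  by_cases hb₁ : EBig f R U₁
  · by_cases hb₀ : EBig f R U₀
    · exact hf.stepA hR hs hb₀ hb₁
    · exact key hs.symm h₀ hb₀
  · exact key hs h₁ hb₁

end Pool.Agent.Lib.MP_dbd176_an
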