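import Pool.Agent.Lib.MP_dbd176_an.Base

open Set Metric Filter Topology

namespace Pool.Agent.Lib.MP_dbd176_an

theorem topo_mem_comp {X : Set ℂ} {x z : ℂ} (hz : z ∈ X)
    (hc : z ∈ closure (connectedComponentIn X x)) : z ∈ connectedComponentIn X x := by
  have hx : x ∈ X := connectedComponentIn_nonempty_iff.1 (closure_nonempty_iff.1 ⟨z, hc⟩)
  have h1 : IsPreconnected (insert z (connectedComponentIn X x)) :=
    isPreconnected_connectedComponentIn.subset_closure (subset_insert _ _)
      (insert_subset hc subset_closure)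
  exact h1.subset_connectedComponentIn (mem_insert_of_mem _ (mem_connectedComponentIn hx))
    (insert_subset hz (connectedComponentIn_subset X x)) (mem_insert _ _)

theorem topo_clopen {K N : Set ℂ} (hK : IsCompact K) {x : ℂ} (hx : x ∈ K) (hN : IsOpen N)
    (h : connectedComponentIn K x ⊆ N) :
    ∃ W, IsCompact W ∧ IsCompact (K \ W) ∧ connectedComponentIn K x ⊆ W ∧ W ⊆ N := by
  have : CompactSpace K := isCompact_iff_compactSpace.1 hK
  have hT : IsCompact ((Subtype.val : K → ℂ) ⁻¹' Nᶜ) :=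
    (hN.isClosed_compl.preimage continuous_subtype_val).isCompact
  obtain ⟨u, hu⟩ := hT.elim_finite_subfamily_closed
    (fun s : {s : Set K // IsClopen s ∧ (⟨x, hx⟩ : K) ∈ s} => (s : Set K))
    (fun s => s.2.1.1) (by
      rw [← connectedComponent_eq_iInter_isClopen, eq_empty_iff_forall_notMem]
      rintro z ⟨hz, hz'⟩
      refine hz (h ?_)
      rw [connectedComponentIn_eq_image hx]
      exact ⟨z, hz', rfl⟩)
  have hW : IsClopen (⋂ s ∈ u, (s : Set K)) := isClopen_biInter_finset fun s _ => s.2.1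
  refine ⟨Subtype.val '' (⋂ s ∈ u, (s : Set K)), hW.1.isCompact.image continuous_subtype_val,
    ?_, ?_, ?_⟩
  · have e : K \ Subtype.val '' (⋂ s ∈ u, (s : Set K)) =
        Subtype.val '' (⋂ s ∈ u, (s : Set K))ᶜ := by
      ext z
      constructor
      · rintro ⟨hz, hz'⟩
        exact ⟨⟨z, hz⟩, fun h => hz' ⟨_, h, rfl⟩, rfl⟩
      · rintro ⟨w, hw, rfl⟩
        refine ⟨w.2, ?_⟩
        rintro ⟨w', hw', e⟩
        exact hw (Subtype.ext e ▸ hw')
    rw [e]
    exact hW.compl.1.isCompact.image continuous_subtype_val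
  · rw [connectedComponentIn_eq_image hx]
    exact image_mono (hW.connectedComponent_subset (mem_iInter₂.2 fun s _ => s.2.2))
  · rintro _ ⟨z, hz, rfl⟩
    by_contra hzN
    have : z ∈ (Subtype.val : K → ℂ) ⁻¹' Nᶜ ∩ ⋂ s ∈ u, (s : Set K) := ⟨hzN, hz⟩
    rw [hu] at this
    exact this

/-- Components of a closed set are closed. -/
theorem isClosed_connectedComponentIn {X : Set ℂ} (hX : IsClosed X) (x : ℂ) :
    IsClosed (connectedComponentIn X x) := by
  refine isClosed_of_closure_subset fun z hz => topo_mem_comp ?_ hz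
  exact closure_minimal (connectedComponentIn_subset X x) hX hz

/-- Boundary bumping, general form. Let `P` be the component of `x` in `X \ S`, bounded, with
closure missing `S`. Proof: choose a bounded open `N' ⊆ N` containing the compact set `P`
(it is closed: its closure is connected and lies in `X \ S`) with `closure N'` missing `S`.
Then `P` is the component of `x` in the compact set `X' = X ∩ closure N'`. In the compact
Hausdorff space `X'` the component is the intersection of the clopen neighbourhoods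
(`connectedComponent_eq_iInter_isClopen`); by compactness some clopen `W` of `X'` has
`P ⊆ W ⊆ N'`. `W` and `X' \ W` are disjoint compact sets; let `V` be a small open thickening of
`W` whose closed thickening lies in `N'` and misses `X' \ W`. -/
theorem bump_diff {X S N : Set ℂ} (hX : IsClosed X) (hS : IsClosed S) {x : ℂ} (hx : x ∈ X \ S)
    (hb : Bornology.IsBounded (connectedComponentIn (X \ S) x))
    (hd : Disjoint (closure (connectedComponentIn (X \ S) x)) S)
    (hN : IsOpen N) (hPN : connectedComponentIn (X \ S) x ⊆ N) :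
    ∃ V, IsOpen V ∧ Bornology.IsBounded V ∧ connectedComponentIn (X \ S) x ⊆ V ∧ V ⊆ N ∧
      Disjoint (frontier V) X := by
  have hPX : connectedComponentIn (X \ S) x ⊆ X \ S := connectedComponentIn_subset _ _
  have hPc : IsClosed (connectedComponentIn (X \ S) x) := by
    refine isClosed_of_closure_subset fun z hz => topo_mem_comp ⟨?_, ?_⟩ hz
    · exact closure_minimal (hPX.trans sdiff_subset) hX hz
    · exact disjoint_left.1 hd hz
  have hPK : IsCompact (connectedComponentIn (X \ S) x) :=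
    Metric.isCompact_of_isClosed_isBounded hPc hb
  obtain ⟨N', hN'o, hPN', hN'c, hN'K⟩ := exists_open_between_and_isCompact_closure hPK
    (hN.inter hS.isOpen_compl) (subset_inter hPN fun z hz => (hPX hz).2)
  have hK : IsCompact (X ∩ closure N') := hN'K.inter_left hX
  have hKX : X ∩ closure N' ⊆ X \ S := fun z hz => ⟨hz.1, (hN'c hz.2).2⟩
  have hxP : x ∈ connectedComponentIn (X \ S) x := mem_connectedComponentIn hx
  have hxK : x ∈ X ∩ closure N' := ⟨hx.1, subset_closure (hPN' hxP)⟩
  have hPsub : connectedComponentIn (X \ S) x ⊆ connectedComponentIn (X ∩ closure N') x :=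
    isPreconnected_connectedComponentIn.subset_connectedComponentIn hxP
      fun z hz => ⟨(hPX hz).1, subset_closure (hPN' hz)⟩
  obtain ⟨W, hW, hW', hCW, hWN⟩ := topo_clopen hK hxK hN'o
    ((connectedComponentIn_mono x hKX).trans hPN')
  obtain ⟨V, hVo, hWV, hVc, hVK⟩ := exists_open_between_and_isCompact_closure hW
    (hN'o.inter hW'.isClosed.isOpen_compl) (subset_inter hWN fun z hz h => h.2 hz)
  refine ⟨V, hVo, hVK.isBounded.subset subset_closure, hPsub.trans (hCW.trans hWV),
    fun z hz => (hN'c (subset_closure (hVc (subset_closure hz)).1)).1, ?_⟩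
  rw [disjoint_left]
  intro z hz hzX
  rw [hVo.frontier_eq] at hz
  have h1 := hVc hz.1
  exact h1.2 ⟨⟨hzX, subset_closure h1.1⟩, fun hzW => hz.2 (hWV hzW)⟩

/-- Boundary bumping (case `S = ∅` of `bump_diff`). -/
theorem bump {X N : Set ℂ} (hX : IsClosed X) {x : ℂ} (hx : x ∈ X)
    (hb : Bornology.IsBounded (connectedComponentIn X x))
    (hN : IsOpen N) (hPN : connectedComponentIn X x ⊆ N) :
    ∃ V, IsOpen V ∧ Bornology.IsBounded V ∧ connectedComponentIn X x ⊆ V ∧ V ⊆ N ∧
      Disjoint (frontier V) X := by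
  have := bump_diff (S := ∅) (N := N) hX isClosed_empty (x := x) (by simpa using hx)
    (by simpa using hb) (disjoint_empty _) hN (by simpa using hPN)
  simpa using this

/-- Boundary bumping for a compact family of components: `bump` at each point of `K`, finite
subcover, the frontier of a finite union lies in the union of the frontiers. -/
theorem bump_compact {X K N : Set ℂ} (hX : IsClosed X) (hK : IsCompact K) (hKX : K ⊆ X)
    (hN : IsOpen N)
    (hb : ∀ x ∈ K, Bornology.IsBounded (connectedComponentIn X x) ∧ connectedComponentIn X x ⊆ N) :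
    ∃ V, IsOpen V ∧ Bornology.IsBounded V ∧ K ⊆ V ∧ V ⊆ N ∧ Disjoint (frontier V) X := by
  choose V hVo hVb hVs hVN hVf using fun (x : ℂ) (hx : x ∈ K) =>
    bump hX (hKX hx) (hb x hx).1 hN (hb x hx).2
  obtain ⟨t, ht⟩ := hK.elim_nhds_subcover' V fun x hx =>
    (hVo x hx).mem_nhds (hVs x hx (mem_connectedComponentIn (hKX hx)))
  have ho : IsOpen (⋃ x ∈ t, V x x.2) := isOpen_biUnion fun x _ => hVo x x.2
  refine ⟨⋃ x ∈ t, V x x.2, ho, (Bornology.isBounded_biUnion_finset t).2 fun x _ => hVb x x.2, ht,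
    iUnion₂_subset fun x _ => hVN x x.2, ?_⟩
  rw [disjoint_left]
  intro z hz hzX
  rw [ho.frontier_eq, Finset.closure_biUnion] at hz
  obtain ⟨x, hx, hzx⟩ := mem_iUnion₂.1 hz.1
  refine disjoint_left.1 (hVf x x.2) ?_ hzX
  rw [(hVo x x.2).frontier_eq]
  exact ⟨hzx, fun h => hz.2 (mem_iUnion₂.2 ⟨x, hx, h⟩)⟩

/-- A connected set that meets an open set `V` and misses its frontier lies in `V`. -/
theorem subset_of_disjoint_frontier {P V : Set ℂ} (hP : IsPreconnected P) (hV : IsOpen V)
    (hne : (P ∩ V).Nonempty) (hd : Disjoint (frontier V) P) : P ⊆ V := by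
  refine hP.subset_of_closure_inter_subset hV hne fun z hz => ?_
  by_contra h
  refine disjoint_left.1 hd ?_ hz.2
  rw [hV.frontier_eq]
  exact ⟨hz.1, h⟩

theorem uc_of_unbounded_comp {X : Set ℂ} (hX : IsClosed X) {x : ℂ}
    (hb : ¬ Bornology.IsBounded (connectedComponentIn X x)) : UC (connectedComponentIn X x) :=
  ⟨isClosed_connectedComponentIn hX x, isPreconnected_connectedComponentIn, hb⟩

/-- If all components of `L \ D` through `L ∩ frontier D` were bounded, `bump_compact` would give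
`V`, and the bounded open set `V ∪ D` would have frontier missing `L`. -/
theorem UC.exists_diff {L D : Set ℂ} (hL : UC L) (hD : IsOpen D) (hb : Bornology.IsBounded D)
    (hne : (L ∩ D).Nonempty) :
    ∃ x ∈ L ∩ frontier D, UC (connectedComponentIn (L \ D) x) := by
  by_contra hcon
  push Not at hcon
  have hLD : IsClosed (L \ D) := hL.closed.sdiff hD
  have hK : IsCompact (L ∩ frontier D) :=
    Metric.isCompact_of_isClosed_isBounded (hL.closed.inter isClosed_frontier)
      (hb.closure.subset fun z hz => frontier_subset_closure hz.2)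
  have hKX : L ∩ frontier D ⊆ L \ D := fun z hz => ⟨hz.1, by
    have := hz.2
    rw [hD.frontier_eq] at this
    exact this.2⟩
  obtain ⟨V, hVo, hVb, hKV, -, hVf⟩ := bump_compact hLD hK hKX isOpen_univ fun x hx =>
    ⟨by
      by_contra h
      exact hcon x hx (uc_of_unbounded_comp hLD h), subset_univ _⟩
  have ho : IsOpen (V ∪ D) := hVo.union hD
  refine hL.unb ((hVb.union hb).subset (subset_of_disjoint_frontier hL.conn ho
    (hne.mono (inter_subset_inter_right _ subset_union_right)) ?_))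
  rw [disjoint_left]
  intro z hz hzL
  rw [ho.frontier_eq, closure_union] at hz
  rcases hz.1 with h | h
  · refine disjoint_left.1 hVf ?_ ⟨hzL, fun h' => hz.2 (Or.inr h')⟩
    rw [hVo.frontier_eq]
    exact ⟨h, fun h' => hz.2 (Or.inl h')⟩
  · refine hz.2 (Or.inl (hKV ⟨hzL, ?_⟩))
    rw [hD.frontier_eq]
    exact ⟨h, fun h' => hz.2 (Or.inr h')⟩

/-- An unbounded connected set meets every circle around `c` of radius at least `dist x c`. -/
theorem exists_mem_sphere {Z : Set ℂ} (hZ : IsPreconnected Z) (hu : ¬ Bornology.IsBounded Z)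
    {x c : ℂ} (hx : x ∈ Z) {τ : ℝ} (hτ : ‖x - c‖ ≤ τ) : ∃ z ∈ Z, ‖z - c‖ = τ := by
  obtain ⟨y, hy, hyτ⟩ : ∃ y ∈ Z, τ ≤ ‖y - c‖ := by
    by_contra h
    push Not at h
    refine hu ((isBounded_ball (x := c) (r := τ)).subset fun y hy => ?_)
    rw [mem_ball, dist_eq_norm]
    exact h y hy
  obtain ⟨z, hz, hzτ⟩ := hZ.intermediate_value hx hy
    (f := fun z => ‖z - c‖) (by fun_prop) ⟨hτ, hyτ⟩
  exact ⟨z, hz, hzτ⟩

theorem UC.meets_sphere {Z : Set ℂ} (hZ : UC Z) {x c : ℂ} (hx : x ∈ Z) {τ : ℝ}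
    (hτ : ‖x - c‖ ≤ τ) : ∃ z ∈ Z, ‖z - c‖ = τ :=
  exists_mem_sphere hZ.conn hZ.unb hx hτ

theorem UC.nonempty {Z : Set ℂ} (hZ : UC Z) : Z.Nonempty := by
  rcases eq_empty_or_nonempty Z with rfl | h
  · exact absurd Bornology.isBounded_empty hZ.unb
  · exact h

theorem UC.union {Z P : Set ℂ} (hZ : UC Z) (hP : IsClosed P) (hPc : IsPreconnected P)
    (hne : (Z ∩ P).Nonempty) : UC (Z ∪ P) := by
  obtain ⟨x, hx, hx'⟩ := hne
  exact ⟨hZ.closed.union hP, hZ.conn.union x hx hx' hPc,
    fun h => hZ.unb (h.subset subset_union_left)⟩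

/-- A closed ray to infinity. -/
theorem uc_ray (a v : ℂ) (hv : v ≠ 0) : UC {z | ∃ t : ℝ, 0 ≤ t ∧ z = a + t * v} := by
  refine ⟨?_, ?_, ?_⟩
  · have e : {z : ℂ | ∃ t : ℝ, 0 ≤ t ∧ z = a + t * v} =
        {z : ℂ | ((z - a) / v).im = 0} ∩ {z : ℂ | 0 ≤ ((z - a) / v).re} := by
      ext z
      constructor
      · rintro ⟨t, ht, rfl⟩
        have : (a + t * v - a) / v = t := by field_simp; ring
        simp only [mem_inter_iff, mem_ofPred_eq, this, Complex.ofReal_im, Complex.ofReal_re]
        exact ⟨trivial, ht⟩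
      · rintro ⟨h1, h2⟩
        refine ⟨((z - a) / v).re, h2, ?_⟩
        have : ((((z - a) / v).re : ℝ) : ℂ) = (z - a) / v :=
          Complex.ext (by simp) (by simpa using h1.symm)
        rw [this]; field_simp; ring
    rw [e]
    exact (isClosed_eq (by fun_prop) continuous_const).inter
      (isClosed_le continuous_const (by fun_prop))
  · have e : {z : ℂ | ∃ t : ℝ, 0 ≤ t ∧ z = a + t * v} =
        (fun t : ℝ => a + t * v) '' Ici 0 := by
      ext z
      constructor
      · rintro ⟨t, ht, rfl⟩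
        exact ⟨t, ht, rfl⟩
      · rintro ⟨t, ht, rfl⟩
        exact ⟨t, ht, rfl⟩
    rw [e]
    exact isPreconnected_Ici.image _ (by fun_prop)
  · intro hb
    obtain ⟨C, hC⟩ := hb.exists_norm_le
    have hv' : 0 < ‖v‖ := norm_pos_iff.2 hv
    have hC0 : 0 ≤ C := (norm_nonneg a).trans (hC a ⟨0, le_rfl, by simp⟩)
    have ht : 0 ≤ (C + ‖a‖ + 1) / ‖v‖ := by positivity
    have h1 := hC _ ⟨_, ht, rfl⟩
    have h2 : ‖(((C + ‖a‖ + 1) / ‖v‖ : ℝ) : ℂ) * v‖ = C + ‖a‖ + 1 := by
      rw [norm_mul, Complex.norm_real, Real.norm_of_nonneg ht]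
      field_simp
    have h3 := norm_sub_le (a + (((C + ‖a‖ + 1) / ‖v‖ : ℝ) : ℂ) * v) a
    rw [add_sub_cancel_left, h2] at h3
    linarith

theorem Out_anti {K K' : Set ℂ} (h : K ⊆ K') : Out K' ⊆ Out K := by
  rintro z ⟨Z, hZ, hz, hd⟩
  exact ⟨Z, hZ, hz, hd.mono_right h⟩

theorem UC.subset_Out {Z K : Set ℂ} (hZ : UC Z) (hd : Disjoint Z K) : Z ⊆ Out K :=
  fun _ hz => ⟨Z, hZ, hz, hd⟩

theorem notMem_of_mem_Out {K : Set ℂ} {z : ℂ} (hz : z ∈ Out K) : z ∉ K := by
  obtain ⟨Z, -, hz, hd⟩ := hz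
  exact disjoint_left.1 hd hz

theorem topo_ball {K : Set ℂ} {y : ℂ} {δ : ℝ} (hb : closedBall y δ ⊆ Kᶜ)
    (hne : (closedBall y δ ∩ Out K).Nonempty) : closedBall y δ ⊆ Out K := by
  obtain ⟨w, hw, Z, hZ, hwZ, hd⟩ := hne
  intro z hz
  exact ⟨Z ∪ closedBall y δ, hZ.union isClosed_closedBall (convex_closedBall y δ).isPreconnected
    ⟨w, hwZ, hw⟩, Or.inr hz, disjoint_union_left.2 ⟨hd, disjoint_left.2 fun a ha => hb ha⟩⟩

/-- For closed `K` the set `Out K` is open: add a segment in a small disc. -/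
theorem isOpen_Out {K : Set ℂ} (hK : IsClosed K) : IsOpen (Out K) := by
  rw [isOpen_iff_mem_nhds]
  intro z hz
  obtain ⟨δ, hδ, hb⟩ := nhds_basis_closedBall.mem_iff.1
    (hK.isOpen_compl.mem_nhds (notMem_of_mem_Out hz))
  exact mem_of_superset (closedBall_mem_nhds z hδ)
    (topo_ball hb ⟨z, mem_closedBall_self hδ.le, hz⟩)

/-- For closed `K`, a connected set missing `K` and meeting `closure (Out K)` lies in `Out K`:
`Out K` is open, and relatively closed in `Kᶜ` (add a segment in a small disc). -/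
theorem subset_Out {K P : Set ℂ} (hK : IsClosed K) (hP : IsPreconnected P) (hd : Disjoint P K)
    (hne : (P ∩ closure (Out K)).Nonempty) : P ⊆ Out K := by
  have key : closure (Out K) ∩ P ⊆ Out K := by
    intro z hz
    obtain ⟨δ, hδ, hb⟩ := nhds_basis_closedBall.mem_iff.1
      (hK.isOpen_compl.mem_nhds (disjoint_left.1 hd hz.2))
    exact topo_ball hb (mem_closure_iff_nhds.1 hz.1 _ (closedBall_mem_nhds z hδ))
      (mem_closedBall_self hδ.le)
  obtain ⟨z, hz, hz'⟩ := hne
  exact hP.subset_of_closure_inter_subset (isOpen_Out hK) ⟨z, hz, key ⟨hz', hz⟩⟩ key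

theorem mem_Out_of_mem_closure {K : Set ℂ} (hK : IsClosed K) {z : ℂ} (hz : z ∉ K)
    (hc : z ∈ closure (Out K)) : z ∈ Out K :=
  subset_Out hK isPreconnected_singleton (disjoint_singleton_left.2 hz) ⟨z, rfl, hc⟩ rfl

/-- First exit from a closed set along a continuum. If the component `C` of `x` in `S ∩ X` missed
`frontier X` it would lie in `interior X`; `bump` gives `V` with `C ⊆ V ⊆ interior X` and
`frontier V` missing `S ∩ X`, hence missing `S` (as `closure V ⊆ X`), so `S ⊆ V ⊆ X`. -/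
theorem exists_exit {X S : Set ℂ} (hX : IsClosed X) (hS : IsCompact S) (hSc : IsPreconnected S)
    {x : ℂ} (hx : x ∈ S ∩ X) (hSX : ¬ S ⊆ X) :
    ∃ w ∈ connectedComponentIn (S ∩ X) x, w ∈ frontier X := by
  by_contra hcon
  push Not at hcon
  have hsub := connectedComponentIn_subset (S ∩ X) x
  obtain ⟨V, hVo, -, hCV, hVN, hVf⟩ := bump (hS.isClosed.inter hX) hx
    (hS.isBounded.subset (hsub.trans inter_subset_left)) (isOpen_interior (s := X))
    fun w hw => by
      by_contra h
      exact hcon w hw ⟨subset_closure (hsub hw).2, h⟩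
  have hVX : V ⊆ X := hVN.trans interior_subset
  refine hSX ((subset_of_disjoint_frontier hSc hVo
    ⟨x, hx.1, hCV (mem_connectedComponentIn hx)⟩ ?_).trans hVX)
  rw [disjoint_left]
  intro z hz hzS
  exact disjoint_left.1 hVf hz ⟨hzS, closure_minimal hVX hX (frontier_subset_closure hz)⟩

/-- A disconnected subset of the plane is covered by two disjoint open sets meeting it
(metric spaces are completely normal). -/
theorem exists_split {X : Set ℂ} (hX : ¬ IsPreconnected X) :
    ∃ U₀ U₁, Split X U₀ U₁ ∧ (X ∩ U₀).Nonempty ∧ (X ∩ U₁).Nonempty := by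
  unfold IsPreconnected at hX
  push Not at hX
  obtain ⟨u, v, hu, hv, hc, hu', hv', huv⟩ := hX
  have aux : ∀ a b : Set ℂ, IsOpen b → X ∩ (a ∩ b) = ∅ → Disjoint (closure (X ∩ a)) (X ∩ b) := by
    intro a b hb hab
    rw [disjoint_left]
    intro z hz hzb
    obtain ⟨w, hw, hw'⟩ := mem_closure_iff_nhds.1 hz _ (hb.mem_nhds hzb.2)
    have : w ∈ X ∩ (a ∩ b) := ⟨hw'.1, hw'.2, hw⟩
    rw [hab] at this
    exact this
  obtain ⟨U₀, U₁, h₀, h₁, hs₀, hs₁, hd⟩ := separatedNhds_iff_disjoint.2
    (completely_normal (aux u v hv huv) (aux v u hu (by rw [inter_comm v u]; exact huv)).symm)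
  refine ⟨U₀, U₁, ⟨h₀, h₁, hd, fun z hz => ?_⟩, hu'.mono (subset_inter inter_subset_left hs₀),
    hv'.mono (subset_inter inter_subset_left hs₁)⟩
  rcases hc hz with h | h
  · exact Or.inl (hs₀ ⟨hz, h⟩)
  · exact Or.inr (hs₁ ⟨hz, h⟩)

/-- Countably many components, in terms of a countable set of base points. -/
theorem countable_components_iff {X : Set ℂ} :
    Countable (ConnectedComponents X) ↔
      ∃ B : Set ℂ, B.Countable ∧ B ⊆ X ∧ ∀ z ∈ X, ∃ b ∈ B, z ∈ connectedComponentIn X b := by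
  constructor
  · intro hc
    choose rep hrep using ConnectedComponents.surjective_coe (α := X)
    refine ⟨range fun c => (rep c : ℂ), countable_range _, ?_, fun z hz => ?_⟩
    · rintro _ ⟨c, rfl⟩
      exact (rep c).2
    · refine ⟨_, ⟨ConnectedComponents.mk (⟨z, hz⟩ : X), rfl⟩, ?_⟩
      rw [connectedComponentIn_eq_image (rep _).2]
      refine ⟨⟨z, hz⟩, ?_, rfl⟩
      exact ConnectedComponents.coe_eq_coe'.1 (hrep _).symm
  · rintro ⟨B, hB, hBX, h⟩
    have : Countable B := hB.to_subtype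
    refine Function.Surjective.countable
      (f := fun b : B => ConnectedComponents.mk (⟨b.1, hBX b.2⟩ : X)) fun c => ?_
    obtain ⟨z, rfl⟩ := ConnectedComponents.surjective_coe c
    obtain ⟨b, hb, hz⟩ := h z z.2
    refine ⟨⟨b, hb⟩, ?_⟩
    rw [connectedComponentIn_eq_image (hBX hb)] at hz
    obtain ⟨w, hw, hwz⟩ := hz
    obtain rfl : w = z := Subtype.ext hwz
    exact (ConnectedComponents.coe_eq_coe'.2 hw).symm

/-- The frontier of a component of an open set misses the open set. -/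
theorem disjoint_frontier_comp {O : Set ℂ} (hO : IsOpen O) (x : ℂ) :
    Disjoint (frontier (connectedComponentIn O x)) O := by
  rw [disjoint_left]
  intro z hz hzO
  rw [hO.connectedComponentIn.frontier_eq] at hz
  exact hz.2 (topo_mem_comp hzO hz.1)

/-- A point of `X` in the closure of a component of `X` belongs to it. -/
theorem mem_comp_of_mem_closure {X : Set ℂ} {x z : ℂ} (hz : z ∈ X)
    (hc : z ∈ closure (connectedComponentIn X x)) : z ∈ connectedComponentIn X x := by
  exact topo_mem_comp hz hc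

/-- In a connected open set any two points lie in a compact connected subset, parametrised by
a path on `[0, 1]`. -/
theorem exists_path_of_isOpen {O : Set ℂ} (hO : IsOpen O) (hc : IsPreconnected O) {x y : ℂ}
    (hx : x ∈ O) (hy : y ∈ O) :
    ∃ p : ℝ → ℂ, Continuous p ∧ p 0 = x ∧ p 1 = y ∧ ∀ t, p t ∈ O := by
  have hp : IsPathConnected O := hO.isConnected_iff_isPathConnected.1 ⟨⟨x, hx⟩, hc⟩
  obtain ⟨γ, hγ⟩ := hp.joinedIn x hx y hy
  refine ⟨γ.extend, γ.continuous_extend, γ.extend_zero, γ.extend_one, fun t => ?_⟩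
  have : γ.extend t ∈ range γ := by
    rw [← γ.extend_range]
    exact mem_range_self t
  obtain ⟨s, hs⟩ := this
  rw [← hs]
  exact hγ s

/-- Last exit of a path from a closed set `F`, followed by an unbounded continuum missing `F`:
at the last time `v` with `p v ∈ F`, the point `p v` is a limit of points `p (v + ε)` and
`p '' [v + ε, 1] ∪ Z` is an unbounded continuum missing `F ∪ A`. -/
theorem exists_last_exit {F A Z : Set ℂ} (hF : IsClosed F) (hZ : UC Z) (hZd : Disjoint Z (F ∪ A))
    {p : ℝ → ℂ} (hp : Continuous p) (h0 : p 0 ∈ F) (h1 : p 1 ∈ Z) (hA : ∀ t, p t ∉ A) :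
    ∃ q ∈ F, q ∉ A ∧ q ∈ closure (Out (F ∪ A)) := by
  have hT : IsCompact (Icc (0 : ℝ) 1 ∩ p ⁻¹' F) := isCompact_Icc.inter_right (hF.preimage hp)
  obtain ⟨v, hv, hmax⟩ := hT.exists_isGreatest ⟨0, ⟨le_rfl, zero_le_one⟩, h0⟩
  have hv1 : v < 1 := by
    refine lt_of_le_of_ne hv.1.2 fun e => ?_
    have := hv.2
    rw [e] at this
    exact disjoint_left.1 hZd h1 (Or.inl this)
  refine ⟨p v, hv.2, hA v, ?_⟩
  have hcl : v ∈ closure (Ioc v 1) := by
    rw [closure_Ioc hv1.ne]
    exact ⟨le_rfl, hv1.le⟩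
  refine map_mem_closure hp hcl fun t ht => ?_
  refine ⟨Z ∪ p '' Icc t 1, hZ.union (isCompact_Icc.image hp).isClosed
    (isPreconnected_Icc.image _ hp.continuousOn) ⟨p 1, h1, 1, ⟨ht.2, le_rfl⟩, rfl⟩,
    Or.inr ⟨t, ⟨le_rfl, ht.2⟩, rfl⟩, disjoint_union_left.2 ⟨hZd, ?_⟩⟩
  rw [disjoint_left]
  rintro _ ⟨s, hs, rfl⟩ (h | h)
  · have h2 : v < s := ht.1.trans_le hs.1
    exact absurd (hmax ⟨⟨hv.1.1.trans h2.le, hs.2⟩, h⟩) (not_le.2 h2)
  · exact hA s h

end Pool.Agent.Lib.MP_dbd176_an
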